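import Mathlib

/-!
# The sparsification lemma: definitions
-/

set_option autoImplicit false

namespace H40.SP

/-- A CNF formula over the set `V` of variables: a finite set of clauses, each clause being a finite
set of literals `(v, b)` (the variable `v` for `b = true`, its negation for `b = false`). -/
abbrev Fml (V : Type) : Type := Finset (Finset (V × Bool))

/-- The assignment `a` satisfies `F`. -/
def Sat {V : Type} (F : Fml V) (a : V → Bool) : Prop := ∀ C ∈ F, ∃ l ∈ C, a l.1 = l.2

/-- All clauses of `F` have at most `w` literals. -/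
def Width {V : Type} (w : ℕ) (F : Fml V) : Prop := ∀ C ∈ F, C.card ≤ w

/-- `F` is an OR of at most `m` CNFs of width at most `w`, each of them with at most `L` clauses. -/
def Sparse {V : Type} (F : Fml V) (w : ℕ) (m L : ℝ) : Prop :=
  ∃ 𝒢 : Finset (Fml V), (𝒢.card : ℝ) ≤ m ∧ (∀ G ∈ 𝒢, Width w G ∧ (G.card : ℝ) ≤ L) ∧
    ∀ a : V → Bool, Sat F a ↔ ∃ G ∈ 𝒢, Sat G a

end H40.SP
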