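import Pool.Agent.H40.OS.Base

/-!
# The lower bound
-/

set_option autoImplicit false

/-!
### The hard formulas and their almost violated assignments (states)
-/

namespace H40.SP


/-- States of a block: a part `j < k` and a transversal `u`, which picks one of the `b` variables in
each of the `k` parts. -/
abbrev Blk (k b : ℕ) : Type := Fin k × (Fin k → Fin b)

/-- States: a state for each of the `B` blocks. -/
abbrev St (B k b : ℕ) : Type := Fin B → Blk k b

variable {V : Type} {B k b : ℕ}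

/-- The clause which forbids the transversal `u` of block `t`. -/
def hcl [DecidableEq V] (x : Fin B → Fin k → Fin b → V) (t : Fin B) (u : Fin k → Fin b) :
    Finset (V × Bool) :=
  Finset.univ.image (fun q => (x t q (u q), false))

/-- The hard formula: no block contains a transversal all of whose variables are true. -/
def hard [DecidableEq V] (x : Fin B → Fin k → Fin b → V) : Fml V :=
  Finset.univ.image (fun p : Fin B × (Fin k → Fin b) => hcl x p.1 p.2)

/-- The variables are different. -/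
def Inj (x : Fin B → Fin k → Fin b → V) : Prop :=
  ∀ t q i t' q' i', x t q i = x t' q' i' → t = t' ∧ q = q' ∧ i = i'

open Classical in
/-- The assignment of a state: in block `t`, with state `(j, u)`, the true variables are `u q` in
the parts `q ≠ j`; all other variables are false. -/
noncomputable def asg (x : Fin B → Fin k → Fin b → V) (σ : St B k b) (v : V) : Bool :=
  decide (∃ t q, q ≠ (σ t).1 ∧ v = x t q ((σ t).2 q))

/-- The missing variable of block `t`. -/
def mis (x : Fin B → Fin k → Fin b → V) (σ : St B k b) (t : Fin B) : V := x t (σ t).1 ((σ t).2 (σ t).1)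

open Classical in
/-- The assignment of a state after making the missing variable of block `t` true. -/
noncomputable def flip (x : Fin B → Fin k → Fin b → V) (σ : St B k b) (t : Fin B) : V → Bool :=
  Function.update (asg x σ) (mis x σ t) true

/-- The clause `C` is violated by `a`. -/
def Viol (C : Finset (V × Bool)) (a : V → Bool) : Prop := ∀ l ∈ C, a l.1 ≠ l.2

/-- The clause `C` touches block `t`. -/
def Touch (x : Fin B → Fin k → Fin b → V) (C : Finset (V × Bool)) (t : Fin B) : Prop :=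
  ∃ l ∈ C, ∃ q i, l.1 = x t q i

/-- Block `t` is honest: some clause violated after the flip contains all the negated variables of the
transversal. -/
def Honest (x : Fin B → Fin k → Fin b → V) (G : Fml V) (σ : St B k b) (t : Fin B) : Prop :=
  ∃ C ∈ G, Viol C (flip x σ t) ∧ ∀ q, (x t q ((σ t).2 q), false) ∈ C

open Classical in
/-- The states whose assignment satisfies `G`. -/
noncomputable def good (x : Fin B → Fin k → Fin b → V) (G : Fml V) : Finset (St B k b) :=
  Finset.univ.filter (fun σ => Sat G (asg x σ))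

open Classical in
/-- The states `ω` of block `t` such that all clauses of `G` which touch no block of `T` other than
`t` are satisfied when block `t` is replaced by `ω`. -/
noncomputable def loc (x : Fin B → Fin k → Fin b → V) (G : Fml V) (T : Finset (Fin B))
    (σ : St B k b) (t : Fin B) : Finset (Blk k b) :=
  Finset.univ.filter (fun ω => ∀ C ∈ G, (∀ s ∈ T, s ≠ t → ¬ Touch x C s) →
    ∃ l ∈ C, asg x (Function.update σ t ω) l.1 = l.2)

/-- For a set `S` of states of a block: the number of neighbours of `ω` outside `S`. -/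
def nb (S : Finset (Blk k b)) (ω : Blk k b) : ℕ :=
  (Finset.univ.filter (fun p : Fin k => p ≠ ω.1 ∧ (p, ω.2) ∉ S)).card

/-- The transversals which are served by a clause of `G`. -/
def Srv (x : Fin B → Fin k → Fin b → V) (C : Finset (V × Bool)) (t : Fin B) (u : Fin k → Fin b) :
    Prop :=
  (∀ q, (x t q (u q), false) ∈ C) ∧ (∀ q i, (x t q i, false) ∈ C → i = u q) ∧
    ∀ s, s ≠ t → ∃ q, ∀ i, (x s q i, false) ∉ C

open Classical in
/-- The set `P` of the pairs `(t, u)` served by some clause of `G`. -/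
noncomputable def srv (x : Fin B → Fin k → Fin b → V) (G : Fml V) :
    Finset (Fin B × (Fin k → Fin b)) :=
  Finset.univ.filter (fun p => ∃ C ∈ G, Srv x C p.1 p.2)

end H40.SP

/-! ### La -/

namespace H40.SP

variable {V : Type} {B k b : ℕ} {x : Fin B → Fin k → Fin b → V}

theorem asg_var (hx : Inj x) (σ : St B k b) (t : Fin B) (q : Fin k) (i : Fin b) :
    asg x σ (x t q i) = true ↔ q ≠ (σ t).1 ∧ i = (σ t).2 q := by
  classical
  unfold asg
  rw [decide_eq_true_iff]
  constructor
  · rintro ⟨t', q', hq, he⟩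
    obtain ⟨rfl, rfl, rfl⟩ := hx _ _ _ _ _ _ he
    exact ⟨hq, rfl⟩
  · rintro ⟨hq, hi⟩
    exact ⟨t, q, hq, by rw [hi]⟩

theorem asg_eq_false (hx : Inj x) (σ : St B k b) (t : Fin B) (i : Fin b) :
    asg x σ (x t (σ t).1 i) = false := by
  rw [← Bool.not_eq_true, asg_var hx]
  rintro ⟨h, _⟩
  exact h rfl

theorem flip_var (hx : Inj x) (σ : St B k b) (t s : Fin B) (q : Fin k) (i : Fin b) :
    flip x σ t (x s q i) = true ↔
      (q ≠ (σ s).1 ∧ i = (σ s).2 q) ∨ (s = t ∧ q = (σ t).1 ∧ i = (σ t).2 (σ t).1) := by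
  classical
  unfold flip
  by_cases h : x s q i = mis x σ t
  · have h1 := hx _ _ _ _ _ _ h
    rw [h, Function.update_self]
    simp only [true_iff]
    exact Or.inr h1
  · rw [Function.update_of_ne h, asg_var hx]
    constructor
    · intro h1
      exact Or.inl h1
    · rintro (h1 | ⟨rfl, rfl, rfl⟩)
      · exact h1
      · exact absurd rfl h

theorem asg_congr (σ σ' : St B k b) (v : V) (h : ∀ t q i, v = x t q i → σ t = σ' t) :
    asg x σ v = asg x σ' v := by
  classical
  unfold asg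
  rw [decide_eq_decide]
  constructor
  · rintro ⟨t, q, hq, he⟩
    have h1 := h t q _ he
    exact ⟨t, q, by rw [← h1]; exact hq, by rw [← h1]; exact he⟩
  · rintro ⟨t, q, hq, he⟩
    have h1 := h t q _ he
    exact ⟨t, q, by rw [h1]; exact hq, by rw [h1]; exact he⟩

end H40.SP

/-! ### Lb -/

/-!
Row Lb.
-/



namespace H40.SP

variable {V : Type} [DecidableEq V] {B k b : ℕ} {x : Fin B → Fin k → Fin b → V}

theorem width_hard (x : Fin B → Fin k → Fin b → V) : Width k (hard x) := by
  intro C hC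
  obtain ⟨p, -, rfl⟩ := Finset.mem_image.mp hC
  exact (Finset.card_image_le).trans (by rw [Finset.card_univ, Fintype.card_fin])

theorem sat_hard (hx : Inj x) (σ : St B k b) : Sat (hard x) (asg x σ) := by
  intro C hC
  obtain ⟨p, -, rfl⟩ := Finset.mem_image.mp hC
  refine ⟨(x p.1 (σ p.1).1 (p.2 (σ p.1).1), false), ?_, ?_⟩
  · exact Finset.mem_image.mpr ⟨(σ p.1).1, Finset.mem_univ _, rfl⟩
  · exact asg_eq_false hx σ p.1 _

theorem not_sat_flip (hx : Inj x) (σ : St B k b) (t : Fin B) : ¬ Sat (hard x) (flip x σ t) := by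
  intro hs
  obtain ⟨l, hl, hlv⟩ := hs (hcl x t (σ t).2)
    (Finset.mem_image.mpr ⟨(t, (σ t).2), Finset.mem_univ _, rfl⟩)
  obtain ⟨q, -, rfl⟩ := Finset.mem_image.mp hl
  have h1 : flip x σ t (x t q ((σ t).2 q)) = true := by
    rw [flip_var hx]
    by_cases h : q = (σ t).1
    · right
      exact ⟨rfl, h, by rw [h]⟩
    · left
      exact ⟨h, rfl⟩
  have h2 : flip x σ t (x t q ((σ t).2 q)) = false := hlv
  rw [h1] at h2
  exact absurd h2 (by simp)

end H40.SP

/-! ### Lc -/

namespace H40.SP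

variable {V : Type} [DecidableEq V] {B k b : ℕ} {x : Fin B → Fin k → Fin b → V} {G : Fml V}

theorem exists_crit (hx : Inj x) (hG : ∀ a, Sat G a → Sat (hard x) a) (σ : St B k b) (t : Fin B) :
    ∃ C ∈ G, Viol C (flip x σ t) := by
  have h1 : ¬ Sat G (flip x σ t) := fun h => not_sat_flip hx σ t (hG _ h)
  unfold Sat at h1
  push Not at h1
  obtain ⟨C, hC, h2⟩ := h1
  exact ⟨C, hC, fun l hl => h2 l hl⟩

theorem crit_mem {σ : St B k b} (hσ : σ ∈ good x G) {t : Fin B} {C : Finset (V × Bool)}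
    (hC : C ∈ G) (hv : Viol C (flip x σ t)) : (mis x σ t, false) ∈ C := by
  classical
  have hs : Sat G (asg x σ) := by
    unfold good at hσ
    exact (Finset.mem_filter.1 hσ).2
  obtain ⟨l, hl, hl2⟩ := hs C hC
  have h1 := hv l hl
  have hm : l.1 = mis x σ t := by
    by_contra hne
    apply h1
    have h5 : flip x σ t l.1 = asg x σ l.1 := by
      unfold flip
      exact @Function.update_of_ne _ _ (fun a b => Classical.propDecidable (a = b)) _ _ hne _ _
    rw [h5, hl2]
  have h2 : flip x σ t l.1 = true := by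
    unfold flip
    rw [hm]
    exact @Function.update_self _ _ (fun a b => Classical.propDecidable (a = b)) _ _ _
  rw [h2] at h1
  have h3 : l.2 = false := by
    cases h : l.2
    · rfl
    · exact absurd h.symm h1
  have h4 : l = (mis x σ t, false) := Prod.ext hm h3
  rw [← h4]
  exact hl

end H40.SP

/-! ### Ld -/

namespace H40.SP

variable {V : Type} {B k b : ℕ} {x : Fin B → Fin k → Fin b → V}

theorem viol_neighbour (hx : Inj x) {C : Finset (V × Bool)} {σ : St B k b} {t : Fin B} {p : Fin k}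
    (hv : Viol C (flip x σ t)) (hp : (x t p ((σ t).2 p), false) ∉ C) (hpj : p ≠ (σ t).1) :
    Viol C (asg x (Function.update σ t (p, (σ t).2))) := by
  classical
  intro l hl
  have hv1 := hv l hl
  by_cases h0 : l.1 = x t p ((σ t).2 p)
  · exfalso
    have hl2 : l.2 = true := by
      rcases h : l.2 with _ | _
      · exfalso
        apply hp
        rw [← h0, ← h]
        exact hl
      · rfl
    apply hv1
    rw [hl2, h0]
    exact (flip_var hx σ t t p ((σ t).2 p)).2 (Or.inl ⟨hpj, rfl⟩)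
  · have heq : asg x (Function.update σ t (p, (σ t).2)) l.1 = flip x σ t l.1 := by
      rw [Bool.eq_iff_iff]
      have e1 : asg x (Function.update σ t (p, (σ t).2)) l.1 = true ↔
          ∃ s q, q ≠ (Function.update σ t (p, (σ t).2) s).1 ∧
            l.1 = x s q ((Function.update σ t (p, (σ t).2) s).2 q) := by
        unfold asg
        exact decide_eq_true_iff
      have e2 : asg x σ l.1 = true ↔ ∃ s q, q ≠ (σ s).1 ∧ l.1 = x s q ((σ s).2 q) := by
        unfold asg
        exact decide_eq_true_iff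
      have e3 : flip x σ t l.1 = true ↔ l.1 = mis x σ t ∨ asg x σ l.1 = true := by
        unfold flip
        by_cases hm : l.1 = mis x σ t
        · rw [hm, Function.update_self]
          exact ⟨fun _ => Or.inl rfl, fun _ => rfl⟩
        · rw [Function.update_of_ne hm]
          exact ⟨fun h => Or.inr h, fun h => h.resolve_left hm⟩
      rw [e1, e3, e2]
      constructor
      · rintro ⟨s, q, h1, h2⟩
        by_cases hs : s = t
        · subst hs
          rw [Function.update_self] at h1 h2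
          by_cases hq : q = (σ s).1
          · left
            rw [h2, hq]
            rfl
          · right
            exact ⟨s, q, hq, h2⟩
        · rw [Function.update_of_ne hs] at h1 h2
          exact Or.inr ⟨s, q, h1, h2⟩
      · rintro (h1 | ⟨s, q, h1, h2⟩)
        · refine ⟨t, (σ t).1, ?_, ?_⟩
          · rw [Function.update_self]
            exact fun h => hpj h.symm
          · rw [Function.update_self]
            exact h1
        · by_cases hs : s = t
          · subst hs
            refine ⟨s, q, ?_, ?_⟩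
            · rw [Function.update_self]
              intro hq
              have hq' : q = p := hq
              apply h0
              rw [h2, hq']
            · rw [Function.update_self]
              exact h2
          · refine ⟨s, q, ?_, ?_⟩
            · rw [Function.update_of_ne hs]
              exact h1
            · rw [Function.update_of_ne hs]
              exact h2
    rw [heq]
    exact hv1

end H40.SP

/-! ### Le -/

namespace H40.SP

variable {V : Type} {B k b : ℕ} {x : Fin B → Fin k → Fin b → V} {G : Fml V}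

theorem mem_loc {σ : St B k b} (hσ : σ ∈ good x G) (T : Finset (Fin B)) (t : Fin B) :
    σ t ∈ loc x G T σ t := by
  classical
  have h1 : Sat G (asg x σ) := (Finset.mem_filter.1 hσ).2
  unfold loc
  rw [Finset.mem_filter]
  refine ⟨Finset.mem_univ _, fun C hC _ => ?_⟩
  rw [Function.update_eq_self]
  exact h1 C hC

theorem loc_update (T : Finset (Fin B)) {s t : Fin B} (hs : s ∈ T) (hst : s ≠ t) (ω : Blk k b)
    (σ : St B k b) : loc x G T (Function.update σ s ω) t = loc x G T σ t := by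
  classical
  unfold loc
  apply Finset.filter_congr
  intro ω' _
  have key : ∀ C : Finset (V × Bool), (∀ r ∈ T, r ≠ t → ¬ Touch x C r) → ∀ l ∈ C,
      asg x (Function.update (Function.update σ s ω) t ω') l.1 = asg x (Function.update σ t ω') l.1 := by
    intro C hC l hl
    apply asg_congr
    intro t' q i hv
    by_cases h1 : t' = t
    · subst h1
      rw [Function.update_self, Function.update_self]
    · rw [Function.update_of_ne h1, Function.update_of_ne h1]
      have h2 : t' ≠ s := by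
        rintro rfl
        exact hC t' hs hst ⟨l, hl, q, i, hv⟩
      rw [Function.update_of_ne h2]
  constructor
  · intro h C hC hT
    obtain ⟨l, hl, he⟩ := h C hC hT
    exact ⟨l, hl, by rw [← key C hT l hl]; exact he⟩
  · intro h C hC hT
    obtain ⟨l, hl, he⟩ := h C hC hT
    exact ⟨l, hl, by rw [key C hT l hl]; exact he⟩

theorem loc_update_self (T : Finset (Fin B)) (t : Fin B) (ω : Blk k b) (σ : St B k b) :
    loc x G T (Function.update σ t ω) t = loc x G T σ t := by
  classical
  unfold loc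
  simp only [Function.update_idem]

open Classical in
theorem card_touch_le (hx : Inj x) (C : Finset (V × Bool)) :
    (Finset.univ.filter (fun t : Fin B => Touch x C t)).card ≤ C.card := by
  have h1 : Finset.univ.filter (fun t : Fin B => Touch x C t) ⊆
      C.biUnion (fun l => Finset.univ.filter (fun t : Fin B => ∃ q i, l.1 = x t q i)) := by
    intro t ht
    obtain ⟨l, hl, q, i, he⟩ := (Finset.mem_filter.1 ht).2
    rw [Finset.mem_biUnion]
    exact ⟨l, hl, Finset.mem_filter.2 ⟨Finset.mem_univ _, q, i, he⟩⟩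
  refine (Finset.card_le_card h1).trans ?_
  refine (Finset.card_biUnion_le_card_mul _ _ 1 ?_).trans (by rw [mul_one])
  intro l _
  rw [Finset.card_le_one]
  intro t ht t' ht'
  obtain ⟨q, i, h2⟩ := (Finset.mem_filter.1 ht).2
  obtain ⟨q', i', h3⟩ := (Finset.mem_filter.1 ht').2
  rw [h2] at h3
  exact (hx _ _ _ _ _ _ h3).1

end H40.SP

/-! ### Lf -/

namespace H40.SP

variable {k b : ℕ}

theorem nb_le (S : Finset (Blk k b)) (ω : Blk k b) : nb S ω ≤ k - 1 := by
  unfold nb
  have h1 : (Finset.univ.filter (fun p : Fin k => p ≠ ω.1 ∧ (p, ω.2) ∉ S)) ⊆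
      Finset.univ.erase ω.1 := by
    intro p hp
    rw [Finset.mem_filter] at hp
    exact Finset.mem_erase.2 ⟨hp.2.1, Finset.mem_univ _⟩
  refine (Finset.card_le_card h1).trans ?_
  rw [Finset.card_erase_of_mem (Finset.mem_univ _), Finset.card_univ, Fintype.card_fin]

theorem Lf_ne (p : Fin k) : ∑ j : Fin k, (if p ≠ j then 1 else 0) = k - 1 := by
  rw [← Finset.card_filter]
  have h1 : Finset.univ.filter (fun j : Fin k => p ≠ j) = Finset.univ.erase p := by
    ext j
    simp only [Finset.mem_filter, Finset.mem_univ, true_and, Finset.mem_erase, and_true]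
    exact ne_comm
  rw [h1, Finset.card_erase_of_mem (Finset.mem_univ _), Finset.card_univ, Fintype.card_fin]

theorem sum_nb (S : Finset (Blk k b)) :
    ∑ ω : Blk k b, nb S ω = (k - 1) * (Finset.univ \ S).card := by
  have h1 : ∀ ω : Blk k b, nb S ω =
      ∑ p : Fin k, (if p ≠ ω.1 ∧ (p, ω.2) ∉ S then 1 else 0) := fun ω => by
    unfold nb
    rw [Finset.card_filter]
  simp only [h1]
  rw [Fintype.sum_prod_type, Finset.sum_comm]
  have h2 : ∀ u : Fin k → Fin b, ∑ j : Fin k, ∑ p : Fin k, (if p ≠ j ∧ (p, u) ∉ S then 1 else 0) =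
      (k - 1) * ∑ p : Fin k, (if (p, u) ∉ S then 1 else 0) := by
    intro u
    rw [Finset.sum_comm, Finset.mul_sum]
    refine Finset.sum_congr rfl fun p _ => ?_
    by_cases hp : (p, u) ∉ S
    · simp only [hp, not_false_eq_true, and_true, if_true, mul_one]
      exact Lf_ne p
    · simp only [hp, and_false, if_false, Finset.sum_const_zero, mul_zero]
  simp only [h2]
  rw [← Finset.mul_sum]
  congr 1
  have h3 : Finset.univ \ S = Finset.univ.filter (fun ω : Blk k b => ω ∉ S) := by
    ext ω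
    simp
  rw [h3, Finset.card_filter, Fintype.sum_prod_type, Finset.sum_comm]

theorem sum_blk (hk : 2 ≤ k) (S : Finset (Blk k b)) :
    ∑ ω ∈ S, (1 + (nb S ω : ℝ) / ((k : ℝ) - 1)) ≤ (Fintype.card (Blk k b) : ℝ) := by
  have hk1 : (0 : ℝ) < (k : ℝ) - 1 := by
    have : (2 : ℝ) ≤ k := by exact_mod_cast hk
    linarith
  have h1 : ∑ ω ∈ S, (nb S ω : ℝ) / ((k : ℝ) - 1) ≤ ((Finset.univ \ S).card : ℝ) := by
    rw [← Finset.sum_div, div_le_iff₀ hk1]
    have h2 : ∑ ω ∈ S, (nb S ω : ℝ) ≤ ∑ ω : Blk k b, (nb S ω : ℝ) :=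
      Finset.sum_le_sum_of_subset_of_nonneg (Finset.subset_univ S) fun ω _ _ => Nat.cast_nonneg _
    refine h2.trans (le_of_eq ?_)
    have h3 := congrArg (fun n : ℕ => (n : ℝ)) (sum_nb S)
    simp only [Nat.cast_sum, Nat.cast_mul] at h3
    rw [h3, Nat.cast_sub (by omega), Nat.cast_one, mul_comm]
  have h4 : (S.card : ℝ) + ((Finset.univ \ S).card : ℝ) = (Fintype.card (Blk k b) : ℝ) := by
    have h5 : (Finset.univ \ S).card + S.card = (Finset.univ : Finset (Blk k b)).card :=
      Finset.card_sdiff_add_card_eq_card (Finset.subset_univ S)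
    rw [← Finset.card_univ, ← h5]
    push_cast
    ring
  rw [Finset.sum_add_distrib, Finset.sum_const, nsmul_eq_mul, mul_one, ← h4]
  linarith

end H40.SP

/-! ### Lg -/

namespace H40.SP

theorem sum_update {ι Ω : Type} [Fintype ι] [DecidableEq ι] [Fintype Ω] (t : ι)
    (f : (ι → Ω) → ℝ) :
    ∑ σ : ι → Ω, ∑ ω : Ω, f (Function.update σ t ω) = (Fintype.card Ω : ℝ) * ∑ σ : ι → Ω, f σ := by
  have h1 : ∑ p : (ι → Ω) × Ω, f (Function.update p.1 t p.2) = ∑ p : (ι → Ω) × Ω, f p.1 := by
    refine Finset.sum_nbij' (fun p => (Function.update p.1 t p.2, p.1 t))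
      (fun p => (Function.update p.1 t p.2, p.1 t)) ?_ ?_ ?_ ?_ ?_
    · intro a _
      exact Finset.mem_univ _
    · intro a _
      exact Finset.mem_univ _
    · rintro ⟨σ, ω⟩ _
      simp
    · rintro ⟨σ, ω⟩ _
      simp
    · intro a _
      rfl
  rw [Fintype.sum_prod_type, Fintype.sum_prod_type] at h1
  rw [h1, Finset.mul_sum]
  refine Finset.sum_congr rfl fun σ _ => ?_
  simp

theorem prod_lemma {ι Ω : Type} [Fintype ι] [DecidableEq ι] [Fintype Ω] (T : Finset ι)
    (h : ι → (ι → Ω) → ℝ) (h0 : ∀ t σ, 0 ≤ h t σ)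
    (hind : ∀ s ∈ T, ∀ t ∈ T, s ≠ t → ∀ σ ω, h t (Function.update σ s ω) = h t σ)
    (hsum : ∀ t ∈ T, ∀ σ, ∑ ω : Ω, h t (Function.update σ t ω) ≤ (Fintype.card Ω : ℝ)) :
    ∑ σ : ι → Ω, ∏ t ∈ T, h t σ ≤ (Fintype.card (ι → Ω) : ℝ) := by
  induction T using Finset.induction_on with
  | empty => simp
  | insert t T ht ih =>
    have ih' := ih (fun s hs t' ht' => hind s (Finset.mem_insert_of_mem hs) t'
      (Finset.mem_insert_of_mem ht')) (fun s hs => hsum s (Finset.mem_insert_of_mem hs))
    rcases isEmpty_or_nonempty Ω with hΩ | hΩ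
    · have h3 : IsEmpty (ι → Ω) := ⟨fun σ => hΩ.false (σ t)⟩
      rw [Finset.univ_eq_empty, Finset.sum_empty]
      positivity
    · have hc : (0 : ℝ) < Fintype.card Ω := by exact_mod_cast Fintype.card_pos
      refine le_trans ?_ ih'
      refine le_of_mul_le_mul_left ?_ hc
      rw [← sum_update t, Finset.mul_sum]
      refine Finset.sum_le_sum fun σ _ => ?_
      have e : ∀ ω, ∏ s ∈ insert t T, h s (Function.update σ t ω) =
          h t (Function.update σ t ω) * ∏ s ∈ T, h s σ := by
        intro ω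
        rw [Finset.prod_insert ht]
        congr 1
        refine Finset.prod_congr rfl fun s hs => ?_
        refine hind t (Finset.mem_insert_self t T) s (Finset.mem_insert_of_mem hs) ?_ σ ω
        rintro rfl
        exact ht hs
      simp only [e]
      rw [← Finset.sum_mul]
      exact mul_le_mul_of_nonneg_right (hsum t (Finset.mem_insert_self t T) σ)
        (Finset.prod_nonneg fun s _ => h0 s σ)

end H40.SP

/-! ### Lh -/

namespace H40.SP

theorem sum_log_le {α : Type} (A : Finset α) (hA : A.Nonempty) (W : α → ℝ)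
    (hW : ∀ a ∈ A, 0 < W a) {X : ℝ} (hX : ∑ a ∈ A, W a ≤ X) :
    ∑ a ∈ A, Real.log (W a) ≤ A.card * Real.log (X / A.card) := by
  have hcard : (0 : ℝ) < A.card := by
    exact_mod_cast Finset.card_pos.2 hA
  have hS : 0 < ∑ a ∈ A, W a := Finset.sum_pos hW hA
  have hX0 : 0 < X := lt_of_lt_of_le hS hX
  have hc : 0 < X / A.card := div_pos hX0 hcard
  have h1 : ∀ a ∈ A, Real.log (W a) ≤ Real.log (X / A.card) + (W a / (X / A.card) - 1) := by
    intro a ha
    have h2 : 0 < W a / (X / A.card) := div_pos (hW a ha) hc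
    have h3 := Real.log_le_sub_one_of_pos h2
    rw [Real.log_div (hW a ha).ne' hc.ne'] at h3
    linarith
  have h4 := Finset.sum_le_sum h1
  rw [Finset.sum_add_distrib, Finset.sum_const, Finset.sum_sub_distrib, Finset.sum_const,
    ← Finset.sum_div, nsmul_eq_mul, nsmul_eq_mul, mul_one] at h4
  have h5 : (∑ a ∈ A, W a) / (X / A.card) ≤ A.card := by
    rw [div_le_iff₀ hc]
    have h6 : (A.card : ℝ) * (X / A.card) = X := by
      field_simp
    rw [h6]
    exact hX
  linarith

theorem mul_log_two_le {y : ℝ} (h0 : 0 ≤ y) (h1 : y ≤ 1) :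
    y * Real.log 2 ≤ Real.log (1 + y) := by
  have h2 := rpow_one_add_le_one_add_mul_self (s := 1) (by norm_num) h0 h1
  rw [mul_one] at h2
  have h3 : (1 + 1 : ℝ) = 2 := by norm_num
  rw [h3] at h2
  have h4 : (0 : ℝ) < 2 ^ y := Real.rpow_pos_of_pos (by norm_num) y
  have h5 := Real.log_le_log h4 h2
  rw [Real.log_rpow (by norm_num)] at h5
  exact h5

end H40.SP

/-! ### Li -/

namespace H40.SP

variable {V : Type} {B k b : ℕ} {x : Fin B → Fin k → Fin b → V} {G : Fml V}

theorem sum_nb_le (hk : 2 ≤ k) (T : Finset (Fin B)) (hA : (good x G).Nonempty) :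
    ∑ σ ∈ good x G, ∑ t ∈ T, (nb (loc x G T σ t) (σ t) : ℝ) * Real.log 2 ≤
      ((k : ℝ) - 1) * ((good x G).card *
        Real.log ((Fintype.card (St B k b) : ℝ) / (good x G).card)) := by
  classical
  have hk1 : (0 : ℝ) < (k : ℝ) - 1 := by
    have : (2 : ℝ) ≤ (k : ℝ) := by exact_mod_cast hk
    linarith
  obtain ⟨h, hh⟩ : ∃ h : Fin B → (Fin B → Blk k b) → ℝ, h = fun t σ =>
      if σ t ∈ loc x G T σ t then 1 + (nb (loc x G T σ t) (σ t) : ℝ) / ((k : ℝ) - 1) else 0 :=
    ⟨_, rfl⟩
  have hpos : ∀ (σ : St B k b) (t : Fin B),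
      0 < 1 + (nb (loc x G T σ t) (σ t) : ℝ) / ((k : ℝ) - 1) := by
    intro σ t
    have : 0 ≤ (nb (loc x G T σ t) (σ t) : ℝ) / ((k : ℝ) - 1) :=
      div_nonneg (Nat.cast_nonneg _) hk1.le
    linarith
  have h0 : ∀ t σ, 0 ≤ h t σ := by
    intro t σ
    rw [hh]
    dsimp only
    split_ifs
    · exact (hpos σ t).le
    · exact le_rfl
  have hind : ∀ s ∈ T, ∀ t ∈ T, s ≠ t → ∀ σ ω, h t (Function.update σ s ω) = h t σ := by
    intro s hs t _ hst σ ω
    rw [hh]
    dsimp only
    rw [loc_update T hs hst ω σ, Function.update_of_ne hst.symm]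
  have hsum : ∀ t ∈ T, ∀ σ, ∑ ω : Blk k b, h t (Function.update σ t ω) ≤
      (Fintype.card (Blk k b) : ℝ) := by
    intro t _ σ
    refine le_trans (le_of_eq ?_) (sum_blk hk (loc x G T σ t))
    have e1 : ∀ ω : Blk k b, h t (Function.update σ t ω) =
        if ω ∈ loc x G T σ t then 1 + (nb (loc x G T σ t) ω : ℝ) / ((k : ℝ) - 1) else 0 := by
      intro ω
      rw [hh]
      dsimp only
      rw [loc_update_self T t ω σ, Function.update_self]
    rw [Finset.sum_congr rfl fun ω _ => e1 ω, ← Finset.sum_filter, Finset.filter_mem_eq_inter,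
      Finset.univ_inter]
  have key := prod_lemma T h h0 hind hsum
  have hX : ∑ σ ∈ good x G, ∏ t ∈ T, (1 + (nb (loc x G T σ t) (σ t) : ℝ) / ((k : ℝ) - 1)) ≤
      (Fintype.card (St B k b) : ℝ) := by
    refine le_trans ?_ key
    have e2 : ∀ σ ∈ good x G, ∏ t ∈ T, (1 + (nb (loc x G T σ t) (σ t) : ℝ) / ((k : ℝ) - 1)) =
        ∏ t ∈ T, h t σ := by
      intro σ hσ
      refine Finset.prod_congr rfl fun t _ => ?_
      rw [hh]
      dsimp only
      rw [if_pos (mem_loc hσ T t)]
    rw [Finset.sum_congr rfl e2]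
    exact Finset.sum_le_sum_of_subset_of_nonneg (Finset.subset_univ _)
      (fun σ _ _ => Finset.prod_nonneg fun t _ => h0 t σ)
  have h3 := sum_log_le (good x G) hA
    (fun σ => ∏ t ∈ T, (1 + (nb (loc x G T σ t) (σ t) : ℝ) / ((k : ℝ) - 1)))
    (fun σ _ => Finset.prod_pos fun t _ => hpos σ t) hX
  have h4 : ∀ σ ∈ good x G, ∑ t ∈ T, (nb (loc x G T σ t) (σ t) : ℝ) * Real.log 2 ≤
      ((k : ℝ) - 1) * Real.log (∏ t ∈ T, (1 + (nb (loc x G T σ t) (σ t) : ℝ) / ((k : ℝ) - 1))) := by
    intro σ _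
    rw [Real.log_prod (fun t _ => (hpos σ t).ne'), Finset.mul_sum]
    refine Finset.sum_le_sum fun t _ => ?_
    have hnb : (nb (loc x G T σ t) (σ t) : ℝ) ≤ (k : ℝ) - 1 := by
      have h5 : (nb (loc x G T σ t) (σ t) : ℝ) ≤ ((k - 1 : ℕ) : ℝ) := by
        exact_mod_cast nb_le (loc x G T σ t) (σ t)
      rw [Nat.cast_sub (by omega), Nat.cast_one] at h5
      exact h5
    have h6 := mul_log_two_le (div_nonneg (Nat.cast_nonneg (nb (loc x G T σ t) (σ t))) hk1.le)
      ((div_le_one hk1).2 hnb)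
    have h7 := mul_le_mul_of_nonneg_left h6 hk1.le
    rw [← mul_assoc, mul_div_cancel₀ _ hk1.ne'] at h7
    exact h7
  refine (Finset.sum_le_sum h4).trans ?_
  rw [← Finset.mul_sum]
  exact mul_le_mul_of_nonneg_left h3 hk1.le

end H40.SP

/-! ### Lj -/

namespace H40.SP

theorem pow_ge {w c : ℕ} (hw : 1 ≤ w) (hc : c ≤ w - 1) :
    (w : ℝ) ^ c ≤ 3 * ((w : ℝ) - 1) ^ c := by
  rcases Nat.eq_zero_or_pos c with h0 | h0
  · rw [h0, pow_zero, pow_zero]
    norm_num
  have hv : (c : ℝ) ≤ (w : ℝ) - 1 := by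
    have h1 : c + 1 ≤ w := by omega
    have h2 : ((c + 1 : ℕ) : ℝ) ≤ w := by exact_mod_cast h1
    push_cast at h2
    linarith
  have hc1 : (1 : ℝ) ≤ c := by exact_mod_cast h0
  obtain ⟨v, hv'⟩ : ∃ v : ℝ, v = (w : ℝ) - 1 := ⟨_, rfl⟩
  rw [← hv'] at hv ⊢
  have hvpos : 0 < v := by linarith
  have hw' : (w : ℝ) = v * (1 + 1 / v) := by
    rw [mul_add, mul_one, mul_one_div, div_self hvpos.ne']
    linarith
  have h1 : (1 + 1 / v) ^ c ≤ 3 := by
    have h2 : 1 + 1 / v ≤ Real.exp (1 / v) := by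
      have := Real.add_one_le_exp (1 / v)
      linarith
    calc (1 + 1 / v) ^ c ≤ (Real.exp (1 / v)) ^ c := pow_le_pow_left₀ (by positivity) h2 c
      _ = Real.exp (c * (1 / v)) := by rw [← Real.exp_nat_mul]
      _ ≤ Real.exp 1 := by
        apply Real.exp_le_exp.mpr
        rw [mul_one_div, div_le_one hvpos]
        exact hv
      _ ≤ 3 := by linarith [Real.exp_one_lt_d9]
  rw [hw', mul_pow]
  calc v ^ c * (1 + 1 / v) ^ c ≤ v ^ c * 3 := mul_le_mul_of_nonneg_left h1 (by positivity)
    _ = 3 * v ^ c := mul_comm _ _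

open Classical in
theorem card_fun_ge {B w : ℕ} (hw : 1 ≤ w) (t : Fin B) (S : Finset (Fin B)) (ht : t ∉ S)
    (hS : S.card ≤ w - 1) :
    (w : ℝ) ^ B ≤ 3 * w * ((Finset.univ.filter (fun g : Fin B → Fin w =>
      (g t : ℕ) = 0 ∧ ∀ s ∈ S, (g s : ℕ) ≠ 0)).card : ℝ) := by
  obtain ⟨z0, hz0⟩ : ∃ z0 : Fin w, (z0 : ℕ) = 0 := ⟨⟨0, by omega⟩, rfl⟩
  have hz : ∀ z : Fin w, (z : ℕ) = 0 ↔ z = z0 := by
    intro z
    rw [← hz0]
    exact Fin.val_inj
  let A : Fin B → Finset (Fin w) := fun r => if r = t then {z0} else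
    if r ∈ S then Finset.univ.erase z0 else Finset.univ
  have hAt : A t = {z0} := if_pos rfl
  have hne : ∀ r ∈ S, r ≠ t := by
    intro r hr h
    rw [h] at hr
    exact ht hr
  have hAS : ∀ r ∈ S, A r = Finset.univ.erase z0 := by
    intro r hr
    change (if r = t then {z0} else if r ∈ S then Finset.univ.erase z0 else Finset.univ) = _
    rw [if_neg (hne r hr), if_pos hr]
  have hAo : ∀ r, r ≠ t → r ∉ S → A r = Finset.univ := by
    intro r h1 h2
    change (if r = t then {z0} else if r ∈ S then Finset.univ.erase z0 else Finset.univ) = _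
    rw [if_neg h1, if_neg h2]
  have hA : (Finset.univ.filter (fun g : Fin B → Fin w =>
      (g t : ℕ) = 0 ∧ ∀ s ∈ S, (g s : ℕ) ≠ 0)) = Fintype.piFinset A := by
    ext g
    rw [Fintype.mem_piFinset, Finset.mem_filter]
    constructor
    · rintro ⟨-, h1, h2⟩ r
      by_cases hr : r = t
      · rw [hr, hAt, Finset.mem_singleton]
        exact (hz _).1 h1
      · by_cases hrS : r ∈ S
        · rw [hAS r hrS]
          exact Finset.mem_erase.2 ⟨fun h => h2 r hrS ((hz _).2 h), Finset.mem_univ _⟩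
        · rw [hAo r hr hrS]
          exact Finset.mem_univ _
    · intro h
      refine ⟨Finset.mem_univ _, ?_, ?_⟩
      · have h1 := h t
        rw [hAt, Finset.mem_singleton] at h1
        exact (hz _).2 h1
      · intro s hs h0
        have h1 := h s
        rw [hAS s hs] at h1
        exact (Finset.mem_erase.1 h1).1 ((hz _).1 h0)
  have hw1 : (((w - 1 : ℕ) : ℕ) : ℝ) = (w : ℝ) - 1 := by
    rw [Nat.cast_sub hw, Nat.cast_one]
  have hsub : S ⊆ Finset.univ.erase t := fun r hr =>
    Finset.mem_erase.2 ⟨hne r hr, Finset.mem_univ _⟩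
  obtain ⟨e, he⟩ : ∃ e, e = ((Finset.univ.erase t) \ S).card := ⟨_, rfl⟩
  have hB : B = 1 + S.card + e := by
    have h1 := Finset.card_sdiff_add_card_eq_card hsub
    have h2 := Finset.card_erase_add_one (Finset.mem_univ t)
    rw [Finset.card_univ, Fintype.card_fin] at h2
    omega
  have hprod : (Fintype.piFinset A).card = (w - 1) ^ S.card * w ^ e := by
    rw [Fintype.card_piFinset, ← Finset.mul_prod_erase Finset.univ (fun r => (A r).card)
      (Finset.mem_univ t), ← Finset.prod_sdiff hsub]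
    have h1 : ∏ r ∈ (Finset.univ.erase t) \ S, (A r).card = w ^ e := by
      rw [he]
      refine Finset.prod_eq_pow_card ?_
      intro r hr
      obtain ⟨h2, h3⟩ := Finset.mem_sdiff.1 hr
      rw [hAo r (Finset.mem_erase.1 h2).1 h3, Finset.card_univ, Fintype.card_fin]
    have h4 : ∏ r ∈ S, (A r).card = (w - 1) ^ S.card := by
      refine Finset.prod_eq_pow_card ?_
      intro r hr
      rw [hAS r hr, Finset.card_erase_of_mem (Finset.mem_univ _), Finset.card_univ,
        Fintype.card_fin]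
    rw [h1, h4, hAt, Finset.card_singleton, one_mul, mul_comm]
  rw [hA, hprod]
  push_cast
  rw [hw1]
  have h5 := pow_ge hw hS
  have hw0 : (0 : ℝ) ≤ w := Nat.cast_nonneg _
  calc (w : ℝ) ^ B = w * w ^ e * w ^ S.card := by
        conv_lhs => rw [hB]
        rw [pow_add, pow_add, pow_one]
        ring
    _ ≤ w * w ^ e * (3 * ((w : ℝ) - 1) ^ S.card) :=
        mul_le_mul_of_nonneg_left h5 (by positivity)
    _ = 3 * w * (((w : ℝ) - 1) ^ S.card * w ^ e) := by ring

end H40.SP

/-! ### Lk -/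

namespace H40.SP

variable {V : Type} [DecidableEq V] {B k b : ℕ} {x : Fin B → Fin k → Fin b → V} {G : Fml V}

theorem nb_pos (hx : Inj x) (hG : ∀ a, Sat G a → Sat (hard x) a) {σ : St B k b}
    (hσ : σ ∈ good x G) {t : Fin B} (ht : ¬ Honest x G σ t) :
    ∃ C ∈ G, Touch x C t ∧ ∀ T : Finset (Fin B), (∀ s ∈ T, s ≠ t → ¬ Touch x C s) →
      1 ≤ nb (loc x G T σ t) (σ t) := by
  obtain ⟨C, hC, hv⟩ := exists_crit hx hG σ t
  have hm := crit_mem hσ hC hv
  refine ⟨C, hC, ⟨_, hm, (σ t).1, (σ t).2 (σ t).1, rfl⟩, ?_⟩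
  intro T hT
  have hp : ∃ p, (x t p ((σ t).2 p), false) ∉ C := by
    by_contra hcon
    push Not at hcon
    exact ht ⟨C, hC, hv, hcon⟩
  obtain ⟨p, hp⟩ := hp
  have hpj : p ≠ (σ t).1 := by
    intro h
    apply hp
    rw [h]
    exact hm
  have hvn := viol_neighbour hx hv hp hpj
  unfold nb
  refine Finset.card_pos.2 ⟨p, ?_⟩
  rw [Finset.mem_filter]
  refine ⟨Finset.mem_univ _, hpj, ?_⟩
  intro hmem
  simp only [loc, Finset.mem_filter] at hmem
  have hmem' := hmem.2
  obtain ⟨l, hl, hl2⟩ := hmem' C hC hT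
  exact hvn l hl hl2

open Classical in
private lemma Lk_cnt (hx : Inj x) {w : ℕ} (hw1 : 1 ≤ w) (hw : Width w G)
    (hG : ∀ a, Sat G a → Sat (hard x) a) {σ : St B k b} (hσ : σ ∈ good x G) {t : Fin B}
    (ht : ¬ Honest x G σ t) :
    (w : ℝ) ^ B ≤ 3 * w * ∑ g : Fin B → Fin w, (if (g t : ℕ) = 0 then
      (nb (loc x G (Finset.univ.filter (fun s => (g s : ℕ) = 0)) σ t) (σ t) : ℝ) else 0) := by
  obtain ⟨C, hC, htouch, hnb⟩ := nb_pos hx hG hσ ht
  set S : Finset (Fin B) := Finset.univ.filter (fun s => s ≠ t ∧ Touch x C s) with hS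
  have htS : t ∉ S := by
    rw [hS, Finset.mem_filter]
    rintro ⟨-, h, -⟩
    exact h rfl
  have hcard : S.card ≤ w - 1 := by
    have h1 : insert t S ⊆ Finset.univ.filter (fun s : Fin B => Touch x C s) := by
      intro s hs
      rw [Finset.mem_insert] at hs
      rw [Finset.mem_filter]
      rcases hs with rfl | hs
      · exact ⟨Finset.mem_univ _, htouch⟩
      · rw [hS, Finset.mem_filter] at hs
        exact ⟨Finset.mem_univ _, hs.2.2⟩
    have h2 := Finset.card_le_card h1
    rw [Finset.card_insert_of_notMem htS] at h2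
    have h3 := card_touch_le hx C
    have h4 := hw C hC
    omega
  refine (card_fun_ge hw1 t S htS hcard).trans ?_
  refine mul_le_mul_of_nonneg_left ?_ (by positivity)
  rw [Finset.card_filter]
  push_cast
  refine Finset.sum_le_sum fun g _ => ?_
  split_ifs with h1 h2 h2
  · have h3 : 1 ≤ nb (loc x G (Finset.univ.filter (fun s => (g s : ℕ) = 0)) σ t) (σ t) := by
      refine hnb _ ?_
      intro s hs hst hT
      rw [Finset.mem_filter] at hs
      exact h1.2 s (by rw [hS, Finset.mem_filter]; exact ⟨Finset.mem_univ _, hst, hT⟩) hs.2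
    exact_mod_cast h3
  · exact absurd h1.1 h2
  · exact Nat.cast_nonneg _
  · exact le_refl _

open Classical in
theorem sum_nonhonest_le (hx : Inj x) (hk : 2 ≤ k) {w : ℕ} (hkw : k ≤ w) (hw : Width w G)
    (hG : ∀ a, Sat G a → Sat (hard x) a) (hA : (good x G).Nonempty) :
    ∑ σ ∈ good x G, ((Finset.univ.filter (fun t => ¬ Honest x G σ t)).card : ℝ) * Real.log 2 ≤
      3 * w * (((k : ℝ) - 1) * ((good x G).card *
        Real.log ((Fintype.card (St B k b) : ℝ) / (good x G).card))) := by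
  have hw1 : 1 ≤ w := by omega
  have hwR : (0 : ℝ) < w := by exact_mod_cast hw1
  have hwB : (0 : ℝ) < (w : ℝ) ^ B := pow_pos hwR B
  set U : ℝ := ((k : ℝ) - 1) * ((good x G).card *
        Real.log ((Fintype.card (St B k b) : ℝ) / (good x G).card)) with hU
  have hup : ∑ g : Fin B → Fin w, ∑ σ ∈ good x G,
      ∑ t ∈ Finset.univ.filter (fun s => (g s : ℕ) = 0),
        (nb (loc x G (Finset.univ.filter (fun s => (g s : ℕ) = 0)) σ t) (σ t) : ℝ) * Real.log 2
      ≤ (w : ℝ) ^ B * U := by
    have h1 : ∀ g ∈ (Finset.univ : Finset (Fin B → Fin w)), ∑ σ ∈ good x G,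
        ∑ t ∈ Finset.univ.filter (fun s => (g s : ℕ) = 0),
          (nb (loc x G (Finset.univ.filter (fun s => (g s : ℕ) = 0)) σ t) (σ t) : ℝ) * Real.log 2
        ≤ U := fun g _ => sum_nb_le hk (Finset.univ.filter (fun s => (g s : ℕ) = 0)) hA
    have h2 := Finset.sum_le_card_nsmul _ _ _ h1
    rw [nsmul_eq_mul, Finset.card_univ, Fintype.card_fun, Fintype.card_fin, Fintype.card_fin] at h2
    push_cast at h2
    exact h2
  have hlow : ∀ σ ∈ good x G,
      (w : ℝ) ^ B * ((Finset.univ.filter (fun t => ¬ Honest x G σ t)).card : ℝ)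
        ≤ 3 * w * ∑ g : Fin B → Fin w, ∑ t ∈ Finset.univ.filter (fun s => (g s : ℕ) = 0),
          (nb (loc x G (Finset.univ.filter (fun s => (g s : ℕ) = 0)) σ t) (σ t) : ℝ) := by
    intro σ hσ
    have h1 : ∀ t ∈ Finset.univ.filter (fun t => ¬ Honest x G σ t), (w : ℝ) ^ B ≤
        3 * w * ∑ g : Fin B → Fin w, (if (g t : ℕ) = 0 then
          (nb (loc x G (Finset.univ.filter (fun s => (g s : ℕ) = 0)) σ t) (σ t) : ℝ) else 0) :=
      fun t ht => Lk_cnt hx hw1 hw hG hσ (Finset.mem_filter.1 ht).2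
    have h2 := Finset.card_nsmul_le_sum _ _ _ h1
    rw [nsmul_eq_mul, mul_comm] at h2
    refine h2.trans ?_
    rw [← Finset.mul_sum]
    refine mul_le_mul_of_nonneg_left ?_ (by positivity)
    rw [Finset.sum_comm]
    refine Finset.sum_le_sum fun g _ => ?_
    rw [Finset.sum_filter (fun s => (g s : ℕ) = 0)]
    refine Finset.sum_le_sum_of_subset_of_nonneg (Finset.filter_subset _ _) fun t _ _ => ?_
    split_ifs
    · exact Nat.cast_nonneg _
    · exact le_refl _
  have hlog : 0 ≤ Real.log 2 := Real.log_nonneg (by norm_num)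
  refine le_of_mul_le_mul_left ?_ hwB
  calc (w : ℝ) ^ B * ∑ σ ∈ good x G,
        ((Finset.univ.filter (fun t => ¬ Honest x G σ t)).card : ℝ) * Real.log 2
      = ∑ σ ∈ good x G, ((w : ℝ) ^ B *
        ((Finset.univ.filter (fun t => ¬ Honest x G σ t)).card : ℝ)) * Real.log 2 := by
        rw [Finset.mul_sum]
        refine Finset.sum_congr rfl fun σ _ => ?_
        ring
    _ ≤ ∑ σ ∈ good x G, (3 * w * ∑ g : Fin B → Fin w,
          ∑ t ∈ Finset.univ.filter (fun s => (g s : ℕ) = 0),
          (nb (loc x G (Finset.univ.filter (fun s => (g s : ℕ) = 0)) σ t) (σ t) : ℝ))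
            * Real.log 2 :=
        Finset.sum_le_sum fun σ hσ => mul_le_mul_of_nonneg_right (hlow σ hσ) hlog
    _ = 3 * w * ∑ g : Fin B → Fin w, ∑ σ ∈ good x G,
      ∑ t ∈ Finset.univ.filter (fun s => (g s : ℕ) = 0),
        (nb (loc x G (Finset.univ.filter (fun s => (g s : ℕ) = 0)) σ t) (σ t) : ℝ)
          * Real.log 2 := by
        rw [Finset.sum_comm (s := (Finset.univ : Finset (Fin B → Fin w))), Finset.mul_sum]
        refine Finset.sum_congr rfl fun σ _ => ?_
        rw [mul_assoc, Finset.sum_mul]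
        congr 1
        refine Finset.sum_congr rfl fun g _ => ?_
        rw [Finset.sum_mul]
    _ ≤ 3 * w * ((w : ℝ) ^ B * U) := mul_le_mul_of_nonneg_left hup (by positivity)
    _ = (w : ℝ) ^ B * (3 * w * U) := by ring

end H40.SP

/-! ### Lm -/

namespace H40.SP

variable {V : Type} {B k b : ℕ} {x : Fin B → Fin k → Fin b → V} {G : Fml V}

theorem card_srv_le (x : Fin B → Fin k → Fin b → V) (G : Fml V) : (srv x G).card ≤ G.card := by
  classical
  apply Finset.card_le_card_of_forall_subsingleton (fun p C => Srv x C p.1 p.2)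
  · intro p hp
    exact (Finset.mem_filter.1 hp).2
  · intro C _ p hp p' hp'
    obtain ⟨t, u⟩ := p
    obtain ⟨t', u'⟩ := p'
    have h1 : Srv x C t u := hp.2
    have h2 : Srv x C t' u' := hp'.2
    have ht : t = t' := by
      by_contra hne
      obtain ⟨q, hq⟩ := h1.2.2 t' (fun h => hne h.symm)
      exact hq _ (h2.1 q)
    subst ht
    have hu : u = u' := by
      funext q
      exact h2.2.1 q (u q) (h1.1 q)
    rw [hu]

theorem srv_of_honest (hx : Inj x) {σ : St B k b} {t : Fin B} (h : Honest x G σ t) :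
    (t, (σ t).2) ∈ srv x G := by
  classical
  obtain ⟨C, hC, hv, hq⟩ := h
  have hflip : ∀ s q i, (x s q i, false) ∈ C → flip x σ t (x s q i) = true := by
    intro s q i hm
    have h1 := hv _ hm
    simpa using h1
  refine Finset.mem_filter.2 ⟨Finset.mem_univ _, C, hC, hq, ?_, ?_⟩
  · intro q i hm
    rcases (flip_var hx σ t t q i).1 (hflip t q i hm) with h1 | h1
    · exact h1.2
    · rw [h1.2.1]
      exact h1.2.2
  · intro s hs
    refine ⟨(σ s).1, fun i hm => ?_⟩
    rcases (flip_var hx σ t s _ i).1 (hflip s _ i hm) with h1 | h1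
    · exact h1.1 rfl
    · exact hs h1.1

end H40.SP

/-! ### Ln -/

namespace H40.SP

variable {B k b : ℕ}

open Classical in
/-- The factor of the block `t`. -/
noncomputable def lnw (P : Finset (Fin B × (Fin k → Fin b))) (t : Fin B) (ω : Blk k b) : ℝ :=
  if (t, ω.2) ∈ P then 2 else 1

open Classical in
/-- The members of `P` in the block `t`. -/
noncomputable def lnP (P : Finset (Fin B × (Fin k → Fin b))) (t : Fin B) :
    Finset (Fin k → Fin b) :=
  Finset.univ.filter (fun u => (t, u) ∈ P)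

theorem lnw_pos (P : Finset (Fin B × (Fin k → Fin b))) (t : Fin B) (ω : Blk k b) :
    0 < lnw P t ω := by
  unfold lnw
  split_ifs <;> norm_num

theorem sum_lnP (P : Finset (Fin B × (Fin k → Fin b))) :
    ∑ t, (lnP P t).card = P.card := by
  classical
  rw [Finset.card_eq_sum_card_fiberwise (f := Prod.fst) (t := Finset.univ)
    (fun p _ => Finset.mem_coe.2 (Finset.mem_univ _))]
  refine Finset.sum_congr rfl fun t _ => ?_
  refine Finset.card_bij (fun u _ => (t, u)) ?_ ?_ ?_
  · intro u hu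
    simp only [lnP, Finset.mem_filter, Finset.mem_univ, true_and] at hu
    simp [hu]
  · intro u _ v _ h
    exact (Prod.mk.inj h).2
  · intro p hp
    rw [Finset.mem_filter] at hp
    obtain ⟨h1, h2⟩ := hp
    refine ⟨p.2, ?_, ?_⟩
    · simp only [lnP, Finset.mem_filter, Finset.mem_univ, true_and]
      rw [← h2]
      exact h1
    · rw [← h2]

theorem sum_lnw (P : Finset (Fin B × (Fin k → Fin b))) (t : Fin B) :
    ∑ ω : Blk k b, lnw P t ω = (k : ℝ) * ((b : ℝ) ^ k + (lnP P t).card) := by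
  classical
  rw [Fintype.sum_prod_type]
  have h1 : ∀ j : Fin k, ∑ u : Fin k → Fin b, lnw P t (j, u) =
      (b : ℝ) ^ k + (lnP P t).card := by
    intro j
    have h2 : ∀ u : Fin k → Fin b, lnw P t (j, u) = 1 + if (t, u) ∈ P then 1 else 0 := by
      intro u
      unfold lnw
      by_cases h : (t, u) ∈ P
      · simp only [h, if_true]; norm_num
      · simp only [h, if_false]; norm_num
    rw [Finset.sum_congr rfl fun u _ => h2 u, Finset.sum_add_distrib]
    congr 1
    · simp
    · rw [Finset.sum_boole]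
      rfl
  rw [Finset.sum_congr rfl fun j _ => h1 j, Finset.sum_const, Finset.card_univ,
    Fintype.card_fin, nsmul_eq_mul]

theorem sum_prod_lnw_le (hk : 0 < k) (hb : 0 < b) (P : Finset (Fin B × (Fin k → Fin b))) :
    ∑ σ : St B k b, ∏ t, lnw P t (σ t) ≤
      (Fintype.card (St B k b) : ℝ) * Real.exp (P.card / (b : ℝ) ^ k) := by
  classical
  have hb0 : (0 : ℝ) < (b : ℝ) ^ k := by
    have : (0 : ℝ) < (b : ℝ) := by exact_mod_cast hb
    positivity
  have hk0 : (0 : ℝ) < (k : ℝ) := by exact_mod_cast hk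
  have h1 : ∑ σ : St B k b, ∏ t, lnw P t (σ t) = ∏ t : Fin B, ∑ ω : Blk k b, lnw P t ω := by
    rw [Finset.prod_univ_sum, Fintype.piFinset_univ]
  have h2 : (Fintype.card (St B k b) : ℝ) = ∏ _t : Fin B, ((k : ℝ) * (b : ℝ) ^ k) := by
    rw [Finset.prod_const, Finset.card_univ, Fintype.card_fin]
    simp
  have h3 : Real.exp (P.card / (b : ℝ) ^ k) =
      ∏ t : Fin B, Real.exp ((lnP P t).card / (b : ℝ) ^ k) := by
    rw [← Real.exp_sum, ← Finset.sum_div]
    congr 2
    exact_mod_cast (sum_lnP P).symm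
  rw [h1, h2, h3, ← Finset.prod_mul_distrib]
  refine Finset.prod_le_prod (fun t _ => Finset.sum_nonneg fun ω _ => (lnw_pos P t ω).le)
    fun t _ => ?_
  rw [sum_lnw]
  have h4 := Real.add_one_le_exp ((lnP P t).card / (b : ℝ) ^ k)
  have h5 : (k : ℝ) * ((b : ℝ) ^ k + (lnP P t).card) =
      (k : ℝ) * (b : ℝ) ^ k * ((lnP P t).card / (b : ℝ) ^ k + 1) := by
    field_simp
    ring
  rw [h5]
  exact mul_le_mul_of_nonneg_left h4 (by positivity)

open Classical in
theorem sum_srv_le (hk : 0 < k) (hb : 0 < b) (P : Finset (Fin B × (Fin k → Fin b)))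
    (A : Finset (St B k b)) (hA : A.Nonempty) :
    ∑ σ ∈ A, ((Finset.univ.filter (fun t => (t, (σ t).2) ∈ P)).card : ℝ) * Real.log 2 ≤
      A.card * (Real.log ((Fintype.card (St B k b) : ℝ) / A.card) + P.card / (b : ℝ) ^ k) := by
  have hX : ∑ σ ∈ A, ∏ t, lnw P t (σ t) ≤
      (Fintype.card (St B k b) : ℝ) * Real.exp (P.card / (b : ℝ) ^ k) := by
    refine le_trans ?_ (sum_prod_lnw_le hk hb P)
    exact Finset.sum_le_sum_of_subset_of_nonneg (Finset.subset_univ A)
      fun σ _ _ => Finset.prod_nonneg fun t _ => (lnw_pos P t (σ t)).le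
  have h1 := sum_log_le A hA (fun σ => ∏ t, lnw P t (σ t))
    (fun σ _ => Finset.prod_pos fun t _ => lnw_pos P t (σ t)) hX
  have hA0 : (0 : ℝ) < A.card := by exact_mod_cast hA.card_pos
  have hS0 : (0 : ℝ) < (Fintype.card (St B k b) : ℝ) := by
    obtain ⟨σ, _⟩ := hA
    exact_mod_cast Fintype.card_pos_iff.2 ⟨σ⟩
  have h2 : Real.log ((Fintype.card (St B k b) : ℝ) * Real.exp (P.card / (b : ℝ) ^ k) / A.card) =
      Real.log ((Fintype.card (St B k b) : ℝ) / A.card) + P.card / (b : ℝ) ^ k := by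
    rw [mul_div_right_comm, Real.log_mul (by positivity) (Real.exp_pos _).ne', Real.log_exp]
  rw [h2] at h1
  refine le_trans (le_of_eq ?_) h1
  refine Finset.sum_congr rfl fun σ _ => ?_
  rw [Real.log_prod (fun t _ => (lnw_pos P t (σ t)).ne')]
  have h3 : ∀ t : Fin B, Real.log (lnw P t (σ t)) =
      if (t, (σ t).2) ∈ P then Real.log 2 else 0 := by
    intro t
    unfold lnw
    by_cases h : (t, (σ t).2) ∈ P
    · simp only [h, if_true]
    · simp only [h, if_false, Real.log_one]
  rw [Finset.sum_congr rfl fun t _ => h3 t, ← Finset.sum_filter, Finset.sum_const, nsmul_eq_mul]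

end H40.SP

/-! ### Lo -/

namespace H40.SP

variable {V : Type} [DecidableEq V] {B k b : ℕ} {x : Fin B → Fin k → Fin b → V} {G : Fml V}

theorem core (hx : Inj x) (hk : 2 ≤ k) (hb : 1 ≤ b) {w : ℕ} (hkw : k ≤ w) (hw : Width w G)
    (hG : ∀ a, Sat G a → Sat (hard x) a) (hA : (good x G).Nonempty)
    (hd : 16 * (w * k * Real.log ((Fintype.card (St B k b) : ℝ) / (good x G).card)) ≤
      B * Real.log 2) : (b : ℝ) ^ k * B / 2 ≤ G.card := by
  classical
  have hbR : (0 : ℝ) < (b : ℝ) ^ k := by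
    have : (0 : ℝ) < (b : ℝ) := by exact_mod_cast (by omega : 0 < b)
    positivity
  have ha : (0 : ℝ) < ((good x G).card : ℝ) := by exact_mod_cast Finset.card_pos.2 hA
  have ha' : ((good x G).card : ℝ) ≤ (Fintype.card (St B k b) : ℝ) := by
    exact_mod_cast Finset.card_le_univ _
  obtain ⟨Λ, hΛ⟩ : ∃ Λ : ℝ, Λ = Real.log ((Fintype.card (St B k b) : ℝ) / (good x G).card) :=
    ⟨_, rfl⟩
  have hΛ0 : 0 ≤ Λ := by
    rw [hΛ]
    exact Real.log_nonneg ((one_le_div ha).2 ha')
  have h1 := sum_nonhonest_le hx hk hkw hw hG hA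
  have h2 := sum_srv_le (by omega) (by omega) (srv x G) (good x G) hA
  have h3 : ((srv x G).card : ℝ) ≤ G.card := by exact_mod_cast card_srv_le x G
  rw [← hΛ] at h1 h2 hd
  have hlog2 : 0.6931471803 < Real.log 2 := Real.log_two_gt_d9
  have hlog0 : 0 < Real.log 2 := by linarith
  have h4 : ∀ σ ∈ good x G, (B : ℝ) * Real.log 2 ≤
      ((Finset.univ.filter (fun t => ¬ Honest x G σ t)).card : ℝ) * Real.log 2 +
      ((Finset.univ.filter (fun t => (t, (σ t).2) ∈ srv x G)).card : ℝ) * Real.log 2 := by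
    intro σ _
    rw [← add_mul]
    refine mul_le_mul_of_nonneg_right ?_ hlog0.le
    have e1 := Finset.card_filter_add_card_filter_not (s := (Finset.univ : Finset (Fin B)))
      (fun t => Honest x G σ t)
    rw [Finset.card_univ, Fintype.card_fin] at e1
    have e2 : (Finset.univ.filter (fun t => Honest x G σ t)).card ≤
        (Finset.univ.filter (fun t => (t, (σ t).2) ∈ srv x G)).card := by
      refine Finset.card_le_card fun t ht => ?_
      rw [Finset.mem_filter] at ht ⊢
      exact ⟨ht.1, srv_of_honest hx ht.2⟩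
    have e3 : B ≤ (Finset.univ.filter (fun t => ¬ Honest x G σ t)).card +
        (Finset.univ.filter (fun t => (t, (σ t).2) ∈ srv x G)).card := by omega
    exact_mod_cast e3
  have h5 := Finset.sum_le_sum h4
  rw [Finset.sum_const, nsmul_eq_mul, Finset.sum_add_distrib] at h5
  have h6 : ((good x G).card : ℝ) * ((B : ℝ) * Real.log 2) ≤
      ((good x G).card : ℝ) * (3 * w * (((k : ℝ) - 1) * Λ) + (Λ + G.card / (b : ℝ) ^ k)) := by
    have h7 : ((srv x G).card : ℝ) / (b : ℝ) ^ k ≤ G.card / (b : ℝ) ^ k :=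
      div_le_div_of_nonneg_right h3 hbR.le
    have h8 := mul_le_mul_of_nonneg_left h7 ha.le
    nlinarith [h5, h1, h2, h8]
  have h9 := le_of_mul_le_mul_left h6 ha
  have hwR : (2 : ℝ) ≤ (w : ℝ) := by exact_mod_cast (by omega : 2 ≤ w)
  have hkR : (2 : ℝ) ≤ (k : ℝ) := by exact_mod_cast hk
  have hwk : (4 : ℝ) ≤ (w : ℝ) * k := by nlinarith
  have hwkΛ : 4 * Λ ≤ (w : ℝ) * k * Λ := mul_le_mul_of_nonneg_right hwk hΛ0
  have hwΛ : 0 ≤ (w : ℝ) * Λ := by positivity
  have h10 : 3 * (w : ℝ) * (((k : ℝ) - 1) * Λ) ≤ 3 * ((w : ℝ) * k * Λ) := by nlinarith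
  have hB0 : (0 : ℝ) ≤ (B : ℝ) := Nat.cast_nonneg _
  have h11 : (B : ℝ) * 0.6931471803 ≤ (B : ℝ) * Real.log 2 :=
    mul_le_mul_of_nonneg_left hlog2.le hB0
  have h12 : (B : ℝ) / 2 ≤ G.card / (b : ℝ) ^ k := by
    have h13 : (B : ℝ) * Real.log 2 ≤ 3 * ((w : ℝ) * k * Λ) + (Λ + G.card / (b : ℝ) ^ k) := by
      linarith
    have h14 : 16 * ((w : ℝ) * k * Λ) ≤ B * Real.log 2 := hd
    linarith
  rw [le_div_iff₀ hbR] at h12
  linarith

end H40.SP

/-! ### Lp -/

namespace H40.SP

variable {V : Type} [DecidableEq V] {B k b : ℕ} {x : Fin B → Fin k → Fin b → V}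

theorem not_sparse_hard (hx : Inj x) (hk : 2 ≤ k) (hb : 1 ≤ b) {w : ℕ} (hkw : k ≤ w) {m L : ℝ}
    (hm : m ≤ (2 : ℝ) ^ ((B : ℝ) / (16 * (w * k)))) (hL : L < (b : ℝ) ^ k * B / 2) :
    ¬ Sparse (hard x) w m L := by
  rintro ⟨𝒢, hcard, hG, hiff⟩
  have hkne : NeZero k := ⟨by omega⟩
  have hbne : NeZero b := ⟨by omega⟩
  have hSt : 0 < Fintype.card (St B k b) := Fintype.card_pos
  have hcover : ∀ σ : St B k b, ∃ G ∈ 𝒢, σ ∈ good x G := by
    intro σ
    obtain ⟨G, hG1, hG2⟩ := (hiff (asg x σ)).1 (sat_hard hx σ)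
    refine ⟨G, hG1, ?_⟩
    unfold good
    simp only [Finset.mem_filter, Finset.mem_univ, true_and]
    exact hG2
  have h1 : Fintype.card (St B k b) ≤ ∑ G ∈ 𝒢, (good x G).card := by
    have h2 : (Finset.univ : Finset (St B k b)) ⊆ 𝒢.biUnion (good x) := by
      intro σ _
      obtain ⟨G, h3, h4⟩ := hcover σ
      exact Finset.mem_biUnion.2 ⟨G, h3, h4⟩
    exact (Finset.card_le_card h2).trans Finset.card_biUnion_le
  have h5 : ∃ G ∈ 𝒢, Fintype.card (St B k b) ≤ 𝒢.card * (good x G).card := by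
    by_contra hcon
    push Not at hcon
    have hne : 𝒢.Nonempty := by
      obtain ⟨σ⟩ : Nonempty (St B k b) := Fintype.card_pos_iff.1 hSt
      obtain ⟨G, h3, -⟩ := hcover σ
      exact ⟨G, h3⟩
    have h6 : ∑ G ∈ 𝒢, 𝒢.card * (good x G).card < ∑ _G ∈ 𝒢, Fintype.card (St B k b) :=
      Finset.sum_lt_sum_of_nonempty hne hcon
    rw [← Finset.mul_sum, Finset.sum_const, smul_eq_mul] at h6
    exact absurd (Nat.mul_le_mul_left 𝒢.card h1) (not_le.2 h6)
  obtain ⟨G, hG1, hG2⟩ := h5
  have hapos : 0 < (good x G).card := by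
    rcases Nat.eq_zero_or_pos (good x G).card with h | h
    · rw [h, mul_zero] at hG2
      omega
    · exact h
  have hk0 : (0 : ℝ) < k := by exact_mod_cast (by omega : 0 < k)
  have hw0 : (0 : ℝ) < w := by exact_mod_cast (by omega : 0 < w)
  have ha' : (0 : ℝ) < (good x G).card := by exact_mod_cast hapos
  have hSt' : (0 : ℝ) < Fintype.card (St B k b) := by exact_mod_cast hSt
  have hratio : (Fintype.card (St B k b) : ℝ) / (good x G).card ≤
      (2 : ℝ) ^ ((B : ℝ) / (16 * (w * k))) := by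
    rw [div_le_iff₀ ha']
    calc (Fintype.card (St B k b) : ℝ) ≤ 𝒢.card * (good x G).card := by exact_mod_cast hG2
      _ ≤ _ := mul_le_mul_of_nonneg_right (hcard.trans hm) ha'.le
  have hlog := Real.log_le_log (div_pos hSt' ha') hratio
  rw [Real.log_rpow (by norm_num)] at hlog
  have hd : 16 * (w * k * Real.log ((Fintype.card (St B k b) : ℝ) / (good x G).card)) ≤
      B * Real.log 2 := by
    calc 16 * (w * k * Real.log ((Fintype.card (St B k b) : ℝ) / (good x G).card)) ≤
        16 * (w * k * ((B : ℝ) / (16 * (w * k)) * Real.log 2)) := by gcongr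
      _ = B * Real.log 2 := by field_simp
  have hcore := core hx hk hb hkw (hG G hG1).1 (fun a ha => (hiff a).2 ⟨G, hG1, ha⟩)
    (Finset.card_pos.1 hapos) hd
  have h8 := (hG G hG1).2
  linarith

end H40.SP

/-! ### Lq -/

namespace H40.SP

theorem exists_inj {n B k b : ℕ} (h : B * (k * b) ≤ n) :
    ∃ x : Fin B → Fin k → Fin b → Fin n, Inj x := by
  refine ⟨fun t q i => Fin.castLE h (finProdFinEquiv (t, finProdFinEquiv (q, i))), ?_⟩
  intro t q i t' q' i' he
  have h1 := Fin.castLE_injective h he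
  have h2 := finProdFinEquiv.injective h1
  have h3 := (Prod.mk.injEq _ _ _ _).mp h2
  have h4 := finProdFinEquiv.injective h3.2
  have h5 := (Prod.mk.injEq _ _ _ _).mp h4
  exact ⟨h3.1, h5.1, h5.2⟩

theorem Lq_width {V : Type} [DecidableEq V] {B k b : ℕ} (x : Fin B → Fin k → Fin b → V) :
    Width k (hard x) := by
  intro C hC
  obtain ⟨p, _, rfl⟩ := Finset.mem_image.1 hC
  unfold hcl
  refine Finset.card_image_le.trans ?_
  rw [Finset.card_univ, Fintype.card_fin]

theorem Lq_four {k : ℕ} (hk : 2 ≤ k) : 4 * k < 16 ^ (k - 1) := by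
  obtain ⟨m, rfl⟩ := Nat.exists_eq_add_of_le hk
  have e : 2 + m - 1 = m + 1 := by omega
  rw [e]
  induction m with
  | zero => norm_num
  | succ m ih =>
    have h := ih (by omega) (by omega)
    rw [pow_succ]
    omega

theorem lower {k w : ℕ} {ε : ℝ} (hk : 2 ≤ k) (hkw : k ≤ w) (hε : 0 < ε)
    (h : 1024 * w * k ^ 2 * ε ≤ 1) : ∃ n₀ : ℕ, ∀ n ≥ n₀, ∃ F : Fml (Fin n), Width k F ∧
      ¬ Sparse F w ((2 : ℝ) ^ (ε * n)) ((1 / (1024 * w * k ^ 2 * ε)) ^ (k - 1) * n) := by
  have hk0 : (0 : ℝ) < k := by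
    have : 0 < k := by omega
    exact_mod_cast this
  have hw0 : (0 : ℝ) < w := by
    have : 0 < w := by omega
    exact_mod_cast this
  set y : ℝ := 1 / (32 * w * k ^ 2 * ε) with hy
  have hden : 0 < 32 * (w : ℝ) * k ^ 2 * ε := by positivity
  have hy1 : 1 ≤ y := by
    rw [hy, le_div_iff₀ hden]
    nlinarith
  set b : ℕ := ⌊y⌋₊ with hb
  have hb1 : 1 ≤ b := by
    rw [hb, Nat.one_le_floor_iff]
    exact hy1
  have hby : (b : ℝ) ≤ y := Nat.floor_le (by linarith)
  have hyb : y ≤ 2 * b := by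
    have h1 := Nat.lt_floor_add_one y
    have h2 : (1 : ℝ) ≤ b := by exact_mod_cast hb1
    linarith
  have hb0 : (0 : ℝ) < b := by
    have : 0 < b := by omega
    exact_mod_cast this
  have hkb : 0 < k * b := Nat.mul_pos (by omega) (by omega)
  refine ⟨k * b, fun n hn => ?_⟩
  set B : ℕ := n / (k * b) with hB
  have hB1 : 1 ≤ B := by
    rw [hB]
    exact (Nat.one_le_div_iff hkb).2 hn
  have hBn : B * (k * b) ≤ n := Nat.div_mul_le_self n (k * b)
  have hnB : n < (B + 1) * (k * b) := by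
    rw [hB]
    have := Nat.lt_div_mul_add (a := n) hkb
    calc n < n / (k * b) * (k * b) + k * b := this
      _ = (n / (k * b) + 1) * (k * b) := by ring
  have hn2 : (n : ℝ) ≤ 2 * B * k * b := by
    have h1 : n ≤ 2 * B * k * b := by
      have h2 : (B + 1) * (k * b) ≤ (2 * B) * (k * b) := Nat.mul_le_mul_right _ (by omega)
      calc n ≤ (2 * B) * (k * b) := by omega
        _ = 2 * B * k * b := by ring
    exact_mod_cast h1
  have hB0 : (0 : ℝ) < B := by
    have : 0 < B := by omega
    exact_mod_cast this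
  obtain ⟨x, hx⟩ := exists_inj hBn
  refine ⟨hard x, Lq_width x, not_sparse_hard hx hk hb1 hkw ?_ ?_⟩
  · apply Real.rpow_le_rpow_of_exponent_le (by norm_num)
    have h1 : 32 * (w : ℝ) * k ^ 2 * ε * b ≤ 1 := by
      have h2 : (b : ℝ) ≤ 1 / (32 * w * k ^ 2 * ε) := hby
      rw [le_div_iff₀ hden] at h2
      linarith
    rw [le_div_iff₀ (by positivity)]
    have h3 : ε * n ≤ ε * (2 * B * k * b) := mul_le_mul_of_nonneg_left hn2 hε.le
    calc ε * n * (16 * (w * k)) ≤ ε * (2 * B * k * b) * (16 * (w * k)) :=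
          mul_le_mul_of_nonneg_right h3 (by positivity)
      _ = (32 * w * k ^ 2 * ε * b) * B := by ring
      _ ≤ 1 * B := mul_le_mul_of_nonneg_right h1 hB0.le
      _ = B := one_mul _
  · have h1 : 1 / (1024 * (w : ℝ) * k ^ 2 * ε) = y / 32 := by
      rw [hy]
      field_simp
      norm_num
    have h2 : 1 / (1024 * (w : ℝ) * k ^ 2 * ε) ≤ b / 16 := by
      rw [h1]
      linarith
    have h3 : (0 : ℝ) ≤ 1 / (1024 * (w : ℝ) * k ^ 2 * ε) := by positivity
    have h4 : (4 * k : ℝ) < 16 ^ (k - 1) := by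
      have := Lq_four hk
      exact_mod_cast this
    have h16 : (0 : ℝ) < 16 ^ (k - 1) := by positivity
    have e1 : (b : ℝ) ^ k = b ^ (k - 1) * b := by
      rw [← pow_succ]
      congr 1
      omega
    calc (1 / (1024 * (w : ℝ) * k ^ 2 * ε)) ^ (k - 1) * n
        ≤ (b / 16) ^ (k - 1) * (2 * B * k * b) := by
          apply mul_le_mul (pow_le_pow_left₀ h3 h2 _) hn2 (by positivity) (by positivity)
      _ = (b : ℝ) ^ k * B / 2 * ((4 * k) / 16 ^ (k - 1)) := by
          rw [div_pow, e1]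
          field_simp
          ring
      _ < (b : ℝ) ^ k * B / 2 * 1 := by
          apply mul_lt_mul_of_pos_left _ (by positivity)
          rw [div_lt_one h16]
          exact h4
      _ = (b : ℝ) ^ k * B / 2 := mul_one _

end H40.SP
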