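import Pool.Agent.H14.IpzK
import Pool.Agent.H14.WS
import Pool.Agent.H40.OS.Base

/-!
# The upper bound
-/

set_option autoImplicit false

/-! ### UDefs -/

namespace H40.SP

open Pool.Agent.H14.ETH

variable {n : ℕ}

/-- A literal over `Fin n` as a literal over `ℕ`. -/
def lit (l : Fin n × Bool) : Lit := ((l.1 : ℕ), l.2)

/-- The first `j` dummy literals. -/
def dum (n j : ℕ) : Finset Lit := (Finset.range j).image (fun i => (n + i, true))

/-- The padded clause. -/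
def pad (k : ℕ) (C : Finset (Fin n × Bool)) : Finset Lit := C.image lit ∪ dum n (k - C.card)

/-- The padded formula. -/
def padF (k : ℕ) (F : Fml (Fin n)) : Fam := F.image (pad k)

/-- The extension of an assignment, by `false`. -/
def ext (a : Fin n → Bool) (i : ℕ) : Bool := if h : i < n then a ⟨i, h⟩ else false

/-- The literals over `Fin n` of a clause over `ℕ`. -/
def res1 (n : ℕ) (C : Finset Lit) : Finset (Fin n × Bool) := Finset.univ.filter (fun l => lit l ∈ C)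

open Classical in
/-- The clauses without negative dummies, without their positive dummies. -/
noncomputable def res (n : ℕ) (G : Fam) : Fml (Fin n) :=
  (G.filter (fun C => ∀ l ∈ C, n ≤ l.1 → l.2 = true)).image (res1 n)

end H40.SP

/-! ### Ua -/

namespace H40.SP

open Pool.Agent.H14.ETH

theorem exists_hit {K : ℕ} (W : WS K) (𝒞 : Fam) :
    (∀ c p, 1 ≤ p → p < c → c ≤ K → NoHit W.th c p 𝒞) ∨
      ∃ (c p : ℕ) (H : Finset Lit), W.Hit 𝒞 c p H := by
  classical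
  by_cases h : ∀ c p, 1 ≤ p → p < c → c ≤ K → NoHit W.th c p 𝒞
  · exact Or.inl h
  · right
    push Not at h
    have h0 : ∃ c, ∃ p, 1 ≤ p ∧ p < c ∧ c ≤ K ∧ ¬ NoHit W.th c p 𝒞 := h
    obtain ⟨p0, hp0⟩ := Nat.find_spec h0
    have hmin : ∀ c' < Nat.find h0, ¬ ∃ p, 1 ≤ p ∧ p < c' ∧ c' ≤ K ∧ ¬ NoHit W.th c' p 𝒞 :=
      fun c' hc' => Nat.find_min h0 hc'
    generalize Nat.find h0 = c at hp0 hmin
    have h1 : ∃ p, 1 ≤ p ∧ p < c ∧ c ≤ K ∧ ¬ NoHit W.th c p 𝒞 := ⟨p0, hp0⟩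
    have hp := Nat.find_spec h1
    have hminp : ∀ p' < Nat.find h1, ¬ (1 ≤ p' ∧ p' < c ∧ c ≤ K ∧ ¬ NoHit W.th c p' 𝒞) :=
      fun p' hp' => Nat.find_min h1 hp'
    generalize Nat.find h1 = p at hp hminp
    obtain ⟨hp1, hpc, hcK, hno⟩ := hp
    unfold NoHit at hno
    push Not at hno
    obtain ⟨G, hG, hle⟩ := hno
    refine ⟨c, p, G, ⟨hp1, hpc, hcK, hG, hle, ?_, ?_⟩⟩
    · intro c' p' h1' h2' h3'
      by_contra hcon
      exact hmin c' h3' ⟨p', h1', h2', by omega, hcon⟩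
    · intro p' h1' h2'
      by_contra hcon
      exact hminp p' h2' ⟨h1', by omega, hcK, hcon⟩

/-- No assignment satisfies a family with two complementary unit clauses. -/
theorem not_satBy_of_dead {𝒞 : Fam} (h : Dead 𝒞) (v : ℕ → Bool) : ¬ satBy v 𝒞 := by
  intro hs
  obtain ⟨x, b, h1, h2⟩ := h
  obtain ⟨l1, hl1, e1⟩ := hs _ h1
  obtain ⟨l2, hl2, e2⟩ := hs _ h2
  rw [Finset.mem_singleton] at hl1 hl2
  subst hl1 hl2
  simp only at e1 e2
  rw [e1] at e2
  cases b <;> simp at e2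

end H40.SP

/-! ### Uc -/

namespace H40.SP

open Pool.Agent.H14.ETH

theorem card_le_of_noHit {K : ℕ} {γ : ℝ} (P : SpK K γ) {n : ℕ} {𝒞 : Fam} (hI : P.W.Inv n 𝒞)
    (hd : ¬ Dead 𝒞) (h : ∀ c p, 1 ≤ p → p < c → c ≤ K → NoHit P.W.th c p 𝒞) :
    𝒞.card ≤ P.Kc * n := by
  have hcard : 𝒞.card = ∑ i ∈ Finset.range (K + 1), num 𝒞 i := by
    have h1 := wgt_eq_sum (a := fun _ => 1) (𝒞 := 𝒞) (k := K) (fun C hC => (hI.size C hC).2)
    unfold wgt at h1
    simp only [one_mul, Finset.sum_const, nsmul_eq_mul, mul_one] at h1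
    exact_mod_cast h1
  rw [hcard]
  unfold SpK.Kc
  rw [Finset.sum_mul]
  refine Finset.sum_le_sum fun i hi => ?_
  rw [Finset.mem_range] at hi
  split_ifs with h1
  · rw [one_mul]
    have : i = 0 ∨ i = 1 := by omega
    rcases this with rfl | rfl
    · rw [P.num_zero hI]
      omega
    · exact num_one_le hI.ov hd
  · exact P.W.num_le_of_noHit hI (c := i) (by omega)
      (h i (i - 1) (by omega) (by omega) (by omega))

end H40.SP

/-! ### Ub -/

namespace H40.SP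

open Pool.Agent.H14.ETH

theorem exists_leaves_aux {K : ℕ} {γ : ℝ} (P : SpK K γ) {n : ℕ} (m : ℕ) : ∀ {𝒞 : Fam}, P.W.Inv n 𝒞 →
    ¬ Dead 𝒞 → P.pot 0 n 𝒞 < m * P.η →
    ∃ 𝒢 : Finset Fam, (𝒢.card : ℝ) ≤ (2 : ℝ) ^ (P.pot 0 n 𝒞) ∧
      (∀ G ∈ 𝒢, (∀ C ∈ G, C.card ≤ K) ∧ G.card ≤ P.Kc * n) ∧
      ∀ v, satBy v 𝒞 ↔ ∃ G ∈ 𝒢, satBy v G := by
  classical
  induction m with
  | zero =>
    intro 𝒞 hI hd hm
    exfalso
    have h1 := P.κ_le_pot (B := 0) hI hd
    have h2 := P.η_pos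
    have h3 := P.η_le_κ
    rw [zero_mul] at h1
    rw [Nat.cast_zero, zero_mul] at hm
    linarith
  | succ m ih =>
    intro 𝒞 hI hd hm
    have hκ := P.κ_le_pot (B := 0) hI hd
    rw [zero_mul, add_zero] at hκ
    have hη := P.η_pos
    have hηκ := P.η_le_κ
    rcases exists_hit P.W 𝒞 with hno | ⟨c, p, H, hH⟩
    · refine ⟨{𝒞}, ?_, ?_, ?_⟩
      · rw [Finset.card_singleton, Nat.cast_one]
        exact Real.one_le_rpow (by norm_num) (by linarith)
      · intro G hG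
        rw [Finset.mem_singleton] at hG
        subst hG
        exact ⟨fun C hC => (hI.size C hC).2, card_le_of_noHit P hI hd hno⟩
      · intro v
        constructor
        · intro h
          exact ⟨𝒞, Finset.mem_singleton_self _, h⟩
        · rintro ⟨G, hG, h⟩
          rw [Finset.mem_singleton] at hG
          subst hG
          exact h
    · have claim : ∀ (X : Fam) (z : ℝ), P.W.Inv n X → P.η ≤ z → wgt P.W.a 𝒞 + z ≤ wgt P.W.a X →
          ∃ 𝒢 : Finset Fam, (𝒢.card : ℝ) ≤ (2 : ℝ) ^ (P.pot 0 n 𝒞 - z) ∧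
            (∀ G ∈ 𝒢, (∀ C ∈ G, C.card ≤ K) ∧ G.card ≤ P.Kc * n) ∧
            ∀ v, satBy v X ↔ ∃ G ∈ 𝒢, satBy v G := by
        intro X z hX hz hw
        by_cases hdX : Dead X
        · refine ⟨∅, ?_, ?_, ?_⟩
          · rw [Finset.card_empty, Nat.cast_zero]
            exact Real.rpow_nonneg (by norm_num) _
          · intro G hG
            exact absurd hG (Finset.notMem_empty G)
          · intro v
            constructor
            · intro h
              exact absurd h (not_satBy_of_dead hdX v)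
            · rintro ⟨G, hG, _⟩
              exact absurd hG (Finset.notMem_empty G)
        · have hpot : P.pot 0 n X ≤ P.pot 0 n 𝒞 - z := by
            unfold SpK.pot
            linarith
          obtain ⟨𝒢, h1, h2, h3⟩ := ih hX hdX (by
            push_cast at hm
            linarith)
          exact ⟨𝒢, h1.trans (Real.rpow_le_rpow_of_exponent_le (by norm_num) hpot), h2, h3⟩
      have hp1 := hH.hp
      have hpc := hH.hpc
      have hck := hH.hck
      obtain ⟨iA, wA⟩ := P.W.stepA hI hH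
      obtain ⟨iB, wB⟩ := P.W.stepB hI hH
      obtain ⟨k1, _⟩ := P.charge2 p hp1 (by omega)
      obtain ⟨k3, _⟩ := P.charge1 (c - p) (by omega) (by omega)
      obtain ⟨𝒢A, a1, a2, a3⟩ := claim _ _ iA k3 wA
      obtain ⟨𝒢B, b1, b2, b3⟩ := claim _ _ iB k1 wB
      refine ⟨𝒢A ∪ 𝒢B, ?_, ?_, ?_⟩
      · have h1 : (((𝒢A ∪ 𝒢B).card : ℕ) : ℝ) ≤ (𝒢A.card : ℝ) + (𝒢B.card : ℝ) := by
          exact_mod_cast Finset.card_union_le _ _
        have h2 := P.W.kraft c p hp1 hpc hck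
        have h3 : (2 : ℝ) ^ (P.pot 0 n 𝒞 - P.W.net (c - p)) =
            (2 : ℝ) ^ (P.pot 0 n 𝒞) * (2 : ℝ) ^ (-P.W.net (c - p)) := by
          rw [← Real.rpow_add (by norm_num), sub_eq_add_neg]
        have h4 : (2 : ℝ) ^ (P.pot 0 n 𝒞 - P.W.th p * P.W.net p) =
            (2 : ℝ) ^ (P.pot 0 n 𝒞) * (2 : ℝ) ^ (-(P.W.th p * P.W.net p)) := by
          rw [← Real.rpow_add (by norm_num), sub_eq_add_neg]
        rw [h3] at a1
        rw [h4] at b1
        have h5 : (0 : ℝ) ≤ (2 : ℝ) ^ (P.pot 0 n 𝒞) := Real.rpow_nonneg (by norm_num) _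
        have h6 := mul_le_mul_of_nonneg_left h2 h5
        rw [mul_add, mul_one] at h6
        linarith
      · intro G hG
        rw [Finset.mem_union] at hG
        rcases hG with hG | hG
        · exact a2 G hG
        · exact b2 G hG
      · intro v
        rw [satBy_branch c H, a3 v, b3 v]
        constructor
        · rintro (⟨G, hG, h⟩ | ⟨G, hG, h⟩)
          · exact ⟨G, Finset.mem_union_left _ hG, h⟩
          · exact ⟨G, Finset.mem_union_right _ hG, h⟩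
        · rintro ⟨G, hG, h⟩
          rw [Finset.mem_union] at hG
          rcases hG with hG | hG
          · exact Or.inl ⟨G, hG, h⟩
          · exact Or.inr ⟨G, hG, h⟩

theorem exists_leaves {K : ℕ} {γ : ℝ} (P : SpK K γ) {n : ℕ} {𝒞 : Fam} (hI : P.W.Inv n 𝒞)
    (hd : ¬ Dead 𝒞) : ∃ 𝒢 : Finset Fam, (𝒢.card : ℝ) ≤ (2 : ℝ) ^ (P.pot 0 n 𝒞) ∧
      (∀ G ∈ 𝒢, (∀ C ∈ G, C.card ≤ K) ∧ G.card ≤ P.Kc * n) ∧
      ∀ v, satBy v 𝒞 ↔ ∃ G ∈ 𝒢, satBy v G := by
  obtain ⟨m, hm⟩ := exists_nat_gt (P.pot 0 n 𝒞 / P.η)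
  rw [div_lt_iff₀ P.η_pos] at hm
  exact exists_leaves_aux P m hI hd hm

end H40.SP

/-! ### Ud -/

namespace H40.SP

open Pool.Agent.H14.ETH

variable {n k : ℕ}

private theorem Ud_lit_inj : Function.Injective (lit (n := n)) := by
  rintro ⟨i, b⟩ ⟨j, c⟩ h
  unfold lit at h
  simp only [Prod.mk.injEq] at h
  exact Prod.ext (Fin.ext h.1) h.2

private theorem Ud_mem_dum {j : ℕ} {l : Lit} : l ∈ dum n j ↔ ∃ i, i < j ∧ (n + i, true) = l := by
  unfold dum
  rw [Finset.mem_image]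
  simp only [Finset.mem_range]

private theorem Ud_mem_pad {C : Finset (Fin n × Bool)} {l : Lit} :
    l ∈ pad k C ↔ (∃ m ∈ C, lit m = l) ∨ ∃ i, i < k - C.card ∧ (n + i, true) = l := by
  unfold pad
  rw [Finset.mem_union, Finset.mem_image, Ud_mem_dum]

private theorem Ud_ext_lt (a : Fin n → Bool) (i : Fin n) : ext a (i : ℕ) = a i := by
  unfold ext
  rw [dif_pos i.isLt]

private theorem Ud_ext_ge (a : Fin n → Bool) {i : ℕ} (h : ¬ i < n) : ext a i = false := by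
  unfold ext
  rw [dif_neg h]

theorem card_pad {C : Finset (Fin n × Bool)} (h : C.card ≤ k) : (pad k C).card = k := by
  unfold pad
  rw [Finset.card_union_of_disjoint, Finset.card_image_of_injective _ Ud_lit_inj]
  · unfold dum
    rw [Finset.card_image_of_injective, Finset.card_range]
    · omega
    · intro i j hij
      simp only [Prod.mk.injEq] at hij
      omega
  · rw [Finset.disjoint_left]
    intro l h1 h2
    rw [Finset.mem_image] at h1
    rw [Ud_mem_dum] at h2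
    obtain ⟨m, -, rfl⟩ := h1
    obtain ⟨i, -, hi⟩ := h2
    have h3 := congrArg Prod.fst hi
    have h4 : n + i = (m.1 : ℕ) := h3
    have h5 := m.1.isLt
    omega

theorem pad_subset (C : Finset (Fin n × Bool)) : pad k C ⊆ lits (n + k) := by
  intro l hl
  rw [Ud_mem_pad] at hl
  rw [mem_lits]
  rcases hl with ⟨m, -, rfl⟩ | ⟨i, hi, rfl⟩
  · have h5 := m.1.isLt
    have h6 : (lit m).1 = (m.1 : ℕ) := rfl
    omega
  · have h6 : ((n + i, true) : Lit).1 = n + i := rfl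
    omega

private theorem Ud_pad_sat (C : Finset (Fin n × Bool)) (a : Fin n → Bool) :
    (∃ l ∈ pad k C, ext a l.1 = l.2) ↔ ∃ l ∈ C, a l.1 = l.2 := by
  constructor
  · rintro ⟨l, hl, h⟩
    rw [Ud_mem_pad] at hl
    rcases hl with ⟨m, hm, rfl⟩ | ⟨i, hi, rfl⟩
    · refine ⟨m, hm, ?_⟩
      exact (Ud_ext_lt a m.1).symm.trans h
    · have h2 : ext a (n + i) = true := h
      rw [Ud_ext_ge a (by omega)] at h2
      exact absurd h2 (by decide)
  · rintro ⟨m, hm, h⟩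
    refine ⟨lit m, Ud_mem_pad.2 (Or.inl ⟨m, hm, rfl⟩), ?_⟩
    have h2 : ext a (lit m).1 = a m.1 := Ud_ext_lt a m.1
    rw [h2]
    exact h

theorem satBy_padF (F : Fml (Fin n)) (a : Fin n → Bool) : satBy (ext a) (padF k F) ↔ Sat F a := by
  unfold satBy padF Sat
  constructor
  · intro h C hC
    exact (Ud_pad_sat (k := k) C a).1 (h (pad k C) (Finset.mem_image_of_mem _ hC))
  · intro h D hD
    rw [Finset.mem_image] at hD
    obtain ⟨C, hC, rfl⟩ := hD
    exact (Ud_pad_sat (k := k) C a).2 (h C hC)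

private theorem Ud_mem_res1 {C : Finset Lit} {l : Fin n × Bool} : l ∈ res1 n C ↔ lit l ∈ C := by
  unfold res1
  rw [Finset.mem_filter]
  exact ⟨fun h => h.2, fun h => ⟨Finset.mem_univ _, h⟩⟩

private theorem Ud_mem_res {G : Fam} {D : Finset (Fin n × Bool)} : D ∈ res n G ↔
    ∃ C, C ∈ G ∧ (∀ l ∈ C, n ≤ l.1 → l.2 = true) ∧ res1 n C = D := by
  unfold res
  rw [Finset.mem_image]
  constructor
  · rintro ⟨C, hC, h⟩
    rw [Finset.mem_filter] at hC
    exact ⟨C, hC.1, hC.2, h⟩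
  · rintro ⟨C, h1, h2, h3⟩
    exact ⟨C, Finset.mem_filter.2 ⟨h1, h2⟩, h3⟩

theorem sat_res (G : Fam) (a : Fin n → Bool) : Sat (res n G) a ↔ satBy (ext a) G := by
  unfold Sat satBy
  constructor
  · intro h C hC
    by_cases hn : ∀ l ∈ C, n ≤ l.1 → l.2 = true
    · obtain ⟨l, hl, h2⟩ := h (res1 n C) (Ud_mem_res.2 ⟨C, hC, hn, rfl⟩)
      refine ⟨lit l, Ud_mem_res1.1 hl, ?_⟩
      have h3 : ext a (lit l).1 = a l.1 := Ud_ext_lt a l.1
      rw [h3]
      exact h2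
    · push Not at hn
      obtain ⟨l, hl, h1, h2⟩ := hn
      refine ⟨l, hl, ?_⟩
      rw [Ud_ext_ge a (by omega)]
      cases h3 : l.2
      · rfl
      · exact absurd h3 h2
  · intro h D hD
    rw [Ud_mem_res] at hD
    obtain ⟨C, hC, hn, rfl⟩ := hD
    obtain ⟨l, hl, h2⟩ := h C hC
    by_cases h3 : l.1 < n
    · refine ⟨(⟨l.1, h3⟩, l.2), Ud_mem_res1.2 hl, ?_⟩
      have h4 := Ud_ext_lt a ⟨l.1, h3⟩
      exact h4.symm.trans h2
    · rw [Ud_ext_ge a h3, hn l hl (by omega)] at h2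
      exact absurd h2 (by decide)

theorem width_res {G : Fam} (h : ∀ C ∈ G, C.card ≤ k) : Width k (res n G) := by
  intro D hD
  rw [Ud_mem_res] at hD
  obtain ⟨C, hC, -, rfl⟩ := hD
  refine le_trans (Finset.card_le_card_of_injOn lit ?_ ?_) (h C hC)
  · intro l hl
    exact Finset.mem_coe.2 (Ud_mem_res1.1 (Finset.mem_coe.1 hl))
  · exact fun a _ b _ hab => Ud_lit_inj hab

theorem card_res_le (G : Fam) : (res n G).card ≤ G.card := by
  unfold res
  exact Finset.card_image_le.trans (Finset.card_filter_le _ _)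

end H40.SP

/-! ### Uf -/

namespace H40.SP

open Pool.Agent.H14.ETH

variable {n K : ℕ} {γ : ℝ}

theorem Uf_card {F : Fml (Fin n)} (hF : Width K F) : ∀ C ∈ padF K F, C.card = K := by
  intro C hC
  unfold padF at hC
  rw [Finset.mem_image] at hC
  obtain ⟨D, hD, rfl⟩ := hC
  exact card_pad (hF D hD)

theorem inv_padF (P : SpK K γ) (hK : 2 ≤ K) {F : Fml (Fin n)} (hF : Width K F) :
    P.W.Inv (n + K) (padF K F) := by
  have hc := Uf_card hF
  refine ⟨?_, anti_of_card hc, fun C hC => ⟨by rw [hc C hC]; omega, (hc C hC).le⟩, degInv_of_card hc _,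
    Or.inl P.top⟩
  intro C hC
  unfold padF at hC
  rw [Finset.mem_image] at hC
  obtain ⟨D, hD, rfl⟩ := hC
  exact pad_subset D

theorem not_dead_padF (hK : 2 ≤ K) {F : Fml (Fin n)} (hF : Width K F) : ¬ Dead (padF K F) := by
  rintro ⟨x, b, h1, _⟩
  have := Uf_card hF _ h1
  rw [Finset.card_singleton] at this
  omega

theorem sparse_of_spK (P : SpK K γ) (hK : 2 ≤ K) {F : Fml (Fin n)} (hF : Width K F) :
    Sparse F K ((2 : ℝ) ^ (P.κ + γ * (n + K))) (P.Kc * (n + K)) := by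
  classical
  obtain ⟨𝒢, hcard, hprop, hsat⟩ := exists_leaves P (inv_padF P hK hF) (not_dead_padF hK hF)
  refine ⟨𝒢.image (res n), ?_, ?_, ?_⟩
  · have h1 : ((𝒢.image (res n)).card : ℝ) ≤ (𝒢.card : ℝ) := by exact_mod_cast Finset.card_image_le
    refine h1.trans (hcard.trans ?_)
    apply Real.rpow_le_rpow_of_exponent_le (by norm_num)
    unfold SpK.pot
    have h2 : 0 ≤ wgt P.W.a (padF K F) := Finset.sum_nonneg fun C _ => P.W.a_nonneg _
    push_cast
    linarith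
  · intro G hG
    rw [Finset.mem_image] at hG
    obtain ⟨G', hG', rfl⟩ := hG
    obtain ⟨h1, h2⟩ := hprop G' hG'
    refine ⟨width_res h1, ?_⟩
    have h3 := (card_res_le (n := n) G').trans h2
    exact_mod_cast h3
  · intro a
    rw [← satBy_padF (k := K), hsat (ext a)]
    constructor
    · rintro ⟨G, hG, h⟩
      exact ⟨res n G, Finset.mem_image_of_mem _ hG, (sat_res G a).2 h⟩
    · rintro ⟨G', hG', h⟩
      rw [Finset.mem_image] at hG'
      obtain ⟨G, hG, rfl⟩ := hG'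
      exact ⟨G, hG, (sat_res G a).1 h⟩

end H40.SP

/-! ### Ug -/

namespace H40.SP

theorem exists_z (K m : ℕ) (hK : 2 ≤ K) (hm : 1 ≤ m) : ∃ z l : ℕ, m ≤ 2 ^ l ∧
    8 * K * m * (z * (K - 2) + 2 + l) ≤ 2 ^ z ∧
      2 ^ z ≤ 64 * K ^ 2 * m * (Nat.clog 2 (K * m) + 2) := by
  obtain ⟨k, rfl⟩ : ∃ k, K = k + 2 := ⟨K - 2, by omega⟩
  have e0 : k + 2 - 2 = k := by omega
  rw [e0]
  set N := (k + 2) * m with hN
  have hN2 : 2 ≤ N := by
    rw [hN]
    calc 2 = 2 * 1 := rfl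
      _ ≤ (k + 2) * m := Nat.mul_le_mul (by omega) hm
  have hmN : m ≤ N := by
    rw [hN]
    calc m = 1 * m := (one_mul m).symm
      _ ≤ (k + 2) * m := Nat.mul_le_mul_right m (by omega)
  set c := Nat.clog 2 N with hc
  set l := Nat.clog 2 m with hl
  have hml : m ≤ 2 ^ l := Nat.le_pow_clog (by norm_num) m
  have hNc : N ≤ 2 ^ c := Nat.le_pow_clog (by norm_num) N
  have hlc : l ≤ c := Nat.clog_mono_right 2 hmN
  have hcN : c ≤ N := Nat.clog_le_of_le_pow (Nat.lt_two_pow_self).le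
  have hP : 8 * (k + 2) * m * ((3 * c + 8) * k + 2 + l) ≤ 2 ^ (3 * c + 8) := by
    have h1 : (3 * c + 8) * k + 2 + l ≤ (3 * c + 8) * (k + 2) := by
      have : (3 * c + 8) * (k + 2) = (3 * c + 8) * k + 2 * (3 * c + 8) := by ring
      omega
    have h2 : 3 * c + 8 ≤ 7 * N := by omega
    have h3 : (k + 2) ≤ N := by
      rw [hN]
      calc k + 2 = (k + 2) * 1 := (mul_one _).symm
        _ ≤ (k + 2) * m := Nat.mul_le_mul_left _ hm
    calc 8 * (k + 2) * m * ((3 * c + 8) * k + 2 + l)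
        ≤ 8 * (k + 2) * m * ((3 * c + 8) * (k + 2)) := Nat.mul_le_mul_left _ h1
      _ = 8 * N * ((3 * c + 8) * (k + 2)) := by rw [hN]; ring
      _ ≤ 8 * N * ((7 * N) * N) := Nat.mul_le_mul_left _ (Nat.mul_le_mul h2 h3)
      _ = 56 * N ^ 3 := by ring
      _ ≤ 256 * N ^ 3 := Nat.mul_le_mul_right _ (by norm_num)
      _ ≤ 256 * (2 ^ c) ^ 3 := Nat.mul_le_mul_left _ (Nat.pow_le_pow_left hNc 3)
      _ = 2 ^ (3 * c + 8) := by rw [← pow_mul, mul_comm c 3, pow_add]; ring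
  have hex : ∃ z, 8 * (k + 2) * m * (z * k + 2 + l) ≤ 2 ^ z := ⟨_, hP⟩
  have hspec := Nat.find_spec hex
  have hmin := Nat.find_min' hex hP
  set z := Nat.find hex with hz
  refine ⟨z, l, hml, hspec, ?_⟩
  have hz0 : z ≠ 0 := by
    intro h0
    rw [h0] at hspec
    have h1 : 1 ≤ (k + 2) * m * (0 * k + 2 + l) :=
      Nat.one_le_iff_ne_zero.2 (Nat.mul_ne_zero (by omega) (by omega))
    have h2 : 8 * (k + 2) * m * (0 * k + 2 + l) = 8 * ((k + 2) * m * (0 * k + 2 + l)) := by ring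
    rw [h2, pow_zero] at hspec
    omega
  obtain ⟨y, hy⟩ : ∃ y, z = y + 1 := ⟨z - 1, by omega⟩
  have hnot : ¬ (8 * (k + 2) * m * (y * k + 2 + l) ≤ 2 ^ y) :=
    Nat.find_min hex (by rw [← hz, hy]; exact Nat.lt_succ_self y)
  rw [not_le] at hnot
  have hy1 : y ≤ 3 * c + 7 := by omega
  rw [hy]
  have h1 : y * k + 2 + l ≤ (3 * c + 7) * (k + 2) := by
    have h2 : y * k ≤ (3 * c + 7) * k := Nat.mul_le_mul_right k hy1
    have h3 : (3 * c + 7) * (k + 2) = (3 * c + 7) * k + 2 * (3 * c + 7) := by ring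
    omega
  calc 2 ^ (y + 1) = 2 * 2 ^ y := by ring
    _ ≤ 2 * (8 * (k + 2) * m * (y * k + 2 + l)) := Nat.mul_le_mul_left _ hnot.le
    _ ≤ 2 * (8 * (k + 2) * m * ((3 * c + 7) * (k + 2))) :=
      Nat.mul_le_mul_left _ (Nat.mul_le_mul_left _ h1)
    _ = 16 * (k + 2) ^ 2 * m * (3 * c + 7) := by ring
    _ ≤ 16 * (k + 2) ^ 2 * m * (4 * (c + 2)) := Nat.mul_le_mul_left _ (by omega)
    _ = 64 * (k + 2) ^ 2 * m * (c + 2) := by ring

theorem clog_le {N : ℕ} (hN : 2 ≤ N) : 64 * ((Nat.clog 2 N : ℝ) + 2) ≤ 200 * Real.log (2 * N) := by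
  have hc1 : Nat.clog 2 N ≠ 0 := by
    have := Nat.clog_pos (b := 2) (by norm_num) hN
    omega
  obtain ⟨d, hd⟩ : ∃ d, Nat.clog 2 N = d + 1 := ⟨Nat.clog 2 N - 1, by omega⟩
  have h1 : 2 ^ d < N := by
    have h2 := Nat.pow_pred_clog_lt_self (b := 2) (by norm_num) (x := N) (by omega)
    rw [hd] at h2
    exact h2
  have hNr : (2 : ℝ) ≤ N := by exact_mod_cast hN
  have h1r : ((2 : ℝ) ^ d) ≤ N := by exact_mod_cast h1.le
  have hl2 : (0.69 : ℝ) < Real.log 2 := by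
    have := Real.log_two_gt_d9
    linarith
  have h3 : (d : ℝ) * Real.log 2 ≤ Real.log N := by
    rw [← Real.log_pow]
    exact Real.log_le_log (by positivity) h1r
  have h4 : Real.log (2 * N) = Real.log 2 + Real.log N :=
    Real.log_mul (by norm_num) (by positivity)
  have h5 : Real.log 2 ≤ Real.log N := Real.log_le_log (by norm_num) hNr
  rw [hd, h4]
  push_cast
  have h6 : 64 * ((d : ℝ) + 1 + 2) * Real.log 2 ≤ 128 * (Real.log 2 + Real.log N) := by
    nlinarith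
  have hd0 : (0 : ℝ) ≤ d := Nat.cast_nonneg d
  have h7 : 64 * ((d : ℝ) + 1 + 2) * 0.69 ≤ 64 * ((d : ℝ) + 1 + 2) * Real.log 2 :=
    mul_le_mul_of_nonneg_left hl2.le (by positivity)
  nlinarith

end H40.SP

/-! ### Uh -/

namespace H40.SP

open Pool.Agent.H14.ETH

theorem geom_le {K Λ Z : ℕ} (hK : 2 ≤ K) (hΛ : 1 ≤ Λ) (hZ : 8 * Λ ≤ Z) :
    ∑ i ∈ Finset.range (K + 1), (if i ≤ 1 then 1 else Λ * Z ^ (i - 1 - 1)) ≤ Z ^ (K - 1) := by
  induction K, hK using Nat.le_induction with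
  | base =>
    rw [Finset.sum_range_succ, Finset.sum_range_succ, Finset.sum_range_succ, Finset.sum_range_zero]
    simp only [show (0 : ℕ) ≤ 1 by omega, le_refl, if_true, show ¬ (2 : ℕ) ≤ 1 by omega, if_false,
      Nat.sub_self, pow_zero, mul_one, show (2 - 1 : ℕ) = 1 by rfl, pow_one]
    omega
  | succ K hK ih =>
    rw [Finset.sum_range_succ, if_neg (show ¬ K + 1 ≤ 1 by omega)]
    have e : K + 1 - 1 - 1 = K - 1 := by omega
    have e2 : K + 1 - 1 = (K - 1) + 1 := by omega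
    rw [e, e2, pow_succ]
    have h1 : 1 + Λ ≤ Z := by omega
    have h2 : Z ^ (K - 1) * (1 + Λ) ≤ Z ^ (K - 1) * Z := Nat.mul_le_mul_left _ h1
    calc _ ≤ Z ^ (K - 1) + Λ * Z ^ (K - 1) := Nat.add_le_add_right ih _
      _ = Z ^ (K - 1) * (1 + Λ) := by ring
      _ ≤ _ := h2

theorem exists_spK2 {K m z l : ℕ} (hK : 2 ≤ K) (hm : 1 ≤ m) (hl : m ≤ 2 ^ l)
    (hz : 8 * K * m * (z * (K - 2) + 2 + l) ≤ 2 ^ z) :
    ∃ P : SpK K (2 / (m : ℝ)), P.Kc ≤ 2 ^ (z * (K - 1)) := by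
  obtain ⟨Λ, hΛ⟩ : ∃ Λ : ℕ, Λ = 2 * m * (z * (K - 2) + 2 + l) := ⟨_, rfl⟩
  obtain ⟨Z, hZ⟩ : ∃ Z : ℕ, Z = 2 ^ z := ⟨_, rfl⟩
  have h1 : 4 * K * Λ ≤ Z := by
    rw [hΛ, hZ]
    refine le_trans (le_of_eq ?_) hz
    ring
  have hΛ1 : 1 ≤ Λ := by
    rw [hΛ]
    exact Nat.mul_pos (Nat.mul_pos (by norm_num) hm) (by omega)
  have hZ1 : 1 ≤ Z := by rw [hZ]; exact Nat.one_le_two_pow
  have hmR : (1 : ℝ) ≤ m := by exact_mod_cast hm
  have rm : (0 : ℝ) < m := by linarith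
  have hZR : (1 : ℝ) ≤ Z := by exact_mod_cast hZ1
  have rZ : (0 : ℝ) < Z := by linarith
  have hKR : (2 : ℝ) ≤ K := by exact_mod_cast hK
  have rK : (0 : ℝ) < K := by linarith
  have h1R : 4 * (K : ℝ) * Λ ≤ Z := by exact_mod_cast h1
  have hΛR : (1 : ℝ) ≤ Λ := by exact_mod_cast hΛ1
  have rΛ : (0 : ℝ) < Λ := by linarith
  have ha : ∀ i : ℕ, (0 : ℝ) < 1 / (m * (Z : ℝ) ^ i) := fun i => by positivity
  -- ratio
  have hanti : ∀ i j : ℕ, i ≤ j → 1 / (m * (Z : ℝ) ^ j) ≤ 1 / (m * (Z : ℝ) ^ i) := by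
    intro i j hij
    refine one_div_le_one_div_of_le (by positivity) ?_
    exact mul_le_mul_of_nonneg_left (pow_le_pow_right₀ hZR hij) rm.le
  have hle1 : ∀ i : ℕ, 1 / (m * (Z : ℝ) ^ i) ≤ 1 := by
    intro i
    refine (hanti 0 i (Nat.zero_le _)).trans ?_
    rw [pow_zero, mul_one, div_le_one rm]
    exact hmR
  have hthnet : ∀ p : ℕ, ((Λ * Z ^ (p - 1) : ℕ) : ℝ) * (1 / (m * (Z : ℝ) ^ (p - 1)) / 2) =
      Λ / (2 * m) := by
    intro p
    push_cast
    field_simp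
  have hpow : (2 : ℝ) ^ (-((Λ : ℝ) / (2 * m))) ≤ 1 / (m * (Z : ℝ) ^ (K - 2)) / 4 := by
    have e : (Λ : ℝ) / (2 * m) = ((z * (K - 2) + 2 + l : ℕ) : ℝ) := by
      rw [hΛ]
      push_cast
      field_simp
    rw [e, Real.rpow_neg (by norm_num), Real.rpow_natCast, pow_add, pow_add, pow_mul]
    have e2 : ((2 : ℝ) ^ z) = Z := by rw [hZ]; push_cast; rfl
    rw [e2, div_div, one_div]
    refine inv_anti₀ (by positivity) ?_
    have h2 : (m : ℝ) ≤ 2 ^ l := by exact_mod_cast hl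
    have h3 : (0 : ℝ) ≤ (Z : ℝ) ^ (K - 2) := by positivity
    nlinarith
  have hsum : ∀ (p : ℕ), 1 ≤ p → ∑ i ∈ Finset.range K,
      (if p < i then 1 / (m * (Z : ℝ) ^ (i - 1)) * ((2 * (Λ * Z ^ (i - p - 1)) : ℕ) : ℝ) else 0) ≤
        1 / (m * (Z : ℝ) ^ (p - 1)) / 2 := by
    intro p hp
    have h2 : ∀ i ∈ Finset.range K, (if p < i then 1 / (m * (Z : ℝ) ^ (i - 1)) *
        ((2 * (Λ * Z ^ (i - p - 1)) : ℕ) : ℝ) else 0) ≤ 2 * Λ / (m * (Z : ℝ) ^ p) := by
      intro i _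
      split_ifs with hi
      · have e : (Z : ℝ) ^ (i - 1) = Z ^ p * Z ^ (i - p - 1) := by
          rw [← pow_add]
          congr 1
          omega
        rw [e]
        push_cast
        apply le_of_eq
        field_simp
      · positivity
    refine (Finset.sum_le_card_nsmul _ _ _ h2).trans ?_
    rw [Finset.card_range, nsmul_eq_mul]
    have e : (Z : ℝ) ^ p = Z ^ (p - 1) * Z := by
      rw [← pow_succ]
      congr 1
      omega
    rw [e]
    have h3 : (K : ℝ) * (2 * Λ / (m * (Z ^ (p - 1) * Z))) = (4 * K * Λ) / (2 * m * Z ^ (p - 1) * Z) := by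
      field_simp
      norm_num
    rw [h3, div_div, div_le_div_iff₀ (by positivity) (by positivity)]
    have h4 : (0 : ℝ) ≤ m * (Z : ℝ) ^ (p - 1) * 2 := by positivity
    nlinarith [mul_le_mul_of_nonneg_right h1R h4]
  obtain ⟨P, hP⟩ : ∃ P : SpK K (2 / (m : ℝ)), ∀ p, P.W.th p = Λ * Z ^ (p - 1) := by
    refine ⟨{
      W := {
        th := fun p => Λ * Z ^ (p - 1)
        a := fun i => if i = K then 0 else 1 / (m * (Z : ℝ) ^ (i - 1))
        D := fun _ => 0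
        net := fun i => 1 / (m * (Z : ℝ) ^ (i - 1)) / 2
        one_le_th := ?_
        a_nonneg := ?_
        net_pos := ?_
        net_le := ?_
        kraft := ?_ }
      top := by simp
      hγ := by positivity
      η := 1 / (m * (Z : ℝ) ^ (K - 2)) / 2
      κ := max 1 (Λ / (2 * m))
      η_pos := by positivity
      η_le_κ := ?_
      charge1 := ?_
      charge2 := ?_
      small := ?_ }, fun _ => rfl⟩
    · intro p
      exact Nat.mul_pos hΛ1 (Nat.pow_pos hZ1)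
    · intro i
      split_ifs
      · exact le_rfl
      · exact (ha _).le
    · intro p _ _
      have := ha (p - 1)
      positivity
    · intro p hp hpK
      rw [if_neg (by omega), Finset.sum_range_succ]
      have e : ∀ i ∈ Finset.range K, (if p < i then (if i = K then 0 else 1 / (m * (Z : ℝ) ^ (i - 1))) *
          (if i < K then ((2 * (Λ * Z ^ (i - p - 1)) : ℕ) : ℝ) else (((fun _ => 0 : ℕ → ℕ) p : ℕ) : ℝ))
            else 0) =
          (if p < i then 1 / (m * (Z : ℝ) ^ (i - 1)) * ((2 * (Λ * Z ^ (i - p - 1)) : ℕ) : ℝ) else 0) := by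
        intro i hi
        rw [Finset.mem_range] at hi
        rw [if_neg (show ¬ i = K by omega), if_pos hi]
      rw [Finset.sum_congr rfl e]
      have := hsum p hp
      simp only [if_true, zero_mul, ite_self, add_zero]
      linarith
    · intro c p hp hpc hc
      rw [hthnet p]
      have h2 : (2 : ℝ) ^ (-(1 / (m * (Z : ℝ) ^ (c - p - 1)) / 2)) ≤
          1 - 1 / (m * (Z : ℝ) ^ (c - p - 1)) / 2 / 2 := two_rpow_neg_le (by
          have := ha (c - p - 1); positivity) (by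
          have := hle1 (c - p - 1); linarith)
      have h3 := hanti (c - p - 1) (K - 2) (by omega)
      linarith
    · refine le_trans ?_ (le_max_left _ _)
      have := hle1 (K - 2)
      linarith
    · intro p hp hpK
      constructor
      · have := hanti (p - 1) (K - 2) (by omega)
        linarith
      · refine le_trans ?_ (le_max_left _ _)
        have := hle1 (p - 1)
        have := ha (p - 1)
        linarith
    · intro p hp hpK
      simp only
      rw [hthnet p]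
      refine ⟨?_, le_max_right _ _⟩
      have h2 : (1 : ℝ) / 2 ≤ Λ / (2 * m) := by
        have e : (Λ : ℝ) / (2 * m) = ((z * (K - 2) + 2 + l : ℕ) : ℝ) := by
          rw [hΛ]
          push_cast
          field_simp
        rw [e]
        have : (1 : ℝ) ≤ ((z * (K - 2) + 2 + l : ℕ) : ℝ) := by
          exact_mod_cast (by omega : 1 ≤ z * (K - 2) + 2 + l)
        linarith
      have := hle1 (K - 2)
      linarith
    · have h2 : ∀ i ∈ Finset.range K, (if i = K then 0 else 1 / (m * (Z : ℝ) ^ (i - 1))) *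
          (if i = 0 then 0 else if i = 1 then (1 : ℝ) else ((2 * (Λ * Z ^ (i - 1 - 1)) : ℕ) : ℝ)) =
          (if i = 1 then 1 / (m : ℝ) else 0) +
          (if 1 < i then 1 / (m * (Z : ℝ) ^ (i - 1)) * ((2 * (Λ * Z ^ (i - 1 - 1)) : ℕ) : ℝ)
            else 0) := by
        intro i hi
        rw [Finset.mem_range] at hi
        rw [if_neg (show ¬ i = K by omega)]
        rcases Nat.lt_or_ge 1 i with h | h
        · rw [if_neg (show ¬ i = 0 by omega), if_neg (show ¬ i = 1 by omega),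
            if_neg (show ¬ i = 1 by omega), if_pos h]
          linarith
        · rw [if_neg (show ¬ 1 < i by omega)]
          have : i = 0 ∨ i = 1 := by omega
          rcases this with rfl | rfl
          · simp
          · simp
      refine (le_of_eq (Finset.sum_congr rfl h2)).trans ?_
      rw [Finset.sum_add_distrib]
      have h3 := hsum 1 le_rfl
      have h4 : ∑ i ∈ Finset.range K, (if i = 1 then 1 / (m : ℝ) else 0) ≤ 1 / m := by
        rw [Finset.sum_ite_eq']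
        split_ifs
        · exact le_rfl
        · positivity
      simp only [Nat.sub_self, pow_zero, mul_one] at h3
      have h5 : (0 : ℝ) < 1 / m := by positivity
      have h6 : (2 : ℝ) / m = 2 * (1 / m) := by ring
      rw [h6]
      linarith
  refine ⟨P, ?_⟩
  have e : P.Kc = ∑ i ∈ Finset.range (K + 1), (if i ≤ 1 then 1 else Λ * Z ^ (i - 1 - 1)) := by
    unfold SpK.Kc
    refine Finset.sum_congr rfl fun i _ => ?_
    rw [hP]
  rw [e]
  have h8 : 8 * Λ ≤ Z := by nlinarith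
  refine (geom_le hK hΛ1 h8).trans (le_of_eq ?_)
  rw [hZ, pow_mul]

end H40.SP

/-! ### Ui -/

namespace H40.SP

open Pool.Agent.H14.ETH

theorem exists_spK3 (K m : ℕ) (hK : 2 ≤ K) (hm : 1 ≤ m) :
    ∃ P : SpK K (2 / (m : ℝ)), (P.Kc : ℝ) ≤ (200 * K ^ 2 * m * Real.log (2 * K * m)) ^ (K - 1) := by
  obtain ⟨z, l, hl, hz, hz2⟩ := exists_z K m hK hm
  obtain ⟨P, hP⟩ := exists_spK2 hK hm hl hz
  refine ⟨P, ?_⟩
  have hN : 2 ≤ K * m := by
    calc 2 = 2 * 1 := rfl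
      _ ≤ K * m := Nat.mul_le_mul hK hm
  have h1 := clog_le hN
  have h2 : ((2 : ℝ) ^ z) ≤ 64 * K ^ 2 * m * ((Nat.clog 2 (K * m) : ℝ) + 2) := by
    exact_mod_cast hz2
  have h3 : (2 : ℝ) * ((K * m : ℕ) : ℝ) = 2 * K * m := by
    push_cast
    ring
  rw [h3] at h1
  have h4 : ((2 : ℝ) ^ z) ≤ 200 * K ^ 2 * m * Real.log (2 * K * m) := by
    refine h2.trans ?_
    have h5 : (0 : ℝ) ≤ (K : ℝ) ^ 2 * m := by positivity
    have h6 := mul_le_mul_of_nonneg_left h1 h5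
    linarith
  have h7 : (P.Kc : ℝ) ≤ ((2 : ℝ) ^ z) ^ (K - 1) := by
    rw [← pow_mul]
    exact_mod_cast hP
  exact h7.trans (pow_le_pow_left₀ (by positivity) h4 _)

theorem ceil_bounds {ε : ℝ} (hε : 0 < ε) (hε1 : ε ≤ 1) :
    1 ≤ ⌈4 / ε⌉₊ ∧ 4 / ε ≤ (⌈4 / ε⌉₊ : ℝ) ∧ (⌈4 / ε⌉₊ : ℝ) ≤ 5 / ε := by
  have h1 : (1 : ℝ) ≤ 1 / ε := by
    rw [le_div_iff₀ hε]
    linarith
  have h4 : (4 : ℝ) / ε = 4 * (1 / ε) := by ring
  have h5 : (5 : ℝ) / ε = 5 * (1 / ε) := by ring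
  have hle := Nat.le_ceil (4 / ε)
  refine ⟨?_, hle, ?_⟩
  · have : (0 : ℝ) < (⌈4 / ε⌉₊ : ℝ) := by linarith
    have h6 : 0 < ⌈4 / ε⌉₊ := by exact_mod_cast this
    exact h6
  · have h7 := Nat.ceil_lt_add_one (a := 4 / ε) (by linarith)
    linarith

theorem log_bound {x : ℝ} (hx : 4 ≤ x) : Real.log (5 * x) ≤ 13 / 6 * Real.log x := by
  rw [Real.log_mul (by norm_num) (by linarith)]
  have h1 : 6 * Real.log 5 ≤ 7 * Real.log 4 := by
    have e1 : 6 * Real.log 5 = Real.log (5 ^ 6) := by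
      rw [Real.log_pow]
      norm_num
    have e2 : 7 * Real.log 4 = Real.log (4 ^ 7) := by
      rw [Real.log_pow]
      norm_num
    rw [e1, e2]
    exact Real.log_le_log (by norm_num) (by norm_num)
  have h2 : Real.log 4 ≤ Real.log x := Real.log_le_log (by norm_num) hx
  linarith

theorem exists_spK_eps {K : ℕ} {ε : ℝ} (hK : 2 ≤ K) (hε : 0 < ε) (hε1 : ε ≤ 1) :
    ∃ m : ℕ, 2 / (m : ℝ) ≤ ε / 2 ∧ ∃ P : SpK K (2 / (m : ℝ)),
      (P.Kc : ℝ) ≤ (2200 * K ^ 2 * Real.log (2 * K / ε) / ε) ^ (K - 1) := by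
  obtain ⟨hm1, hm4, hm5⟩ := ceil_bounds hε hε1
  refine ⟨⌈4 / ε⌉₊, ?_, ?_⟩
  · have h4 : (0 : ℝ) < 4 / ε := by positivity
    calc 2 / (⌈4 / ε⌉₊ : ℝ) ≤ 2 / (4 / ε) := div_le_div_of_nonneg_left (by norm_num) h4 hm4
      _ = ε / 2 := by
        field_simp
        norm_num
  obtain ⟨P, hP⟩ := exists_spK3 K ⌈4 / ε⌉₊ hK hm1
  refine ⟨P, hP.trans ?_⟩
  have hKR : (2 : ℝ) ≤ K := by exact_mod_cast hK
  have hmR : (1 : ℝ) ≤ (⌈4 / ε⌉₊ : ℝ) := by exact_mod_cast hm1
  have hx : (4 : ℝ) ≤ 2 * K / ε := by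
    rw [le_div_iff₀ hε]
    nlinarith
  have hl1 : Real.log (2 * K * (⌈4 / ε⌉₊ : ℝ)) ≤ 13 / 6 * Real.log (2 * K / ε) := by
    refine le_trans (Real.log_le_log (by positivity) ?_) (log_bound hx)
    have h1 := mul_le_mul_of_nonneg_left hm5 (show (0 : ℝ) ≤ 2 * K by positivity)
    refine h1.trans (le_of_eq ?_)
    ring
  have hl0 : 0 ≤ Real.log (2 * K * (⌈4 / ε⌉₊ : ℝ)) := by
    apply Real.log_nonneg
    nlinarith
  have hl2 : 0 ≤ Real.log (2 * K / ε) := Real.log_nonneg (by linarith)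
  apply pow_le_pow_left₀
  · positivity
  · calc 200 * (K : ℝ) ^ 2 * (⌈4 / ε⌉₊ : ℝ) * Real.log (2 * K * (⌈4 / ε⌉₊ : ℝ))
        ≤ 200 * (K : ℝ) ^ 2 * (5 / ε) * (13 / 6 * Real.log (2 * K / ε)) := by
          apply mul_le_mul _ hl1 hl0 (by positivity)
          exact mul_le_mul_of_nonneg_left hm5 (by positivity)
      _ = (6500 / 3) * ((K : ℝ) ^ 2 * Real.log (2 * K / ε) / ε) := by ring
      _ ≤ 2200 * ((K : ℝ) ^ 2 * Real.log (2 * K / ε) / ε) :=
          mul_le_mul_of_nonneg_right (by norm_num) (by positivity)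
      _ = 2200 * (K : ℝ) ^ 2 * Real.log (2 * K / ε) / ε := by ring

end H40.SP

/-! ### Uj -/

/-!
Row Uj: the upper bound.
-/



namespace H40.SP

theorem Sparse.mono {V : Type} {F : Fml V} {w : ℕ} {m L m' L' : ℝ} (h : Sparse F w m L)
    (hm : m ≤ m') (hL : L ≤ L') : Sparse F w m' L' := by
  obtain ⟨𝒢, h1, h2, h3⟩ := h
  exact ⟨𝒢, h1.trans hm, fun G hG => ⟨(h2 G hG).1, (h2 G hG).2.trans hL⟩, h3⟩

theorem upper {k : ℕ} {ε : ℝ} (hk : 2 ≤ k) (hε : 0 < ε) (hε1 : ε ≤ 1) :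
    ∃ n₀ : ℕ, ∀ n ≥ n₀, ∀ F : Fml (Fin n), Width k F →
      Sparse F k ((2 : ℝ) ^ (ε * n)) ((5000 * k ^ 2 * Real.log (2 * k / ε) / ε) ^ (k - 1) * n) := by
  obtain ⟨m, hγ, P, hP⟩ := exists_spK_eps hk hε hε1
  have hκ : 0 ≤ P.κ := P.η_pos.le.trans P.η_le_κ
  refine ⟨⌈2 * P.κ / ε⌉₊ + k, fun n hn F hF => ?_⟩
  have hn1 : 2 * P.κ / ε + k ≤ n := by
    have h1 := Nat.le_ceil (2 * P.κ / ε)
    have h2 : ((⌈2 * P.κ / ε⌉₊ + k : ℕ) : ℝ) ≤ n := by exact_mod_cast hn
    push_cast at h2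
    linarith
  have hn2 : 2 * P.κ + ε * k ≤ ε * n := by
    have h3 := mul_le_mul_of_nonneg_left hn1 hε.le
    have h4 : ε * (2 * P.κ / ε) = 2 * P.κ := by field_simp
    rw [mul_add, h4] at h3
    exact h3
  have hkn : (k : ℝ) ≤ n := by
    have h5 : 0 ≤ 2 * P.κ / ε := by positivity
    linarith
  have hn0 : (0 : ℝ) ≤ n := Nat.cast_nonneg n
  have hk0 : (0 : ℝ) ≤ k := Nat.cast_nonneg k
  refine (sparse_of_spK P hk hF).mono ?_ ?_
  · apply Real.rpow_le_rpow_of_exponent_le one_le_two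
    have h6 : 2 / (m : ℝ) * (n + k) ≤ ε / 2 * (n + k) :=
      mul_le_mul_of_nonneg_right hγ (by positivity)
    nlinarith
  · have hk2 : (2 : ℝ) ≤ k := by exact_mod_cast hk
    have hL : 0 ≤ Real.log (2 * k / ε) := by
      apply Real.log_nonneg
      rw [le_div_iff₀ hε]
      linarith
    generalize Real.log (2 * k / ε) = L at hL hP ⊢
    have h7 : 0 ≤ 2200 * (k : ℝ) ^ 2 * L / ε := by positivity
    have h8 : (2 : ℝ) ≤ 2 ^ (k - 1) := by
      calc (2 : ℝ) = 2 ^ 1 := (pow_one _).symm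
        _ ≤ 2 ^ (k - 1) := pow_le_pow_right₀ one_le_two (by omega)
    calc (P.Kc : ℝ) * (n + k) ≤ (2200 * (k : ℝ) ^ 2 * L / ε) ^ (k - 1) * (2 * n) :=
          mul_le_mul hP (by linarith) (by positivity) (by positivity)
      _ = (2 * (2200 * (k : ℝ) ^ 2 * L / ε) ^ (k - 1)) * n := by ring
      _ ≤ (2 ^ (k - 1) * (2200 * (k : ℝ) ^ 2 * L / ε) ^ (k - 1)) * n := by
          exact mul_le_mul_of_nonneg_right
            (mul_le_mul_of_nonneg_right h8 (by positivity)) hn0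
      _ = (2 * (2200 * (k : ℝ) ^ 2 * L / ε)) ^ (k - 1) * n := by rw [mul_pow]
      _ ≤ (5000 * (k : ℝ) ^ 2 * L / ε) ^ (k - 1) * n := by
          refine mul_le_mul_of_nonneg_right (pow_le_pow_left₀ (by positivity) ?_ _) hn0
          have h9 : 0 ≤ (k : ℝ) ^ 2 * L / ε := by positivity
          have e1 : 2 * (2200 * (k : ℝ) ^ 2 * L / ε) = 4400 * ((k : ℝ) ^ 2 * L / ε) := by ring
          have e2 : 5000 * (k : ℝ) ^ 2 * L / ε = 5000 * ((k : ℝ) ^ 2 * L / ε) := by ring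
          rw [e1, e2]
          linarith

end H40.SP
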