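import Pool.Agent.H14.EquivK
import Pool.Agent.H40.OS.Low
import Pool.Agent.H40.OS.Up

/-!
# The exponents
-/

set_option autoImplicit false

/-! ### SDefs -/

namespace H40.SP

open Pool.Agent.H14.ETH

/-- Make a 3-CNF of a CNF with clauses of length at most `r + 3`: in each step the clauses of maximal
length are split. -/
def to3 : ℕ → Nd1 → Nd1
  | 0, N => N
  | r + 1, N => to3 r (toK (r + 3) N.1 N.2)

/-- The output at a leaf. -/
def outQ3 (r : ℕ) (N : Nd1) : List Sym :=
  if deadL N.2 then encodeCNF 0 [[]] else encodeCNF (to3 r N).1 (to3 r N).2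

end H40.SP

/-! ### Sa -/

namespace H40.SP

open Pool.Agent.H14.ETH

theorem Sa_dedup (L : LFam) : ∀ acc : LFam,
    (L.foldl (fun acc C => if acc.any (fun D => setEq C D) then acc else C :: acc) acc).length ≤
      acc.length + L.length := by
  induction L with
  | nil =>
    intro acc
    exact Nat.le_refl _
  | cons C L ih =>
    intro acc
    rw [List.foldl_cons, List.length_cons]
    split
    · exact (ih acc).trans (by omega)
    · refine (ih (C :: acc)).trans ?_
      rw [List.length_cons]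
      omega

theorem Sa_split (k z : ℕ) (C : List Lit) : (splitK k z C).length ≤ 2 := by
  unfold splitK
  split
  · exact (by decide : 1 ≤ 2)
  · exact Nat.le_refl _

theorem length_toK (k n : ℕ) (L : LFam) : (toK k n L).2.length ≤ 2 * L.length := by
  have h1 : (toK k n L).2 = dedupF ((splitKL k n L).map dedupC) := rfl
  have h2 : (dedupF ((splitKL k n L).map dedupC)).length ≤ ((splitKL k n L).map dedupC).length := by
    have h3 := Sa_dedup ((splitKL k n L).map dedupC) []
    rw [List.length_nil, zero_add] at h3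
    exact h3
  have h4 : (splitKL k n L).length ≤ 2 * L.length := by
    unfold splitKL
    rw [List.length_flatMap]
    refine (List.sum_le_card_nsmul _ 2 ?_).trans ?_
    · intro m hm
      obtain ⟨i, -, rfl⟩ := List.mem_map.1 hm
      exact Sa_split _ _ _
    · rw [List.length_map, List.length_range, smul_eq_mul, mul_comm]
  rw [h1]
  refine h2.trans ?_
  rw [List.length_map]
  exact h4

theorem to3_spec {r : ℕ} (hr : 1 ≤ r) {n : ℕ} {L : LFam} (hlen : ∀ C ∈ L, C.length ≤ r + 3)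
    (hvar : ∀ C ∈ L, ∀ l ∈ C, l.1 < n) : IsCNF 3 (to3 r (n, L)).1 (to3 r (n, L)).2 ∧
      (Satisfiable (to3 r (n, L)).2 ↔ Satisfiable L) ∧
      (to3 r (n, L)).1 + L.length ≤ n + 2 ^ r * L.length := by
  induction r, hr using Nat.le_induction generalizing n L with
  | base =>
    have h1 : to3 1 (n, L) = toK 3 n L := rfl
    rw [h1]
    obtain ⟨h2, h3⟩ := toK_spec (k := 3) (n := n) (le_refl 3) hlen hvar
    refine ⟨h2, h3, ?_⟩
    have h4 : (toK 3 n L).1 = n + L.length := rfl
    rw [h4]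
    omega
  | succ r hr ih =>
    have h1 : to3 (r + 1) (n, L) = to3 r (toK (r + 3) n L) := rfl
    rw [h1]
    obtain ⟨h2, h3⟩ := toK_spec (k := r + 3) (n := n) (L := L) (by omega)
      (fun C hC => (hlen C hC).trans (by omega)) hvar
    have h4 : (toK (r + 3) n L).1 = n + L.length := rfl
    have h5 := length_toK (r + 3) n L
    obtain ⟨h6, h7, h8⟩ := ih (n := (toK (r + 3) n L).1) (L := (toK (r + 3) n L).2)
      (fun C hC => (h2.1 C hC).2.1) (fun C hC => (h2.1 C hC).2.2)
    refine ⟨h6, h7.trans h3, ?_⟩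
    have h9 : ((toK (r + 3) n L).1, (toK (r + 3) n L).2) = toK (r + 3) n L := rfl
    rw [h9] at h8
    obtain ⟨q, hq⟩ : ∃ q, q + 1 = 2 ^ r := ⟨2 ^ r - 1, by
      have := Nat.one_le_two_pow (n := r)
      omega⟩
    rw [h4, ← hq] at h8
    have h10 : 2 ^ (r + 1) = 2 * (q + 1) := by rw [pow_succ, hq, mul_comm]
    rw [h10]
    have h11 : (q + 1) * (toK (r + 3) n L).2.length =
        q * (toK (r + 3) n L).2.length + (toK (r + 3) n L).2.length := by ring
    have h12 : q * (toK (r + 3) n L).2.length ≤ q * (2 * L.length) := Nat.mul_le_mul_left q h5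
    have h13 : 2 * (q + 1) * L.length = q * (2 * L.length) + 2 * L.length := by ring
    rw [h11] at h8
    rw [h13]
    omega

end H40.SP

/-! ### Sb -/

namespace Pool.Agent.H83.E14

open Pool.Agent.H14 Pool.Agent.H14.ETH Pool.Agent.H14.XCmd Turing H40.SP

theorem pTo3 (r : ℕ) : Poly (to3 r) := by
  induction r with
  | zero => exact (Poly.fst.pair Poly.snd).congr fun N => rfl
  | succ r ih => exact (ih.comp (pToK (r + 3) Poly.fst Poly.snd)).congr fun N => rfl

theorem pOutQ3 (r : ℕ) : Poly (outQ3 r) := by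
  refine (Poly.cond (c := fun N : Nd1 => deadL N.2) (f := fun _ : Nd1 => encodeCNF 0 [[]])
    (g := fun N : Nd1 => encodeCNF (to3 r N).1 (to3 r N).2)
    (pDeadL Poly.snd) (Poly.const _) ?_).congr fun N => ?_
  · exact pEncodeCNF (Poly.fst' (pTo3 r)) (Poly.snd' (pTo3 r))
  · unfold outQ3
    cases deadL N.2 <;> rfl

end Pool.Agent.H83.E14

/-! ### Sc -/

namespace H40.SP

open Pool.Agent.H14.ETH

theorem leaf_spec3 {r : ℕ} (hr : 1 ≤ r) {γ : ℝ} (P : SpK (r + 3) γ) {ε : ℝ} (hε : 0 ≤ ε) {m : ℕ}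
    {N : Nd1} (h : P.Pre m N) (hl : P.leafQ N = true) : ∃ (n' : ℕ) (G : LFam),
      outQ3 r N = encodeCNF n' G ∧ IsCNF 3 n' G ∧ (Satisfiable G ↔ Satisfiable N.2) ∧
      ε * n' ≤ P.potN (ε * (1 + 2 ^ r * P.Kc)) N := by
  classical
  obtain ⟨n, L⟩ := N
  obtain ⟨h1, h2⟩ := h
  simp only at h1 h2
  subst h1
  by_cases hd : Dead (toF L)
  · refine ⟨0, [[]], ?_, ?_, ?_, ?_⟩
    · unfold outQ3
      simp only [(deadL_iff h2.linv).2 hd, if_true]
    · refine ⟨fun C hC => ?_, by simp⟩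
      rw [List.mem_singleton] at hC
      subst hC
      simp
    · constructor
      · rintro ⟨v, hv⟩
        obtain ⟨l, hl, _⟩ := hv [] (by simp)
        simp at hl
      · intro hs
        exact absurd hs (not_satisfiable_of_dead hd)
    · unfold SpK.potN
      simp only [if_pos hd]
      simp
  · have hdL : deadL L = false := by rw [← Bool.not_eq_true, deadL_iff h2.linv]; exact hd
    have hhits : hitsAll P.W.th (rulesList (r + 3)) L = [] := by
      unfold SpK.leafQ at hl
      simpa [hdL] using hl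
    have hno : ∀ c p, 1 ≤ p → p < c → c ≤ r + 3 → NoHit P.W.th c p (toF L) :=
      fun c p a b c' => h2.noHit hhits a b c'
    have hlen : ∀ C ∈ L, C.length ≤ r + 3 := by
      intro C hC
      rw [← h2.linv.card_eq hC]
      exact (h2.inv.size _ (toF_mem hC)).2
    have hvar : ∀ C ∈ L, ∀ l ∈ C, l.1 < n := by
      intro C hC l hl
      exact mem_lits.1 (h2.inv.ov _ (toF_mem hC) (List.mem_toFinset.2 hl))
    obtain ⟨r1, r2, r3⟩ := to3_spec hr hlen hvar
    refine ⟨_, _, ?_, r1, r2, ?_⟩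
    · unfold outQ3
      simp only [hdL, Bool.false_eq_true, if_false]
    · unfold SpK.potN
      simp only [if_neg hd]
      have hκ := P.κ_le_pot (B := ε * (1 + 2 ^ r * P.Kc)) h2.inv hd
      have hκ0 := P.κ_nonneg
      have hcard : L.length = ∑ i ∈ Finset.range (r + 3 + 1), num (toF L) i := by
        have h1 := wgt_eq_sum (a := fun _ => 1) (𝒞 := toF L) (k := r + 3)
          (fun C hC => (h2.inv.size C hC).2)
        unfold wgt at h1
        simp only [one_mul, Finset.sum_const, nsmul_eq_mul, mul_one] at h1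
        rw [card_toF h2.linv] at h1
        exact_mod_cast h1
      have hL : L.length ≤ P.Kc * n := by
        rw [hcard]
        unfold SpK.Kc
        rw [Finset.sum_mul]
        refine Finset.sum_le_sum fun i hi => ?_
        rw [Finset.mem_range] at hi
        split_ifs with h1
        · rw [one_mul]
          have : i = 0 ∨ i = 1 := by omega
          rcases this with rfl | rfl
          · rw [P.num_zero h2.inv]; omega
          · exact num_one_le h2.inv.ov hd
        · exact P.W.num_le_of_noHit h2.inv (c := i) (by omega)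
            (hno i (i - 1) (by omega) (by omega) (by omega))
      have h3 : (to3 r (n, L)).1 ≤ n + 2 ^ r * (P.Kc * n) :=
        ((Nat.le_add_right _ _).trans r3).trans (Nat.add_le_add_left (Nat.mul_le_mul_left _ hL) _)
      have h4 : ((to3 r (n, L)).1 : ℝ) ≤ (1 + 2 ^ r * P.Kc) * n := by
        have h5 : ((to3 r (n, L)).1 : ℝ) ≤ n + 2 ^ r * (P.Kc * n) := by exact_mod_cast h3
        linarith
      have h5 : ε * ((to3 r (n, L)).1 : ℝ) ≤ ε * (1 + 2 ^ r * P.Kc) * n := by
        rw [mul_assoc]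
        exact mul_le_mul_of_nonneg_left h4 hε
      linarith

end H40.SP

/-! ### Sd -/

namespace Pool.Agent.H83.E14

open Pool.Agent.H14 Pool.Agent.H14.ETH Pool.Agent.H14.ETH.SpK Pool.Agent.H14.XCmd Turing H40.SP

theorem of_three {r : ℕ} (hr : 1 ≤ r) {γ ε : ℝ} (P : SpK (r + 3) γ) (hε : 0 ≤ ε)
    (h3 : SolvableIn 3 ε) {ρ' : ℝ} (hρ : ε * (1 + 2 ^ r * P.Kc) + γ < ρ') :
    SolvableIn (r + 3) ρ' := by
  classical
  obtain ⟨M, c, hM⟩ := h3
  have hη := P.η_pos
  have hγ := P.hγ
  set C : ℝ := max c 1 with hC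
  have hC1 : 1 ≤ C := le_max_right _ _
  have hcC : c ≤ C := le_max_left _ _
  set B : ℝ := ε * (1 + 2 ^ r * P.Kc) with hB
  have hB0 : 0 ≤ B := by positivity
  set K1 : ℕ := ⌈(P.κ + (B + γ) * (r + 3)) / P.η⌉₊ with hK1
  set K2 : ℕ := ⌈(B + γ) / P.η⌉₊ with hK2
  set D : ℝ := (2 : ℝ) ^ (P.κ + (B + γ) * (r + 3)) with hD
  have hD0 : 0 < D := by positivity
  refine solvableIn_of_eval (M := M) (isLeaf := P.leafQ) (childA := P.chA) (childB := P.chB)
    (out := (outQ3 r)) (init := (rootK (r + 3))) (pLeafQK P) (pChAK P) (pChBK P) (pOutQ3 r) (pRootK (r + 3))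
    (C := max C 2 * D) (ρ := B + γ)
    (q := fun n => (szBK (r + 3) (n + (r + 3)) + (K1 + K2 * n)) +
      (n + ((r + 3 + 1) * (2 * n + 1) ^ (r + 3)) * ((r + 3) * n + 1))) ?_ ?_ hρ
  · refine (((szBK_PB (r + 3)).comp (PB.id.add (PB.const (r + 3)))).add ((PB.const K1).add
      ((PB.const K2).mul PB.id))).add (PB.id.add ((PB.const (r + 3 + 1)).mul
        ((((PB.const 2).mul PB.id).add (PB.const 1)).pow (r + 3)) |>.mul
          (((PB.const (r + 3)).mul PB.id).add (PB.const 1))))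
  · intro n F hF
    have hroot : (rootK (r + 3)) (encodeCNF n F) = (n + (r + 3), initF (r + 3) n F) := by
      unfold rootK
      rw [parse_encodeCNF]
    have hpre := rootK_pre (by omega) P hF
    have key := eval_of_pot (M := M) (isLeaf := P.leafQ) (childA := P.chA) (childB := P.chB)
      (out := (outQ3 r)) (S := szBK (r + 3) (n + (r + 3))) (P.Pre (n + (r + 3))) (P.potN B)
      (fun N => decide (Satisfiable N.2)) (η := P.η) (C := C) hη
      (fun N hN => sz_nodeK_le hN) (fun N hN => P.potN_nonneg hB0 hN) ?_ ?_ (by linarith)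
      _ hpre
    · obtain ⟨t, cc, d, he, ht, hcc, hd⟩ := key
      have hans : (decide (Satisfiable (initF (r + 3) n F))) = decide (Satisfiable F) :=
        decide_eq_decide.2 (satisfiable_initF hF)
      have hpot : P.potN B (n + (r + 3), initF (r + 3) n F) ≤ P.κ + (B + γ) * (n + (r + 3)) := by
        unfold potN
        split_ifs with hdead
        · have := P.κ_nonneg
          have : 0 ≤ (B + γ) * (n + (r + 3)) := by positivity
          linarith
        · unfold pot
          have hw : 0 ≤ wgt P.W.a (toF (initF (r + 3) n F)) :=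
            Finset.sum_nonneg fun X _ => P.W.a_nonneg _
          push_cast
          linarith
      have h2pot : (2 : ℝ) ^ P.potN B (n + (r + 3), initF (r + 3) n F) ≤ D * (2 : ℝ) ^ ((B + γ) * n) := by
        rw [hD, ← Real.rpow_add (by norm_num)]
        refine Real.rpow_le_rpow_of_exponent_le (by norm_num) ?_
        linarith
      have hX : (0 : ℝ) ≤ D * (2 : ℝ) ^ ((B + γ) * n) := by positivity
      have hlen := length_encodeCNF_le hF
      refine ⟨t, cc, d, szBK (r + 3) (n + (r + 3)), ?_, ?_, ?_, ?_, ?_, ?_⟩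
      · rw [hroot]
        have e : @decide (Satisfiable F) (Classical.propDecidable _) = decide (Satisfiable F) := by
          congr
        rw [e, ← hans]
        exact he
      · calc (t : ℝ) ≤ C * (2 : ℝ) ^ P.potN B (n + (r + 3), initF (r + 3) n F) := ht
          _ ≤ C * (D * (2 : ℝ) ^ ((B + γ) * n)) := mul_le_mul_of_nonneg_left h2pot (by linarith)
          _ ≤ max C 2 * (D * (2 : ℝ) ^ ((B + γ) * n)) :=
            mul_le_mul_of_nonneg_right (le_max_left _ _) hX
          _ = _ := by ring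
      · calc (cc : ℝ) ≤ 2 * (2 : ℝ) ^ P.potN B (n + (r + 3), initF (r + 3) n F) := by linarith
          _ ≤ 2 * (D * (2 : ℝ) ^ ((B + γ) * n)) := mul_le_mul_of_nonneg_left h2pot (by linarith)
          _ ≤ max C 2 * (D * (2 : ℝ) ^ ((B + γ) * n)) :=
            mul_le_mul_of_nonneg_right (le_max_right _ _) hX
          _ = _ := by ring
      · have h1 : (d : ℝ) ≤ K1 + K2 * n := by
          have h2 : (d : ℝ) ≤ (P.κ + (B + γ) * (n + (r + 3))) / P.η :=
            hd.trans (div_le_div_of_nonneg_right hpot hη.le)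
          have h3 : (P.κ + (B + γ) * (n + (r + 3))) / P.η =
              (P.κ + (B + γ) * (r + 3)) / P.η + (B + γ) / P.η * n := by
            field_simp
            ring
          have h4 := Nat.le_ceil ((P.κ + (B + γ) * (r + 3)) / P.η)
          have h5 := mul_le_mul_of_nonneg_right (Nat.le_ceil ((B + γ) / P.η))
            (Nat.cast_nonneg (α := ℝ) n)
          rw [h3] at h2
          linarith
        have h6 : d ≤ K1 + K2 * n := by exact_mod_cast h1
        omega
      · omega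
      · omega
    · intro N hN hl
      obtain ⟨n', G, h1, h2, h3, h4⟩ := leaf_spec3 hr P hε hN hl
      obtain ⟨t, ht, hans⟩ := hM n' G h2
      refine ⟨t, ?_, ?_⟩
      · rw [h1]
        have e : decide (Satisfiable N.2) = @decide (Satisfiable G) (Classical.propDecidable _) := by
          rw [decide_eq_decide]
          exact h3.symm
        rw [e]
        exact hans
      · refine ht.trans ?_
        have h5 : (2 : ℝ) ^ (ε * n') ≤ (2 : ℝ) ^ P.potN B N :=
          Real.rpow_le_rpow_of_exponent_le (by norm_num) h4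
        have h6 : (0 : ℝ) ≤ (2 : ℝ) ^ (ε * n') := by positivity
        calc c * (2 : ℝ) ^ (ε * n') ≤ C * (2 : ℝ) ^ (ε * n') := mul_le_mul_of_nonneg_right hcC h6
          _ ≤ _ := mul_le_mul_of_nonneg_left h5 (by linarith)
    · intro N hN hl
      obtain ⟨h1, h2, h3, x, y, h5⟩ := P.step_spec hB0 hN hl
      refine ⟨h1, h2, ?_, x, y, h5⟩
      rw [← Bool.decide_or]
      exact decide_eq_decide.2 h3

end Pool.Agent.H83.E14

/-! ### Se -/

namespace H40.SP

open Pool.Agent.H14.ETH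

theorem satExp_le_of_three {r : ℕ} (hr : 1 ≤ r) {γ : ℝ} (P : SpK (r + 3) γ) :
    satExp (r + 3) ≤ satExp 3 * (1 + 2 ^ r * P.Kc) + γ := by
  have hK : (0 : ℝ) < 1 + 2 ^ r * P.Kc := by positivity
  have key : ∀ ε ∈ expSet 3, (satExp (r + 3) - γ) / (1 + 2 ^ r * P.Kc) ≤ ε := by
    rintro ε ⟨hε0, hε⟩
    rw [div_le_iff₀ hK, sub_le_iff_le_add]
    refine le_of_forall_gt_imp_ge_of_dense fun ρ hρ => ?_
    have h0 : 0 ≤ ρ := by
      have e1 := P.hγ
      have e2 : 0 ≤ ε * (1 + 2 ^ r * P.Kc) := mul_nonneg hε0 hK.le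
      linarith
    exact satExp_le h0 (Pool.Agent.H83.E14.of_three hr P hε0 hε hρ)
  have h1 : (satExp (r + 3) - γ) / (1 + 2 ^ r * P.Kc) ≤ satExp 3 := by
    rw [satExp_eq 3]
    exact le_csInf (Pool.Agent.H83.B13.set_nonempty 3) key
  rw [div_le_iff₀ hK] at h1
  linarith

theorem exp_bound {k : ℕ} (hk : 3 ≤ k) (hs : 0 < satExp k) :
    (satExp k / (5000 * k ^ 2 * Real.log (2 * k / satExp k))) ^ k ≤ satExp 3 := by
  have hs1 : satExp k ≤ 1 := Pool.Agent.H83.B13.satExp_le_one k
  have hkR : (3 : ℝ) ≤ k := by exact_mod_cast hk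
  have hx : 6 ≤ 2 * (k : ℝ) / satExp k := by
    rw [le_div_iff₀ hs]
    nlinarith
  have hlam : 1 ≤ Real.log (2 * (k : ℝ) / satExp k) := by
    rw [Real.le_log_iff_exp_le (by linarith)]
    have := Real.exp_one_lt_d9
    linarith
  have hk2 : (9 : ℝ) ≤ (k : ℝ) ^ 2 := by nlinarith
  have hden : 1 ≤ 5000 * (k : ℝ) ^ 2 * Real.log (2 * k / satExp k) := by nlinarith
  have hq0 : 0 ≤ satExp k / (5000 * k ^ 2 * Real.log (2 * k / satExp k)) := by positivity
  have hqs : satExp k / (5000 * k ^ 2 * Real.log (2 * k / satExp k)) ≤ satExp k :=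
    div_le_self hs.le hden
  rcases Nat.lt_or_ge 3 k with h3 | h3
  · obtain ⟨r, rfl⟩ : ∃ r, k = r + 3 := ⟨k - 3, by omega⟩
    have hr : 1 ≤ r := by omega
    obtain ⟨m, hm, P, hP⟩ := exists_spK_eps (K := r + 3) (by omega) hs hs1
    have h1 := satExp_le_of_three hr P
    set s := satExp (r + 3) with hsdef
    set lam := Real.log (2 * ((r + 3 : ℕ) : ℝ) / s) with hlamdef
    set A : ℝ := 2200 * ((r + 3 : ℕ) : ℝ) ^ 2 * lam / s with hA
    have hA1 : 1 ≤ A := by
      rw [hA, le_div_iff₀ hs]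
      nlinarith
    have e0 : r + 3 - 1 = r + 2 := by omega
    rw [e0] at hP
    have hpow1 : (1 : ℝ) ≤ 2 ^ r * A ^ (r + 2) :=
      one_le_mul_of_one_le_of_one_le (one_le_pow₀ (by norm_num)) (one_le_pow₀ hA1)
    have h2 : 1 + 2 ^ r * (P.Kc : ℝ) ≤ 2 * (2 ^ r * A ^ (r + 2)) := by
      have : (2 : ℝ) ^ r * (P.Kc : ℝ) ≤ 2 ^ r * A ^ (r + 2) :=
        mul_le_mul_of_nonneg_left hP (by positivity)
      linarith
    have h3' : satExp 3 * (1 + 2 ^ r * (P.Kc : ℝ)) ≤ satExp 3 * (2 * (2 ^ r * A ^ (r + 2))) :=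
      mul_le_mul_of_nonneg_left h2 (satExp_nonneg 3)
    have h4 : s ≤ satExp 3 * (2 * A) ^ (r + 2) := by
      have e1 : satExp 3 * (2 * A) ^ (r + 2) = 2 * (satExp 3 * (2 * (2 ^ r * A ^ (r + 2)))) := by
        rw [mul_pow, pow_add 2 r 2]
        ring
      rw [e1]
      linarith
    have hq : s / (5000 * ((r + 3 : ℕ) : ℝ) ^ 2 * lam) ≤ 1 / (2 * A) := by
      rw [hA, div_le_div_iff₀ (by positivity) (by positivity), one_mul]
      have : s * (2 * (2200 * ((r + 3 : ℕ) : ℝ) ^ 2 * lam / s)) =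
          4400 * (((r + 3 : ℕ) : ℝ) ^ 2 * lam) := by
        field_simp
        ring
      rw [this]
      have : 0 ≤ ((r + 3 : ℕ) : ℝ) ^ 2 * lam := by positivity
      linarith
    calc (s / (5000 * ((r + 3 : ℕ) : ℝ) ^ 2 * lam)) ^ (r + 3)
        = (s / (5000 * ((r + 3 : ℕ) : ℝ) ^ 2 * lam)) ^ (r + 2) *
          (s / (5000 * ((r + 3 : ℕ) : ℝ) ^ 2 * lam)) := by rw [pow_succ]
      _ ≤ (1 / (2 * A)) ^ (r + 2) * s := by gcongr
      _ ≤ (1 / (2 * A)) ^ (r + 2) * (satExp 3 * (2 * A) ^ (r + 2)) :=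
          mul_le_mul_of_nonneg_left h4 (by positivity)
      _ = satExp 3 := by
          rw [one_div, inv_pow]
          have : (2 * A) ^ (r + 2) ≠ 0 := by positivity
          field_simp
  · obtain rfl : k = 3 := by omega
    calc (satExp 3 / (5000 * ((3 : ℕ) : ℝ) ^ 2 * Real.log (2 * ((3 : ℕ) : ℝ) / satExp 3))) ^ 3
        ≤ (satExp 3 / (5000 * ((3 : ℕ) : ℝ) ^ 2 * Real.log (2 * ((3 : ℕ) : ℝ) / satExp 3))) ^ 1 :=
          pow_le_pow_of_le_one hq0 (hqs.trans hs1) (by norm_num)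
      _ ≤ satExp 3 := by rw [pow_one]; exact hqs

end H40.SP

/-! ### Fin -/

namespace H40.SP

open Pool.Agent.H14.ETH

theorem main : ∃ C : ℝ, 0 < C ∧
    (∀ (k : ℕ) (ε : ℝ), 2 ≤ k → 0 < ε → ε ≤ 1 → ∃ n₀ : ℕ, ∀ n ≥ n₀, ∀ F : Fml (Fin n), Width k F →
      Sparse F k ((2 : ℝ) ^ (ε * n)) ((C * k ^ 2 * Real.log (2 * k / ε) / ε) ^ (k - 1) * n)) ∧
    (∀ (k w : ℕ) (ε : ℝ), 2 ≤ k → k ≤ w → 0 < ε → C * w * k ^ 2 * ε ≤ 1 →
      ∃ n₀ : ℕ, ∀ n ≥ n₀, ∃ F : Fml (Fin n), Width k F ∧
        ¬ Sparse F w ((2 : ℝ) ^ (ε * n)) ((1 / (C * w * k ^ 2 * ε)) ^ (k - 1) * n)) ∧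
    (∀ k : ℕ, 3 ≤ k → 0 < satExp k →
      (satExp k / (C * k ^ 2 * Real.log (2 * k / satExp k))) ^ k ≤ satExp 3) := by
  refine ⟨5000, by norm_num, fun k ε hk hε hε1 => upper hk hε hε1, ?_, fun k hk hs => exp_bound hk hs⟩
  intro k w ε hk hkw hε h
  have hkR : (2 : ℝ) ≤ k := by exact_mod_cast hk
  have hwR : (2 : ℝ) ≤ w := by exact_mod_cast (hk.trans hkw)
  have hp : (0 : ℝ) < w * k ^ 2 * ε := by positivity
  have e1 : (1024 : ℝ) * w * k ^ 2 * ε = 1024 * (w * k ^ 2 * ε) := by ring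
  have e2 : (5000 : ℝ) * w * k ^ 2 * ε = 5000 * (w * k ^ 2 * ε) := by ring
  obtain ⟨n₀, hn₀⟩ := lower hk hkw hε (by rw [e2] at h; rw [e1]; linarith)
  refine ⟨n₀, fun n hn => ?_⟩
  obtain ⟨F, hF, hS⟩ := hn₀ n hn
  refine ⟨F, hF, fun hS' => hS (hS'.mono le_rfl ?_)⟩
  refine mul_le_mul_of_nonneg_right (pow_le_pow_left₀ (by positivity) ?_ _) (Nat.cast_nonneg n)
  rw [e1, e2]
  exact one_div_le_one_div_of_le (by positivity) (by linarith)

end H40.SP
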