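import Pool.Agent.H40.OS.Sharp

/-!
# The sharp lower bound for CNFs of arbitrary clause width
-/

set_option autoImplicit false

/-! ### Defs -/

namespace H4.SX

open H40.SP H4.SL

variable {V : Type} {K s r B : ℕ}

/-- the vertex `q` of the edge of the coordinate `τ` -/
def vx (v : Fin B → Fin (K + 1) → Ix s r → V) (M : Fin B → Fr K s r) (τ : Fin (B * s)) (q : Fin (K + 1)) : V :=
  v (bk τ) q (edge (M (bk τ)) (ps τ) q)

open Classical in
/-- the assignment which is true on all vertices of the edges in `D`, and on all vertices but `j τ` of the edges `τ`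
outside `D` -/
noncomputable def big (v : Fin B → Fin (K + 1) → Ix s r → V) (M : Fin B → Fr K s r)
    (j : Fin (B * s) → Fin (K + 1)) (D : Finset (Fin (B * s))) (y : V) : Bool :=
  decide (∃ τ q, y = vx v M τ q ∧ (τ ∈ D ∨ q ≠ j τ))

open Classical in
/-- the states accepted by `G` -/
noncomputable def acc (v : Fin B → Fin (K + 1) → Ix s r → V) (M : Fin B → Fr K s r) (G : Fml V) :
    Finset (Fin (B * s) → Fin (K + 1)) :=
  Finset.univ.filter (fun j => Sat G (big v M j ∅))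

/-- labels of the variables of the blocks -/
abbrev Lb (B K s r : ℕ) : Type := Fin B × Fin (K + 1) × Ix s r

open Classical in
/-- the negated variables of `C` in the blocks outside `R` -/
noncomputable def ng (v : Fin B → Fin (K + 1) → Ix s r → V) (R : Finset (Fin B)) (C : Finset (V × Bool)) :
    Finset (Lb B K s r) :=
  Finset.univ.filter (fun u => u.1 ∉ R ∧ (v u.1 u.2.1 u.2.2, false) ∈ C)

/-- the label `u` is on an edge of the frames -/
def On (M : Fin B → Fr K s r) (u : Lb B K s r) : Prop := ∃ t, edge (M u.1) t u.2.1 = u.2.2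

open Classical in
/-- the exceptional frames: no set of at most `ℓ (k + 1)` new blocks covers the clauses of `𝒞` -/
noncomputable def Ex (v : Fin B → Fin (K + 1) → Ix s r → V) (𝒞 : List (Finset (V × Bool)))
    (R : Finset (Fin B)) (ℓ : ℕ) : Finset (Fin B → Fr K s r) :=
  Finset.univ.filter (fun M => ¬ ∃ R' : Finset (Fin B), R ⊆ R' ∧ R'.card ≤ R.card + ℓ * (K + 2) ∧
    ∀ C ∈ 𝒞, (∀ u ∈ ng v R C, On M u) → (ng v R' C).card ≤ K + 1)

open Classical in
/-- the clauses of `hf v` outside `R` which are served by `G` if the blocks in `R` are ignored -/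
noncomputable def sr (v : Fin B → Fin (K + 1) → Ix s r → V) (R : Finset (Fin B)) (G : Fml V) :
    Finset (Fin B × (Fin (K + 1) → Ix s r)) :=
  Finset.univ.filter (fun p => p.1 ∉ R ∧ Adm p.2 ∧
    ∃ C ∈ G, ng v R C = Finset.univ.image (fun q => ((p.1, q, p.2 q) : Lb B K s r)))

/-- the second part of the vertices -/
def rp (M : Fin B → Fr K s r) (β : Fin B) (t : Fin s) (q : Fin (K + 1)) : Vc r := (edge (M β) t q).2

/-- replace the second parts of the vertices -/
def rep (M : Fin B → Fr K s r) (g : Fin B → Fin s → Fin (K + 1) → Vc r) : Fin B → Fr K s r :=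
  fun β => ((M β).1, fun t => g β t 0, fun t q => g β t q.succ)

end H4.SX

/-! ### A -/

namespace H4.SX

lemma A_exp {x : ℝ} (h0 : 0 ≤ x) (h1 : 2 * x ≤ 1) : Real.exp (-2 * x) ≤ 1 - x := by
  have h2 : 1 + 2 * x ≤ Real.exp (2 * x) := by
    have := Real.add_one_le_exp (2 * x)
    linarith
  have h3 : Real.exp (-2 * x) * Real.exp (2 * x) = 1 := by
    rw [← Real.exp_add]
    simp
  have h4 : 0 < Real.exp (-2 * x) := Real.exp_pos _
  have h5 : Real.exp (-2 * x) * (1 + 2 * x) ≤ 1 := by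
    calc Real.exp (-2 * x) * (1 + 2 * x) ≤ Real.exp (-2 * x) * Real.exp (2 * x) :=
          mul_le_mul_of_nonneg_left h2 h4.le
      _ = 1 := h3
  have h6 : 1 ≤ (1 - x) * (1 + 2 * x) := by nlinarith
  have h7 : 0 < 1 + 2 * x := by linarith
  exact le_of_mul_le_mul_right (h5.trans h6) h7

lemma A_weier {ι : Type} [DecidableEq ι] (T : Finset ι) (x : ι → ℝ) (h0 : ∀ i ∈ T, 0 ≤ x i)
    (h1 : ∀ i ∈ T, x i ≤ 1) : 1 - ∑ i ∈ T, x i ≤ ∏ i ∈ T, (1 - x i) ∧
      0 ≤ ∏ i ∈ T, (1 - x i) ∧ ∏ i ∈ T, (1 - x i) ≤ 1 := by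
  induction T using Finset.induction_on with
  | empty => simp
  | insert a T ha ih =>
    obtain ⟨i1, i2, i3⟩ := ih (fun i hi => h0 i (Finset.mem_insert_of_mem hi))
      (fun i hi => h1 i (Finset.mem_insert_of_mem hi))
    have j0 := h0 a (Finset.mem_insert_self _ _)
    have j1 := h1 a (Finset.mem_insert_self _ _)
    rw [Finset.sum_insert ha, Finset.prod_insert ha]
    refine ⟨?_, mul_nonneg (by linarith) i2, ?_⟩
    · nlinarith
    · nlinarith

theorem prod_ge {ι : Type} [DecidableEq ι] (T : Finset ι) (b : ι → ℕ) {k : ℕ} (h1 : ∀ i ∈ T, 1 ≤ b i)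
    (h2 : ∀ i ∈ T, b i + 1 ≤ k) (h3 : ∑ i ∈ T, b i ≤ k) (hT : T.Nonempty) :
    (T.card : ℝ) / (8 * k) ≤ ∏ i ∈ T, (1 - (b i : ℝ) / k) := by
  obtain ⟨i0, hi0⟩ := hT
  have hk2 : 2 ≤ k := by
    have := h1 i0 hi0
    have := h2 i0 hi0
    omega
  have hk : (0 : ℝ) < k := by exact_mod_cast (by omega : 0 < k)
  have hm : T.card ≤ ∑ i ∈ T, b i := by
    have := Finset.card_nsmul_le_sum T b 1 h1
    simpa using this
  have hmk : (T.card : ℝ) ≤ k := by exact_mod_cast hm.trans h3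
  have h3' : ∑ i ∈ T, (b i : ℝ) ≤ k := by exact_mod_cast h3
  have hx0 : ∀ i, 0 ≤ (b i : ℝ) / k := fun i => by positivity
  have hx1 : ∀ i ∈ T, (b i : ℝ) / k ≤ 1 := fun i hi => by
    rw [div_le_one hk]
    have := h2 i hi
    exact_mod_cast (by omega : b i ≤ k)
  by_cases hc : ∀ i ∈ T, 2 * b i ≤ k
  · have e1 : ∏ i ∈ T, Real.exp (-2 * ((b i : ℝ) / k)) ≤ ∏ i ∈ T, (1 - (b i : ℝ) / k) := by
      refine Finset.prod_le_prod (fun i _ => (Real.exp_pos _).le) (fun i hi => ?_)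
      refine A_exp (hx0 i) ?_
      rw [← mul_div_assoc, div_le_one hk]
      exact_mod_cast hc i hi
    rw [← Real.exp_sum, ← Finset.mul_sum, ← Finset.sum_div] at e1
    have e2 : (∑ i ∈ T, (b i : ℝ)) / k ≤ 1 := by
      rw [div_le_one hk]
      exact h3'
    have e3 : Real.exp (-2) ≤ Real.exp (-2 * ((∑ i ∈ T, (b i : ℝ)) / k)) :=
      Real.exp_le_exp.2 (by linarith)
    have e4 : (1 : ℝ) / 8 ≤ Real.exp (-2) := by
      rw [Real.exp_neg, ← one_div]
      refine one_div_le_one_div_of_le (Real.exp_pos _) ?_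
      have e5 : Real.exp 2 = Real.exp 1 * Real.exp 1 := by
        rw [← Real.exp_add]
        norm_num
      have e6 := Real.exp_one_lt_d9
      have e7 := Real.exp_pos 1
      rw [e5]
      nlinarith
    have e8 : (T.card : ℝ) / (8 * k) ≤ 1 / 8 := by
      rw [div_le_div_iff₀ (by positivity) (by norm_num)]
      linarith
    linarith
  · push Not at hc
    obtain ⟨a, ha, hab⟩ := hc
    rw [← Finset.mul_prod_erase T _ ha]
    have hs : b a + ∑ i ∈ T.erase a, b i ≤ k := by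
      rw [Finset.add_sum_erase T b ha]
      exact h3
    have hs' : (b a : ℝ) + ∑ i ∈ T.erase a, (b i : ℝ) ≤ k := by exact_mod_cast hs
    have hab' : (k : ℝ) < 2 * b a := by exact_mod_cast hab
    obtain ⟨w1, w2, w3⟩ := A_weier (T.erase a) (fun i => (b i : ℝ) / k) (fun i _ => hx0 i)
      (fun i hi => hx1 i (Finset.mem_of_mem_erase hi))
    have w4 : ∑ i ∈ T.erase a, (b i : ℝ) / k ≤ 1 / 2 := by
      rw [← Finset.sum_div, div_le_div_iff₀ hk (by norm_num)]
      linarith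
    have w5 : (1 : ℝ) / 2 ≤ ∏ i ∈ T.erase a, (1 - (b i : ℝ) / k) := by linarith
    have hc1 : (T.erase a).card ≤ ∑ i ∈ T.erase a, b i := by
      have := Finset.card_nsmul_le_sum (T.erase a) b 1
        (fun i hi => h1 i (Finset.mem_of_mem_erase hi))
      simpa using this
    have hc2 : (T.erase a).card = T.card - 1 := Finset.card_erase_of_mem ha
    have hc3 : b a + 1 ≤ k := h2 a ha
    have hc4 : T.card + 2 * b a ≤ 2 * k := by omega
    have hc5 : (T.card : ℝ) + 2 * b a ≤ 2 * k := by exact_mod_cast hc4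
    have w6 : (T.card : ℝ) / (2 * k) ≤ 1 - (b a : ℝ) / k := by
      rw [le_sub_iff_add_le, div_add_div _ _ (by positivity) hk.ne', div_le_one (by positivity)]
      nlinarith
    have w7 : (T.card : ℝ) / (8 * k) ≤ (T.card : ℝ) / (2 * k) * (1 / 2) := by
      rw [div_mul_div_comm, mul_one]
      exact div_le_div_of_nonneg_left (by positivity) (by positivity) (by linarith)
    calc (T.card : ℝ) / (8 * k) ≤ (T.card : ℝ) / (2 * k) * (1 / 2) := w7
      _ ≤ (1 - (b a : ℝ) / k) * ∏ i ∈ T.erase a, (1 - (b i : ℝ) / k) :=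
        mul_le_mul w6 w5 (by norm_num) (le_trans (by positivity) w6)

end H4.SX

/-! ### B -/

namespace H4.SX

open Classical in
theorem card_pat {N k : ℕ} (j : Fin N → Fin k) (S : Finset (Fin N × Fin k)) (hS : S.card ≤ k)
    (hS0 : S.Nonempty) (hf : ∀ τ, ∃ q, (τ, q) ∉ S) :
    ((Finset.univ.filter (fun p : Fin N → Fin k => (∀ τ, τ ∉ S.image Prod.fst → p τ = j τ) ∧
        ∃ u ∈ S, p u.1 = u.2)).card : ℝ) ≤
      (k : ℝ) ^ (S.image Prod.fst).card * Real.exp (-((S.image Prod.fst).card : ℝ) / (8 * k)) := by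
  set T := S.image Prod.fst with hT
  have hk : 0 < k := by
    obtain ⟨u, -⟩ := hS0
    exact Fin.pos u.2
  have hkR : (0 : ℝ) < k := by exact_mod_cast hk
  set b : Fin N → ℕ := fun τ => (Finset.univ.filter (fun q : Fin k => (τ, q) ∈ S)).card with hb
  let W : Fin N → Finset (Fin k) := fun τ => if τ ∈ T then Finset.univ else {j τ}
  let W' : Fin N → Finset (Fin k) := fun τ =>
    if τ ∈ T then Finset.univ.filter (fun q => (τ, q) ∉ S) else {j τ}
  have hb1 : ∀ τ ∈ T, 1 ≤ b τ := by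
    intro τ hτ
    rw [hT, Finset.mem_image] at hτ
    obtain ⟨u, hu, rfl⟩ := hτ
    exact Finset.card_pos.2 ⟨u.2, Finset.mem_filter.2 ⟨Finset.mem_univ _, hu⟩⟩
  have hb2 : ∀ τ, b τ + 1 ≤ k := by
    intro τ
    obtain ⟨q, hq⟩ := hf τ
    have h1 : (Finset.univ.filter (fun q : Fin k => (τ, q) ∈ S)) ⊂ Finset.univ := by
      refine ⟨Finset.subset_univ _, fun h => hq ?_⟩
      exact (Finset.mem_filter.1 (h (Finset.mem_univ q))).2
    have h2 := Finset.card_lt_card h1
    rw [Finset.card_univ, Fintype.card_fin] at h2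
    exact h2
  have hb3 : ∑ τ ∈ T, b τ = S.card := by
    rw [Finset.card_eq_sum_card_image Prod.fst S]
    refine Finset.sum_congr rfl fun τ _ => ?_
    refine Finset.card_bij (fun q _ => (τ, q)) ?_ ?_ ?_
    · intro q hq
      exact Finset.mem_filter.2 ⟨(Finset.mem_filter.1 hq).2, rfl⟩
    · intro q _ q' _ h
      exact (Prod.ext_iff.1 h).2
    · rintro ⟨τ', q⟩ h
      obtain ⟨h1, h2⟩ := Finset.mem_filter.1 h
      have h2' : τ' = τ := h2
      subst h2'
      exact ⟨q, Finset.mem_filter.2 ⟨Finset.mem_univ _, h1⟩, rfl⟩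
  have hTne : T.Nonempty := hS0.image _
  have hcW : (Fintype.piFinset W).card = k ^ T.card := by
    rw [Fintype.card_piFinset]
    have h1 : ∀ τ, (W τ).card = if τ ∈ T then k else 1 := by
      intro τ
      simp only [W]
      split_ifs
      · rw [Finset.card_univ, Fintype.card_fin]
      · rw [Finset.card_singleton]
    rw [Finset.prod_congr rfl (fun τ _ => h1 τ), Finset.prod_ite, Finset.prod_const_one, mul_one,
      Finset.prod_const, Finset.filter_mem_eq_inter, Finset.univ_inter]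
  have hcW' : ((Fintype.piFinset W').card : ℝ) =
      (k : ℝ) ^ T.card * ∏ τ ∈ T, (1 - (b τ : ℝ) / k) := by
    rw [Fintype.card_piFinset]
    have h1 : ∀ τ, ((W' τ).card : ℝ) = if τ ∈ T then (k : ℝ) * (1 - (b τ : ℝ) / k) else 1 := by
      intro τ
      simp only [W']
      split_ifs
      · have h2 := Finset.card_filter_add_card_filter_not (s := (Finset.univ : Finset (Fin k)))
          (fun q : Fin k => (τ, q) ∈ S)
        rw [Finset.card_univ, Fintype.card_fin] at h2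
        have h3 : (b τ : ℝ) + ((Finset.univ.filter (fun q : Fin k => (τ, q) ∉ S)).card : ℝ) =
            k := by
          exact_mod_cast h2
        rw [mul_sub, mul_one, mul_div_cancel₀ _ hkR.ne']
        linarith
      · rw [Finset.card_singleton, Nat.cast_one]
    push_cast
    rw [Finset.prod_congr rfl (fun τ _ => h1 τ), Finset.prod_ite, Finset.prod_const_one, mul_one,
      Finset.filter_mem_eq_inter, Finset.univ_inter, Finset.prod_mul_distrib, Finset.prod_const]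
  have hsub : Fintype.piFinset W' ⊆ Fintype.piFinset W := by
    intro p hp
    rw [Fintype.mem_piFinset] at hp ⊢
    intro τ
    have h1 := hp τ
    simp only [W', W] at h1 ⊢
    split_ifs at h1 ⊢ with h
    · exact Finset.mem_univ _
    · exact h1
  have hle : (Finset.univ.filter (fun p : Fin N → Fin k => (∀ τ, τ ∉ T → p τ = j τ) ∧
      ∃ u ∈ S, p u.1 = u.2)) ⊆ Fintype.piFinset W \ Fintype.piFinset W' := by
    intro p hp
    obtain ⟨-, h1, u, hu, h2⟩ := Finset.mem_filter.1 hp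
    rw [Finset.mem_sdiff, Fintype.mem_piFinset, Fintype.mem_piFinset]
    constructor
    · intro τ
      simp only [W]
      split_ifs with h
      · exact Finset.mem_univ _
      · exact Finset.mem_singleton.2 (h1 τ h)
    · intro h
      have h3 := h u.1
      have h4 : u.1 ∈ T := Finset.mem_image_of_mem _ hu
      simp only [W', if_pos h4] at h3
      apply (Finset.mem_filter.1 h3).2
      rw [h2]
      exact hu
  have hcard := Finset.card_le_card hle
  rw [Finset.card_sdiff_of_subset hsub] at hcard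
  have hcc := Finset.card_le_card hsub
  have h5 : ((Finset.univ.filter (fun p : Fin N → Fin k => (∀ τ, τ ∉ T → p τ = j τ) ∧
      ∃ u ∈ S, p u.1 = u.2)).card : ℝ) ≤
      ((Fintype.piFinset W).card : ℝ) - ((Fintype.piFinset W').card : ℝ) := by
    rw [← Nat.cast_sub hcc]
    exact_mod_cast hcard
  refine h5.trans ?_
  rw [hcW, hcW', Nat.cast_pow]
  have h6 := prod_ge T b hb1 (fun τ _ => hb2 τ) (by rw [hb3]; exact hS) hTne
  have h7 := Real.one_sub_le_exp_neg ((T.card : ℝ) / (8 * k))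
  have h8 : -(T.card : ℝ) / (8 * k) = -((T.card : ℝ) / (8 * k)) := by ring
  rw [h8]
  have h9 : (0 : ℝ) < (k : ℝ) ^ T.card := pow_pos hkR _
  have h10 : (k : ℝ) ^ T.card - (k : ℝ) ^ T.card * ∏ τ ∈ T, (1 - (b τ : ℝ) / k) =
      (k : ℝ) ^ T.card * (1 - ∏ τ ∈ T, (1 - (b τ : ℝ) / k)) := by ring
  rw [h10]
  apply mul_le_mul_of_nonneg_left _ h9.le
  linarith

end H4.SX

/-! ### C -/

namespace H4.SX

open Classical in
/-- The members of `A` equal to `j` outside `D`. -/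
noncomputable def SXcX {N k : ℕ} (A : Finset (Fin N → Fin k)) (D : Finset (Fin N)) (j : Fin N → Fin k) :
    Finset (Fin N → Fin k) := A.filter (fun j' => ∀ τ, τ ∉ D → j' τ = j τ)

theorem SXc_mem {N k : ℕ} (A : Finset (Fin N → Fin k)) (D : Finset (Fin N)) (j j' : Fin N → Fin k) :
    j' ∈ SXcX A D j ↔ j' ∈ A ∧ ∀ τ, τ ∉ D → j' τ = j τ := by
  unfold SXcX
  rw [Finset.mem_filter]

theorem SXc_fib {α β : Type*} [DecidableEq β] (X : Finset α) (P : Finset β) (f : α → β)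
    (hf : ∀ a ∈ X, f a ∈ P) (c : ℝ) (hc : ∀ p ∈ P, ((X.filter (fun a => f a = p)).card : ℝ) ≤ c) :
    (X.card : ℝ) ≤ P.card * c := by
  rw [Finset.card_eq_sum_card_fiberwise (f := f) (t := P) (fun a ha => hf a ha), Nat.cast_sum]
  calc ∑ p ∈ P, ((X.filter (fun a => f a = p)).card : ℝ) ≤ ∑ _p ∈ P, c := Finset.sum_le_sum hc
    _ = P.card * c := by rw [Finset.sum_const, nsmul_eq_mul]

theorem SXc_claim {N k : ℕ} (hk : 1 ≤ k) (A : Finset (Fin N → Fin k)) (H : Finset (Fin N))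
    (h : ∀ D : Finset (Fin N), D.Nonempty → Disjoint D H → ∀ j ∈ A, ∃ S : Finset (Fin N × Fin k),
      S.card ≤ k ∧ (∀ u ∈ S, u.1 ∈ D) ∧ (∀ τ, ∃ q, (τ, q) ∉ S) ∧
        ∀ j' ∈ A, (∀ τ, τ ∉ D → j' τ = j τ) → ∃ u ∈ S, j' u.1 = u.2) (d : ℕ) :
    ∀ D : Finset (Fin N), Disjoint D H → D.card = d → ∀ j : Fin N → Fin k,
      ((SXcX A D j).card : ℝ) ≤ (k : ℝ) ^ d * Real.exp (-(d : ℝ) / (8 * k)) := by
  classical
  have hk0 : (0 : ℝ) < k := by exact_mod_cast (show 0 < k by omega)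
  induction d using Nat.strong_induction_on with
  | _ d ih =>
    intro D hD hcard j
    rcases Finset.eq_empty_or_nonempty (SXcX A D j) with he | ⟨j₀, hj₀⟩
    · rw [he, Finset.card_empty, Nat.cast_zero]
      positivity
    · rw [SXc_mem] at hj₀
      obtain ⟨hj₀A, hj₀j⟩ := hj₀
      rcases Finset.eq_empty_or_nonempty D with hDe | hDn
      · have hd : d = 0 := by rw [← hcard, hDe, Finset.card_empty]
        have h1 : (SXcX A D j).card ≤ 1 := by
          rw [Finset.card_le_one]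
          intro a ha b hb
          rw [SXc_mem] at ha hb
          funext τ
          have hτ : τ ∉ D := by rw [hDe]; exact Finset.notMem_empty τ
          rw [ha.2 τ hτ, hb.2 τ hτ]
        rw [hd, pow_zero, one_mul, Nat.cast_zero, neg_zero, zero_div, Real.exp_zero]
        exact_mod_cast h1
      · obtain ⟨S, hS1, hS2, hS3, hS4⟩ := h D hDn hD j₀ hj₀A
        have hSn : S.Nonempty := by
          obtain ⟨u, hu, _⟩ := hS4 j₀ hj₀A (fun τ _ => rfl)
          exact ⟨u, hu⟩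
        have hpat := card_pat j₀ S hS1 hSn hS3
        obtain ⟨T, hT⟩ : ∃ T, T = S.image Prod.fst := ⟨_, rfl⟩
        have hTD : T ⊆ D := by
          intro τ hτ
          rw [hT, Finset.mem_image] at hτ
          obtain ⟨u, hu, rfl⟩ := hτ
          exact hS2 u hu
        have hTn : 1 ≤ T.card := by
          rw [hT]
          exact Finset.card_pos.2 (hSn.image _)
        have hTc : T.card ≤ D.card := Finset.card_le_card hTD
        have hmT : ∀ u ∈ S, u.1 ∈ T := fun u hu => by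
          rw [hT]
          exact Finset.mem_image_of_mem _ hu
        rw [← hT] at hpat
        obtain ⟨P, hP⟩ : ∃ P, P = Finset.univ.filter (fun p : Fin N → Fin k =>
          (∀ τ, τ ∉ T → p τ = j₀ τ) ∧ ∃ u ∈ S, p u.1 = u.2) := ⟨_, rfl⟩
        have hPm : ∀ p, p ∈ P ↔ (∀ τ, τ ∉ T → p τ = j₀ τ) ∧ ∃ u ∈ S, p u.1 = u.2 := fun p => by
          rw [hP, Finset.mem_filter]
          exact ⟨fun h => h.2, fun h => ⟨Finset.mem_univ _, h⟩⟩
        have hpat' : (P.card : ℝ) ≤ (k : ℝ) ^ T.card * Real.exp (-(T.card : ℝ) / (8 * k)) := by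
          rw [hP]
          convert hpat
        have hcd : (D \ T).card = d - T.card := by
          rw [Finset.card_sdiff_of_subset hTD, hcard]
        have hfib := SXc_fib (SXcX A D j) P (fun j' => fun τ => if τ ∈ T then j' τ else j₀ τ)
          (by
            intro j' hj'
            rw [SXc_mem] at hj'
            rw [hPm]
            refine ⟨fun τ hτ => if_neg hτ, ?_⟩
            obtain ⟨u, hu, hu'⟩ := hS4 j' hj'.1 (fun τ hτ => by rw [hj'.2 τ hτ, hj₀j τ hτ])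
            exact ⟨u, hu, by rw [if_pos (hmT u hu), hu']⟩)
          ((k : ℝ) ^ (d - T.card) * Real.exp (-((d - T.card : ℕ) : ℝ) / (8 * k)))
          (by
            intro p _
            refine le_trans ?_ (ih (d - T.card) (by omega) (D \ T)
              (Finset.disjoint_of_subset_left Finset.sdiff_subset hD) hcd p)
            rw [Nat.cast_le]
            apply Finset.card_le_card
            intro j' hj'
            rw [Finset.mem_filter, SXc_mem] at hj'
            obtain ⟨⟨ha, hb⟩, hc⟩ := hj'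
            rw [SXc_mem]
            refine ⟨ha, fun τ hτ => ?_⟩
            have hc' := congrFun hc τ
            rw [← hc']
            by_cases hτT : τ ∈ T
            · rw [if_pos hτT]
            · rw [if_neg hτT]
              have hτD : τ ∉ D := fun h' => hτ (Finset.mem_sdiff.2 ⟨h', hτT⟩)
              rw [hb τ hτD, hj₀j τ hτD])
        have hq : 0 ≤ (k : ℝ) ^ (d - T.card) * Real.exp (-((d - T.card : ℕ) : ℝ) / (8 * k)) := by positivity
        refine hfib.trans ((mul_le_mul_of_nonneg_right hpat' hq).trans (le_of_eq ?_))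
        have h5 : (k : ℝ) ^ d = (k : ℝ) ^ T.card * (k : ℝ) ^ (d - T.card) := by
          rw [← pow_add]
          congr 1
          omega
        have h6 : Real.exp (-(d : ℝ) / (8 * k)) =
            Real.exp (-(T.card : ℝ) / (8 * k)) * Real.exp (-((d - T.card : ℕ) : ℝ) / (8 * k)) := by
          rw [← Real.exp_add]
          congr 1
          rw [Nat.cast_sub (by omega)]
          ring
        rw [h5, h6]
        ring

theorem SXc_pat {N k : ℕ} (H : Finset (Fin N)) (j : Fin N → Fin k) (P : Finset (Fin N → Fin k))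
    (hP : ∀ p ∈ P, ∀ τ, τ ∉ H → p τ = j τ) : P.card ≤ k ^ H.card := by
  classical
  have h1 : P.card ≤ Fintype.card (H → Fin k) := by
    rw [← Finset.card_univ]
    refine Finset.card_le_card_of_injOn (fun p => fun τ : H => p τ.1) (fun _ _ => Finset.mem_coe.2 (Finset.mem_univ _)) ?_
    intro p hp q hq hpq
    funext τ
    by_cases hτ : τ ∈ H
    · exact congrFun hpq ⟨τ, hτ⟩
    · rw [hP p hp τ hτ, hP q hq τ hτ]
  rwa [Fintype.card_fun, Fintype.card_fin, Fintype.card_coe] at h1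

theorem subcube {N k : ℕ} (hk : 1 ≤ k) (A : Finset (Fin N → Fin k)) (H : Finset (Fin N))
    (h : ∀ D : Finset (Fin N), D.Nonempty → Disjoint D H → ∀ j ∈ A, ∃ S : Finset (Fin N × Fin k),
      S.card ≤ k ∧ (∀ u ∈ S, u.1 ∈ D) ∧ (∀ τ, ∃ q, (τ, q) ∉ S) ∧
        ∀ j' ∈ A, (∀ τ, τ ∉ D → j' τ = j τ) → ∃ u ∈ S, j' u.1 = u.2) :
    (A.card : ℝ) ≤ (k : ℝ) ^ N * Real.exp (-((N : ℝ) - H.card) / (8 * k)) := by
  classical
  rcases Finset.eq_empty_or_nonempty A with he | ⟨j₁, hj₁⟩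
  · rw [he, Finset.card_empty, Nat.cast_zero]
    positivity
  · have hHN : H.card ≤ N := by
      have := Finset.card_le_univ H
      rwa [Fintype.card_fin] at this
    have hcc : (Hᶜ).card = N - H.card := by
      rw [Finset.card_compl, Fintype.card_fin]
    obtain ⟨P, hP⟩ : ∃ P : Finset (Fin N → Fin k), P = Finset.univ.filter (fun p : Fin N → Fin k =>
      ∀ τ, τ ∉ H → p τ = j₁ τ) := ⟨_, rfl⟩
    have hPm : ∀ p, p ∈ P ↔ ∀ τ, τ ∉ H → p τ = j₁ τ := fun p => by
      rw [hP, Finset.mem_filter]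
      exact ⟨fun h => h.2, fun h => ⟨Finset.mem_univ _, h⟩⟩
    have hPc := SXc_pat H j₁ P (fun p hp => (hPm p).1 hp)
    have hfib := SXc_fib A P (fun j' => fun τ => if τ ∈ H then j' τ else j₁ τ)
      (by
        intro j' _
        rw [hPm]
        exact fun τ hτ => if_neg hτ)
      ((k : ℝ) ^ (N - H.card) * Real.exp (-((N - H.card : ℕ) : ℝ) / (8 * k)))
      (by
        intro p _
        refine le_trans ?_ (SXc_claim hk A H h (N - H.card) Hᶜ disjoint_compl_left hcc p)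
        rw [Nat.cast_le]
        apply Finset.card_le_card
        intro j' hj'
        rw [Finset.mem_filter] at hj'
        rw [SXc_mem]
        refine ⟨hj'.1, fun τ hτ => ?_⟩
        rw [Finset.mem_compl, not_not] at hτ
        have hc' := congrFun hj'.2 τ
        rw [← hc', if_pos hτ])
    have hq : 0 ≤ (k : ℝ) ^ (N - H.card) * Real.exp (-((N - H.card : ℕ) : ℝ) / (8 * k)) := by positivity
    have hPc' : (P.card : ℝ) ≤ (k : ℝ) ^ H.card := by exact_mod_cast hPc
    refine hfib.trans ((mul_le_mul_of_nonneg_right hPc' hq).trans (le_of_eq ?_))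
    have h5 : (k : ℝ) ^ N = (k : ℝ) ^ H.card * (k : ℝ) ^ (N - H.card) := by
      rw [← pow_add]
      congr 1
      omega
    rw [h5, Nat.cast_sub hHN]
    ring

end H4.SX

/-! ### D -/

namespace H4.SX

open H40.SP H4.SL

variable {V : Type} [DecidableEq V] {K s r B : ℕ} {v : Fin B → Fin (K + 1) → Ix s r → V}

theorem big_iff (M : Fin B → Fr K s r) (j : Fin (B * s) → Fin (K + 1)) (D : Finset (Fin (B * s))) (y : V) :
    big v M j D y = true ↔ ∃ τ q, y = vx v M τ q ∧ (τ ∈ D ∨ q ≠ j τ) := by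
  unfold big
  exact @decide_eq_true_iff _ (_)

theorem vx_inj (hK : 1 ≤ K) (hv : InjV v) (M : Fin B → Fr K s r) {τ τ' : Fin (B * s)} {q q' : Fin (K + 1)}
    (h : vx v M τ q = vx v M τ' q') : τ = τ' ∧ q = q' := by
  unfold vx at h
  obtain ⟨h1, h2, h3⟩ := hv _ _ _ _ _ _ h
  subst h2
  refine ⟨?_, rfl⟩
  rw [h1] at h3
  have h4 := edge_inj hK (M (bk τ')) h3
  apply finProdFinEquiv.symm.injective
  exact Prod.ext h1 h4

theorem sat_big (hv : InjV v) (M : Fin B → Fr K s r) (j : Fin (B * s) → Fin (K + 1)) :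
    Sat (hf v) (big v M j ∅) := by
  intro C hC
  rw [mem_hf] at hC
  obtain ⟨β, z, hz, rfl⟩ := hC
  by_contra hcon
  push Not at hcon
  have h1 : ∀ q : Fin (K + 1), big v M j ∅ (v β q (z q)) = true := by
    intro q
    have h2 := hcon (v β q (z q), false) (by
      unfold cl
      rw [Finset.mem_image]
      exact ⟨q, Finset.mem_univ _, rfl⟩)
    simpa using h2
  have h2 : ∀ q : Fin (K + 1), ∃ T : Fin (B * s), q ≠ j T ∧ bk T = β ∧
      z q = edge (M β) (ps T) q := by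
    intro q
    obtain ⟨T, q', hT, hq'⟩ := (big_iff M j ∅ _).1 (h1 q)
    have hq2 : q' ≠ j T := by
      rcases hq' with h | h
      · exact absurd h (Finset.notMem_empty _)
      · exact h
    unfold vx at hT
    obtain ⟨e1, e2, e3⟩ := hv _ _ _ _ _ _ hT
    subst e2
    refine ⟨T, hq2, e1.symm, ?_⟩
    rw [e3, ← e1]
  choose T hT1 hT2 hT3 using h2
  have h4 := edge_trans (M β) hz (fun q => ps (T q)) hT3
  have h5 : ∀ q, T q = T 0 := by
    intro q
    apply finProdFinEquiv.symm.injective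
    refine Prod.ext ?_ (h4 q)
    change bk (T q) = bk (T 0)
    rw [hT2, hT2]
  have h6 := hT1 (j (T 0))
  rw [h5 (j (T 0))] at h6
  exact h6 rfl

theorem not_sat_big (M : Fin B → Fr K s r) (j : Fin (B * s) → Fin (K + 1)) {D : Finset (Fin (B * s))}
    (hD : D.Nonempty) : ¬ Sat (hf v) (big v M j D) := by
  obtain ⟨t, ht⟩ := hD
  intro h
  obtain ⟨l, hl, hl2⟩ := h (cl v (bk t) (edge (M (bk t)) (ps t)))
    ((mem_hf v _).2 ⟨bk t, edge (M (bk t)) (ps t), adm_edge _ _, rfl⟩)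
  unfold cl at hl
  rw [Finset.mem_image] at hl
  obtain ⟨q, _, rfl⟩ := hl
  have h1 : big v M j D (v (bk t) q (edge (M (bk t)) (ps t) q)) = true :=
    (big_iff M j D _).2 ⟨t, q, rfl, Or.inl ht⟩
  rw [h1] at hl2
  have h3 : true = false := hl2
  exact absurd h3 (by decide)

end H4.SX

/-! ### E -/

namespace H4.SX

open H40.SP H4.SL

open Classical in
theorem mem_ng_iff {V : Type} {K s r B : ℕ} (v : Fin B → Fin (K + 1) → Ix s r → V) (R : Finset (Fin B))
    (C : Finset (V × Bool)) (u : Lb B K s r) :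
    u ∈ ng v R C ↔ u.1 ∉ R ∧ (v u.1 u.2.1 u.2.2, false) ∈ C := by
  unfold ng
  rw [Finset.mem_filter]
  exact ⟨fun h => h.2, fun h => ⟨Finset.mem_univ _, h⟩⟩

variable {V : Type} [DecidableEq V] {K s r B : ℕ} {v : Fin B → Fin (K + 1) → Ix s r → V} {G : Fml V}

theorem card_bk_mem {s B : ℕ} (R : Finset (Fin B)) :
    (Finset.univ.filter (fun τ : Fin (B * s) => bk τ ∈ R)).card ≤ R.card * s := by
  have h : (Finset.univ.filter (fun τ : Fin (B * s) => bk τ ∈ R)).card ≤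
      (R ×ˢ (Finset.univ : Finset (Fin s))).card := by
    apply Finset.card_le_card_of_injOn (fun τ => finProdFinEquiv.symm τ)
    · intro τ hτ
      have h1 : bk τ ∈ R := (Finset.mem_filter.mp hτ).2
      exact Finset.mem_coe.mpr (Finset.mem_product.mpr ⟨h1, Finset.mem_univ _⟩)
    · intro a _ b _ hab
      exact finProdFinEquiv.symm.injective hab
  rwa [Finset.card_product, Finset.card_univ, Fintype.card_fin] at h

theorem card_acc_le (hK : 1 ≤ K) (hv : InjV v) (hG : ∀ a, Sat G a → Sat (hf v) a) (M : Fin B → Fr K s r)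
    (R : Finset (Fin B)) (hR : ∀ C ∈ G, (∀ u ∈ ng v ∅ C, On M u) → (ng v R C).card ≤ K + 1) :
    ((acc v M G).card : ℝ) ≤ ((K : ℝ) + 1) ^ (B * s) *
      Real.exp (-((B : ℝ) * s - R.card * s - hits (sr v R G) M) / (8 * ((K : ℝ) + 1))) := by
  classical
  set H : Finset (Fin (B * s)) := Finset.univ.filter
    (fun τ => bk τ ∈ R ∨ (bk τ, edge (M (bk τ)) (ps τ)) ∈ sr v R G) with hH
  have hHc : H.card ≤ R.card * s + hits (sr v R G) M := by
    rw [hH, Finset.filter_or]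
    refine (Finset.card_union_le _ _).trans (Nat.add_le_add (card_bk_mem R) ?_)
    unfold hits
    apply Finset.card_le_card
    intro τ hτ
    rw [Finset.mem_filter] at hτ ⊢
    exact hτ
  have key := subcube (N := B * s) (k := K + 1) (by omega) (acc v M G) H (by
    intro D hD hDH j _
    have hns : ¬ Sat G (big v M j D) := fun h => not_sat_big M j hD (hG _ h)
    unfold Sat at hns
    push Not at hns
    obtain ⟨C, hCG, hC⟩ := hns
    have halive : ∀ u ∈ ng v ∅ C, On M u := by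
      intro u hu
      rw [mem_ng_iff] at hu
      have h1 := hC _ hu.2
      have h2 : big v M j D (v u.1 u.2.1 u.2.2) = true := by
        simpa using h1
      rw [big_iff] at h2
      obtain ⟨τ, q, hτ, _⟩ := h2
      unfold vx at hτ
      obtain ⟨e1, e2, e3⟩ := hv _ _ _ _ _ _ hτ
      refine ⟨ps τ, ?_⟩
      rw [e3, e1, e2]
    have hcard := hR C hCG halive
    have hDR : ∀ τ ∈ D, bk τ ∉ R ∧ (bk τ, edge (M (bk τ)) (ps τ)) ∉ sr v R G := by
      intro τ hτ
      have h1 : τ ∉ H := Finset.disjoint_left.mp hDH hτ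
      rw [hH, Finset.mem_filter] at h1
      push Not at h1
      exact h1 (Finset.mem_univ _)
    have hmem : ∀ τ q, τ ∈ D → (vx v M τ q, false) ∈ C →
        ((bk τ, q, edge (M (bk τ)) (ps τ) q) : Lb B K s r) ∈ ng v R C := by
      intro τ q hτ hq
      rw [mem_ng_iff]
      exact ⟨(hDR τ hτ).1, hq⟩
    refine ⟨Finset.univ.filter (fun u : Fin (B * s) × Fin (K + 1) =>
      u.1 ∈ D ∧ (vx v M u.1 u.2, false) ∈ C), ?_, ?_, ?_, ?_⟩
    · refine le_trans ?_ hcard
      apply Finset.card_le_card_of_injOn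
        (fun u => ((bk u.1, u.2, edge (M (bk u.1)) (ps u.1) u.2) : Lb B K s r))
      · intro u hu
        have h1 := (Finset.mem_filter.mp hu).2
        exact Finset.mem_coe.mpr (hmem u.1 u.2 h1.1 h1.2)
      · intro u _ u' _ huu
        have h1 : vx v M u.1 u.2 = vx v M u'.1 u'.2 :=
          congrArg (fun p : Lb B K s r => v p.1 p.2.1 p.2.2) huu
        obtain ⟨e1, e2⟩ := vx_inj hK hv M h1
        exact Prod.ext e1 e2
    · intro u hu
      exact (Finset.mem_filter.mp hu).2.1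
    · intro τ
      by_contra hcon
      push Not at hcon
      have h1 : ∀ q, τ ∈ D ∧ (vx v M τ q, false) ∈ C := fun q => (Finset.mem_filter.mp (hcon q)).2
      have hτD : τ ∈ D := (h1 0).1
      have hsub : Finset.univ.image (fun q => ((bk τ, q, edge (M (bk τ)) (ps τ) q) : Lb B K s r)) ⊆
          ng v R C := by
        intro x hx
        rw [Finset.mem_image] at hx
        obtain ⟨q, _, rfl⟩ := hx
        exact hmem τ q hτD (h1 q).2
      have hcd : (Finset.univ.image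
          (fun q => ((bk τ, q, edge (M (bk τ)) (ps τ) q) : Lb B K s r))).card = K + 1 := by
        rw [Finset.card_image_of_injective, Finset.card_univ, Fintype.card_fin]
        intro q q' hqq
        exact congrArg (fun p : Lb B K s r => p.2.1) hqq
      have heq := Finset.eq_of_subset_of_card_le hsub (by rw [hcd]; exact hcard)
      apply (hDR τ hτD).2
      unfold sr
      rw [Finset.mem_filter]
      refine ⟨Finset.mem_univ _, (hDR τ hτD).1, adm_edge _ _, C, hCG, ?_⟩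
      rw [← heq]
    · intro j' hj' hjj
      unfold acc at hj'
      rw [Finset.mem_filter] at hj'
      obtain ⟨l, hlC, hl⟩ := hj'.2 C hCG
      have hl2 := hC l hlC
      rcases hb : l.2 with _ | _
      · rw [hb] at hl hl2
        have h1 : big v M j D l.1 = true := by simpa using hl2
        rw [big_iff] at h1
        obtain ⟨τ, q, hτ, hor⟩ := h1
        have h2 : ¬ (big v M j' ∅ l.1 = true) := by rw [hl]; simp
        rw [big_iff] at h2
        push Not at h2
        have h3 := h2 τ q hτ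
        have hqj : q = j' τ := h3.2
        have hτD : τ ∈ D := by
          by_contra hτD
          rcases hor with h | h
          · exact hτD h
          · apply h
            rw [hqj, hjj τ hτD]
        refine ⟨(τ, q), ?_, hqj.symm⟩
        rw [Finset.mem_filter]
        refine ⟨Finset.mem_univ _, hτD, ?_⟩
        have h4 : ((vx v M τ q, false) : V × Bool) = l := Prod.ext hτ.symm hb.symm
        change ((vx v M τ q, false) : V × Bool) ∈ C
        rw [h4]
        exact hlC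
      · exfalso
        rw [hb] at hl hl2
        rw [big_iff] at hl
        obtain ⟨τ, q, hτ, hor⟩ := hl
        have hq : q ≠ j' τ := by
          rcases hor with h | h
          · exact absurd h (Finset.notMem_empty _)
          · exact h
        apply hl2
        rw [big_iff]
        refine ⟨τ, q, hτ, ?_⟩
        by_cases hτD : τ ∈ D
        · exact Or.inl hτD
        · right
          rw [← hjj τ hτD]
          exact hq)
  refine key.trans ?_
  have hk : (((K + 1 : ℕ) : ℝ)) = (K : ℝ) + 1 := by push_cast; ring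
  rw [hk]
  apply mul_le_mul_of_nonneg_left _ (by positivity)
  apply Real.exp_le_exp.mpr
  apply div_le_div_of_nonneg_right _ (by positivity)
  have h5 : (H.card : ℝ) ≤ (R.card : ℝ) * s + hits (sr v R G) M := by exact_mod_cast hHc
  push_cast
  linarith

end H4.SX

/-! ### F -/

namespace H4.SX

open H40.SP H4.SL

variable {V : Type} [DecidableEq V] {K s r B : ℕ} {v : Fin B → Fin (K + 1) → Ix s r → V} {G : Fml V}

theorem adm_sr (R : Finset (Fin B)) (p : Fin B × (Fin (K + 1) → Ix s r)) (hp : p ∈ sr v R G) : Adm p.2 := by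
  classical
  unfold sr at hp
  rw [Finset.mem_filter] at hp
  exact hp.2.2.1

theorem card_sr_le (R : Finset (Fin B)) : (sr v R G).card ≤ G.card := by
  have hex : ∀ p ∈ sr v R G, ∃ C ∈ G, ∀ u, u ∈ ng v R C ↔
      ∃ q, ((p.1, q, p.2 q) : Lb B K s r) = u := by
    classical
    intro p hp
    unfold sr at hp
    rw [Finset.mem_filter] at hp
    obtain ⟨C, hC, h⟩ := hp.2.2.2
    refine ⟨C, hC, fun u => ?_⟩
    rw [h, Finset.mem_image]
    simp only [Finset.mem_univ, true_and]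
  choose! C hC using hex
  refine Finset.card_le_card_of_injOn C (fun p hp => (hC p hp).1) ?_
  intro p hp p' hp' h
  have h1 := (hC p hp).2
  have h2 := (hC p' hp').2
  rw [h] at h1
  have h4 : ∀ q, p.1 = p'.1 ∧ p.2 q = p'.2 q := by
    intro q
    obtain ⟨q', hq'⟩ := (h2 _).1 ((h1 _).2 ⟨q, rfl⟩)
    simp only [Prod.mk.injEq] at hq'
    obtain ⟨a1, a2, a3⟩ := hq'
    subst a2
    exact ⟨a1.symm, a3.symm⟩
  exact Prod.ext (h4 0).1 (funext fun q => (h4 q).2)

theorem hits_tail (hK : 1 ≤ K) (hs : 1 ≤ s) (hr : 400 * s * 2 ^ s * 2 ^ (2 * K + 1) ≤ 2 ^ r)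
    (P : Finset (Fin B × (Fin (K + 1) → Ix s r))) (hP : ∀ p ∈ P, Adm p.2) :
    ((Finset.univ.filter (fun M : Fin B → Fr K s r => B * s ≤ 2 * hits P M)).card : ℝ) ≤
      (Fintype.card (Fin B → Fr K s r) : ℝ) *
        Real.exp (B * Real.log 5 + s * ((P.card : ℝ) / tot K s r + B / 20) - B * s / 2 * Real.log 2) := by
  have hl2 : 0 < Real.log 2 := Real.log_pos one_lt_two
  have e1 : ∑ M : Fin B → Fr K s r, (2 : ℝ) ^ hits P M =
      ∏ β, ∑ M' : Fr K s r, (2 : ℝ) ^ hit (pt P β) M' := by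
    rw [Finset.prod_univ_sum, Fintype.piFinset_univ]
    refine Finset.sum_congr rfl fun M _ => ?_
    rw [hit_sum, Finset.prod_pow_eq_pow_sum]
  have e2 : ∏ β, ∑ M' : Fr K s r, (2 : ℝ) ^ hit (pt P β) M' ≤
      ∏ β : Fin B, ((Fintype.card (Fr K s r) : ℝ) *
        Real.exp (Real.log 5 + s * (((pt P β).card : ℝ) / tot K s r + 1 / 20))) := by
    refine Finset.prod_le_prod (fun β _ => Finset.sum_nonneg fun M' _ => by positivity)
      fun β _ => ?_
    exact spread hK hs hr (fun z hz => hP (β, z) ((mem_pt P β z).1 hz))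
  have e3 : ∏ β : Fin B, ((Fintype.card (Fr K s r) : ℝ) *
        Real.exp (Real.log 5 + s * (((pt P β).card : ℝ) / tot K s r + 1 / 20))) =
      (Fintype.card (Fin B → Fr K s r) : ℝ) *
        Real.exp (B * Real.log 5 + s * ((P.card : ℝ) / tot K s r + B / 20)) := by
    rw [Finset.prod_mul_distrib, Finset.prod_const, Finset.card_univ, Fintype.card_fin,
      ← Real.exp_sum, Fintype.card_fun, Fintype.card_fin]
    push_cast
    congr 2
    rw [Finset.sum_add_distrib, Finset.sum_const, Finset.card_univ, Fintype.card_fin,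
      nsmul_eq_mul, ← Finset.mul_sum, Finset.sum_add_distrib, Finset.sum_const, Finset.card_univ,
      Fintype.card_fin, nsmul_eq_mul, ← Finset.sum_div]
    have e4 : ∑ β, ((pt P β).card : ℝ) = (P.card : ℝ) := by
      rw [← sum_pt P]
      push_cast
      rfl
    rw [e4]
    ring
  have e5 : ((Finset.univ.filter (fun M : Fin B → Fr K s r => B * s ≤ 2 * hits P M)).card : ℝ) *
      Real.exp (B * s / 2 * Real.log 2) ≤ ∑ M : Fin B → Fr K s r, (2 : ℝ) ^ hits P M := by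
    rw [← nsmul_eq_mul, ← Finset.sum_const]
    refine (Finset.sum_le_sum fun M hM => ?_).trans
      (Finset.sum_le_sum_of_subset_of_nonneg (Finset.filter_subset _ _)
        fun M _ _ => by positivity)
    have h1 : ((B * s : ℕ) : ℝ) ≤ ((2 * hits P M : ℕ) : ℝ) := by
      exact_mod_cast (Finset.mem_filter.1 hM).2
    push_cast at h1
    have h2 : (2 : ℝ) ^ hits P M = Real.exp (hits P M * Real.log 2) := by
      rw [← Real.log_pow, Real.exp_log (by positivity)]
    rw [h2]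
    apply Real.exp_le_exp.2
    apply mul_le_mul_of_nonneg_right _ hl2.le
    linarith
  rw [Real.exp_sub, ← mul_div_assoc, le_div_iff₀ (Real.exp_pos _)]
  refine e5.trans ?_
  rw [e1]
  exact e2.trans e3.le

end H4.SX

/-! ### G -/

namespace H4.SX

open H40.SP H4.SL

variable {K s r B : ℕ}

theorem rp_rep (M : Fin B → Fr K s r) (g : Fin B → Fin s → Fin (K + 1) → Vc r) : rp (rep M g) = g := by
  funext β t q
  refine Fin.cases ?_ (fun q => ?_) q
  · rfl
  · rfl

theorem rep_rp (M : Fin B → Fr K s r) : rep M (rp M) = M := by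
  funext β
  rfl

open Classical in
theorem card_on_aux (U : Finset (Lb B K s r)) (E : Finset (Fin B → Fr K s r))
    (hE : ∀ M ∈ E, ∀ M' : Fin B → Fr K s r, (∀ β, β ∉ U.image Prod.fst → M' β = M β) → M' ∈ E)
    (t : {u // u ∈ U} → Fin s) :
    (E.filter (fun M => ∀ u : {u // u ∈ U}, edge (M u.1.1) (t u) u.1.2.1 = u.1.2.2)).card *
      (2 ^ r) ^ U.card ≤ E.card := by
  rcases Finset.eq_empty_or_nonempty
    (E.filter (fun M => ∀ u : {u // u ∈ U}, edge (M u.1.1) (t u) u.1.2.1 = u.1.2.2)) with h0 | ⟨M0, hM0⟩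
  · rw [h0, Finset.card_empty, zero_mul]
    exact Nat.zero_le _
  have huniq : ∀ u u' : {u // u ∈ U}, u.1.1 = u'.1.1 → t u = t u' → u.1.2.1 = u'.1.2.1 → u = u' := by
    intro u u' h1 h2 h3
    have e1 := (Finset.mem_filter.1 hM0).2 u
    have e2 := (Finset.mem_filter.1 hM0).2 u'
    apply Subtype.ext
    refine Prod.ext h1 (Prod.ext h3 ?_)
    rw [← e1, ← e2, h1, h2, h3]
  obtain ⟨F, hF⟩ : ∃ F : (Fin B → Fr K s r) × ({u // u ∈ U} → Vc r) → (Fin B → Fr K s r), ∀ p,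
      F p = rep p.1 (fun β t' q => if h : ∃ u : {u // u ∈ U}, u.1.1 = β ∧ t u = t' ∧ u.1.2.1 = q then
        p.2 h.choose else rp p.1 β t' q) := ⟨_, fun _ => rfl⟩
  have hFat : ∀ p (u : {u // u ∈ U}), rp (F p) u.1.1 (t u) u.1.2.1 = p.2 u := by
    intro p u
    rw [hF, rp_rep]
    have h : ∃ u' : {u // u ∈ U}, u'.1.1 = u.1.1 ∧ t u' = t u ∧ u'.1.2.1 = u.1.2.1 := ⟨u, rfl, rfl, rfl⟩
    refine (dif_pos h).trans ?_
    exact congrArg p.2 (huniq _ _ h.choose_spec.1 h.choose_spec.2.1 h.choose_spec.2.2)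
  have hFoff : ∀ p β t' q, (¬ ∃ u : {u // u ∈ U}, u.1.1 = β ∧ t u = t' ∧ u.1.2.1 = q) →
      rp (F p) β t' q = rp p.1 β t' q := by
    intro p β t' q h
    rw [hF, rp_rep]
    exact dif_neg h
  have hF1 : ∀ p β, (F p β).1 = (p.1 β).1 := by
    intro p β
    rw [hF]
    rfl
  have hrr : ∀ M M' : Fin B → Fr K s r, ∀ β, (M β).1 = (M' β).1 → (∀ t' q, rp M β t' q = rp M' β t' q) →
      M β = M' β := by
    intro M M' β h1 h2
    have e1 : (rep M (rp M)) β = (rep M' (rp M')) β := by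
      show ((M β).1, (fun t => rp M β t 0), (fun t q => rp M β t (Fin.succ q))) =
        ((M' β).1, (fun t => rp M' β t 0), (fun t q => rp M' β t (Fin.succ q)))
      refine Prod.ext h1 (Prod.ext ?_ ?_)
      · funext t'
        exact h2 t' 0
      · funext t' q
        exact h2 t' q.succ
    rw [rep_rp, rep_rp] at e1
    exact e1
  have hmaps : ∀ p ∈ (E.filter (fun M => ∀ u : {u // u ∈ U}, edge (M u.1.1) (t u) u.1.2.1 = u.1.2.2)) ×ˢ
      (Finset.univ : Finset ({u // u ∈ U} → Vc r)), F p ∈ E := by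
    intro p hp
    have hp1 := (Finset.mem_filter.1 (Finset.mem_product.1 hp).1).1
    refine hE p.1 hp1 (F p) ?_
    intro β hβ
    refine hrr _ _ β (hF1 p β) (fun t' q => hFoff p β t' q ?_)
    rintro ⟨u, hu, -, -⟩
    exact hβ (Finset.mem_image.2 ⟨u.1, u.2, hu⟩)
  have hinj : Set.InjOn F (((E.filter (fun M => ∀ u : {u // u ∈ U}, edge (M u.1.1) (t u) u.1.2.1 = u.1.2.2)) ×ˢ
      (Finset.univ : Finset ({u // u ∈ U} → Vc r)) : Finset _) : Set _) := by
    intro p hp p' hp' h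
    have hM := (Finset.mem_filter.1 (Finset.mem_product.1 (Finset.mem_coe.1 hp)).1).2
    have hM' := (Finset.mem_filter.1 (Finset.mem_product.1 (Finset.mem_coe.1 hp')).1).2
    have hd : p.2 = p'.2 := by
      funext u
      rw [← hFat p u, ← hFat p' u, h]
    have hMM : p.1 = p'.1 := by
      funext β
      refine hrr _ _ β ?_ ?_
      · rw [← hF1 p β, ← hF1 p' β, h]
      · intro t' q
        by_cases hh : ∃ u : {u // u ∈ U}, u.1.1 = β ∧ t u = t' ∧ u.1.2.1 = q
        · obtain ⟨u, rfl, rfl, rfl⟩ := hh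
          show (edge (p.1 u.1.1) (t u) u.1.2.1).2 = (edge (p'.1 u.1.1) (t u) u.1.2.1).2
          rw [hM u, hM' u]
        · rw [← hFoff p β t' q hh, ← hFoff p' β t' q hh, h]
    exact Prod.ext hMM hd
  have h := Finset.card_le_card_of_injOn F hmaps hinj
  have hc : Fintype.card (Vc r) = 2 ^ r := by
    show Fintype.card (Fin r → ZMod 2) = 2 ^ r
    rw [Fintype.card_fun, ZMod.card, Fintype.card_fin]
  rw [Finset.card_product, Finset.card_univ, Fintype.card_fun, Fintype.card_coe, hc] at h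
  exact h

open Classical in
theorem card_on (U : Finset (Lb B K s r)) (E : Finset (Fin B → Fr K s r))
    (hE : ∀ M ∈ E, ∀ M' : Fin B → Fr K s r, (∀ β, β ∉ U.image Prod.fst → M' β = M β) → M' ∈ E) :
    (E.filter (fun M => ∀ u ∈ U, On M u)).card * (2 ^ r) ^ U.card ≤ s ^ U.card * E.card := by
  have hsub : E.filter (fun M => ∀ u ∈ U, On M u) ⊆ Finset.univ.biUnion
      (fun t : {u // u ∈ U} → Fin s =>
        E.filter (fun M => ∀ u : {u // u ∈ U}, edge (M u.1.1) (t u) u.1.2.1 = u.1.2.2)) := by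
    intro M hM
    rw [Finset.mem_filter] at hM
    have h : ∀ u : {u // u ∈ U}, ∃ t, edge (M u.1.1) t u.1.2.1 = u.1.2.2 := fun u => hM.2 u.1 u.2
    choose t ht using h
    exact Finset.mem_biUnion.2 ⟨t, Finset.mem_univ _, Finset.mem_filter.2 ⟨hM.1, ht⟩⟩
  refine (Nat.mul_le_mul_right _ ((Finset.card_le_card hsub).trans Finset.card_biUnion_le)).trans ?_
  rw [Finset.sum_mul]
  refine (Finset.sum_le_sum (fun t _ => card_on_aux U E hE t)).trans (le_of_eq ?_)
  rw [Finset.sum_const, Finset.card_univ, Fintype.card_fun, Fintype.card_fin, Fintype.card_coe, smul_eq_mul]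

end H4.SX

/-! ### H -/

namespace H4.SX

open H40.SP H4.SL

variable {V : Type} [DecidableEq V] {K s r B : ℕ} {v : Fin B → Fin (K + 1) → Ix s r → V}

omit [DecidableEq V] in
private theorem H_mem_ng {R : Finset (Fin B)} {C : Finset (V × Bool)} {u : Lb B K s r} :
    u ∈ ng v R C ↔ u.1 ∉ R ∧ (v u.1 u.2.1 u.2.2, false) ∈ C := by
  unfold ng
  simp

omit [DecidableEq V] in
private theorem H_mem_Ex {𝒞 : List (Finset (V × Bool))} {R : Finset (Fin B)} {ℓ : ℕ}
    {M : Fin B → Fr K s r} :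
    M ∈ Ex v 𝒞 R ℓ ↔ ¬ ∃ R' : Finset (Fin B), R ⊆ R' ∧ R'.card ≤ R.card + ℓ * (K + 2) ∧
    ∀ C ∈ 𝒞, (∀ u ∈ ng v R C, On M u) → (ng v R' C).card ≤ K + 1 := by
  simp only [Ex, Finset.mem_filter, Finset.mem_univ, true_and]

omit [DecidableEq V] in
private theorem H_ng_mono {R R' : Finset (Fin B)} (h : R ⊆ R') (C : Finset (V × Bool)) :
    ng v R' C ⊆ ng v R C := by
  intro u hu
  rw [H_mem_ng] at hu ⊢
  exact ⟨fun h1 => hu.1 (h h1), hu.2⟩

open Classical in
omit [DecidableEq V] in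
private theorem H_sub1 {C : Finset (V × Bool)} {𝒞 : List (Finset (V × Bool))} {R : Finset (Fin B)} {ℓ : ℕ}
    {U : Finset (Lb B K s r)} (hU : U ⊆ ng v R C) (hc : U.card = K + 2) :
    Ex v (C :: 𝒞) R (ℓ + 1) ⊆ Ex v 𝒞 R (ℓ + 1) ∪
      (Ex v (C :: 𝒞) (R ∪ U.image Prod.fst) ℓ).filter (fun M => ∀ u ∈ U, On M u) := by
  intro M hM
  rw [Finset.mem_union]
  by_cases hA : M ∈ Ex v 𝒞 R (ℓ + 1)
  · exact Or.inl hA
  right
  rw [H_mem_Ex, not_not] at hA
  obtain ⟨R', h1, h2, h3⟩ := hA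
  have h4 : ∀ u ∈ ng v R C, On M u := by
    by_contra hn
    refine (H_mem_Ex.1 hM) ⟨R', h1, h2, fun C' hC' h5 => ?_⟩
    rcases List.mem_cons.1 hC' with rfl | h6
    · exact absurd h5 hn
    · exact h3 C' h6 h5
  rw [Finset.mem_filter]
  refine ⟨?_, fun u hu => h4 u (hU hu)⟩
  rw [H_mem_Ex]
  rintro ⟨R'', g1, g2, g3⟩
  have hsub : R ⊆ R ∪ U.image Prod.fst := Finset.subset_union_left
  refine (H_mem_Ex.1 hM) ⟨R'', hsub.trans g1, ?_, fun C' hC' h5 => g3 C' hC' fun u hu => h5 u (H_ng_mono hsub C' hu)⟩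
  have h7 : (R ∪ U.image Prod.fst).card ≤ R.card + (K + 2) :=
    (Finset.card_union_le _ _).trans (Nat.add_le_add_left (Finset.card_image_le.trans hc.le) _)
  calc R''.card ≤ (R ∪ U.image Prod.fst).card + ℓ * (K + 2) := g2
    _ ≤ R.card + (K + 2) + ℓ * (K + 2) := Nat.add_le_add_right h7 _
    _ = R.card + (ℓ + 1) * (K + 2) := by ring

omit [DecidableEq V] in
private theorem H_sub2 {C : Finset (V × Bool)} {𝒞 : List (Finset (V × Bool))} {R : Finset (Fin B)} {ℓ : ℕ}
    (hc : (ng v R C).card ≤ K + 1) : Ex v (C :: 𝒞) R ℓ ⊆ Ex v 𝒞 R ℓ := by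
  intro M hM
  rw [H_mem_Ex] at hM ⊢
  rintro ⟨R', h1, h2, h3⟩
  refine hM ⟨R', h1, h2, fun C' hC' h5 => ?_⟩
  rcases List.mem_cons.1 hC' with rfl | h6
  · exact (Finset.card_le_card (H_ng_mono h1 C')).trans hc
  · exact h3 C' h6 h5

omit [DecidableEq V] in
private theorem H_inv {𝒞 : List (Finset (V × Bool))} {R : Finset (Fin B)} {ℓ : ℕ}
    {U : Finset (Lb B K s r)} (M : Fin B → Fr K s r) (hM : M ∈ Ex v 𝒞 (R ∪ U.image Prod.fst) ℓ)
    (M' : Fin B → Fr K s r) (h : ∀ β, β ∉ U.image Prod.fst → M' β = M β) :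
    M' ∈ Ex v 𝒞 (R ∪ U.image Prod.fst) ℓ := by
  rw [H_mem_Ex] at hM ⊢
  rintro ⟨R', h1, h2, h3⟩
  refine hM ⟨R', h1, h2, fun C' hC' h5 => h3 C' hC' fun u hu => ?_⟩
  have h6 := h5 u hu
  have h7 : M' u.1 = M u.1 := h _ fun h8 =>
    (H_mem_ng.1 hu).1 (Finset.mem_union_right _ h8)
  unfold On at h6 ⊢
  rw [h7]
  exact h6

private theorem H_alg {n X x D p : ℝ} (hX : X ≠ 0) (hx : x ≠ 0) (hD : D ≠ 0) (hd : 1 - p * x ≠ 0) :
    n / (X * x * D) + p * (n / (X * (D * (1 - p * x)))) = n / (X * x * (D * (1 - p * x))) := by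
  obtain ⟨d, hdd⟩ : ∃ d, d = 1 - p * x := ⟨_, rfl⟩
  rw [← hdd] at hd ⊢
  field_simp
  rw [hdd]
  ring

theorem card_Ex {x p : ℝ} (hx : 0 < x) (hp : p = ((s : ℝ) / 2 ^ r) ^ (K + 2)) (hpx : p * x < 1) (ℓ : ℕ)
    (𝒞 : List (Finset (V × Bool))) (R : Finset (Fin B)) :
    ((Ex v 𝒞 R ℓ).card : ℝ) ≤ Fintype.card (Fin B → Fr K s r) / (x ^ ℓ * (1 - p * x) ^ 𝒞.length) := by
  classical
  have hp0 : 0 ≤ p := by
    rw [hp]
    positivity
  have hd : 0 < 1 - p * x := by linarith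
  have hd1 : 1 - p * x ≤ 1 := by nlinarith [mul_nonneg hp0 hx.le]
  set n : ℝ := (Fintype.card (Fin B → Fr K s r) : ℝ) with hn
  have hn0 : 0 ≤ n := Nat.cast_nonneg _
  induction ℓ generalizing 𝒞 R with
  | zero =>
    have h1 : ((Ex v 𝒞 R 0).card : ℝ) ≤ n := by
      rw [hn]
      exact_mod_cast Finset.card_le_univ _
    refine h1.trans ?_
    rw [pow_zero, one_mul, le_div_iff₀ (pow_pos hd _)]
    exact mul_le_of_le_one_right hn0 (pow_le_one₀ hd.le hd1)
  | succ ℓ ih =>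
    induction 𝒞 with
    | nil =>
      have h1 : Ex v ([] : List (Finset (V × Bool))) R (ℓ + 1) = ∅ := by
        rw [Finset.eq_empty_iff_forall_notMem]
        intro M hM
        exact (H_mem_Ex.1 hM) ⟨R, subset_rfl, Nat.le_add_right _ _, fun C hC => by simp at hC⟩
      rw [h1]
      simp only [Finset.card_empty, Nat.cast_zero]
      positivity
    | cons C 𝒞 ihC =>
      have hlen : (C :: 𝒞).length = 𝒞.length + 1 := rfl
      rw [hlen]
      have hxl : 0 < x ^ ℓ := pow_pos hx _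
      have hdl : 0 < (1 - p * x) ^ 𝒞.length := pow_pos hd _
      by_cases hcase : K + 2 ≤ (ng v R C).card
      · obtain ⟨U, hU, hUc⟩ := Finset.exists_subset_card_eq hcase
        have h1 := Finset.card_le_card (H_sub1 (𝒞 := 𝒞) (ℓ := ℓ) hU hUc)
        have h2 := h1.trans (Finset.card_union_le _ _)
        have h3 := card_on U (Ex v (C :: 𝒞) (R ∪ U.image Prod.fst) ℓ) (fun M hM M' h => H_inv M hM M' h)
        have h4 := ih (C :: 𝒞) (R ∪ U.image Prod.fst)
        rw [hlen] at h4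
        set e : ℝ := ((Ex v (C :: 𝒞) (R ∪ U.image Prod.fst) ℓ).card : ℝ) with he
        set g := ((Ex v (C :: 𝒞) (R ∪ U.image Prod.fst) ℓ).filter (fun M => ∀ u ∈ U, On M u)).card with hg
        have h5 : (g : ℝ) ≤ p * e := by
          rw [hUc] at h3
          have h6 : (g : ℝ) * (2 ^ r) ^ (K + 2) ≤ (s : ℝ) ^ (K + 2) * e := by
            rw [he]
            exact_mod_cast h3
          rw [hp, div_pow, div_mul_eq_mul_div, le_div_iff₀ (by positivity)]
          exact h6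
        have h7 : ((Ex v (C :: 𝒞) R (ℓ + 1)).card : ℝ) ≤ (Ex v 𝒞 R (ℓ + 1)).card + g := by
          exact_mod_cast h2
        refine h7.trans ((add_le_add ihC (h5.trans (mul_le_mul_of_nonneg_left h4 hp0))).trans (le_of_eq ?_))
        rw [pow_succ x ℓ, pow_succ (1 - p * x) 𝒞.length]
        exact H_alg hxl.ne' hx.ne' hdl.ne' hd.ne'
      · have h1 := Finset.card_le_card (H_sub2 (v := v) (𝒞 := 𝒞) (R := R) (ℓ := ℓ + 1) (C := C) (by omega))
        have h2 : ((Ex v (C :: 𝒞) R (ℓ + 1)).card : ℝ) ≤ (Ex v 𝒞 R (ℓ + 1)).card := by exact_mod_cast h1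
        refine h2.trans (ihC.trans ?_)
        refine div_le_div_of_nonneg_left hn0 (by positivity) ?_
        rw [pow_succ (1 - p * x) 𝒞.length]
        refine mul_le_mul_of_nonneg_left ?_ (by positivity)
        exact mul_le_of_le_one_right hdl.le hd1

end H4.SX

/-! ### I -/

namespace H4.SX

open H40.SP H4.SL

variable {K s r B : ℕ}

theorem hr_of (hK : 1 ≤ K) (hs : 200 * (K + 1) ≤ s) (hr : (K + 4) * s ≤ r) :
    400 * s * 2 ^ s * 2 ^ (2 * K + 1) ≤ 2 ^ r := by
  have h1 : 400 ≤ 2 ^ s := by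
    calc 400 ≤ 2 ^ 9 := by norm_num
      _ ≤ 2 ^ s := Nat.pow_le_pow_right (by norm_num) (by omega)
  have h2 : s ≤ 2 ^ s := Nat.lt_two_pow_self.le
  have h3 : 2 ^ (2 * K + 1) ≤ 2 ^ s := Nat.pow_le_pow_right (by norm_num) (by omega)
  have h4 : 4 * s ≤ r := le_trans (Nat.mul_le_mul_right s (by omega)) hr
  calc 400 * s * 2 ^ s * 2 ^ (2 * K + 1) ≤ 2 ^ s * 2 ^ s * 2 ^ s * 2 ^ s := by gcongr
    _ = 2 ^ (4 * s) := by rw [← pow_add, ← pow_add, ← pow_add]; congr 1; ring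
    _ ≤ 2 ^ r := Nat.pow_le_pow_right (by norm_num) h4

theorem SlXi_tot : 0 < tot K s r := by
  unfold tot
  positivity

theorem SlXi_tot_le : tot K s r ≤ 2 ^ ((s + r) * (K + 1)) := by
  unfold tot
  rw [← pow_add]
  refine pow_le_pow_right₀ (by norm_num) ?_
  have h1 : (s + r - 1) * K ≤ (s + r) * K := Nat.mul_le_mul_right K (by omega)
  calc s + r + (s + r - 1) * K ≤ s + r + (s + r) * K := by omega
    _ = (s + r) * (K + 1) := by ring

theorem SlXi_log5 : Real.log 5 ≤ 2 := by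
  rw [Real.log_le_iff_le_exp (by norm_num)]
  have h := Real.quadratic_le_exp_of_nonneg (x := 2) (by norm_num)
  linarith

theorem num_b (hK : 1 ≤ K) (hs : 200 * (K + 1) ≤ s) {P : ℝ} (hP : P ≤ 1 / 5 * B * tot K s r) :
    (2 : ℝ) ^ B * Real.exp (B * Real.log 5 + s * (P / tot K s r + B / 20) - B * s / 2 * Real.log 2) ≤
      Real.exp (-((B : ℝ) * s) / (32 * ((K : ℝ) + 1))) := by
  have hK' : (1 : ℝ) ≤ K := by exact_mod_cast hK
  have hs' : 200 * ((K : ℝ) + 1) ≤ s := by exact_mod_cast hs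
  have hs4 : (400 : ℝ) ≤ s := by linarith
  have hB : (0 : ℝ) ≤ B := Nat.cast_nonneg B
  have ht := SlXi_tot (K := K) (s := s) (r := r)
  have h1 : P / tot K s r ≤ B / 5 := by
    rw [div_le_iff₀ ht]
    linarith
  have h2 : (2 : ℝ) ^ B = Real.exp (B * Real.log 2) := by
    rw [mul_comm, Real.exp_mul, Real.exp_log (by norm_num), Real.rpow_natCast]
  rw [h2, ← Real.exp_add]
  apply Real.exp_le_exp.2
  have l1 := Real.log_two_lt_d9
  have l2 := Real.log_two_gt_d9
  have l5 := SlXi_log5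
  have h3 : (s : ℝ) * (P / tot K s r + B / 20) ≤ s * (B / 5 + B / 20) :=
    mul_le_mul_of_nonneg_left (by linarith) (by linarith)
  have hBs : 0 ≤ (B : ℝ) * s := mul_nonneg hB (by linarith)
  have h4 : -((B : ℝ) * s) / 64 ≤ -((B : ℝ) * s) / (32 * ((K : ℝ) + 1)) := by
    rw [neg_div, neg_div, neg_le_neg_iff]
    exact div_le_div_of_nonneg_left hBs (by norm_num) (by linarith)
  refine le_trans ?_ h4
  have h5 : (B : ℝ) * Real.log 2 ≤ B * 0.7 := mul_le_mul_of_nonneg_left (by linarith) hB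
  have h6 : (B : ℝ) * Real.log 5 ≤ B * 2 := mul_le_mul_of_nonneg_left l5 hB
  have h7 : (B : ℝ) * s / 2 * 0.693 ≤ B * s / 2 * Real.log 2 :=
    mul_le_mul_of_nonneg_left (by linarith) (by linarith)
  have h8 : (B : ℝ) * 400 ≤ B * s := mul_le_mul_of_nonneg_left hs4 hB
  nlinarith

theorem SlXi_px (hK : 1 ≤ K) (hs : 200 * (K + 1) ≤ s) (hs2 : s ^ (K + 2) ≤ 2 ^ s) (hr : (K + 4) * s ≤ r) :
    ((s : ℝ) / 2 ^ r) ^ (K + 2) * 4 ^ s ≤ 2 ^ (3 * s) / 2 ^ (r * (K + 2)) ∧
    (2 : ℝ) ^ (3 * s) / 2 ^ (r * (K + 2)) ≤ 1 / 2 := by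
  constructor
  · rw [div_pow, ← pow_mul, div_mul_eq_mul_div]
    have h1 : (s : ℝ) ^ (K + 2) ≤ 2 ^ s := by exact_mod_cast hs2
    have h2 : (4 : ℝ) ^ s = 2 ^ (2 * s) := by rw [pow_mul]; norm_num
    have h3 : (2 : ℝ) ^ (3 * s) = 2 ^ s * 2 ^ (2 * s) := by rw [← pow_add]; congr 1; ring
    rw [h2, h3]
    gcongr
  · have h1 : 3 * s + 1 ≤ r * (K + 2) := by
      have h2 : 5 * s ≤ r := le_trans (Nat.mul_le_mul_right s (by omega)) hr
      have h3 : r * 1 ≤ r * (K + 2) := Nat.mul_le_mul_left r (by omega)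
      omega
    rw [div_le_iff₀ (by positivity)]
    calc (2 : ℝ) ^ (3 * s) = 1 / 2 * 2 ^ (3 * s + 1) := by rw [pow_succ]; ring
      _ ≤ 1 / 2 * 2 ^ (r * (K + 2)) := by
        refine mul_le_mul_of_nonneg_left (pow_le_pow_right₀ (by norm_num) h1) (by norm_num)

theorem SlXi_exp {y : ℝ} (h0 : 0 ≤ y) (h1 : y ≤ 1 / 2) : Real.exp (-(2 * y)) ≤ 1 - y := by
  have h2 := Real.add_one_le_exp (2 * y)
  rw [Real.exp_neg]
  calc (Real.exp (2 * y))⁻¹ ≤ (2 * y + 1)⁻¹ := inv_anti₀ (by linarith) h2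
    _ ≤ 1 - y := by
      rw [inv_le_iff_one_le_mul₀ (by linarith)]
      nlinarith

theorem num_a (hK : 1 ≤ K) (hs : 200 * (K + 1) ≤ s) (hs2 : s ^ (K + 2) ≤ 2 ^ s) (hr : (K + 4) * s ≤ r)
    (hB : 4 * (K + 2) ≤ B) {g : ℕ} (hg : (g : ℝ) ≤ 1 / 5 * B * tot K s r) :
    ((s : ℝ) / 2 ^ r) ^ (K + 2) * 4 ^ s < 1 ∧
    1 / (((4 : ℝ) ^ s) ^ (B / (4 * (K + 2))) * (1 - ((s : ℝ) / 2 ^ r) ^ (K + 2) * 4 ^ s) ^ g) ≤
      Real.exp (-((B : ℝ) * s) / (32 * ((K : ℝ) + 1))) := by
  obtain ⟨p1, p2⟩ := SlXi_px hK hs hs2 hr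
  obtain ⟨y, hy⟩ : ∃ y : ℝ, y = ((s : ℝ) / 2 ^ r) ^ (K + 2) * 4 ^ s := ⟨_, rfl⟩
  rw [← hy] at p1 ⊢
  have hy0 : 0 ≤ y := by rw [hy]; positivity
  have hy2 : y ≤ 1 / 2 := p1.trans p2
  refine ⟨by linarith, ?_⟩
  have hK' : (1 : ℝ) ≤ K := by exact_mod_cast hK
  have hs' : 200 * ((K : ℝ) + 1) ≤ s := by exact_mod_cast hs
  have hB0 : (0 : ℝ) ≤ B := Nat.cast_nonneg B
  -- the power of 1 - y
  have hyg : y * g ≤ B / 5 := by
    have h1 : (g : ℝ) ≤ B / 5 * 2 ^ ((s + r) * (K + 1)) := by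
      refine hg.trans ?_
      have h2 := SlXi_tot_le (K := K) (s := s) (r := r)
      calc 1 / 5 * (B : ℝ) * tot K s r ≤ 1 / 5 * B * 2 ^ ((s + r) * (K + 1)) :=
            mul_le_mul_of_nonneg_left h2 (by positivity)
        _ = _ := by ring
    have h3 : 3 * s + (s + r) * (K + 1) ≤ r * (K + 2) := by
      have h4 : 3 * s + (s + r) * (K + 1) = (K + 4) * s + r * (K + 1) := by ring
      have h5 : r * (K + 2) = r + r * (K + 1) := by ring
      omega
    calc y * g ≤ (2 ^ (3 * s) / 2 ^ (r * (K + 2))) * (B / 5 * 2 ^ ((s + r) * (K + 1))) :=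
          mul_le_mul p1 h1 (Nat.cast_nonneg g) (by positivity)
      _ = B / 5 * (2 ^ (3 * s + (s + r) * (K + 1)) / 2 ^ (r * (K + 2))) := by
          rw [pow_add]; ring
      _ ≤ B / 5 * 1 := by
          refine mul_le_mul_of_nonneg_left ?_ (by positivity)
          rw [div_le_one (by positivity)]
          exact pow_le_pow_right₀ (by norm_num) h3
      _ = B / 5 := by ring
  have hpow : Real.exp (-B) ≤ (1 - y) ^ g := by
    calc Real.exp (-(B : ℝ)) ≤ Real.exp (g * (-(2 * y))) := by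
          apply Real.exp_le_exp.2
          nlinarith
      _ = Real.exp (-(2 * y)) ^ g := by rw [← Real.exp_nat_mul]
      _ ≤ (1 - y) ^ g := pow_le_pow_left₀ (Real.exp_pos _).le (SlXi_exp hy0 hy2) g
  -- the power of 4
  have hl : (B : ℝ) / (8 * ((K : ℝ) + 2)) ≤ ((B / (4 * (K + 2)) : ℕ) : ℝ) := by
    have h1 : 1 ≤ B / (4 * (K + 2)) := (Nat.one_le_div_iff (by omega)).2 hB
    have h2 : B < 4 * (K + 2) * (B / (4 * (K + 2)) + 1) := Nat.lt_mul_div_succ B (by omega)
    have h3 : 4 * (K + 2) * (B / (4 * (K + 2)) + 1) ≤ 8 * (K + 2) * (B / (4 * (K + 2))) := by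
      calc 4 * (K + 2) * (B / (4 * (K + 2)) + 1) ≤ 4 * (K + 2) * (B / (4 * (K + 2)) + B / (4 * (K + 2))) :=
            Nat.mul_le_mul_left _ (by omega)
        _ = 8 * (K + 2) * (B / (4 * (K + 2))) := by ring
    have h4 : B ≤ 8 * (K + 2) * (B / (4 * (K + 2))) := by omega
    have h5 : (B : ℝ) ≤ 8 * ((K : ℝ) + 2) * ((B / (4 * (K + 2)) : ℕ) : ℝ) := by exact_mod_cast h4
    rw [div_le_iff₀ (by positivity)]
    linarith
  have h4pow : Real.exp (1.386 * s * (B / (8 * ((K : ℝ) + 2)))) ≤ ((4 : ℝ) ^ s) ^ (B / (4 * (K + 2))) := by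
    have l2 := Real.log_two_gt_d9
    have h1 : ((4 : ℝ) ^ s) ^ (B / (4 * (K + 2))) = Real.exp (Real.log 4 * s * ((B / (4 * (K + 2)) : ℕ) : ℝ)) := by
      rw [Real.exp_mul, Real.exp_mul, Real.exp_log (by norm_num), Real.rpow_natCast, Real.rpow_natCast]
    have h2 : Real.log 4 = 2 * Real.log 2 := by
      rw [show (4 : ℝ) = 2 ^ 2 by norm_num, Real.log_pow]
      norm_num
    rw [h1, h2]
    apply Real.exp_le_exp.2
    have h3 : 1.386 * (s : ℝ) ≤ 2 * Real.log 2 * s := by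
      refine mul_le_mul_of_nonneg_right (by linarith) (Nat.cast_nonneg s)
    exact mul_le_mul h3 hl (by positivity) (by positivity)
  have hpos : 0 < Real.exp (1.386 * s * (B / (8 * ((K : ℝ) + 2)))) * Real.exp (-B) :=
    mul_pos (Real.exp_pos _) (Real.exp_pos _)
  calc 1 / (((4 : ℝ) ^ s) ^ (B / (4 * (K + 2))) * (1 - y) ^ g)
      ≤ 1 / (Real.exp (1.386 * s * (B / (8 * ((K : ℝ) + 2)))) * Real.exp (-B)) := by
        refine one_div_le_one_div_of_le hpos ?_
        exact mul_le_mul h4pow hpow (Real.exp_pos _).le (by positivity)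
    _ = Real.exp (-(1.386 * s * (B / (8 * ((K : ℝ) + 2))) + -B)) := by
        rw [← Real.exp_add, one_div, ← Real.exp_neg]
    _ ≤ Real.exp (-((B : ℝ) * s) / (32 * ((K : ℝ) + 1))) := by
        apply Real.exp_le_exp.2
        have hk1 : 0 < (K : ℝ) + 1 := by linarith
        have hk2 : 0 < (K : ℝ) + 2 := by linarith
        have e1 : -(1.386 * (s : ℝ) * (B / (8 * ((K : ℝ) + 2))) + -B) = B * (1 - 0.17325 * s / ((K : ℝ) + 2)) := by
          field_simp
          ring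
        have e2 : -((B : ℝ) * s) / (32 * ((K : ℝ) + 1)) = B * (-(s / (32 * ((K : ℝ) + 1)))) := by ring
        rw [e1, e2]
        refine mul_le_mul_of_nonneg_left ?_ hB0
        have h1 : 0.1155 * (s : ℝ) / ((K : ℝ) + 1) ≤ 0.17325 * s / ((K : ℝ) + 2) := by
          rw [div_le_div_iff₀ hk1 hk2]
          nlinarith [Nat.cast_nonneg (α := ℝ) s]
        have h2 : 200 ≤ (s : ℝ) / ((K : ℝ) + 1) := by
          rw [le_div_iff₀ hk1]
          exact hs'
        have h3 : (s : ℝ) / (32 * ((K : ℝ) + 1)) = (s / ((K : ℝ) + 1)) / 32 := by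
          field_simp
        have h4 : 0.1155 * (s : ℝ) / ((K : ℝ) + 1) = 0.1155 * (s / ((K : ℝ) + 1)) := by ring
        rw [h3]
        rw [h4] at h1
        linarith

end H4.SX

/-! ### J -/

namespace H4.SX

open H40.SP H4.SL

variable {V : Type} [DecidableEq V] {K s r B : ℕ} {v : Fin B → Fin (K + 1) → Ix s r → V} {G : Fml V}

theorem J_sum {α : Type*} [Fintype α] (E₁ E₂ : Finset α) (f : α → ℝ) {k e n : ℝ} (hk : 0 ≤ k)
    (he : 0 ≤ e) (hn : (Fintype.card α : ℝ) = n) (h1 : (E₁.card : ℝ) ≤ n * e)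
    (h2 : (E₂.card : ℝ) ≤ n * e) (h : ∀ M, f M ≤ k) (h' : ∀ M, M ∉ E₁ → M ∉ E₂ → f M ≤ k * e) :
    ∑ M, f M ≤ 3 * n * k * e := by
  classical
  have hs : ∀ E : Finset α, ∑ M, (if M ∈ E then (1 : ℝ) else 0) = E.card := by
    intro E
    rw [Finset.sum_ite_mem, Finset.univ_inter, Finset.sum_const, nsmul_eq_mul, mul_one]
  have hp : ∀ M, f M ≤ k * ((if M ∈ E₁ then (1 : ℝ) else 0) + (if M ∈ E₂ then (1 : ℝ) else 0) + e) := by
    intro M
    by_cases m1 : M ∈ E₁
    · refine (h M).trans ?_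
      rw [if_pos m1]
      have : (0 : ℝ) ≤ if M ∈ E₂ then (1 : ℝ) else 0 := by split_ifs <;> norm_num
      nlinarith
    · by_cases m2 : M ∈ E₂
      · refine (h M).trans ?_
        rw [if_neg m1, if_pos m2]
        nlinarith
      · refine (h' M m1 m2).trans ?_
        rw [if_neg m1, if_neg m2, zero_add, zero_add]
  refine (Finset.sum_le_sum fun M _ => hp M).trans ?_
  rw [← Finset.mul_sum, Finset.sum_add_distrib, Finset.sum_add_distrib, hs, hs, Finset.sum_const,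
    nsmul_eq_mul, Finset.card_univ, hn]
  have : (E₁.card : ℝ) + E₂.card + n * e ≤ 3 * (n * e) := by linarith
  calc k * ((E₁.card : ℝ) + E₂.card + n * e) ≤ k * (3 * (n * e)) := mul_le_mul_of_nonneg_left this hk
    _ = 3 * n * k * e := by ring

omit [DecidableEq V] in
theorem J_acc (M : Fin B → Fr K s r) : ((acc v M G).card : ℝ) ≤ ((K : ℝ) + 1) ^ (B * s) := by
  have h := Finset.card_le_univ (acc v M G)
  rw [Fintype.card_fun, Fintype.card_fin, Fintype.card_fin] at h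
  exact_mod_cast h

theorem sum_acc (hK : 1 ≤ K) (hs : 200 * (K + 1) ≤ s) (hs2 : s ^ (K + 2) ≤ 2 ^ s) (hr : (K + 4) * s ≤ r)
    (hB : 4 * (K + 2) ≤ B) (hv : InjV v) (hG : ∀ a, Sat G a → Sat (hf v) a)
    (hL : (G.card : ℝ) ≤ 1 / 5 * B * tot K s r) :
    ∑ M : Fin B → Fr K s r, ((acc v M G).card : ℝ) ≤
      3 * Fintype.card (Fin B → Fr K s r) * ((K : ℝ) + 1) ^ (B * s) *
        Real.exp (-((B : ℝ) * s) / (32 * ((K : ℝ) + 1))) := by
  classical
  obtain ⟨n, hn⟩ : ∃ n : ℝ, (Fintype.card (Fin B → Fr K s r) : ℝ) = n := ⟨_, rfl⟩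
  obtain ⟨e, he⟩ : ∃ e : ℝ, Real.exp (-((B : ℝ) * s) / (32 * ((K : ℝ) + 1))) = e := ⟨_, rfl⟩
  have he0 : 0 < e := he ▸ Real.exp_pos _
  have hn0 : 0 ≤ n := hn ▸ Nat.cast_nonneg _
  obtain ⟨ha1, ha2⟩ := num_a hK hs hs2 hr hB hL
  have hb := num_b (B := B) (r := r) hK hs hL
  rw [he] at ha2 hb
  have htot : 0 < tot K s r := by unfold tot; positivity
  have hs1 : 1 ≤ s := by omega
  rw [hn, he]
  refine J_sum (Ex v G.toList ∅ (B / (4 * (K + 2)))) (Finset.univ.biUnion fun R : Finset (Fin B) =>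
    Finset.univ.filter (fun M : Fin B → Fr K s r => B * s ≤ 2 * hits (sr v R G) M)) _ (by positivity)
    he0.le hn ?_ ?_ (fun M => J_acc M) ?_
  · have h1 := card_Ex (v := v) (x := (4 : ℝ) ^ s) (by positivity) rfl ha1 (B / (4 * (K + 2))) G.toList ∅
    rw [hn, Finset.length_toList] at h1
    refine h1.trans ?_
    rw [div_eq_mul_one_div]
    exact mul_le_mul_of_nonneg_left ha2 hn0
  · have h1 : ∀ R : Finset (Fin B), ((Finset.univ.filter (fun M : Fin B → Fr K s r =>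
        B * s ≤ 2 * hits (sr v R G) M)).card : ℝ) ≤ n * Real.exp (B * Real.log 5 +
        s * ((G.card : ℝ) / tot K s r + B / 20) - B * s / 2 * Real.log 2) := by
      intro R
      refine (hits_tail hK hs1 (hr_of hK hs hr) (sr v R G) (adm_sr R)).trans ?_
      rw [hn]
      refine mul_le_mul_of_nonneg_left (Real.exp_le_exp.2 ?_) hn0
      have h2 : ((sr v R G).card : ℝ) / tot K s r ≤ (G.card : ℝ) / tot K s r :=
        div_le_div_of_nonneg_right (by exact_mod_cast card_sr_le R) htot.le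
      have h3 : (s : ℝ) * (((sr v R G).card : ℝ) / tot K s r + B / 20) ≤
          s * ((G.card : ℝ) / tot K s r + B / 20) :=
        mul_le_mul_of_nonneg_left (by linarith) (Nat.cast_nonneg _)
      linarith
    have h4 : ((Finset.univ.biUnion fun R : Finset (Fin B) => Finset.univ.filter
        (fun M : Fin B → Fr K s r => B * s ≤ 2 * hits (sr v R G) M)).card : ℝ) ≤
        ∑ R : Finset (Fin B), ((Finset.univ.filter (fun M : Fin B → Fr K s r =>
        B * s ≤ 2 * hits (sr v R G) M)).card : ℝ) := by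
      exact_mod_cast Finset.card_biUnion_le
    refine h4.trans ((Finset.sum_le_sum fun R _ => h1 R).trans ?_)
    rw [Finset.sum_const, nsmul_eq_mul, Finset.card_univ, Fintype.card_finset, Fintype.card_fin]
    calc (((2 : ℕ) ^ B : ℕ) : ℝ) * (n * Real.exp (B * Real.log 5 +
          s * ((G.card : ℝ) / tot K s r + B / 20) - B * s / 2 * Real.log 2))
        = n * ((2 : ℝ) ^ B * Real.exp (B * Real.log 5 +
          s * ((G.card : ℝ) / tot K s r + B / 20) - B * s / 2 * Real.log 2)) := by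
          push_cast
          ring
      _ ≤ n * e := mul_le_mul_of_nonneg_left hb hn0
  · intro M m1 m2
    have m1' : ∃ R' : Finset (Fin B), ∅ ⊆ R' ∧ R'.card ≤ (∅ : Finset (Fin B)).card +
        B / (4 * (K + 2)) * (K + 2) ∧
        ∀ C ∈ G.toList, (∀ u ∈ ng v ∅ C, On M u) → (ng v R' C).card ≤ K + 1 := by
      by_contra hcon
      exact m1 (by
        unfold Ex
        rw [Finset.mem_filter]
        exact ⟨Finset.mem_univ _, hcon⟩)
    obtain ⟨R, -, hR, hC⟩ := m1'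
    have h2 : ¬ (B * s ≤ 2 * hits (sr v R G) M) := by
      intro hcon
      exact m2 (Finset.mem_biUnion.2 ⟨R, Finset.mem_univ _, Finset.mem_filter.2
        ⟨Finset.mem_univ _, hcon⟩⟩)
    refine (card_acc_le hK hv hG M R (fun C hCG => hC C (Finset.mem_toList.2 hCG))).trans ?_
    refine mul_le_mul_of_nonneg_left ?_ (by positivity)
    rw [← he, Real.exp_le_exp]
    have h3 : 4 * R.card ≤ B := by
      rw [Finset.card_empty, zero_add] at hR
      have h5 : B / (4 * (K + 2)) * (4 * (K + 2)) ≤ B := Nat.div_mul_le_self _ _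
      have h6 : B / (4 * (K + 2)) * (4 * (K + 2)) = 4 * (B / (4 * (K + 2)) * (K + 2)) := by ring
      omega
    have h3' : (4 : ℝ) * R.card ≤ B := by exact_mod_cast h3
    have h4' : (2 : ℝ) * hits (sr v R G) M ≤ B * s := by exact_mod_cast (not_le.1 h2).le
    have h7 : (R.card : ℝ) * s ≤ B * s / 4 := by
      have := mul_le_mul_of_nonneg_right h3' (Nat.cast_nonneg (α := ℝ) s)
      linarith
    have hK0 : (0 : ℝ) < (K : ℝ) + 1 := by positivity
    rw [div_le_div_iff₀ (by positivity) (by positivity)]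
    have h8 : (B : ℝ) * s / 4 ≤ (B : ℝ) * s - R.card * s - hits (sr v R G) M := by linarith
    nlinarith

theorem not_sparse (hK : 1 ≤ K) (hs : 200 * (K + 1) ≤ s) (hs2 : s ^ (K + 2) ≤ 2 ^ s) (hr : (K + 4) * s ≤ r)
    (hB : 4 * (K + 2) ≤ B) (hv : InjV v) {m L : ℝ}
    (hm : 3 * m < Real.exp ((B : ℝ) * s / (32 * ((K : ℝ) + 1)))) (hL : L ≤ 1 / 5 * B * tot K s r) (w : ℕ) :
    ¬ Sparse (hf v) w m L := by
  classical
  rintro ⟨𝒢, h1, h2, h3⟩
  obtain ⟨n, hn⟩ : ∃ n : ℝ, (Fintype.card (Fin B → Fr K s r) : ℝ) = n := ⟨_, rfl⟩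
  have hn0 : 0 < n := by
    rw [← hn]
    exact_mod_cast Fintype.card_pos
  obtain ⟨c, hc⟩ : ∃ c : ℝ, (B : ℝ) * s / (32 * ((K : ℝ) + 1)) = c := ⟨_, rfl⟩
  obtain ⟨k, hk⟩ : ∃ k : ℝ, ((K : ℝ) + 1) ^ (B * s) = k := ⟨_, rfl⟩
  have hk0 : 0 < k := by rw [← hk]; positivity
  have hsum : ∀ G ∈ 𝒢, ∑ M : Fin B → Fr K s r, ((acc v M G).card : ℝ) ≤
      3 * n * k * Real.exp (-c) := by
    intro G hG
    have h4 := sum_acc hK hs hs2 hr hB hv (fun a ha => (h3 a).2 ⟨G, hG, ha⟩)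
      (((h2 G hG).2).trans hL)
    rw [hn, hk, neg_div, hc] at h4
    exact h4
  have hcov : ∀ M : Fin B → Fr K s r, k ≤ ∑ G ∈ 𝒢, ((acc v M G).card : ℝ) := by
    intro M
    have h5 : (Finset.univ : Finset (Fin (B * s) → Fin (K + 1))) ⊆ 𝒢.biUnion (fun G => acc v M G) := by
      intro j _
      obtain ⟨G, hG, hs⟩ := (h3 _).1 (sat_big hv M j)
      refine Finset.mem_biUnion.2 ⟨G, hG, ?_⟩
      unfold acc
      rw [Finset.mem_filter]
      exact ⟨Finset.mem_univ _, hs⟩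
    have h6 := (Finset.card_le_card h5).trans Finset.card_biUnion_le
    rw [Finset.card_univ, Fintype.card_fun, Fintype.card_fin, Fintype.card_fin] at h6
    rw [← hk]
    exact_mod_cast h6
  have h7 : n * k ≤ ∑ G ∈ 𝒢, ∑ M : Fin B → Fr K s r, ((acc v M G).card : ℝ) := by
    rw [Finset.sum_comm]
    refine le_trans (le_of_eq ?_) (Finset.sum_le_sum fun M _ => hcov M)
    rw [Finset.sum_const, nsmul_eq_mul, Finset.card_univ, hn]
  have h8 : n * k ≤ m * (3 * n * k * Real.exp (-c)) := by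
    refine h7.trans ((Finset.sum_le_sum hsum).trans ?_)
    rw [Finset.sum_const, nsmul_eq_mul]
    exact mul_le_mul_of_nonneg_right h1 (by positivity)
  rw [hc] at hm
  have h9 : 3 * m * Real.exp (-c) < 1 := by
    rw [Real.exp_neg, ← div_eq_mul_inv, div_lt_one (Real.exp_pos _)]
    exact hm
  have h10 : n * k * (3 * m * Real.exp (-c)) < n * k * 1 :=
    mul_lt_mul_of_pos_left h9 (mul_pos hn0 hk0)
  linarith

end H4.SX

/-! ### K -/

namespace H4.SX

open H40.SP H4.SL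

theorem exists_pow_le (K : ℕ) : ∃ s₀ : ℕ, 200 * (K + 1) ≤ s₀ ∧ ∀ s ≥ s₀, s ^ (K + 2) ≤ 2 ^ s := by
  have h := tendsto_pow_const_div_const_pow_of_one_lt (K + 2) (by norm_num : (1 : ℝ) < 2)
  have h1 := (h.eventually (gt_mem_nhds (by norm_num : (0 : ℝ) < 1)))
  obtain ⟨s₀, hs₀⟩ := Filter.eventually_atTop.1 h1
  refine ⟨max s₀ (200 * (K + 1)), le_max_right _ _, fun s hs => ?_⟩
  have h2 := hs₀ s ((le_max_left _ _).trans hs)
  rw [div_lt_one (by positivity)] at h2
  exact_mod_cast h2.le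

theorem exists_d {y : ℝ} (hy : 0 < y) {K d₀ : ℕ} (h : y * 2 ^ d₀ ≤ ((d₀ / (K + 5) : ℕ) : ℝ)) :
    ∃ d : ℕ, d₀ ≤ d ∧ y * 2 ^ d ≤ ((d / (K + 5) : ℕ) : ℝ) ∧ ((d / (K + 5) : ℕ) : ℝ) < y * 2 ^ (d + 1) := by
  classical
  have hex : ∃ d : ℕ, d₀ ≤ d ∧ ((d / (K + 5) : ℕ) : ℝ) < y * 2 ^ d := by
    have h1 := tendsto_pow_const_div_const_pow_of_one_lt 1 (by norm_num : (1 : ℝ) < 2)
    have h2 := (h1.eventually (gt_mem_nhds hy))
    obtain ⟨d₁, hd₁⟩ := Filter.eventually_atTop.1 h2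
    refine ⟨max d₀ d₁, le_max_left _ _, ?_⟩
    have h3 := hd₁ (max d₀ d₁) (le_max_right _ _)
    rw [pow_one, div_lt_iff₀ (by positivity)] at h3
    refine lt_of_le_of_lt ?_ h3
    exact_mod_cast Nat.div_le_self _ _
  have h1 := Nat.find_spec hex
  have h2 : ∀ m < Nat.find hex, ¬ (d₀ ≤ m ∧ ((m / (K + 5) : ℕ) : ℝ) < y * 2 ^ m) :=
    fun m hm => Nat.find_min hex hm
  set d1 : ℕ := Nat.find hex with hd1
  have h3 : d1 ≠ d₀ := by
    intro h4
    rw [h4] at h1
    linarith [h1.2]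
  have h1' := h1.1
  obtain ⟨d, hd⟩ : ∃ d, d1 = d + 1 := ⟨d1 - 1, by omega⟩
  rw [hd] at h1 h1' h2 h3
  refine ⟨d, by omega, ?_, ?_⟩
  · by_contra hcon
    exact h2 d (by omega) ⟨by omega, not_le.1 hcon⟩
  · refine lt_of_le_of_lt ?_ h1.2
    exact_mod_cast Nat.div_le_div_right (Nat.le_succ d)

private lemma Kx_num {K : ℕ} (hK : 1 ≤ K) : 10 * (K + 1) ≤ 32 ^ K := by
  induction K, hK using Nat.le_induction with
  | base => norm_num
  | succ m _ ih =>
    rw [pow_succ]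
    omega

private lemma Kx_log {κ s ε : ℝ} {N : ℝ} {d K : ℕ} (hκ : κ = (K : ℝ) + 1) (hκ2 : 2 ≤ κ)
    (hs : 200 * κ ≤ s) (hε : 0 < ε) (hN : N = 2 ^ d) (hii : s < 256 * κ ^ 2 * ε * N)
    (hd : (d : ℝ) ≤ ((K : ℝ) + 5) * (s + 1)) : Real.log (1 / ε) ≤ 4 * κ * s := by
  have hκ0 : 0 < κ := by linarith
  have hs0 : 0 < s := by linarith
  have hN0 : 0 < N := by
    rw [hN]
    positivity
  have h1 : 1 / ε ≤ 256 * κ ^ 2 * N := by
    rw [div_le_iff₀ hε]
    have : 1 ≤ s := by linarith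
    calc (1 : ℝ) ≤ s := this
      _ ≤ 256 * κ ^ 2 * ε * N := hii.le
      _ = 256 * κ ^ 2 * N * ε := by ring
  have h2 : Real.log (1 / ε) ≤ Real.log (256 * κ ^ 2 * N) := Real.log_le_log (by positivity) h1
  have h3 : Real.log (256 * κ ^ 2 * N) = 8 * Real.log 2 + 2 * Real.log κ + d * Real.log 2 := by
    rw [Real.log_mul (by positivity) hN0.ne', Real.log_mul (by norm_num) (by positivity),
      show (256 : ℝ) = 2 ^ 8 by norm_num, Real.log_pow, Real.log_pow, hN, Real.log_pow]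
    norm_num
  have h4 : Real.log κ ≤ κ - 1 := Real.log_le_sub_one_of_pos hκ0
  have h5 := Real.log_two_lt_d9
  have h6 : 0 < Real.log 2 := Real.log_pos (by norm_num)
  have h7 : (d : ℝ) * Real.log 2 ≤ ((K : ℝ) + 5) * (s + 1) * 0.7 :=
    mul_le_mul hd (by linarith) h6.le (by rw [show (K : ℝ) = κ - 1 by linarith]; nlinarith)
  have h8 : (K : ℝ) + 5 ≤ 3 * κ := by linarith
  have h9 : ((K : ℝ) + 5) * (s + 1) ≤ 3 * κ * (s + 1) := mul_le_mul_of_nonneg_right h8 (by linarith)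
  rw [h3] at h2
  nlinarith

private lemma Kx_L {κ B ε n N lg s : ℝ} {K : ℕ} (hκ : 0 < κ) (hK : 10 * κ ≤ 32 ^ K)
    (hB : 0 < B) (hε : 0 < ε) (hN : 0 < N) (hii : s < 256 * κ ^ 2 * ε * N) (hn0 : 0 ≤ n)
    (hn : n ≤ 2 * B * κ * N) (hlg0 : 0 ≤ lg) (hlg : lg ≤ 4 * κ * s) :
    (lg / (2 ^ 16 * κ ^ 3 * ε)) ^ K * n ≤ 1 / 5 * B * (N * (N / 2) ^ K) := by
  have h1 : lg / (2 ^ 16 * κ ^ 3 * ε) ≤ N / 64 := by
    rw [div_le_div_iff₀ (by positivity) (by norm_num)]
    have h2 : 4 * κ * s ≤ 4 * κ * (256 * κ ^ 2 * ε * N) :=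
      mul_le_mul_of_nonneg_left hii.le (by positivity)
    calc lg * 64 ≤ 4 * κ * (256 * κ ^ 2 * ε * N) * 64 := by linarith
      _ = N * (2 ^ 16 * κ ^ 3 * ε) := by ring
  have h2 : 0 ≤ lg / (2 ^ 16 * κ ^ 3 * ε) := by positivity
  have e4 : ((N : ℝ) / 2) ^ K = 32 ^ K * (N / 64) ^ K := by
    rw [← mul_pow]
    congr 1
    ring
  rw [e4]
  have h5 : (0 : ℝ) < (N / 64) ^ K := by positivity
  calc (lg / (2 ^ 16 * κ ^ 3 * ε)) ^ K * n
      ≤ (N / 64) ^ K * (2 * B * κ * N) :=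
        mul_le_mul (pow_le_pow_left₀ h2 h1 _) hn hn0 h5.le
    _ = (B * N * (N / 64) ^ K / 5) * (10 * κ) := by ring
    _ ≤ (B * N * (N / 64) ^ K / 5) * 32 ^ K := mul_le_mul_of_nonneg_left hK (by positivity)
    _ = 1 / 5 * B * (N * (32 ^ K * (N / 64) ^ K)) := by ring

private lemma Kx_tot {K s r N : ℕ} (hN : N = 2 ^ (s + r)) (hsr : 1 ≤ s + r) :
    tot K s r = N * (N / 2) ^ K := by
  have e1 : (N : ℝ) = 2 ^ (s + r) := by
    rw [hN]
    push_cast
    rfl
  have e2 : (N : ℝ) / 2 = 2 ^ (s + r - 1) := by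
    have e3 : s + r = (s + r - 1) + 1 := by omega
    rw [e1]
    conv_lhs => rw [e3]
    rw [pow_succ]
    ring
  rw [e2, e1, ← pow_mul]
  rfl

private lemma Kx_m {κ s B ε n N : ℝ} (hκ : 2 ≤ κ) (hs : 200 * κ ≤ s) (hB : 1 ≤ B) (hε : 0 < ε)
    (hi : 128 * κ ^ 2 * ε * N ≤ s) (hn : n ≤ 2 * B * κ * N) :
    3 * (2 : ℝ) ^ (ε * n) < Real.exp (B * s / (32 * κ)) := by
  have hκ0 : 0 < κ := by linarith
  have h2 : 0 < Real.log 2 := Real.log_pos (by norm_num)
  have h3 := Real.log_two_lt_d9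
  have e1 : (2 : ℝ) ^ (ε * n) = Real.exp (ε * n * Real.log 2) := by
    rw [Real.rpow_def_of_pos (by norm_num), mul_comm]
  have h4 : (3 : ℝ) ≤ Real.exp 2 := by
    have := Real.add_one_le_exp (2 : ℝ)
    linarith
  rw [e1]
  have h5 : 3 * Real.exp (ε * n * Real.log 2) ≤ Real.exp (2 + ε * n * Real.log 2) := by
    rw [Real.exp_add]
    exact mul_le_mul_of_nonneg_right h4 (Real.exp_nonneg _)
  refine lt_of_le_of_lt h5 (Real.exp_lt_exp.2 ?_)
  have h6 : ε * n ≤ B * s / (64 * κ) := by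
    rw [le_div_iff₀ (by positivity)]
    have h7 : ε * n ≤ ε * (2 * B * κ * N) := mul_le_mul_of_nonneg_left hn hε.le
    have h8 : ε * n * (64 * κ) ≤ ε * (2 * B * κ * N) * (64 * κ) :=
      mul_le_mul_of_nonneg_right h7 (by positivity)
    have h9 : ε * (2 * B * κ * N) * (64 * κ) = B * (128 * κ ^ 2 * ε * N) := by ring
    have h10 : B * (128 * κ ^ 2 * ε * N) ≤ B * s := mul_le_mul_of_nonneg_left hi (by linarith)
    linarith
  have h7 : 200 ≤ B * s / κ := by
    rw [le_div_iff₀ hκ0]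
    nlinarith
  have e2 : B * s / (64 * κ) = B * s / κ / 64 := by
    field_simp
  have e3 : B * s / (32 * κ) = B * s / κ / 32 := by
    field_simp
  rw [e2] at h6
  rw [e3]
  have h8 : ε * n * Real.log 2 ≤ B * s / κ / 64 * 0.7 := by
    rcases le_or_gt 0 (ε * n) with h0 | h0
    · exact mul_le_mul h6 (by linarith) h2.le (by linarith)
    · have : ε * n * Real.log 2 ≤ 0 := mul_nonpos_of_nonpos_of_nonneg h0.le h2.le
      linarith
  linarith

theorem lowerX : ∃ C : ℝ, 0 < C ∧ ∀ k : ℕ, 2 ≤ k → ∃ ε₀ : ℝ, 0 < ε₀ ∧ ∀ ε : ℝ, 0 < ε → ε ≤ ε₀ →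
    ∃ n₀ : ℕ, ∀ n ≥ n₀, ∃ F : Fml (Fin n), Width k F ∧
      ∀ w : ℕ, ¬ Sparse F w ((2 : ℝ) ^ (ε * n)) ((Real.log (1 / ε) / (C * k ^ 3 * ε)) ^ (k - 1) * n) := by
  refine ⟨2 ^ 16, by norm_num, ?_⟩
  intro k hk
  obtain ⟨K, rfl⟩ : ∃ K, k = K + 1 := ⟨k - 1, by omega⟩
  have hK : 1 ≤ K := by omega
  obtain ⟨κ, hκ⟩ : ∃ κ : ℝ, κ = (K : ℝ) + 1 := ⟨_, rfl⟩
  have hκc : ((K + 1 : ℕ) : ℝ) = κ := by
    rw [hκ]
    push_cast
    rfl
  have hK1 : (1 : ℝ) ≤ K := by exact_mod_cast hK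
  have hκ2 : 2 ≤ κ := by
    rw [hκ]
    linarith
  have hκ0 : 0 < κ := by linarith
  rw [hκc]
  obtain ⟨s₀, hs₀, hpow⟩ := exists_pow_le K
  have hs₀0 : 0 < s₀ := by omega
  have hs₀r : (0 : ℝ) < s₀ := by exact_mod_cast hs₀0
  refine ⟨min 1 (s₀ / (128 * κ ^ 2 * 2 ^ ((K + 5) * s₀))), lt_min one_pos (by positivity), ?_⟩
  intro ε hε hε0
  have hε1 : ε ≤ 1 := hε0.trans (min_le_left _ _)
  have hε2 := hε0.trans (min_le_right _ _)
  obtain ⟨y, hy⟩ : ∃ y : ℝ, y = 128 * κ ^ 2 * ε := ⟨_, rfl⟩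
  have hy0 : 0 < y := by
    rw [hy]
    positivity
  have hyd : y * 2 ^ ((K + 5) * s₀) ≤ ((((K + 5) * s₀) / (K + 5) : ℕ) : ℝ) := by
    rw [Nat.mul_div_cancel_left _ (by omega), hy]
    rw [le_div_iff₀ (by positivity)] at hε2
    linarith
  obtain ⟨d, hd0, hd1, hd2⟩ := exists_d hy0 hyd
  obtain ⟨s, hs⟩ : ∃ s : ℕ, s = d / (K + 5) := ⟨_, rfl⟩
  rw [← hs] at hd1 hd2
  have hss : s₀ ≤ s := by
    rw [hs]
    exact (Nat.le_div_iff_mul_le (by omega)).2 (by rw [mul_comm]; exact hd0)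
  have hsd : (K + 5) * s ≤ d := by
    rw [hs]
    exact Nat.mul_div_le d (K + 5)
  have hds : d < (K + 5) * (s + 1) := by
    rw [hs]
    have h1 := Nat.lt_mul_div_succ d (show 0 < K + 5 by omega)
    exact h1
  obtain ⟨r, hr⟩ : ∃ r : ℕ, r = d - s := ⟨_, rfl⟩
  have hsr : s + r = d := by
    have h1 : s ≤ (K + 5) * s := Nat.le_mul_of_pos_left s (by omega)
    omega
  have hrs : (K + 4) * s ≤ r := by
    have h1 : (K + 5) * s = (K + 4) * s + s := by ring
    omega
  obtain ⟨N, hN⟩ : ∃ N : ℕ, N = 2 ^ (s + r) := ⟨_, rfl⟩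
  have hN0 : 0 < N := by
    rw [hN]
    positivity
  have hNr : (0 : ℝ) < N := by exact_mod_cast hN0
  have hNd : (N : ℝ) = 2 ^ d := by
    rw [hN, hsr]
    push_cast
    rfl
  have hs200 : 200 * (K + 1) ≤ s := hs₀.trans hss
  have hsκ : 200 * κ ≤ s := by
    rw [hκ]
    exact_mod_cast hs200
  have hi : 128 * κ ^ 2 * ε * N ≤ s := by
    rw [← hy, hNd]
    exact hd1
  have hii : (s : ℝ) < 256 * κ ^ 2 * ε * N := by
    have e : 256 * κ ^ 2 * ε * N = y * 2 ^ (d + 1) := by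
      rw [hy, hNd, pow_succ]
      ring
    rw [e]
    exact hd2
  have hkN : 0 < (K + 1) * N := Nat.mul_pos (by omega) hN0
  refine ⟨4 * (K + 2) * ((K + 1) * N), fun n hn => ?_⟩
  obtain ⟨B, hB⟩ : ∃ B : ℕ, B = n / ((K + 1) * N) := ⟨_, rfl⟩
  have hB1 : 4 * (K + 2) ≤ B := by
    rw [hB]
    exact (Nat.le_div_iff_mul_le hkN).2 hn
  have hBn : B * ((K + 1) * N) ≤ n := by
    rw [hB]
    exact Nat.div_mul_le_self n _
  have hnB : n < (B + 1) * ((K + 1) * N) := by
    rw [hB]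
    have := Nat.lt_div_mul_add (a := n) hkN
    calc n < n / ((K + 1) * N) * ((K + 1) * N) + (K + 1) * N := this
      _ = (n / ((K + 1) * N) + 1) * ((K + 1) * N) := by ring
  have hn2 : (n : ℝ) ≤ 2 * B * κ * N := by
    have h1 : n ≤ 2 * B * (K + 1) * N := by
      have h2 : (B + 1) * ((K + 1) * N) ≤ (2 * B) * ((K + 1) * N) :=
        Nat.mul_le_mul_right _ (by omega)
      calc n ≤ (2 * B) * ((K + 1) * N) := by omega
        _ = 2 * B * (K + 1) * N := by ring
    rw [hκ]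
    exact_mod_cast h1
  have hBr : (1 : ℝ) ≤ B := by
    have : 1 ≤ B := by omega
    exact_mod_cast this
  have hBn' : B * ((K + 1) * 2 ^ (s + r)) ≤ n := by
    rw [← hN]
    exact hBn
  obtain ⟨v, hv⟩ := exists_injV hBn'
  have hdr : (d : ℝ) ≤ ((K : ℝ) + 5) * (s + 1) := by exact_mod_cast hds.le
  have hlg := Kx_log hκ hκ2 hsκ hε hNd hii hdr
  have hlg0 : 0 ≤ Real.log (1 / ε) := Real.log_nonneg ((one_le_div hε).2 hε1)
  have hK32 : 10 * κ ≤ 32 ^ K := by
    rw [← hκc]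
    exact_mod_cast Kx_num hK
  have hL2 := Kx_L hκ0 hK32 (by linarith : (0 : ℝ) < B) hε hNr hii (Nat.cast_nonneg n) hn2 hlg0 hlg
  rw [← Kx_tot (K := K) hN (by omega)] at hL2
  have hm := Kx_m hκ2 hsκ hBr hε hi hn2
  rw [hκ] at hm
  have hk2 : K + 1 - 1 = K := by omega
  rw [hk2]
  refine ⟨hf v, width_hf v, fun w => ?_⟩
  exact not_sparse hK hs200 (hpow s hss) hrs hB1 hv hm hL2 w

end H4.SX
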