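import Pool.Agent.H40.OS.Exp
import Pool.Agent.H40.OS.Wide

/-!
# The optimal sparsification lemma
-/

set_option autoImplicit false

namespace H4.SX

open H40.SP H4.SL Pool.Agent.H14.ETH

theorem main : ∃ C : ℝ, 0 < C ∧
    (∀ (k : ℕ) (ε : ℝ), 2 ≤ k → 0 < ε → ε ≤ 1 → ∃ n₀ : ℕ, ∀ n ≥ n₀, ∀ F : Fml (Fin n), Width k F →
      Sparse F k ((2 : ℝ) ^ (ε * n)) ((C * k ^ 2 * Real.log (2 * k / ε) / ε) ^ (k - 1) * n)) ∧
    (∀ k : ℕ, 2 ≤ k → ∃ ε₀ : ℝ, 0 < ε₀ ∧ ∀ ε : ℝ, 0 < ε → ε ≤ ε₀ →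
      ∃ n₀ : ℕ, ∀ n ≥ n₀, ∃ F : Fml (Fin n), Width k F ∧ ∀ w : ℕ,
        ¬ Sparse F w ((2 : ℝ) ^ (ε * n)) ((Real.log (1 / ε) / (C * k ^ 3 * ε)) ^ (k - 1) * n)) ∧
    (∀ (k w : ℕ) (ε : ℝ), 2 ≤ k → k ≤ w → 0 < ε → C * w * k ^ 2 * ε ≤ 1 →
      ∃ n₀ : ℕ, ∀ n ≥ n₀, ∃ F : Fml (Fin n), Width k F ∧
        ¬ Sparse F w ((2 : ℝ) ^ (ε * n)) ((1 / (C * w * k ^ 2 * ε)) ^ (k - 1) * n)) ∧
    (∀ k : ℕ, 3 ≤ k → 0 < satExp k →
      (satExp k / (C * k ^ 2 * Real.log (2 * k / satExp k))) ^ k ≤ satExp 3) := by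
  obtain ⟨C₁, hC₁, h₁⟩ := lowerX
  have hC5 : (5000 : ℝ) ≤ max C₁ 5000 := le_max_right _ _
  have hC1 : C₁ ≤ max C₁ 5000 := le_max_left _ _
  have hC0 : (0 : ℝ) < max C₁ 5000 := by linarith
  generalize max C₁ 5000 = C at hC5 hC1 hC0
  refine ⟨C, hC0, ?_, ?_, ?_, ?_⟩
  · intro k ε hk hε hε1
    obtain ⟨n₀, hn₀⟩ := upper hk hε hε1
    refine ⟨n₀, fun n hn F hF => (hn₀ n hn F hF).mono le_rfl ?_⟩
    have hkR : (2 : ℝ) ≤ k := by exact_mod_cast hk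
    have hl : 0 ≤ Real.log (2 * k / ε) := by
      apply Real.log_nonneg
      rw [le_div_iff₀ hε]
      nlinarith
    refine mul_le_mul_of_nonneg_right (pow_le_pow_left₀ (by positivity) ?_ _) (Nat.cast_nonneg n)
    refine div_le_div_of_nonneg_right ?_ hε.le
    exact mul_le_mul_of_nonneg_right (mul_le_mul_of_nonneg_right hC5 (by positivity)) hl
  · intro k hk
    obtain ⟨ε₀, hε₀, h⟩ := h₁ k hk
    refine ⟨min ε₀ 1, lt_min hε₀ one_pos, fun ε hε hε' => ?_⟩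
    have hε1 : ε ≤ 1 := hε'.trans (min_le_right _ _)
    obtain ⟨n₀, hn₀⟩ := h ε hε (hε'.trans (min_le_left _ _))
    refine ⟨n₀, fun n hn => ?_⟩
    obtain ⟨F, hF, hS⟩ := hn₀ n hn
    refine ⟨F, hF, fun w hS' => hS w (hS'.mono le_rfl ?_)⟩
    have hkR : (2 : ℝ) ≤ k := by exact_mod_cast hk
    have hl : 0 ≤ Real.log (1 / ε) := Real.log_nonneg ((one_le_div hε).2 hε1)
    refine mul_le_mul_of_nonneg_right (pow_le_pow_left₀ (by positivity) ?_ _) (Nat.cast_nonneg n)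
    refine div_le_div_of_nonneg_left hl (by positivity) ?_
    have e : ∀ c : ℝ, c * k ^ 3 * ε = c * (k ^ 3 * ε) := fun c => by ring
    rw [e, e]
    exact mul_le_mul_of_nonneg_right hC1 (by positivity)
  · intro k w ε hk hkw hε h
    have hkR : (2 : ℝ) ≤ k := by exact_mod_cast hk
    have hwR : (2 : ℝ) ≤ w := by exact_mod_cast (hk.trans hkw)
    have hp : (0 : ℝ) < w * k ^ 2 * ε := by positivity
    have e : ∀ c : ℝ, c * w * k ^ 2 * ε = c * (w * k ^ 2 * ε) := fun c => by ring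
    rw [e] at h
    have hle : 1024 * ((w : ℝ) * k ^ 2 * ε) ≤ C * (w * k ^ 2 * ε) :=
      mul_le_mul_of_nonneg_right (by linarith) hp.le
    obtain ⟨n₀, hn₀⟩ := lower hk hkw hε (by rw [e]; linarith)
    refine ⟨n₀, fun n hn => ?_⟩
    obtain ⟨F, hF, hS⟩ := hn₀ n hn
    refine ⟨F, hF, fun hS' => hS (hS'.mono le_rfl ?_)⟩
    refine mul_le_mul_of_nonneg_right (pow_le_pow_left₀ (by positivity) ?_ _) (Nat.cast_nonneg n)
    rw [e, e]
    exact one_div_le_one_div_of_le (by positivity) hle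
  · intro k hk hs
    refine le_trans (pow_le_pow_left₀ ?_ ?_ _) (exp_bound hk hs)
    · have hs1 : satExp k ≤ 1 := Pool.Agent.H83.B13.satExp_le_one k
      have hkR : (3 : ℝ) ≤ k := by exact_mod_cast hk
      have hl : 0 ≤ Real.log (2 * k / satExp k) := by
        apply Real.log_nonneg
        rw [le_div_iff₀ hs]
        nlinarith
      positivity
    · have hs1 : satExp k ≤ 1 := Pool.Agent.H83.B13.satExp_le_one k
      have hkR : (3 : ℝ) ≤ k := by exact_mod_cast hk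
      have hl : 0 < Real.log (2 * k / satExp k) := by
        apply Real.log_pos
        rw [lt_div_iff₀ hs]
        nlinarith
      refine div_le_div_of_nonneg_left hs.le (by positivity) ?_
      exact mul_le_mul_of_nonneg_right (mul_le_mul_of_nonneg_right hC5 (by positivity)) hl.le

end H4.SX
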