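import Pool.Agent.H40.OS.Low

/-!
# The sharp lower bound
-/

set_option autoImplicit false

/-! ### Defs -/

namespace H4.SL

open H40.SP

/-- vectors over the field with two elements -/
abbrev Vc (r : ℕ) : Type := Fin r → ZMod 2

/-- square matrices over the field with two elements -/
abbrev Mt (s : ℕ) : Type := Matrix (Fin s) (Fin s) (ZMod 2)

/-- the index set of the variables of one group of a block -/
abbrev Ix (s r : ℕ) : Type := Vc s × Vc r

variable {K s r B : ℕ}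

/-- the inner product -/
def ip (x y : Ix s r) : ZMod 2 := x.1 ⬝ᵥ y.1 + x.2 ⬝ᵥ y.2

/-- `z` is (the index of) a clause of a block -/
def Adm (z : Fin (K + 1) → Ix s r) : Prop := ∀ q : Fin K, ip (z 0) (z q.succ) = 1

/-- frames -/
abbrev Fr (K s r : ℕ) : Type := (Mt s)ˣ × (Fin s → Vc r) × (Fin s → Fin K → Vc r)

/-- the product of the matrix with rows `A t` and the vector `c` -/
def mv (A : Fin s → Vc r) (c : Vc r) : Vc s := fun t => A t ⬝ᵥ c

/-- the edge with the data `ρ, A, c` in the position `t` -/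
def ed (ρ : (Mt s)ˣ) (A : Fin s → Vc r) (c : Fin K → Vc r) (t : Fin s) : Fin (K + 1) → Ix s r :=
  Fin.cons (ρ.val t, A t) (fun q => (Matrix.mulVec (ρ⁻¹).val (Pi.single t 1 - mv A (c q)), c q))

/-- the edges of a frame -/
def edge (M : Fr K s r) (t : Fin s) : Fin (K + 1) → Ix s r := ed M.1 M.2.1 (M.2.2 t) t

variable {V : Type}

/-- the variables are different -/
def InjV (v : Fin B → Fin (K + 1) → Ix s r → V) : Prop :=
  ∀ β q i β' q' i', v β q i = v β' q' i' → β = β' ∧ q = q' ∧ i = i'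

/-- the clause `z` of the block `β` -/
def cl [DecidableEq V] (v : Fin B → Fin (K + 1) → Ix s r → V) (β : Fin B) (z : Fin (K + 1) → Ix s r) :
    Finset (V × Bool) :=
  Finset.univ.image (fun q => (v β q (z q), false))

open Classical in
/-- the hard formula -/
noncomputable def hf (v : Fin B → Fin (K + 1) → Ix s r → V) : Fml V :=
  (Finset.univ.filter (fun p : Fin B × (Fin (K + 1) → Ix s r) => Adm p.2)).image (fun p => cl v p.1 p.2)

/-- the block of the coordinate `τ` -/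
def bk (τ : Fin (B * s)) : Fin B := (finProdFinEquiv.symm τ).1

/-- the position of the coordinate `τ` inside its block -/
def ps (τ : Fin (B * s)) : Fin s := (finProdFinEquiv.symm τ).2

/-- the variables of the edges of a family of frames, as variables of the formula `hard` with `B s`
blocks and one variable in each part -/
def xs (v : Fin B → Fin (K + 1) → Ix s r → V) (M : Fin B → Fr K s r) :
    Fin (B * s) → Fin (K + 1) → Fin 1 → V :=
  fun τ q _ => v (bk τ) q (edge (M (bk τ)) (ps τ) q)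

/-- the clause `C` serves `(β, z)`: it contains the negated variables of `(β, z)`, and of no other clause of `hf` -/
def Sv (v : Fin B → Fin (K + 1) → Ix s r → V) (C : Finset (V × Bool)) (β : Fin B)
    (z : Fin (K + 1) → Ix s r) : Prop :=
  (∀ q, (v β q (z q), false) ∈ C) ∧
    ∀ β' z', Adm z' → (∀ q, (v β' q (z' q), false) ∈ C) → β' = β ∧ z' = z

open Classical in
/-- the served clauses of the hard formula -/
noncomputable def sv (v : Fin B → Fin (K + 1) → Ix s r → V) (G : Fml V) :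
    Finset (Fin B × (Fin (K + 1) → Ix s r)) :=
  Finset.univ.filter (fun p => Adm p.2 ∧ ∃ C ∈ G, Sv v C p.1 p.2)

/-- the part of `P` in the block `β` -/
def pt (P : Finset (Fin B × (Fin (K + 1) → Ix s r))) (β : Fin B) : Finset (Fin (K + 1) → Ix s r) :=
  (P.filter (fun p => p.1 = β)).image Prod.snd

/-- the number of edges of the frame in `P` -/
def hit (P : Finset (Fin (K + 1) → Ix s r)) (M : Fr K s r) : ℕ :=
  (Finset.univ.filter (fun t : Fin s => edge M t ∈ P)).card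

open Classical in
/-- the number of coordinates whose edge is in `P` -/
noncomputable def hits (P : Finset (Fin B × (Fin (K + 1) → Ix s r))) (M : Fin B → Fr K s r) : ℕ :=
  (Finset.univ.filter (fun τ : Fin (B * s) => (bk τ, edge (M (bk τ)) (ps τ)) ∈ P)).card

/-- the proportion of the `c` such that the edge is in `P` -/
noncomputable def pr (P : Finset (Fin (K + 1) → Ix s r)) (ρ : (Mt s)ˣ) (A : Fin s → Vc r) (t : Fin s) : ℝ :=
  ((Finset.univ.filter (fun c : Fin K → Vc r => ed ρ A c t ∈ P)).card : ℝ) / 2 ^ (r * K)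

/-- the density of `P` over `x` -/
noncomputable def lam (P : Finset (Fin (K + 1) → Ix s r)) (x : Ix s r) : ℝ :=
  ((P.filter (fun z => z 0 = x)).card : ℝ) / 2 ^ ((s + r - 1) * K)

/-- the number of `b` with `(x, (b, c)) ∈ P` -/
def nn (P : Finset (Fin (K + 1) → Ix s r)) (x : Ix s r) (c : Fin K → Vc r) : ℕ :=
  (Finset.univ.filter (fun b : Fin K → Vc s =>
    (Fin.cons x (fun q => (b q, c q)) : Fin (K + 1) → Ix s r) ∈ P)).card

/-- the number of clauses of a block, up to the factor `2^(s+r) / (2^(s+r) - 1)` -/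
noncomputable def tot (K s r : ℕ) : ℝ := 2 ^ (s + r) * 2 ^ ((s + r - 1) * K)

end H4.SL

/-! ### Ea -/

namespace H4.SL

variable {K s r : ℕ}

theorem ed_zero (ρ : (Mt s)ˣ) (A : Fin s → Vc r) (c : Fin K → Vc r) (t : Fin s) :
    ed ρ A c t 0 = (ρ.val t, A t) := by
  rfl

theorem ed_succ (ρ : (Mt s)ˣ) (A : Fin s → Vc r) (c : Fin K → Vc r) (t : Fin s) (q : Fin K) :
    ed ρ A c t q.succ = (Matrix.mulVec (ρ⁻¹).val (Pi.single t 1 - mv A (c q)), c q) := by
  rfl

theorem mulVec_inv (ρ : (Mt s)ˣ) (u : Vc s) :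
    Matrix.mulVec ρ.val (Matrix.mulVec (ρ⁻¹).val u) = u := by
  have h : ρ.val * (ρ⁻¹).val = 1 := ρ.mul_inv
  rw [Matrix.mulVec_mulVec, h, Matrix.one_mulVec]

theorem ip_ed (ρ : (Mt s)ˣ) (A : Fin s → Vc r) (c : Fin K → Vc r) (t' t : Fin s) (q : Fin K) :
    ip (ρ.val t', A t') (ed ρ A c t q.succ) = if t' = t then 1 else 0 := by
  rw [ed_succ]
  show ρ.val t' ⬝ᵥ Matrix.mulVec (ρ⁻¹).val (Pi.single t 1 - mv A (c q)) + A t' ⬝ᵥ c q = _
  have h1 : ρ.val t' ⬝ᵥ Matrix.mulVec (ρ⁻¹).val (Pi.single t 1 - mv A (c q)) =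
      (Pi.single t 1 - mv A (c q) : Vc s) t' := congrFun (mulVec_inv ρ (Pi.single t 1 - mv A (c q))) t'
  have h2 : (Pi.single t 1 - mv A (c q) : Vc s) t' = (if t' = t then 1 else 0) - A t' ⬝ᵥ c q := by
    rw [Pi.sub_apply, Pi.single_apply]
    rfl
  rw [h1, h2, sub_add_cancel]

theorem adm_ed (ρ : (Mt s)ˣ) (A : Fin s → Vc r) (c : Fin K → Vc r) (t : Fin s) :
    Adm (ed ρ A c t) := by
  intro q
  rw [ed_zero, ip_ed, if_pos rfl]

theorem ip_edge (M : Fr K s r) (t' t : Fin s) (q : Fin K) :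
    ip (edge M t' 0) (edge M t q.succ) = if t' = t then 1 else 0 := by
  show ip (ed M.1 M.2.1 (M.2.2 t') t' 0) (ed M.1 M.2.1 (M.2.2 t) t q.succ) = _
  rw [ed_zero, ip_ed]

theorem adm_edge (M : Fr K s r) (t : Fin s) : Adm (edge M t) := by
  exact adm_ed _ _ _ t

theorem edge_inj (hK : 1 ≤ K) (M : Fr K s r) {t t' : Fin s} {q : Fin (K + 1)}
    (h : edge M t q = edge M t' q) : t = t' := by
  by_contra hne
  induction q using Fin.cases with
  | zero =>
    have h1 := ip_edge M t t (⟨0, hK⟩ : Fin K)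
    rw [h, ip_edge, if_pos rfl, if_neg (Ne.symm hne)] at h1
    exact zero_ne_one h1
  | succ q0 =>
    have h1 := ip_edge M t t q0
    rw [h, ip_edge, if_pos rfl, if_neg hne] at h1
    exact zero_ne_one h1

theorem edge_trans (M : Fr K s r) {z : Fin (K + 1) → Ix s r} (hz : Adm z) (τ : Fin (K + 1) → Fin s)
    (h : ∀ q, z q = edge M (τ q) q) : ∀ q, τ q = τ 0 := by
  intro q
  induction q using Fin.cases with
  | zero => rfl
  | succ q0 =>
    have h1 := hz q0
    rw [h 0, h q0.succ, ip_edge] at h1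
    by_contra hne
    rw [if_neg (Ne.symm hne)] at h1
    exact zero_ne_one h1

end H4.SL

/-! ### Eb -/

namespace H4.SL

open H40.SP

theorem mem_hf {V : Type} [inst : DecidableEq V] {K s r B : ℕ}
    (v : Fin B → Fin (K + 1) → Ix s r → V) (C : Finset (V × Bool)) :
    C ∈ hf v ↔ ∃ (β : Fin B) (z : Fin (K + 1) → Ix s r), Adm z ∧ C = cl v β z := by
  obtain rfl : inst = fun a b => Classical.propDecidable (a = b) := Subsingleton.elim _ _
  classical
  unfold hf
  rw [Finset.mem_image]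
  constructor
  · rintro ⟨⟨β, z⟩, hp, rfl⟩
    rw [Finset.mem_filter] at hp
    exact ⟨β, z, hp.2, rfl⟩
  · rintro ⟨β, z, hz, rfl⟩
    refine ⟨(β, z), ?_, rfl⟩
    rw [Finset.mem_filter]
    exact ⟨Finset.mem_univ _, hz⟩

variable {V : Type} [DecidableEq V] {K s r B : ℕ} {v : Fin B → Fin (K + 1) → Ix s r → V}

theorem width_hf (v : Fin B → Fin (K + 1) → Ix s r → V) : Width (K + 1) (hf v) := by
  intro C hC
  rw [mem_hf] at hC
  obtain ⟨β, z, _, rfl⟩ := hC
  unfold cl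
  refine Finset.card_image_le.trans ?_
  rw [Finset.card_univ, Fintype.card_fin]

theorem inj_xs (hK : 1 ≤ K) (hv : InjV v) (M : Fin B → Fr K s r) : Inj (xs v M) := by
  intro τ q i τ' q' i' h
  unfold xs at h
  obtain ⟨h1, h2, h3⟩ := hv _ _ _ _ _ _ h
  subst h2
  refine ⟨?_, rfl, Subsingleton.elim _ _⟩
  rw [h1] at h3
  have h4 := edge_inj hK (M (bk τ')) h3
  apply finProdFinEquiv.symm.injective
  exact Prod.ext h1 h4

theorem sat_hard_of_hf (M : Fin B → Fr K s r) {a : V → Bool} (h : Sat (hf v) a) :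
    Sat (hard (xs v M)) a := by
  intro C hC
  unfold hard at hC
  rw [Finset.mem_image] at hC
  obtain ⟨p, _, rfl⟩ := hC
  apply h
  rw [mem_hf]
  exact ⟨bk p.1, edge (M (bk p.1)) (ps p.1), adm_edge _ _, rfl⟩

theorem sat_hf (hv : InjV v) (M : Fin B → Fr K s r) (σ : St (B * s) (K + 1) 1) :
    Sat (hf v) (asg (xs v M) σ) := by
  intro C hC
  rw [mem_hf] at hC
  obtain ⟨β, z, hz, rfl⟩ := hC
  by_contra hcon
  push Not at hcon
  have h1 : ∀ q : Fin (K + 1), asg (xs v M) σ (v β q (z q)) = true := by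
    intro q
    have h2 := hcon (v β q (z q), false) (by
      unfold cl
      rw [Finset.mem_image]
      exact ⟨q, Finset.mem_univ _, rfl⟩)
    simpa using h2
  have h2 : ∀ q : Fin (K + 1), ∃ T : Fin (B * s), q ≠ (σ T).1 ∧ bk T = β ∧
      z q = edge (M β) (ps T) q := by
    intro q
    have h3 := h1 q
    unfold asg at h3
    obtain ⟨T, q', hq', hT⟩ := @of_decide_eq_true _ (_) h3
    unfold xs at hT
    obtain ⟨e1, e2, e3⟩ := hv _ _ _ _ _ _ hT
    subst e2
    refine ⟨T, hq', e1.symm, ?_⟩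
    rw [e3, ← e1]
  choose T hT1 hT2 hT3 using h2
  have h4 := edge_trans (M β) hz (fun q => ps (T q)) hT3
  have h5 : ∀ q, T q = T 0 := by
    intro q
    apply finProdFinEquiv.symm.injective
    refine Prod.ext ?_ (h4 q)
    change bk (T q) = bk (T 0)
    rw [hT2, hT2]
  have h6 := hT1 (σ (T 0)).1
  rw [h5 (σ (T 0)).1] at h6
  exact h6 rfl

end H4.SL

/-! ### Ec -/

namespace H4.SL

open H40.SP

variable {V : Type} [DecidableEq V] {K s r B : ℕ} {v : Fin B → Fin (K + 1) → Ix s r → V} {G : Fml V}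

omit [DecidableEq V] in
theorem Ec_flip {B' k b : ℕ} {x : Fin B' → Fin k → Fin b → V} {σ : St B' k b} {t : Fin B'} {w : V}
    (h : H40.SP.flip x σ t w = true) : w = mis x σ t ∨ asg x σ w = true := by
  classical
  unfold H40.SP.flip at h
  rw [Function.update_apply] at h
  split_ifs at h with h2
  · exact Or.inl h2
  · exact Or.inr h

omit [DecidableEq V] in
theorem Ec_asg {B' k b : ℕ} {x : Fin B' → Fin k → Fin b → V} {σ : St B' k b} {w : V}
    (h : asg x σ w = true) : ∃ t q, q ≠ (σ t).1 ∧ w = x t q ((σ t).2 q) := by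
  classical
  unfold asg at h
  exact of_decide_eq_true h

theorem card_sv_le (v : Fin B → Fin (K + 1) → Ix s r → V) (G : Fml V) : (sv v G).card ≤ G.card := by
  classical
  apply Finset.card_le_card_of_forall_subsingleton (fun p C => Sv v C p.1 p.2)
  · intro p hp
    exact (Finset.mem_filter.1 hp).2.2
  · intro C _ p hp p' hp'
    obtain ⟨β, z⟩ := p
    obtain ⟨β', z'⟩ := p'
    have h1 : Sv v C β z := hp.2
    have h2 : Sv v C β' z' := hp'.2
    have h3 : Adm z' := (Finset.mem_filter.1 hp'.1).2.1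
    obtain ⟨h4, h5⟩ := h1.2 β' z' h3 h2.1
    rw [h4, h5]

theorem sv_of_honest (hv : InjV v) (M : Fin B → Fr K s r) {σ : St (B * s) (K + 1) 1}
    {τ : Fin (B * s)} (h : Honest (xs v M) G σ τ) :
    (bk τ, edge (M (bk τ)) (ps τ)) ∈ sv v G := by
  classical
  obtain ⟨C, hC, hvi, hq⟩ := h
  refine Finset.mem_filter.2 ⟨Finset.mem_univ _, adm_edge _ _, C, hC, hq, ?_⟩
  intro β' z' hz' hm
  have hflip : ∀ q, flip (xs v M) σ τ (v β' q (z' q)) = true := by
    intro q
    have h1 := hvi _ (hm q)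
    simpa using h1
  have hT : ∀ q, ∃ t : Fin (B * s), bk t = β' ∧ z' q = edge (M β') (ps t) q ∧
      (t = τ ∨ q ≠ (σ t).1) := by
    intro q
    have h1 := hflip q
    rcases Ec_flip h1 with h2 | h1
    · have h3 : v β' q (z' q) = v (bk τ) (σ τ).1 (edge (M (bk τ)) (ps τ) (σ τ).1) := h2
      obtain ⟨h4, h5, h6⟩ := hv _ _ _ _ _ _ h3
      refine ⟨τ, h4.symm, ?_, Or.inl rfl⟩
      rw [h6, ← h5, h4]
    · obtain ⟨t, q', h3, h4⟩ := Ec_asg h1
      have h5 : v β' q (z' q) = v (bk t) q' (edge (M (bk t)) (ps t) q') := h4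
      obtain ⟨h6, h7, h8⟩ := hv _ _ _ _ _ _ h5
      subst h7
      refine ⟨t, h6.symm, ?_, Or.inr h3⟩
      rw [h8, h6]
  choose T h1 h2 h3 using hT
  have h4 := edge_trans (M β') hz' (fun q => ps (T q)) h2
  have h5 : ∀ q, T q = T 0 := by
    intro q
    apply finProdFinEquiv.symm.injective
    apply Prod.ext
    · exact (h1 q).trans (h1 0).symm
    · exact h4 q
  have h6 : T 0 = τ := by
    rcases h3 (σ (T 0)).1 with h7 | h7
    · exact (h5 _).symm.trans h7
    · rw [h5 (σ (T 0)).1] at h7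
      exact absurd rfl h7
  have h7 : β' = bk τ := by rw [← h1 0, h6]
  refine ⟨h7, ?_⟩
  funext q
  rw [h2 q, h5 q, h6, h7]

end H4.SL

/-! ### Ed -/

namespace H4.SL

open H40.SP

variable {V : Type} [DecidableEq V] {K s r B : ℕ} {v : Fin B → Fin (K + 1) → Ix s r → V} {G : Fml V}

open Classical in
theorem sum_nonhonest_fr (hK : 1 ≤ K) (hv : InjV v) {w : ℕ} (hkw : K + 1 ≤ w) (hw : Width w G)
    (hG : ∀ a, Sat G a → Sat (hf v) a) {a : ℕ}
    (ha : a = ∑ M : Fin B → Fr K s r, (good (xs v M) G).card) (ha0 : 0 < a) :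
    ∑ M : Fin B → Fr K s r, ∑ σ ∈ good (xs v M) G,
        ((Finset.univ.filter (fun τ => ¬ Honest (xs v M) G σ τ)).card : ℝ) * Real.log 2 ≤
      3 * w * (K * (a * Real.log ((Fintype.card (Fin B → Fr K s r) : ℝ) *
        Fintype.card (St (B * s) (K + 1) 1) / a))) := by
  set NS : ℝ := (Fintype.card (St (B * s) (K + 1) 1) : ℝ) with hNS
  have hNS0 : 0 < NS := by
    have : 0 < Fintype.card (St (B * s) (K + 1) 1) := Fintype.card_pos
    rw [hNS]
    exact_mod_cast this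
  -- one family of frames
  have h1 : ∀ M : Fin B → Fr K s r, ∑ σ ∈ good (xs v M) G,
      ((Finset.univ.filter (fun τ => ¬ Honest (xs v M) G σ τ)).card : ℝ) * Real.log 2 ≤
        3 * w * (K * ((good (xs v M) G).card * Real.log (NS / (good (xs v M) G).card))) := by
    intro M
    rcases (good (xs v M) G).eq_empty_or_nonempty with h0 | h0
    · rw [h0]
      simp
    · have h2 := H40.SP.sum_nonhonest_le (G := G) (inj_xs hK hv M) (by omega) hkw hw
        (fun a h => sat_hard_of_hf M (hG a h)) h0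
      have e : (((K + 1 : ℕ) : ℝ) - 1) = K := by push_cast; ring
      rw [e] at h2
      exact h2
  -- all families
  have h3 : ∑ M : Fin B → Fr K s r, ((good (xs v M) G).card : ℝ) *
      Real.log (NS / (good (xs v M) G).card) ≤
        a * Real.log ((Fintype.card (Fin B → Fr K s r) : ℝ) * NS / a) := by
    let A : Finset (Σ _M : Fin B → Fr K s r, St (B * s) (K + 1) 1) :=
      Finset.univ.sigma (fun M => good (xs v M) G)
    have hAc : A.card = a := by
      rw [ha]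
      exact Finset.card_sigma _ _
    have hA : A.Nonempty := by
      rw [← Finset.card_pos, hAc]
      exact ha0
    have hWpos : ∀ x ∈ A, 0 < NS / ((good (xs v x.1) G).card : ℝ) := by
      intro x hx
      have hx2 : x.2 ∈ good (xs v x.1) G := (Finset.mem_sigma.1 hx).2
      have : 0 < (good (xs v x.1) G).card := Finset.card_pos.2 ⟨_, hx2⟩
      exact div_pos hNS0 (by exact_mod_cast this)
    have hX : ∑ x ∈ A, NS / ((good (xs v x.1) G).card : ℝ) ≤
        (Fintype.card (Fin B → Fr K s r) : ℝ) * NS := by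
      rw [Finset.sum_sigma]
      have h4 : ∀ M ∈ (Finset.univ : Finset (Fin B → Fr K s r)),
          ∑ _σ ∈ good (xs v M) G, NS / ((good (xs v M) G).card : ℝ) ≤ NS := by
        intro M _
        rw [Finset.sum_const, nsmul_eq_mul]
        rcases Nat.eq_zero_or_pos (good (xs v M) G).card with h0 | h0
        · rw [h0]
          simp [hNS0.le]
        · have : ((good (xs v M) G).card : ℝ) ≠ 0 := by exact_mod_cast h0.ne'
          rw [mul_div_cancel₀ _ this]
      refine (Finset.sum_le_sum h4).trans ?_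
      rw [Finset.sum_const, nsmul_eq_mul, Finset.card_univ]
    have h5 := H40.SP.sum_log_le A hA (fun x => NS / ((good (xs v x.1) G).card : ℝ)) hWpos hX
    rw [hAc, Finset.sum_sigma] at h5
    simp only [Finset.sum_const, nsmul_eq_mul] at h5
    exact h5
  refine (Finset.sum_le_sum fun M _ => h1 M).trans ?_
  rw [← Finset.mul_sum, ← Finset.mul_sum]
  refine mul_le_mul_of_nonneg_left ?_ (by positivity)
  exact mul_le_mul_of_nonneg_left h3 (Nat.cast_nonneg K)

end H4.SL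

/-! ### Ee -/

namespace H4.SL

open H40.SP

variable {K s r B : ℕ}

theorem mem_pt (P : Finset (Fin B × (Fin (K + 1) → Ix s r))) (β : Fin B) (z : Fin (K + 1) → Ix s r) :
    z ∈ pt P β ↔ (β, z) ∈ P := by
  unfold pt
  rw [Finset.mem_image]
  constructor
  · rintro ⟨⟨β', z'⟩, h1, h2⟩
    rw [Finset.mem_filter] at h1
    have h3 : β' = β := h1.2
    have h4 : z' = z := h2
    rw [← h3, ← h4]
    exact h1.1
  · intro h
    exact ⟨(β, z), Finset.mem_filter.2 ⟨h, rfl⟩, rfl⟩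

theorem hit_sum (P : Finset (Fin B × (Fin (K + 1) → Ix s r))) (M : Fin B → Fr K s r) :
    hits P M = ∑ β, hit (pt P β) (M β) := by
  classical
  have h1 : hits P M = ∑ p : Fin B × Fin s, (if (p.1, edge (M p.1) p.2) ∈ P then 1 else 0) := by
    unfold hits
    rw [Finset.card_filter]
    refine Fintype.sum_equiv finProdFinEquiv.symm _ _ (fun τ => ?_)
    by_cases h : (bk τ, edge (M (bk τ)) (ps τ)) ∈ P
    · rw [if_pos h, if_pos]
      exact h
    · rw [if_neg h, if_neg]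
      exact h
  rw [h1, Fintype.sum_prod_type]
  refine Finset.sum_congr rfl (fun β _ => ?_)
  unfold hit
  rw [Finset.card_filter]
  refine Finset.sum_congr rfl (fun t _ => ?_)
  by_cases h : (β, edge (M β) t) ∈ P
  · rw [if_pos h, if_pos ((mem_pt P β _).2 h)]
  · rw [if_neg h, if_neg (fun h' => h ((mem_pt P β _).1 h'))]

theorem sum_pt (P : Finset (Fin B × (Fin (K + 1) → Ix s r))) : ∑ β, (pt P β).card = P.card := by
  classical
  rw [Finset.card_eq_sum_card_fiberwise (f := Prod.fst) (t := Finset.univ)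
    (fun x _ => Finset.mem_coe.2 (Finset.mem_univ _))]
  refine Finset.sum_congr rfl (fun β _ => ?_)
  unfold pt
  rw [Finset.card_image_of_injOn]
  rintro ⟨b, z⟩ h1 ⟨b', z'⟩ h2 h3
  have e1 : b = β := (Finset.mem_filter.1 (Finset.mem_coe.1 h1)).2
  have e2 : b' = β := (Finset.mem_filter.1 (Finset.mem_coe.1 h2)).2
  have e3 : z = z' := h3
  rw [e1, e2, e3]

theorem sum_hit_fr (P : Finset (Fin B × (Fin (K + 1) → Ix s r)))
    (S : (Fin B → Fr K s r) → Finset (St (B * s) (K + 1) 1)) {a : ℕ} (ha : a = ∑ M, (S M).card)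
    (ha0 : 0 < a) (E : Fin B → ℝ)
    (hE : ∀ β, ∑ M : Fr K s r, (2 : ℝ) ^ hit (pt P β) M ≤ Fintype.card (Fr K s r) * Real.exp (E β)) :
    ∑ M, ∑ _σ ∈ S M, (hits P M : ℝ) * Real.log 2 ≤
      a * (Real.log ((Fintype.card (Fin B → Fr K s r) : ℝ) * Fintype.card (St (B * s) (K + 1) 1) / a)
        + ∑ β, E β) := by
  classical
  obtain ⟨A, hA⟩ : ∃ A : Finset (Σ _ : (Fin B → Fr K s r), St (B * s) (K + 1) 1),
    A = Finset.univ.sigma S := ⟨_, rfl⟩
  have hcard : A.card = a := by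
    rw [hA, Finset.card_sigma, ha]
  have hne : A.Nonempty := Finset.card_pos.1 (by omega)
  obtain ⟨⟨M0, σ0⟩, h0⟩ := hne
  have hNF : (0 : ℝ) < Fintype.card (Fin B → Fr K s r) := by
    have : 0 < Fintype.card (Fin B → Fr K s r) := Fintype.card_pos_iff.2 ⟨M0⟩
    exact_mod_cast this
  have hNS : (0 : ℝ) < Fintype.card (St (B * s) (K + 1) 1) := by
    have : 0 < Fintype.card (St (B * s) (K + 1) 1) := Fintype.card_pos_iff.2 ⟨σ0⟩
    exact_mod_cast this
  have haR : (0 : ℝ) < a := by exact_mod_cast ha0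
  have hNFc : (Fintype.card (Fin B → Fr K s r) : ℝ) = (Fintype.card (Fr K s r) : ℝ) ^ B := by
    rw [Fintype.card_fun, Fintype.card_fin, Nat.cast_pow]
  have hW : ∑ x ∈ A, (2 : ℝ) ^ hits P x.1 ≤
      (Fintype.card (Fin B → Fr K s r) : ℝ) * Fintype.card (St (B * s) (K + 1) 1) *
        Real.exp (∑ β, E β) := by
    rw [hA, Finset.sum_sigma]
    calc ∑ M, ∑ _σ ∈ S M, (2 : ℝ) ^ hits P M
        ≤ ∑ M, (Fintype.card (St (B * s) (K + 1) 1) : ℝ) * (2 : ℝ) ^ hits P M := by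
          refine Finset.sum_le_sum (fun M _ => ?_)
          rw [Finset.sum_const, nsmul_eq_mul]
          refine mul_le_mul_of_nonneg_right ?_ (by positivity)
          exact_mod_cast Finset.card_le_univ (S M)
      _ = (Fintype.card (St (B * s) (K + 1) 1) : ℝ) *
            ∏ β, ∑ M : Fr K s r, (2 : ℝ) ^ hit (pt P β) M := by
          rw [← Finset.mul_sum, Finset.prod_univ_sum, Fintype.piFinset_univ]
          congr 1
          refine Finset.sum_congr rfl (fun M _ => ?_)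
          rw [hit_sum, Finset.prod_pow_eq_pow_sum]
      _ ≤ (Fintype.card (St (B * s) (K + 1) 1) : ℝ) *
            ∏ β, ((Fintype.card (Fr K s r) : ℝ) * Real.exp (E β)) := by
          refine mul_le_mul_of_nonneg_left ?_ hNS.le
          refine Finset.prod_le_prod (fun β _ => ?_) (fun β _ => hE β)
          exact Finset.sum_nonneg (fun M _ => by positivity)
      _ = _ := by
          rw [Finset.prod_mul_distrib, Finset.prod_const, Finset.card_univ, Fintype.card_fin,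
            ← Real.exp_sum, hNFc]
          ring
  have hmain := sum_log_le A ⟨⟨M0, σ0⟩, h0⟩ (fun x => (2 : ℝ) ^ hits P x.1)
    (fun x _ => by positivity) hW
  rw [hcard] at hmain
  have e1 : ∑ x ∈ A, Real.log ((2 : ℝ) ^ hits P x.1) =
      ∑ M, ∑ _σ ∈ S M, (hits P M : ℝ) * Real.log 2 := by
    rw [hA, Finset.sum_sigma]
    refine Finset.sum_congr rfl (fun M _ => Finset.sum_congr rfl (fun σ _ => ?_))
    rw [Real.log_pow]
  have e2 : Real.log ((Fintype.card (Fin B → Fr K s r) : ℝ) *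
      Fintype.card (St (B * s) (K + 1) 1) * Real.exp (∑ β, E β) / a) =
      Real.log ((Fintype.card (Fin B → Fr K s r) : ℝ) * Fintype.card (St (B * s) (K + 1) 1) / a)
        + ∑ β, E β := by
    rw [mul_div_right_comm, Real.log_mul (by positivity) (Real.exp_pos _).ne', Real.log_exp]
  rw [← e1, ← e2]
  exact hmain

end H4.SL

/-! ### Fa -/

namespace H4.SL

theorem dot_surj {r J : ℕ} {C : Fin J → Fin r → ZMod 2} (hC : LinearIndependent (ZMod 2) C)
    (u : Fin J → ZMod 2) : ∃ a : Fin r → ZMod 2, ∀ i, a ⬝ᵥ C i = u i := by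
  have h1 : (Matrix.of C).rank = Fintype.card (Fin J) := by
    apply LinearIndependent.rank_matrix
    exact hC
  have h2 : LinearMap.range (Matrix.of C).mulVecLin = ⊤ := by
    apply Submodule.eq_top_of_finrank_eq
    rw [Module.finrank_fintype_fun_eq_card]
    exact h1
  have h3 : u ∈ LinearMap.range (Matrix.of C).mulVecLin := by rw [h2]; trivial
  obtain ⟨a, ha⟩ := h3
  refine ⟨a, fun i => ?_⟩
  rw [← ha, Matrix.mulVecLin_apply, dotProduct_comm]
  rfl

theorem fiber_card {r J : ℕ} {C : Fin J → Fin r → ZMod 2} (hC : LinearIndependent (ZMod 2) C)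
    (u : Fin J → ZMod 2) :
    (Finset.univ.filter (fun a : Fin r → ZMod 2 => ∀ i, a ⬝ᵥ C i = u i)).card * 2 ^ J = 2 ^ r := by
  classical
  have hsame : ∀ v : Fin J → ZMod 2,
      (Finset.univ.filter (fun a : Fin r → ZMod 2 => ∀ i, a ⬝ᵥ C i = v i)).card =
        (Finset.univ.filter (fun a : Fin r → ZMod 2 => ∀ i, a ⬝ᵥ C i = u i)).card := by
    intro v
    obtain ⟨a0, ha0⟩ := dot_surj hC (fun i => u i - v i)
    refine Finset.card_bij' (fun a _ => a + a0) (fun a _ => a - a0) ?_ ?_ ?_ ?_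
    · intro a ha
      rw [Finset.mem_filter] at ha ⊢
      refine ⟨Finset.mem_univ _, fun i => ?_⟩
      rw [add_dotProduct, ha.2 i, ha0 i]
      ring
    · intro a ha
      rw [Finset.mem_filter] at ha ⊢
      refine ⟨Finset.mem_univ _, fun i => ?_⟩
      rw [sub_dotProduct, ha.2 i, ha0 i]
      ring
    · intro a _
      simp
    · intro a _
      simp
  have h1 := Finset.card_eq_sum_card_fiberwise (s := (Finset.univ : Finset (Fin r → ZMod 2)))
    (t := (Finset.univ : Finset (Fin J → ZMod 2))) (f := fun a => (fun i => a ⬝ᵥ C i))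
    (fun _ _ => Finset.mem_coe.2 (Finset.mem_univ _))
  have h2 : ∀ v ∈ (Finset.univ : Finset (Fin J → ZMod 2)),
      (Finset.univ.filter (fun a : Fin r → ZMod 2 => (fun i => a ⬝ᵥ C i) = v)).card =
        (Finset.univ.filter (fun a : Fin r → ZMod 2 => ∀ i, a ⬝ᵥ C i = u i)).card := by
    intro v _
    rw [← hsame v]
    congr 1
    ext a
    simp only [Finset.mem_filter, Finset.mem_univ, true_and, funext_iff]
  rw [Finset.sum_congr rfl h2, Finset.sum_const, Finset.card_univ, Finset.card_univ, smul_eq_mul] at h1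
  simp only [Fintype.card_pi, ZMod.card, Finset.prod_const, Finset.card_univ, Fintype.card_fin] at h1
  rw [h1, mul_comm]

end H4.SL

/-! ### Fb -/

namespace H4.SL

theorem fiber_rows {s r J : ℕ} {C : Fin J → Vc r} (hC : LinearIndependent (ZMod 2) C) (t : Fin s)
    (a : Vc r) (u : Fin J → Vc s) (hu : ∀ i, u i t = a ⬝ᵥ C i) :
    (Finset.univ.filter (fun A : Fin s → Vc r => A t = a ∧ ∀ i, mv A (C i) = u i)).card *
      2 ^ (J * (s - 1)) = 2 ^ (r * (s - 1)) := by
  classical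
  let D : Fin s → Finset (Vc r) := fun t' =>
    if t' = t then {a} else Finset.univ.filter (fun a' => ∀ i, a' ⬝ᵥ C i = u i t')
  have hset : Finset.univ.filter (fun A : Fin s → Vc r => A t = a ∧ ∀ i, mv A (C i) = u i) =
      Fintype.piFinset D := by
    ext A
    simp only [Finset.mem_filter, Finset.mem_univ, true_and, Fintype.mem_piFinset]
    constructor
    · rintro ⟨h1, h2⟩ t'
      by_cases h : t' = t
      · subst h
        simp [D, h1]
      · simp only [D, if_neg h, Finset.mem_filter, Finset.mem_univ, true_and]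
        intro i
        exact congrFun (h2 i) t'
    · intro h
      have ht : A t = a := by simpa [D] using h t
      refine ⟨ht, fun i => ?_⟩
      funext t'
      by_cases h' : t' = t
      · subst h'
        show A t' ⬝ᵥ C i = u i t'
        rw [ht, hu i]
      · have h3 := h t'
        simp only [D, if_neg h', Finset.mem_filter, Finset.mem_univ, true_and] at h3
        exact h3 i
  rw [hset, Fintype.card_piFinset, ← Finset.mul_prod_erase _ _ (Finset.mem_univ t)]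
  have h1 : (D t).card = 1 := by simp [D]
  have hc : (Finset.univ.erase t).card = s - 1 := by
    rw [Finset.card_erase_of_mem (Finset.mem_univ _), Finset.card_univ, Fintype.card_fin]
  have h2 : (2 : ℕ) ^ (J * (s - 1)) = ∏ _t' ∈ Finset.univ.erase t, 2 ^ J := by
    rw [Finset.prod_const, hc, ← pow_mul]
  rw [h1, one_mul, h2, ← Finset.prod_mul_distrib]
  rw [Finset.prod_congr rfl (g := fun _ => 2 ^ r) (fun t' ht' => ?_)]
  · rw [Finset.prod_const, hc, ← pow_mul]
  · have hne : t' ≠ t := (Finset.mem_erase.1 ht').1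
    simp only [D, if_neg hne]
    exact fiber_card hC (fun i => u i t')

end H4.SL

/-! ### Fc -/

namespace H4.SL

open Classical in
theorem dep_card {r J : ℕ} :
    (Finset.univ.filter (fun C : Fin J → Fin r → ZMod 2 => ¬ LinearIndependent (ZMod 2) C)).card * 2 ^ r
      ≤ 2 ^ J * 2 ^ (r * J) := by
  let D : (Fin J → ZMod 2) → Finset (Fin J → Fin r → ZMod 2) := fun g =>
    Finset.univ.filter (fun C => ∑ i, g i • C i = 0)
  have hD : ∀ g : Fin J → ZMod 2, g ≠ 0 → (D g).card * 2 ^ r ≤ 2 ^ (r * J) := by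
    intro g hg
    obtain ⟨i0, hi0⟩ := Function.ne_iff.1 hg
    have hi1 : g i0 = 1 := by
      have h01 : ∀ a : ZMod 2, a ≠ 0 → a = 1 := by decide
      exact h01 _ hi0
    have key : ∀ (C : Fin J → Fin r → ZMod 2), C ∈ D g → ∀ a : Fin r → ZMod 2,
        ∑ i, g i • (Function.update C i0 (C i0 + a)) i = a := by
      intro C hC a
      have hC0 : ∑ i, g i • C i = 0 := (Finset.mem_filter.1 hC).2
      have e : ∀ i, g i • (Function.update C i0 (C i0 + a)) i =
          g i • C i + (if i = i0 then a else 0) := by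
        intro i
        by_cases h : i = i0
        · subst h
          simp [hi1]
        · simp [Function.update_of_ne h, h]
      rw [Finset.sum_congr rfl (fun i _ => e i), Finset.sum_add_distrib, hC0]
      simp
    have hinj : Set.InjOn (fun p : (Fin J → Fin r → ZMod 2) × (Fin r → ZMod 2) =>
        Function.update p.1 i0 (p.1 i0 + p.2)) ((D g ×ˢ (Finset.univ : Finset (Fin r → ZMod 2)) :
          Finset _) : Set _) := by
      rintro ⟨C, a⟩ h1 ⟨C', a'⟩ h2 h
      simp only [Finset.coe_product, Set.mem_prod, Finset.mem_coe] at h1 h2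
      simp only at h
      have ha : a = a' := by
        rw [← key C h1.1 a, ← key C' h2.1 a', h]
      subst ha
      have hC : C = C' := by
        funext i
        by_cases hi : i = i0
        · subst hi
          have := congrFun h i
          simpa using this
        · have := congrFun h i
          simpa [Function.update_of_ne hi] using this
      rw [hC]
    have h3 := Finset.card_le_card_of_injOn (t := (Finset.univ : Finset (Fin J → Fin r → ZMod 2)))
      _ (fun _ _ => Finset.mem_coe.2 (Finset.mem_univ _)) hinj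
    rw [Finset.card_product, Finset.card_univ, Finset.card_univ] at h3
    simpa [Fintype.card_fun, ZMod.card, pow_mul] using h3
  have hsub : Finset.univ.filter (fun C : Fin J → Fin r → ZMod 2 => ¬ LinearIndependent (ZMod 2) C) ⊆
      (Finset.univ.filter (fun g : Fin J → ZMod 2 => g ≠ 0)).biUnion D := by
    intro C hC
    have hC := (Finset.mem_filter.1 hC).2
    rw [Fintype.linearIndependent_iff] at hC
    push Not at hC
    obtain ⟨g, hg, i, hi⟩ := hC
    refine Finset.mem_biUnion.2 ⟨g, Finset.mem_filter.2 ⟨Finset.mem_univ _, ?_⟩,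
      Finset.mem_filter.2 ⟨Finset.mem_univ _, hg⟩⟩
    intro h0
    exact hi (by rw [h0]; rfl)
  calc (Finset.univ.filter (fun C : Fin J → Fin r → ZMod 2 => ¬ LinearIndependent (ZMod 2) C)).card * 2 ^ r
      ≤ ((Finset.univ.filter (fun g : Fin J → ZMod 2 => g ≠ 0)).biUnion D).card * 2 ^ r :=
        Nat.mul_le_mul_right _ (Finset.card_le_card hsub)
    _ ≤ (∑ g ∈ Finset.univ.filter (fun g : Fin J → ZMod 2 => g ≠ 0), (D g).card) * 2 ^ r :=
        Nat.mul_le_mul_right _ Finset.card_biUnion_le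
    _ = ∑ g ∈ Finset.univ.filter (fun g : Fin J → ZMod 2 => g ≠ 0), (D g).card * 2 ^ r := by
        rw [Finset.sum_mul]
    _ ≤ ∑ g ∈ Finset.univ.filter (fun g : Fin J → ZMod 2 => g ≠ 0), 2 ^ (r * J) :=
        Finset.sum_le_sum fun g hg => hD g (Finset.mem_filter.1 hg).2
    _ = (Finset.univ.filter (fun g : Fin J → ZMod 2 => g ≠ 0)).card * 2 ^ (r * J) := by
        rw [Finset.sum_const, smul_eq_mul]
    _ ≤ 2 ^ J * 2 ^ (r * J) := by
        refine Nat.mul_le_mul_right _ ?_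
        refine (Finset.card_filter_le _ _).trans ?_
        rw [Finset.card_univ]
        simp [Fintype.card_fun, ZMod.card]

end H4.SL

/-! ### Fd -/

namespace H4.SL

variable {K s r : ℕ}

theorem sum_nn (P : Finset (Fin (K + 1) → Ix s r)) (x : Ix s r) :
    ∑ c : Fin K → Vc r, nn P x c = (P.filter (fun z => z 0 = x)).card := by
  have h1 := Finset.card_eq_sum_card_fiberwise (s := P.filter (fun z => z 0 = x))
    (t := (Finset.univ : Finset (Fin K → Vc r))) (f := fun z => (fun q => (z q.succ).2))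
    (fun _ _ => Finset.mem_coe.2 (Finset.mem_univ _))
  rw [h1]
  refine Finset.sum_congr rfl (fun c _ => ?_)
  unfold nn
  refine Finset.card_bij' (fun b _ => (Fin.cons x (fun q => (b q, c q)) : Fin (K + 1) → Ix s r))
    (fun z _ => fun q => (z q.succ).1) ?_ ?_ ?_ ?_
  · intro b hb
    rw [Finset.mem_filter] at hb
    rw [Finset.mem_filter, Finset.mem_filter]
    refine ⟨⟨hb.2, ?_⟩, ?_⟩
    · rw [Fin.cons_zero]
    · funext q
      rw [Fin.cons_succ]
  · intro z hz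
    rw [Finset.mem_filter, Finset.mem_filter] at hz
    rw [Finset.mem_filter]
    refine ⟨Finset.mem_univ _, ?_⟩
    have h2 : (Fin.cons x (fun q => ((z q.succ).1, c q)) : Fin (K + 1) → Ix s r) = z := by
      funext q
      refine Fin.cases ?_ (fun q => ?_) q
      · rw [Fin.cons_zero, hz.1.2]
      · rw [Fin.cons_succ, ← congrFun hz.2 q]
    rw [h2]
    exact hz.1.1
  · intro b _
    funext q
    simp only [Fin.cons_succ]
  · intro z hz
    rw [Finset.mem_filter, Finset.mem_filter] at hz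
    funext q
    refine Fin.cases ?_ (fun q => ?_) q
    · rw [Fin.cons_zero, hz.1.2]
    · rw [Fin.cons_succ, ← congrFun hz.2 q]

theorem nn_le {P : Finset (Fin (K + 1) → Ix s r)} (hP : ∀ z ∈ P, Adm z) {x : Ix s r} (hx : x.1 ≠ 0)
    (c : Fin K → Vc r) : nn P x c ≤ 2 ^ ((s - 1) * K) := by
  classical
  have hli : LinearIndependent (ZMod 2) (fun _ : Fin 1 => x.1) := by
    rw [linearIndependent_unique_iff]
    exact hx
  have hs : 1 ≤ s := by
    rcases Nat.eq_zero_or_pos s with h0 | h0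
    · subst h0
      exact absurd (Subsingleton.elim _ _) hx
    · exact h0
  have hcard : ∀ q : Fin K, (Finset.univ.filter (fun b' : Vc s =>
      ∀ _ : Fin 1, b' ⬝ᵥ x.1 = 1 - x.2 ⬝ᵥ c q)).card = 2 ^ (s - 1) := by
    intro q
    have h1 := fiber_card hli (fun _ => 1 - x.2 ⬝ᵥ c q)
    have h2 : (2 : ℕ) ^ s = 2 ^ (s - 1) * 2 ^ 1 := by
      rw [← pow_add]
      congr 1
      omega
    rw [h2] at h1
    exact Nat.eq_of_mul_eq_mul_right (by norm_num) h1
  have hsub : (Finset.univ.filter (fun b : Fin K → Vc s =>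
      (Fin.cons x (fun q => (b q, c q)) : Fin (K + 1) → Ix s r) ∈ P)) ⊆
      Fintype.piFinset (fun q : Fin K => Finset.univ.filter (fun b' : Vc s =>
        ∀ _ : Fin 1, b' ⬝ᵥ x.1 = 1 - x.2 ⬝ᵥ c q)) := by
    intro b hb
    rw [Finset.mem_filter] at hb
    rw [Fintype.mem_piFinset]
    intro q
    rw [Finset.mem_filter]
    refine ⟨Finset.mem_univ _, fun _ => ?_⟩
    have h3 := hP _ hb.2 q
    rw [Fin.cons_zero, Fin.cons_succ] at h3
    unfold ip at h3
    rw [dotProduct_comm (b q) x.1, eq_sub_iff_add_eq]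
    exact h3
  unfold nn
  refine (Finset.card_le_card hsub).trans ?_
  rw [Fintype.card_piFinset, Finset.prod_congr rfl (fun q _ => hcard q), Finset.prod_const,
    Finset.card_univ, Fintype.card_fin, ← pow_mul]

end H4.SL

/-! ### Fe -/

namespace H4.SL

variable {K s r : ℕ}

/-- the mirror of `mulVec_inv` -/
private lemma Fe_inv_mulVec (ρ : (Mt s)ˣ) (u : Vc s) :
    Matrix.mulVec (ρ⁻¹).val (Matrix.mulVec ρ.val u) = u := by
  have h := mulVec_inv (ρ⁻¹) u
  rw [inv_inv] at h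
  exact h

/-- the matrices with one prescribed row and with the vectors `b` in a set -/
private lemma Fe_count {J : ℕ} (ρ : (Mt s)ˣ) (t : Fin s) (a : Vc r) {C : Fin J → Vc r}
    (hC : LinearIndependent (ZMod 2) C) (S : Finset (Fin J → Vc s))
    (hS : ∀ b ∈ S, ∀ i, ρ.val t ⬝ᵥ b i + a ⬝ᵥ C i = 1)
    (T : Finset (Fin s → Vc r))
    (hT : ∀ A, A ∈ T ↔ A t = a ∧
      (fun i => Matrix.mulVec (ρ⁻¹).val (Pi.single t 1 - mv A (C i))) ∈ S) :
    T.card * 2 ^ (J * (s - 1)) = 2 ^ (r * (s - 1)) * S.card := by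
  classical
  have h1 : T.card = ∑ b ∈ S, (T.filter (fun A =>
      (fun i => Matrix.mulVec (ρ⁻¹).val (Pi.single t 1 - mv A (C i))) = b)).card := by
    apply Finset.card_eq_sum_card_fiberwise
    intro A hA
    exact ((hT A).1 hA).2
  rw [h1, Finset.sum_mul]
  have h2 : ∀ b ∈ S, (T.filter (fun A =>
      (fun i => Matrix.mulVec (ρ⁻¹).val (Pi.single t 1 - mv A (C i))) = b)).card *
        2 ^ (J * (s - 1)) = 2 ^ (r * (s - 1)) := by
    intro b hb
    rw [← fiber_rows hC t a (fun i => Pi.single t 1 - Matrix.mulVec ρ.val (b i)) (by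
      intro i
      have h3 := hS b hb i
      have h4 : (Matrix.mulVec ρ.val (b i)) t = ρ.val t ⬝ᵥ b i := rfl
      rw [Pi.sub_apply, Pi.single_eq_same, h4, ← h3]
      ring)]
    congr 2
    ext A
    rw [Finset.mem_filter, Finset.mem_filter, hT]
    constructor
    · rintro ⟨⟨hA, -⟩, hAb⟩
      refine ⟨Finset.mem_univ _, hA, fun i => ?_⟩
      have h5 := congrFun hAb i
      beta_reduce at h5
      rw [← h5, mulVec_inv]
      exact (sub_sub_cancel _ _).symm
    · rintro ⟨-, hA, hAi⟩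
      have h6 : (fun i => Matrix.mulVec (ρ⁻¹).val (Pi.single t 1 - mv A (C i))) = b := by
        funext i
        rw [hAi i, sub_sub_cancel, Fe_inv_mulVec]
      refine ⟨⟨hA, ?_⟩, h6⟩
      rw [h6]
      exact hb
  rw [Finset.sum_congr rfl h2, Finset.sum_const, smul_eq_mul, mul_comm]

/-- an edge whose matrix has the row `a` -/
private lemma Fe_ed (ρ : (Mt s)ˣ) (A : Fin s → Vc r) (c : Fin K → Vc r) (t : Fin s) (a : Vc r)
    (h : A t = a) : ed ρ A c t = Fin.cons (ρ.val t, a) (fun q =>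
      (Matrix.mulVec (ρ⁻¹).val (Pi.single t 1 - mv A (c q)), c q)) := by
  unfold ed
  rw [h]

private lemma Fe_adm {P : Finset (Fin (K + 1) → Ix s r)} (hP : ∀ z ∈ P, Adm z) (ρ : (Mt s)ˣ)
    (t : Fin s) (a : Vc r) (c : Fin K → Vc r) (b : Fin K → Vc s)
    (hb : (Fin.cons (ρ.val t, a) (fun q => (b q, c q)) : Fin (K + 1) → Ix s r) ∈ P) (i : Fin K) :
    ρ.val t ⬝ᵥ b i + a ⬝ᵥ c i = 1 := by
  have h := hP _ hb i
  unfold ip at h
  rw [Fin.cons_zero, Fin.cons_succ] at h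
  exact h

theorem count1 {P : Finset (Fin (K + 1) → Ix s r)} (hP : ∀ z ∈ P, Adm z) (ρ : (Mt s)ˣ) (t : Fin s)
    (a : Vc r) {c : Fin K → Vc r} (hc : LinearIndependent (ZMod 2) c) :
    (Finset.univ.filter (fun A : Fin s → Vc r => A t = a ∧ ed ρ A c t ∈ P)).card * 2 ^ (K * (s - 1)) =
      2 ^ (r * (s - 1)) * nn P (ρ.val t, a) c := by
  unfold nn
  apply Fe_count ρ t a hc
  · intro b hb i
    exact Fe_adm hP ρ t a c b (Finset.mem_filter.1 hb).2 i
  · intro A
    rw [Finset.mem_filter, Finset.mem_filter]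
    constructor
    · rintro ⟨-, hA, hAP⟩
      rw [Fe_ed ρ A c t a hA] at hAP
      exact ⟨hA, Finset.mem_univ _, hAP⟩
    · rintro ⟨hA, -, hAP⟩
      refine ⟨Finset.mem_univ _, hA, ?_⟩
      rw [Fe_ed ρ A c t a hA]
      exact hAP

theorem count2 {P : Finset (Fin (K + 1) → Ix s r)} (hP : ∀ z ∈ P, Adm z) (ρ : (Mt s)ˣ) (t : Fin s)
    (a : Vc r) {c c' : Fin K → Vc r} (hc : LinearIndependent (ZMod 2) (Fin.append c c')) :
    (Finset.univ.filter (fun A : Fin s → Vc r => A t = a ∧ ed ρ A c t ∈ P ∧ ed ρ A c' t ∈ P)).card *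
        2 ^ ((K + K) * (s - 1)) =
      2 ^ (r * (s - 1)) * (nn P (ρ.val t, a) c * nn P (ρ.val t, a) c') := by
  obtain ⟨S, hS⟩ : ∃ S : Finset (Fin (K + K) → Vc s), ∀ b, b ∈ S ↔
      (Fin.cons (ρ.val t, a) (fun q => (b (Fin.castAdd K q), c q)) : Fin (K + 1) → Ix s r) ∈ P ∧
      (Fin.cons (ρ.val t, a) (fun q => (b (Fin.natAdd K q), c' q)) : Fin (K + 1) → Ix s r) ∈ P :=
    ⟨Finset.univ.filter (fun b =>
      (Fin.cons (ρ.val t, a) (fun q => (b (Fin.castAdd K q), c q)) : Fin (K + 1) → Ix s r) ∈ P ∧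
      (Fin.cons (ρ.val t, a) (fun q => (b (Fin.natAdd K q), c' q)) : Fin (K + 1) → Ix s r) ∈ P),
      fun b => by
        rw [Finset.mem_filter]
        exact ⟨fun h => h.2, fun h => ⟨Finset.mem_univ _, h⟩⟩⟩
  have hcard : nn P (ρ.val t, a) c * nn P (ρ.val t, a) c' = S.card := by
    unfold nn
    rw [← Finset.card_product]
    refine Finset.card_nbij' (fun p => Fin.append p.1 p.2)
      (fun b => ((fun q => b (Fin.castAdd K q)), (fun q => b (Fin.natAdd K q)))) ?_ ?_ ?_ ?_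
    · intro p hp
      rw [Finset.mem_coe, Finset.mem_product, Finset.mem_filter, Finset.mem_filter] at hp
      rw [Finset.mem_coe, hS]
      constructor
      · have h : (fun q => ((Fin.append p.1 p.2) (Fin.castAdd K q), c q)) =
            (fun q => (p.1 q, c q)) := by
          funext q
          rw [Fin.append_left]
        rw [h]
        exact hp.1.2
      · have h : (fun q => ((Fin.append p.1 p.2) (Fin.natAdd K q), c' q)) =
            (fun q => (p.2 q, c' q)) := by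
          funext q
          rw [Fin.append_right]
        rw [h]
        exact hp.2.2
    · intro b hb
      rw [Finset.mem_coe, hS] at hb
      rw [Finset.mem_coe, Finset.mem_product, Finset.mem_filter, Finset.mem_filter]
      exact ⟨⟨Finset.mem_univ _, hb.1⟩, ⟨Finset.mem_univ _, hb.2⟩⟩
    · intro p _
      refine Prod.ext ?_ ?_
      · funext q
        exact Fin.append_left _ _ _
      · funext q
        exact Fin.append_right _ _ _
    · intro b _
      exact Fin.append_castAdd_natAdd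
  rw [hcard]
  apply Fe_count ρ t a hc
  · intro b hb
    rw [hS] at hb
    refine Fin.addCases (fun i => ?_) (fun i => ?_)
    · rw [Fin.append_left]
      exact Fe_adm hP ρ t a c _ hb.1 i
    · rw [Fin.append_right]
      exact Fe_adm hP ρ t a c' _ hb.2 i
  · intro A
    rw [Finset.mem_filter, hS]
    have e1 : (fun q => (Matrix.mulVec (ρ⁻¹).val
        (Pi.single t 1 - mv A ((Fin.append c c') (Fin.castAdd K q))), c q)) =
        (fun q => (Matrix.mulVec (ρ⁻¹).val (Pi.single t 1 - mv A (c q)), c q)) := by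
      funext q
      rw [Fin.append_left]
    have e2 : (fun q => (Matrix.mulVec (ρ⁻¹).val
        (Pi.single t 1 - mv A ((Fin.append c c') (Fin.natAdd K q))), c' q)) =
        (fun q => (Matrix.mulVec (ρ⁻¹).val (Pi.single t 1 - mv A (c' q)), c' q)) := by
      funext q
      rw [Fin.append_right]
    constructor
    · rintro ⟨-, hA, hAP, hAP'⟩
      rw [Fe_ed ρ A c t a hA] at hAP
      rw [Fe_ed ρ A c' t a hA] at hAP'
      refine ⟨hA, ?_, ?_⟩
      · rw [e1]
        exact hAP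
      · rw [e2]
        exact hAP'
    · rintro ⟨hA, hAP, hAP'⟩
      refine ⟨Finset.mem_univ _, hA, ?_, ?_⟩
      · rw [Fe_ed ρ A c t a hA]
        rw [e1] at hAP
        exact hAP
      · rw [Fe_ed ρ A c' t a hA]
        rw [e2] at hAP'
        exact hAP'

end H4.SL

/-! ### Ff -/

namespace H4.SL

variable {K s r : ℕ}

theorem row_ne_zero (ρ : (Mt s)ˣ) (t : Fin s) : ρ.val t ≠ 0 := by
  intro h
  have h1 := congrFun (mulVec_inv ρ (Pi.single t 1)) t
  have h2 : Matrix.mulVec ρ.val (Matrix.mulVec (ρ⁻¹).val (Pi.single t 1)) t =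
      ρ.val t ⬝ᵥ (Matrix.mulVec (ρ⁻¹).val (Pi.single t 1)) := rfl
  rw [h2, h, zero_dotProduct, Pi.single_eq_same] at h1
  exact zero_ne_one h1

open Classical in
private lemma Ff_pr (P : Finset (Fin (K + 1) → Ix s r)) (ρ : (Mt s)ˣ) (A : Fin s → Vc r) (t : Fin s) :
    pr P ρ A t = (∑ c : Fin K → Vc r, if ed ρ A c t ∈ P then (1 : ℝ) else 0) / 2 ^ (r * K) := by
  unfold pr
  rw [Finset.sum_boole]

private lemma Ff_pow (hs : 1 ≤ s) :
    (2 : ℝ) ^ ((s + r - 1) * K) = 2 ^ ((s - 1) * K) * 2 ^ (r * K) := by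
  rw [← pow_add]
  congr 1
  rw [← Nat.add_mul]
  congr 1
  omega

private lemma Ff_lam (hs : 1 ≤ s) (P : Finset (Fin (K + 1) → Ix s r)) (x : Ix s r) :
    lam P x = (∑ c : Fin K → Vc r, (nn P x c : ℝ)) / (2 ^ ((s - 1) * K) * 2 ^ (r * K)) := by
  unfold lam
  rw [← Ff_pow hs, ← sum_nn, Nat.cast_sum]

private lemma Ff_cardU (t : Fin s) (a : Vc r) :
    (Finset.univ.filter (fun A : Fin s → Vc r => A t = a)).card = 2 ^ (r * (s - 1)) := by
  have h := fiber_rows (s := s) (r := r) (J := 0) (C := fun i => i.elim0)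
    (linearIndependent_empty_type) t a (fun i => i.elim0) (fun i => i.elim0)
  rw [Nat.zero_mul, pow_zero, mul_one] at h
  rw [← h]
  congr 1
  ext A
  simp only [Finset.mem_filter, Finset.mem_univ, true_and]
  exact ⟨fun h1 => ⟨h1, fun i => i.elim0⟩, fun h1 => h1.1⟩

theorem mom1 (hs : 1 ≤ s) {P : Finset (Fin (K + 1) → Ix s r)} (hP : ∀ z ∈ P, Adm z) (ρ : (Mt s)ˣ)
    (t : Fin s) (a : Vc r) :
    (2 : ℝ) ^ (r * (s - 1)) * (lam P (ρ.val t, a) - 2 ^ K / 2 ^ r) ≤
      ∑ A ∈ Finset.univ.filter (fun A : Fin s → Vc r => A t = a), pr P ρ A t := by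
  classical
  obtain ⟨N1, hN1⟩ : ∃ N1 : ℝ, N1 = (2 : ℝ) ^ (r * (s - 1)) := ⟨_, rfl⟩
  obtain ⟨h, hh⟩ : ∃ h : ℝ, h = (2 : ℝ) ^ ((s - 1) * K) := ⟨_, rfl⟩
  obtain ⟨R, hR⟩ : ∃ R : ℝ, R = (2 : ℝ) ^ (r * K) := ⟨_, rfl⟩
  have hN1p : 0 < N1 := by rw [hN1]; positivity
  have hhp : 0 < h := by rw [hh]; positivity
  have hRp : 0 < R := by rw [hR]; positivity
  have hsum : ∑ A ∈ Finset.univ.filter (fun A : Fin s → Vc r => A t = a), pr P ρ A t =
      (∑ c : Fin K → Vc r, ((Finset.univ.filter (fun A : Fin s → Vc r =>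
        A t = a ∧ ed ρ A c t ∈ P)).card : ℝ)) / R := by
    rw [Finset.sum_congr rfl (fun A _ => Ff_pr P ρ A t), ← Finset.sum_div, Finset.sum_comm, hR]
    congr 1
    refine Finset.sum_congr rfl fun c _ => ?_
    rw [Finset.sum_boole, Finset.filter_filter]
  have hc : ∀ c : Fin K → Vc r, N1 * ((nn P (ρ.val t, a) c : ℝ) / h -
      (if ¬ LinearIndependent (ZMod 2) c then 1 else 0)) ≤
        ((Finset.univ.filter (fun A : Fin s → Vc r => A t = a ∧ ed ρ A c t ∈ P)).card : ℝ) := by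
    intro c
    by_cases hi : LinearIndependent (ZMod 2) c
    · rw [if_neg (not_not.2 hi), sub_zero]
      have h1 := count1 hP ρ t a hi
      have h2 : ((Finset.univ.filter (fun A : Fin s → Vc r =>
          A t = a ∧ ed ρ A c t ∈ P)).card : ℝ) * h = N1 * (nn P (ρ.val t, a) c : ℝ) := by
        rw [hh, hN1, mul_comm (s - 1) K]
        exact_mod_cast h1
      rw [← mul_div_assoc, div_le_iff₀ hhp, h2]
    · rw [if_pos hi]
      have h1 : (nn P (ρ.val t, a) c : ℝ) ≤ h := by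
        have h3 := nn_le hP (x := (ρ.val t, a)) (row_ne_zero ρ t) c
        rw [hh]
        exact_mod_cast h3
      have h2 : (nn P (ρ.val t, a) c : ℝ) / h ≤ 1 := by
        rw [div_le_one hhp]
        exact h1
      have h3 : N1 * ((nn P (ρ.val t, a) c : ℝ) / h - 1) ≤ 0 :=
        mul_nonpos_of_nonneg_of_nonpos hN1p.le (by linarith)
      exact h3.trans (Nat.cast_nonneg _)
  have hdep : (((Finset.univ.filter (fun C : Fin K → Vc r =>
      ¬ LinearIndependent (ZMod 2) C)).card : ℕ) : ℝ) / R ≤ 2 ^ K / 2 ^ r := by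
    rw [div_le_div_iff₀ hRp (by positivity), hR]
    exact_mod_cast dep_card (r := r) (J := K)
  rw [hsum, Ff_lam hs, ← hN1, ← hh, ← hR]
  have hS := Finset.sum_le_sum (fun c (_ : c ∈ (Finset.univ : Finset (Fin K → Vc r))) => hc c)
  rw [← Finset.mul_sum, Finset.sum_sub_distrib, ← Finset.sum_div, Finset.sum_boole] at hS
  rw [le_div_iff₀ hRp]
  refine le_trans ?_ hS
  rw [mul_assoc]
  refine mul_le_mul_of_nonneg_left ?_ hN1p.le
  rw [sub_mul]
  have e1 : (∑ c : Fin K → Vc r, (nn P (ρ.val t, a) c : ℝ)) / (h * R) * R =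
      (∑ c : Fin K → Vc r, (nn P (ρ.val t, a) c : ℝ)) / h := by
    field_simp
  rw [e1]
  rw [div_le_iff₀ hRp] at hdep
  linarith

theorem mom2 (hs : 1 ≤ s) {P : Finset (Fin (K + 1) → Ix s r)} (hP : ∀ z ∈ P, Adm z) (ρ : (Mt s)ˣ)
    (t : Fin s) (a : Vc r) :
    ∑ A ∈ Finset.univ.filter (fun A : Fin s → Vc r => A t = a), pr P ρ A t ^ 2 ≤
      (2 : ℝ) ^ (r * (s - 1)) * (lam P (ρ.val t, a) ^ 2 + 2 ^ (2 * K) / 2 ^ r) := by
  classical
  obtain ⟨N1, hN1⟩ : ∃ N1 : ℝ, N1 = (2 : ℝ) ^ (r * (s - 1)) := ⟨_, rfl⟩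
  obtain ⟨h, hh⟩ : ∃ h : ℝ, h = (2 : ℝ) ^ ((s - 1) * K) := ⟨_, rfl⟩
  obtain ⟨R, hR⟩ : ∃ R : ℝ, R = (2 : ℝ) ^ (r * K) := ⟨_, rfl⟩
  have hN1p : 0 < N1 := by rw [hN1]; positivity
  have hhp : 0 < h := by rw [hh]; positivity
  have hRp : 0 < R := by rw [hR]; positivity
  have hsum : ∑ A ∈ Finset.univ.filter (fun A : Fin s → Vc r => A t = a), pr P ρ A t ^ 2 =
      (∑ c : Fin K → Vc r, ∑ c' : Fin K → Vc r, ((Finset.univ.filter (fun A : Fin s → Vc r =>
        A t = a ∧ ed ρ A c t ∈ P ∧ ed ρ A c' t ∈ P)).card : ℝ)) / R ^ 2 := by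
    have e0 : ∀ A : Fin s → Vc r, pr P ρ A t ^ 2 = (∑ c : Fin K → Vc r, ∑ c' : Fin K → Vc r,
        if ed ρ A c t ∈ P ∧ ed ρ A c' t ∈ P then (1 : ℝ) else 0) / R ^ 2 := by
      intro A
      rw [Ff_pr, div_pow, ← hR, sq (∑ c : Fin K → Vc r, _), Finset.sum_mul_sum]
      congr 1
      refine Finset.sum_congr rfl fun c _ => Finset.sum_congr rfl fun c' _ => ?_
      by_cases h1 : ed ρ A c t ∈ P <;> by_cases h2 : ed ρ A c' t ∈ P <;> simp [h1, h2]
    rw [Finset.sum_congr rfl (fun A _ => e0 A), ← Finset.sum_div, Finset.sum_comm]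
    congr 1
    refine Finset.sum_congr rfl fun c _ => ?_
    rw [Finset.sum_comm]
    refine Finset.sum_congr rfl fun c' _ => ?_
    rw [Finset.sum_boole, Finset.filter_filter]
  have hc : ∀ c c' : Fin K → Vc r,
      ((Finset.univ.filter (fun A : Fin s → Vc r =>
        A t = a ∧ ed ρ A c t ∈ P ∧ ed ρ A c' t ∈ P)).card : ℝ) ≤
      N1 * ((nn P (ρ.val t, a) c : ℝ) / h * ((nn P (ρ.val t, a) c' : ℝ) / h) +
      (if ¬ LinearIndependent (ZMod 2) (Fin.append c c') then 1 else 0)) := by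
    intro c c'
    by_cases hi : LinearIndependent (ZMod 2) (Fin.append c c')
    · rw [if_neg (not_not.2 hi), add_zero]
      have h1 := count2 hP ρ t a hi
      have h2 : ((Finset.univ.filter (fun A : Fin s → Vc r =>
          A t = a ∧ ed ρ A c t ∈ P ∧ ed ρ A c' t ∈ P)).card : ℝ) * (h * h) =
            N1 * ((nn P (ρ.val t, a) c : ℝ) * (nn P (ρ.val t, a) c' : ℝ)) := by
        rw [hh, hN1, ← pow_add, ← Nat.mul_add, mul_comm (s - 1) (K + K)]
        exact_mod_cast h1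
      have h3 : N1 * ((nn P (ρ.val t, a) c : ℝ) / h * ((nn P (ρ.val t, a) c' : ℝ) / h)) =
          N1 * ((nn P (ρ.val t, a) c : ℝ) * (nn P (ρ.val t, a) c' : ℝ)) / (h * h) := by
        field_simp
      rw [h3, le_div_iff₀ (by positivity), h2]
    · rw [if_pos hi]
      have h1 : ((Finset.univ.filter (fun A : Fin s → Vc r =>
          A t = a ∧ ed ρ A c t ∈ P ∧ ed ρ A c' t ∈ P)).card : ℝ) ≤ N1 := by
        have h3 : (Finset.univ.filter (fun A : Fin s → Vc r =>
          A t = a ∧ ed ρ A c t ∈ P ∧ ed ρ A c' t ∈ P)).card ≤ 2 ^ (r * (s - 1)) := by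
          rw [← Ff_cardU t a]
          refine Finset.card_le_card fun A hA => ?_
          rw [Finset.mem_filter] at hA ⊢
          exact ⟨hA.1, hA.2.1⟩
        rw [hN1]
        exact_mod_cast h3
      have h2 : (0 : ℝ) ≤ (nn P (ρ.val t, a) c : ℝ) / h * ((nn P (ρ.val t, a) c' : ℝ) / h) := by
        positivity
      calc _ ≤ N1 := h1
        _ = N1 * 1 := (mul_one _).symm
        _ ≤ _ := mul_le_mul_of_nonneg_left (by linarith) hN1p.le
  have hdep : (∑ c : Fin K → Vc r, ∑ c' : Fin K → Vc r,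
      (if ¬ LinearIndependent (ZMod 2) (Fin.append c c') then (1 : ℝ) else 0)) / R ^ 2 ≤
        2 ^ (2 * K) / 2 ^ r := by
    have e1 : (∑ c : Fin K → Vc r, ∑ c' : Fin K → Vc r,
        (if ¬ LinearIndependent (ZMod 2) (Fin.append c c') then (1 : ℝ) else 0)) =
        (((Finset.univ.filter (fun p : (Fin K → Vc r) × (Fin K → Vc r) =>
          ¬ LinearIndependent (ZMod 2) (Fin.append p.1 p.2))).card : ℕ) : ℝ) := by
      rw [← Finset.sum_boole, ← Finset.univ_product_univ, Finset.sum_product]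
    have e2 : (Finset.univ.filter (fun p : (Fin K → Vc r) × (Fin K → Vc r) =>
          ¬ LinearIndependent (ZMod 2) (Fin.append p.1 p.2))).card ≤
        (Finset.univ.filter (fun C : Fin (K + K) → Vc r => ¬ LinearIndependent (ZMod 2) C)).card := by
      refine Finset.card_le_card_of_injOn (fun p => Fin.append p.1 p.2) ?_ ?_
      · intro p hp
        rw [Finset.mem_coe, Finset.mem_filter] at hp ⊢
        exact ⟨Finset.mem_univ _, hp.2⟩
      · intro p _ q _ hpq
        have hpq' : Fin.append p.1 p.2 = Fin.append q.1 q.2 := hpq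
        refine Prod.ext ?_ ?_
        · funext i
          have := congrFun hpq' (Fin.castAdd K i)
          rwa [Fin.append_left, Fin.append_left] at this
        · funext i
          have := congrFun hpq' (Fin.natAdd K i)
          rwa [Fin.append_right, Fin.append_right] at this
    have e3 := dep_card (r := r) (J := K + K)
    have e4 : (Finset.univ.filter (fun p : (Fin K → Vc r) × (Fin K → Vc r) =>
          ¬ LinearIndependent (ZMod 2) (Fin.append p.1 p.2))).card * 2 ^ r ≤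
        2 ^ (2 * K) * (2 ^ (r * K)) ^ 2 := by
      refine (Nat.mul_le_mul_right _ e2).trans (e3.trans (le_of_eq ?_))
      rw [← pow_mul, ← two_mul]
      congr 2
      ring
    rw [e1, div_le_div_iff₀ (by positivity) (by positivity), hR]
    exact_mod_cast e4
  rw [hsum, Ff_lam hs, ← hN1, ← hh, ← hR]
  have hS := Finset.sum_le_sum (fun c (_ : c ∈ (Finset.univ : Finset (Fin K → Vc r))) =>
    Finset.sum_le_sum (fun c' (_ : c' ∈ (Finset.univ : Finset (Fin K → Vc r))) => hc c c'))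
  have e5 : ∑ c : Fin K → Vc r, ∑ c' : Fin K → Vc r,
      N1 * ((nn P (ρ.val t, a) c : ℝ) / h * ((nn P (ρ.val t, a) c' : ℝ) / h) +
      (if ¬ LinearIndependent (ZMod 2) (Fin.append c c') then (1 : ℝ) else 0)) =
      N1 * (((∑ c : Fin K → Vc r, (nn P (ρ.val t, a) c : ℝ)) / h) ^ 2 +
        ∑ c : Fin K → Vc r, ∑ c' : Fin K → Vc r,
      (if ¬ LinearIndependent (ZMod 2) (Fin.append c c') then (1 : ℝ) else 0)) := by
    simp only [← Finset.mul_sum, Finset.sum_add_distrib]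
    congr 2
    rw [sq, Finset.sum_div, Finset.sum_mul_sum]
    refine Finset.sum_congr rfl fun c _ => ?_
    rw [Finset.mul_sum]
  rw [e5] at hS
  rw [div_le_iff₀ (by positivity)]
  refine hS.trans ?_
  rw [mul_assoc]
  refine mul_le_mul_of_nonneg_left ?_ hN1p.le
  rw [add_mul]
  rw [div_le_iff₀ (by positivity)] at hdep
  refine add_le_add (le_of_eq ?_) hdep
  field_simp

end H4.SL

/-! ### Fg -/

namespace H4.SL

variable {K s r : ℕ}

theorem lam_nonneg (P : Finset (Fin (K + 1) → Ix s r)) (x : Ix s r) : 0 ≤ lam P x := by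
  unfold lam
  positivity

theorem Fg_card_c : Fintype.card (Fin K → Vc r) = 2 ^ (r * K) := by
  rw [Fintype.card_fun, Fintype.card_fun, ZMod.card, Fintype.card_fin, Fintype.card_fin, ← pow_mul]

theorem lam_le_one (hs : 1 ≤ s) {P : Finset (Fin (K + 1) → Ix s r)} (hP : ∀ z ∈ P, Adm z)
    (ρ : (Mt s)ˣ) (t : Fin s) (a : Vc r) : lam P (ρ.val t, a) ≤ 1 := by
  unfold lam
  rw [div_le_one (by positivity)]
  have h1 : (P.filter (fun z => z 0 = (ρ.val t, a))).card ≤ 2 ^ ((s + r - 1) * K) := by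
    rw [← sum_nn]
    have h2 : ∑ c : Fin K → Vc r, nn P (ρ.val t, a) c ≤
        (Finset.univ : Finset (Fin K → Vc r)).card • 2 ^ ((s - 1) * K) :=
      Finset.sum_le_card_nsmul _ _ _ (fun c _ => nn_le hP (x := (ρ.val t, a)) (row_ne_zero ρ t) c)
    rw [Finset.card_univ, Fg_card_c, smul_eq_mul, ← pow_add] at h2
    have h3 : r * K + (s - 1) * K = (s + r - 1) * K := by
      rw [← add_mul]
      congr 1
      omega
    rwa [h3] at h2
  exact_mod_cast h1

theorem card_row (t : Fin s) (a : Vc r) :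
    (Finset.univ.filter (fun A : Fin s → Vc r => A t = a)).card = 2 ^ (r * (s - 1)) := by
  have h1 := fiber_rows (s := s) (r := r) (J := 0) (C := fun i => i.elim0) (linearIndependent_empty_type)
    t a (fun i => i.elim0) (fun i => i.elim0)
  rw [Nat.zero_mul, pow_zero, mul_one] at h1
  rw [← h1]
  congr 1
  ext A
  simp only [Finset.mem_filter, Finset.mem_univ, true_and]
  exact ⟨fun h => ⟨h, fun i => i.elim0⟩, fun h => h.1⟩

theorem var_le (hK : 1 ≤ K) (hs : 1 ≤ s) {P : Finset (Fin (K + 1) → Ix s r)} (hP : ∀ z ∈ P, Adm z)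
    (ρ : (Mt s)ˣ) (t : Fin s) :
    ∑ A : Fin s → Vc r, (pr P ρ A t - lam P (ρ.val t, A t)) ^ 2 ≤
      (2 : ℝ) ^ (r * s) * (2 ^ (2 * K + 1) / 2 ^ r) := by
  have hfib : ∀ a : Vc r, ∑ A ∈ Finset.univ.filter (fun A : Fin s → Vc r => A t = a),
      (pr P ρ A t - lam P (ρ.val t, A t)) ^ 2 ≤ (2 : ℝ) ^ (r * (s - 1)) * (2 ^ (2 * K + 1) / 2 ^ r) := by
    intro a
    have h1 := mom1 hs hP ρ t a
    have h2 := mom2 hs hP ρ t a
    have hl0 := lam_nonneg P (ρ.val t, a)
    have hl1 := lam_le_one hs hP ρ t a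
    set l := lam P (ρ.val t, a) with hl
    have e1 : ∑ A ∈ Finset.univ.filter (fun A : Fin s → Vc r => A t = a),
        (pr P ρ A t - lam P (ρ.val t, A t)) ^ 2 =
        ∑ A ∈ Finset.univ.filter (fun A : Fin s → Vc r => A t = a), pr P ρ A t ^ 2
          - 2 * l * ∑ A ∈ Finset.univ.filter (fun A : Fin s → Vc r => A t = a), pr P ρ A t
          + (2 : ℝ) ^ (r * (s - 1)) * l ^ 2 := by
      have e2 : ∑ A ∈ Finset.univ.filter (fun A : Fin s → Vc r => A t = a), l ^ 2 =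
          (2 : ℝ) ^ (r * (s - 1)) * l ^ 2 := by
        rw [Finset.sum_const, card_row, nsmul_eq_mul]
        push_cast
        ring
      rw [← e2, Finset.mul_sum, ← Finset.sum_sub_distrib, ← Finset.sum_add_distrib]
      refine Finset.sum_congr rfl fun A hA => ?_
      rw [(Finset.mem_filter.1 hA).2, ← hl]
      ring
    rw [e1]
    have hN : (0 : ℝ) < (2 : ℝ) ^ (r * (s - 1)) := by positivity
    have hr : (0 : ℝ) < (2 : ℝ) ^ r := by positivity
    have hK2 : 2 * (2 : ℝ) ^ K ≤ 2 ^ (2 * K) := by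
      have h3 : (2 : ℝ) ≤ 2 ^ K := by
        calc (2 : ℝ) = 2 ^ 1 := (pow_one 2).symm
          _ ≤ 2 ^ K := pow_le_pow_right₀ (by norm_num) hK
      have h4 : (2 : ℝ) ^ (2 * K) = 2 ^ K * 2 ^ K := by rw [two_mul, pow_add]
      rw [h4]
      nlinarith [pow_pos (two_pos : (0 : ℝ) < 2) K]
    have h5 : 2 * l * ((2 : ℝ) ^ (r * (s - 1)) * (l - 2 ^ K / 2 ^ r)) ≤
        2 * l * ∑ A ∈ Finset.univ.filter (fun A : Fin s → Vc r => A t = a), pr P ρ A t :=
      mul_le_mul_of_nonneg_left h1 (by positivity)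
    have h6 : l * (2 * 2 ^ K / 2 ^ r) ≤ 2 ^ (2 * K) / 2 ^ r := by
      have h7 : 2 * (2 : ℝ) ^ K / 2 ^ r ≤ 2 ^ (2 * K) / 2 ^ r := div_le_div_of_nonneg_right hK2 hr.le
      have h8 : (0 : ℝ) ≤ 2 * 2 ^ K / 2 ^ r := by positivity
      nlinarith
    have h9 : (2 : ℝ) ^ (2 * K + 1) / 2 ^ r = 2 ^ (2 * K) / 2 ^ r + 2 ^ (2 * K) / 2 ^ r := by
      rw [pow_succ]
      ring
    rw [h9]
    have h10 : (2 : ℝ) ^ (r * (s - 1)) * (l * (2 * 2 ^ K / 2 ^ r)) ≤
        (2 : ℝ) ^ (r * (s - 1)) * (2 ^ (2 * K) / 2 ^ r) := mul_le_mul_of_nonneg_left h6 hN.le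
    have h11 : 2 * l * ((2 : ℝ) ^ (r * (s - 1)) * (l - 2 ^ K / 2 ^ r)) =
        2 * ((2 : ℝ) ^ (r * (s - 1)) * l ^ 2) - (2 : ℝ) ^ (r * (s - 1)) * (l * (2 * 2 ^ K / 2 ^ r)) := by
      ring
    nlinarith
  have hsum : ∑ A : Fin s → Vc r, (pr P ρ A t - lam P (ρ.val t, A t)) ^ 2 =
      ∑ a : Vc r, ∑ A ∈ Finset.univ.filter (fun A : Fin s → Vc r => A t = a),
        (pr P ρ A t - lam P (ρ.val t, A t)) ^ 2 :=
    (Finset.sum_fiberwise _ _ _).symm
  rw [hsum]
  refine (Finset.sum_le_card_nsmul _ _ _ fun a _ => hfib a).trans (le_of_eq ?_)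
  have hcard : (Finset.univ : Finset (Vc r)).card = 2 ^ r := by
    rw [Finset.card_univ, Fintype.card_fun, ZMod.card, Fintype.card_fin]
  rw [hcard, nsmul_eq_mul, ← mul_assoc]
  congr 1
  push_cast
  rw [← pow_add]
  congr 1
  obtain ⟨s', rfl⟩ : ∃ s', s = s' + 1 := ⟨s - 1, by omega⟩
  rw [Nat.add_sub_cancel]
  ring

open Classical in
theorem bad_le (hK : 1 ≤ K) (hs : 1 ≤ s) {P : Finset (Fin (K + 1) → Ix s r)} (hP : ∀ z ∈ P, Adm z)
    (ρ : (Mt s)ˣ) (t : Fin s) {η : ℝ} (hη : 0 < η) :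
    ((Finset.univ.filter (fun A : Fin s → Vc r =>
        η < |pr P ρ A t - lam P (ρ.val t, A t)|)).card : ℝ) * η ^ 2 ≤
      (2 : ℝ) ^ (r * s) * (2 ^ (2 * K + 1) / 2 ^ r) := by
  refine le_trans ?_ (var_le hK hs hP ρ t)
  refine le_trans ?_ (Finset.sum_le_sum_of_subset_of_nonneg (Finset.filter_subset (fun A : Fin s → Vc r =>
        η < |pr P ρ A t - lam P (ρ.val t, A t)|) Finset.univ) (fun A _ _ => sq_nonneg _))
  rw [← nsmul_eq_mul]
  refine Finset.card_nsmul_le_sum _ _ _ fun A hA => ?_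
  rw [← sq_abs (pr P ρ A t - lam P (ρ.val t, A t))]
  exact pow_le_pow_left₀ hη.le (Finset.mem_filter.1 hA).2.le 2

end H4.SL

/-! ### Ga -/

namespace H4.SL

variable {K s r : ℕ}

theorem SlGa_aux (s : ℕ) :
    (1 / 4 : ℝ) + 1 / 2 ^ (s + 2) ≤ ∏ i ∈ Finset.range (s + 1), (1 - 1 / (2 : ℝ) ^ (i + 1)) := by
  induction s with
  | zero => norm_num
  | succ s ih =>
    rw [Finset.prod_range_succ]
    obtain ⟨u, hu⟩ : ∃ u : ℝ, u = 1 / 2 ^ (s + 2) := ⟨_, rfl⟩
    have hu0 : 0 < u := by rw [hu]; positivity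
    have hu1 : u ≤ 1 / 4 := by
      rw [hu]
      apply one_div_le_one_div_of_le (by norm_num)
      calc (4 : ℝ) = 2 ^ 2 := by norm_num
        _ ≤ 2 ^ (s + 2) := pow_le_pow_right₀ (by norm_num) (by omega)
    have e1 : 1 / (2 : ℝ) ^ (s + 1 + 1) = u := hu.symm
    have e2 : 1 / (2 : ℝ) ^ (s + 1 + 2) = u / 2 := by
      rw [hu, show s + 1 + 2 = (s + 2) + 1 by omega, pow_succ]
      field_simp
    rw [e1, e2]
    rw [← hu] at ih
    have h1 : 0 ≤ u * (1 / 4 - u) := mul_nonneg hu0.le (by linarith)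
    calc 1 / 4 + u / 2 ≤ (1 / 4 + u) * (1 - u) := by
          have : (1 / 4 + u) * (1 - u) = 1 / 4 + u / 2 + u * (1 / 4 - u) := by ring
          rw [this]
          linarith
      _ ≤ _ := mul_le_mul_of_nonneg_right ih (by linarith)

theorem prod_ge (s : ℕ) : (1 / 4 : ℝ) ≤ ∏ i ∈ Finset.range s, (1 - 1 / (2 : ℝ) ^ (i + 1)) := by
  rcases s with _ | s
  · rw [Finset.prod_range_zero]
    norm_num
  · have h1 := SlGa_aux s
    have h2 : (0 : ℝ) < 1 / 2 ^ (s + 2) := by positivity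
    linarith

theorem gl_ge (s : ℕ) : (2 : ℝ) ^ (s * s) ≤ 4 * Fintype.card (Mt s)ˣ := by
  have h1 : Fintype.card (Mt s)ˣ = ∏ i : Fin s, (2 ^ s - 2 ^ (i : ℕ)) := by
    have h2 := Matrix.card_GL_field (𝔽 := ZMod 2) s
    rw [ZMod.card] at h2
    rw [← h2, ← Nat.card_eq_fintype_card]
  have h2 : ((Fintype.card (Mt s)ˣ : ℕ) : ℝ) = ∏ i ∈ Finset.range s, ((2 : ℝ) ^ s - 2 ^ i) := by
    rw [h1, Nat.cast_prod, ← Fin.prod_univ_eq_prod_range (fun i => (2 : ℝ) ^ s - 2 ^ i) s]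
    refine Finset.prod_congr rfl fun i _ => ?_
    rw [Nat.cast_sub (Nat.pow_le_pow_right (by norm_num) i.2.le)]
    simp
  have h3 : ∏ i ∈ Finset.range s, ((2 : ℝ) ^ s - 2 ^ i) = 2 ^ (s * s) * ∏ i ∈ Finset.range s, (1 - 1 / (2 : ℝ) ^ (i + 1)) := by
    rw [← Finset.prod_range_reflect, pow_mul]
    have e0 : ((2 : ℝ) ^ s) ^ s = ∏ _i ∈ Finset.range s, (2 : ℝ) ^ s := by
      rw [Finset.prod_const, Finset.card_range]
    rw [e0, ← Finset.prod_mul_distrib]
    refine Finset.prod_congr rfl fun i hi => ?_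
    have hi' := Finset.mem_range.1 hi
    have h4 : (2 : ℝ) ^ s = 2 ^ (s - 1 - i) * 2 ^ (i + 1) := by
      rw [← pow_add]
      congr 1
      omega
    rw [h4]
    have h5 : (2 : ℝ) ^ (i + 1) ≠ 0 := by positivity
    field_simp
  rw [h2, h3]
  have h4 := prod_ge s
  have h5 : (0 : ℝ) < 2 ^ (s * s) := by positivity
  calc (2 : ℝ) ^ (s * s) = 4 * (2 ^ (s * s) * (1 / 4)) := by ring
    _ ≤ _ := mul_le_mul_of_nonneg_left (mul_le_mul_of_nonneg_left h4 h5.le) (by norm_num)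

theorem sum_prod_le (f : Ix s r → ℝ) (hf : ∀ x, 0 ≤ f x) :
    ∑ ρ : (Mt s)ˣ, ∑ A : Fin s → Vc r, ∏ t, f (ρ.val t, A t) ≤ (∑ x, f x) ^ s := by
  have h1 : ∑ ρ : (Mt s)ˣ, ∑ A : Fin s → Vc r, ∏ t, f (ρ.val t, A t)
      ≤ ∑ ρ : Mt s, ∑ A : Fin s → Vc r, ∏ t, f (ρ t, A t) := by
    have hinj : Function.Injective (fun ρ : (Mt s)ˣ => ρ.val) := fun a b h => Units.ext h
    have e1 : ∑ ρ : (Mt s)ˣ, ∑ A : Fin s → Vc r, ∏ t, f (ρ.val t, A t)
        = ∑ ρ ∈ Finset.univ.map ⟨fun ρ : (Mt s)ˣ => ρ.val, hinj⟩, ∑ A : Fin s → Vc r, ∏ t, f (ρ t, A t) := by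
      rw [Finset.sum_map]
      rfl
    rw [e1]
    refine Finset.sum_le_sum_of_subset_of_nonneg (Finset.subset_univ _) fun ρ _ _ => ?_
    exact Finset.sum_nonneg fun A _ => Finset.prod_nonneg fun t _ => hf _
  refine h1.trans (le_of_eq ?_)
  rw [Fintype.sum_pow, ← Fintype.sum_prod_type' (f := fun (ρ : Mt s) (A : Fin s → Vc r) => ∏ t, f (ρ t, A t))]
  exact Fintype.sum_equiv (Equiv.arrowProdEquivProdArrow (Fin s) (fun _ => Vc s) (fun _ => Vc r)).symm _ _ (fun _ => rfl)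

end H4.SL

/-! ### Gc -/

namespace H4.SL

variable {K s r : ℕ}

theorem pr_nonneg (P : Finset (Fin (K + 1) → Ix s r)) (ρ : (Mt s)ˣ) (A : Fin s → Vc r) (t : Fin s) :
    0 ≤ pr P ρ A t := by
  unfold pr
  positivity

theorem card_cc : Fintype.card (Fin K → Vc r) = 2 ^ (r * K) := by
  simp [Vc, ZMod.card, pow_mul]

theorem pr_le_one (P : Finset (Fin (K + 1) → Ix s r)) (ρ : (Mt s)ˣ) (A : Fin s → Vc r) (t : Fin s) :
    pr P ρ A t ≤ 1 := by
  unfold pr
  rw [div_le_one (by positivity)]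
  have h := Finset.card_filter_le (Finset.univ : Finset (Fin K → Vc r)) (fun c => ed ρ A c t ∈ P)
  rw [Finset.card_univ, card_cc] at h
  exact_mod_cast h

theorem card_fr : (Fintype.card (Fr K s r) : ℝ) =
    Fintype.card (Mt s)ˣ * 2 ^ (r * s) * ((2 : ℝ) ^ (r * K)) ^ s := by
  have h1 : Fintype.card (Fin s → Vc r) = 2 ^ (r * s) := by
    simp [Vc, ZMod.card, pow_mul]
  have h2 : Fintype.card (Fin s → Fin K → Vc r) = (2 ^ (r * K)) ^ s := by
    rw [Fintype.card_fun, card_cc, Fintype.card_fin]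
  have h3 : Fintype.card (Fr K s r) = Fintype.card (Mt s)ˣ * (2 ^ (r * s) * (2 ^ (r * K)) ^ s) := by
    show Fintype.card ((Mt s)ˣ × (Fin s → Vc r) × (Fin s → Fin K → Vc r)) = _
    rw [Fintype.card_prod, Fintype.card_prod, h1, h2]
  rw [h3]
  push_cast
  ring

theorem sum_lam (P : Finset (Fin (K + 1) → Ix s r)) :
    ∑ x : Ix s r, lam P x = 2 ^ (s + r) * ((P.card : ℝ) / tot K s r) := by
  have h1 : P.card = ∑ x : Ix s r, (P.filter (fun z => z 0 = x)).card :=
    Finset.card_eq_sum_card_fiberwise (fun _ _ => Finset.mem_coe.2 (Finset.mem_univ _))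
  unfold lam tot
  rw [← Finset.sum_div, ← Nat.cast_sum, ← h1]
  field_simp

theorem sum_hit_eq (P : Finset (Fin (K + 1) → Ix s r)) :
    ∑ M : Fr K s r, (2 : ℝ) ^ hit P M =
      ((2 : ℝ) ^ (r * K)) ^ s * ∑ ρ : (Mt s)ˣ, ∑ A : Fin s → Vc r, ∏ t, (1 + pr P ρ A t) := by
  classical
  have h1 : ∀ M : Fr K s r, (2 : ℝ) ^ hit P M = ∏ t, (if edge M t ∈ P then (2 : ℝ) else 1) := by
    intro M
    unfold hit
    rw [Finset.prod_ite]
    simp
  have h2 : ∑ M : Fr K s r, (2 : ℝ) ^ hit P M =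
      ∑ ρ : (Mt s)ˣ, ∑ A : Fin s → Vc r, ∑ c : Fin s → Fin K → Vc r,
        ∏ t, (if ed ρ A (c t) t ∈ P then (2 : ℝ) else 1) := by
    rw [Finset.sum_congr rfl (fun M _ => h1 M)]
    rw [Fintype.sum_prod_type]
    refine Finset.sum_congr rfl fun ρ _ => ?_
    rw [Fintype.sum_prod_type]
    rfl
  have h3 : ∀ (ρ : (Mt s)ˣ) (A : Fin s → Vc r), ∑ c : Fin s → Fin K → Vc r,
      ∏ t, (if ed ρ A (c t) t ∈ P then (2 : ℝ) else 1) =
        ((2 : ℝ) ^ (r * K)) ^ s * ∏ t, (1 + pr P ρ A t) := by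
    intro ρ A
    have h4 := Finset.prod_univ_sum (fun _ : Fin s => (Finset.univ : Finset (Fin K → Vc r)))
      (fun (t : Fin s) (c' : Fin K → Vc r) => (if ed ρ A c' t ∈ P then (2 : ℝ) else 1))
    rw [Fintype.piFinset_univ] at h4
    rw [← h4]
    have h5 : ∀ t : Fin s, ∑ c' : Fin K → Vc r, (if ed ρ A c' t ∈ P then (2 : ℝ) else 1) =
        (2 : ℝ) ^ (r * K) * (1 + pr P ρ A t) := by
      intro t
      have h6 : ∀ c' : Fin K → Vc r, (if ed ρ A c' t ∈ P then (2 : ℝ) else 1) =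
          1 + (if ed ρ A c' t ∈ P then (1 : ℝ) else 0) := by
        intro c'
        split_ifs <;> norm_num
      rw [Finset.sum_congr rfl (fun c' _ => h6 c'), Finset.sum_add_distrib, Finset.sum_const,
        Finset.card_univ, card_cc, Finset.sum_boole]
      unfold pr
      push_cast
      simp only [nsmul_eq_mul, mul_one]
      push_cast
      field_simp
    rw [Finset.prod_congr rfl (fun t _ => h5 t), Finset.prod_mul_distrib, Finset.prod_const,
      Finset.card_univ, Fintype.card_fin]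
  rw [h2, Finset.mul_sum]
  refine Finset.sum_congr rfl fun ρ _ => ?_
  rw [Finset.mul_sum]
  exact Finset.sum_congr rfl fun A _ => h3 ρ A

end H4.SL

/-! ### Gd -/

namespace H4.SL

variable {K s r : ℕ}

theorem Gd_pt (P : Finset (Fin (K + 1) → Ix s r)) (ρ : (Mt s)ˣ) (A : Fin s → Vc r) :
    ∏ t, (1 + pr P ρ A t) ≤ ∏ t, (1 + lam P (ρ.val t, A t) + 1 / 20) +
      2 ^ s * ∑ t, (if 1 / 20 < |pr P ρ A t - lam P (ρ.val t, A t)| then (1 : ℝ) else 0) := by
  have h0 : ∀ t, 0 ≤ pr P ρ A t := pr_nonneg P ρ A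
  have h1 : ∀ t, pr P ρ A t ≤ 1 := pr_le_one P ρ A
  have hl : ∀ t, 0 ≤ lam P (ρ.val t, A t) := fun t => lam_nonneg P _
  have hf : 0 ≤ ∏ t, (1 + lam P (ρ.val t, A t) + 1 / 20) :=
    Finset.prod_nonneg (fun t _ => by linarith [hl t])
  have h2 : (0 : ℝ) < 2 ^ s := by positivity
  have hi : ∀ t, (0 : ℝ) ≤
      (if 1 / 20 < |pr P ρ A t - lam P (ρ.val t, A t)| then (1 : ℝ) else 0) := by
    intro t
    split_ifs <;> norm_num
  by_cases hb : ∃ t, 1 / 20 < |pr P ρ A t - lam P (ρ.val t, A t)|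
  · obtain ⟨t, ht⟩ := hb
    have hs1 : (1 : ℝ) ≤
        ∑ t, (if 1 / 20 < |pr P ρ A t - lam P (ρ.val t, A t)| then (1 : ℝ) else 0) := by
      refine le_trans (le_of_eq ?_) (Finset.single_le_sum (fun i _ => hi i) (Finset.mem_univ t))
      rw [if_pos ht]
    have hp : ∏ t, (1 + pr P ρ A t) ≤ 2 ^ s := by
      calc ∏ t, (1 + pr P ρ A t) ≤ ∏ t : Fin s, (2 : ℝ) :=
            Finset.prod_le_prod (fun t _ => by linarith [h0 t]) (fun t _ => by linarith [h1 t])
        _ = 2 ^ s := by simp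
    have h3 := mul_le_mul_of_nonneg_left hs1 h2.le
    rw [mul_one] at h3
    linarith
  · have hb' : ∀ t, |pr P ρ A t - lam P (ρ.val t, A t)| ≤ 1 / 20 := fun t => by
      by_contra h
      exact hb ⟨t, not_le.1 h⟩
    have hp : ∏ t, (1 + pr P ρ A t) ≤ ∏ t, (1 + lam P (ρ.val t, A t) + 1 / 20) :=
      Finset.prod_le_prod (fun t _ => by linarith [h0 t])
        (fun t _ => by linarith [(abs_le.1 (hb' t)).2])
    have h3 := mul_nonneg h2.le (Finset.sum_nonneg (fun t (_ : t ∈ Finset.univ) => hi t))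
    linarith

theorem Gd_card : (Fintype.card (Ix s r) : ℝ) = 2 ^ (s + r) := by
  rw [Fintype.card_prod, Fintype.card_fun, Fintype.card_fun, ZMod.card, Fintype.card_fin,
    Fintype.card_fin]
  push_cast
  rw [pow_add]

theorem Gd_sumf (P : Finset (Fin (K + 1) → Ix s r)) :
    ∑ x : Ix s r, (1 + lam P x + 1 / 20) =
      2 ^ (s + r) * (1 + ((P.card : ℝ) / tot K s r + 1 / 20)) := by
  rw [Finset.sum_add_distrib, Finset.sum_add_distrib, sum_lam, Finset.sum_const, Finset.sum_const,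
    Finset.card_univ, nsmul_eq_mul, nsmul_eq_mul, Gd_card]
  ring

theorem Gd_first (P : Finset (Fin (K + 1) → Ix s r)) :
    ∑ ρ : (Mt s)ˣ, ∑ A : Fin s → Vc r, ∏ t, (1 + lam P (ρ.val t, A t) + 1 / 20) ≤
      4 * (Fintype.card (Mt s)ˣ * 2 ^ (r * s) *
        Real.exp (s * ((P.card : ℝ) / tot K s r + 1 / 20))) := by
  have hL : (0 : ℝ) ≤ (P.card : ℝ) / tot K s r := by
    have : 0 ≤ tot K s r := by unfold tot; positivity
    positivity
  have h := sum_prod_le (s := s) (r := r) (fun x => 1 + lam P x + 1 / 20)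
    (fun x => by linarith [lam_nonneg P x])
  refine le_trans h ?_
  rw [Gd_sumf, mul_pow]
  have h1 : (1 + ((P.card : ℝ) / tot K s r + 1 / 20)) ^ s ≤
      Real.exp (s * ((P.card : ℝ) / tot K s r + 1 / 20)) := by
    rw [Real.exp_nat_mul]
    refine pow_le_pow_left₀ (by linarith) ?_ s
    rw [add_comm]
    exact Real.add_one_le_exp _
  have h2 : ((2 : ℝ) ^ (s + r)) ^ s ≤ 4 * (Fintype.card (Mt s)ˣ * 2 ^ (r * s)) := by
    have h3 := mul_le_mul_of_nonneg_right (gl_ge s) (show (0 : ℝ) ≤ 2 ^ (r * s) by positivity)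
    calc ((2 : ℝ) ^ (s + r)) ^ s = 2 ^ (s * s) * 2 ^ (r * s) := by
          rw [← pow_mul, ← pow_add, add_mul]
      _ ≤ 4 * Fintype.card (Mt s)ˣ * 2 ^ (r * s) := h3
      _ = 4 * (Fintype.card (Mt s)ˣ * 2 ^ (r * s)) := by ring
  calc ((2 : ℝ) ^ (s + r)) ^ s * (1 + ((P.card : ℝ) / tot K s r + 1 / 20)) ^ s
      ≤ (4 * (Fintype.card (Mt s)ˣ * 2 ^ (r * s))) *
        Real.exp (s * ((P.card : ℝ) / tot K s r + 1 / 20)) :=
        mul_le_mul h2 h1 (pow_nonneg (by linarith) s) (by positivity)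
    _ = _ := by ring

theorem Gd_second (hK : 1 ≤ K) (hs : 1 ≤ s) (hr : 400 * s * 2 ^ s * 2 ^ (2 * K + 1) ≤ 2 ^ r)
    {P : Finset (Fin (K + 1) → Ix s r)} (hP : ∀ z ∈ P, Adm z) :
    ∑ ρ : (Mt s)ˣ, ∑ A : Fin s → Vc r, (2 : ℝ) ^ s *
      ∑ t, (if 1 / 20 < |pr P ρ A t - lam P (ρ.val t, A t)| then (1 : ℝ) else 0) ≤
      Fintype.card (Mt s)ˣ * 2 ^ (r * s) := by
  classical
  have hr' : (400 : ℝ) * s * 2 ^ s * 2 ^ (2 * K + 1) ≤ 2 ^ r := by exact_mod_cast hr
  have h2r : (0 : ℝ) < 2 ^ r := by positivity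
  have key : ∀ ρ : (Mt s)ˣ, ∑ A : Fin s → Vc r, (2 : ℝ) ^ s *
      ∑ t, (if 1 / 20 < |pr P ρ A t - lam P (ρ.val t, A t)| then (1 : ℝ) else 0) ≤
      2 ^ (r * s) := by
    intro ρ
    rw [← Finset.mul_sum, Finset.sum_comm]
    have h1 : ∀ t : Fin s, ∑ A : Fin s → Vc r,
        (if 1 / 20 < |pr P ρ A t - lam P (ρ.val t, A t)| then (1 : ℝ) else 0) ≤
        400 * ((2 : ℝ) ^ (r * s) * (2 ^ (2 * K + 1) / 2 ^ r)) := by
      intro t
      have h3 := bad_le hK hs hP ρ t (η := 1 / 20) (by norm_num)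
      have h4 : ∑ A : Fin s → Vc r,
          (if 1 / 20 < |pr P ρ A t - lam P (ρ.val t, A t)| then (1 : ℝ) else 0) =
          ((Finset.univ.filter (fun A : Fin s → Vc r =>
            1 / 20 < |pr P ρ A t - lam P (ρ.val t, A t)|)).card : ℝ) := by
        rw [Finset.sum_boole]
      rw [h4]
      have h5 : ((1 : ℝ) / 20) ^ 2 = 1 / 400 := by norm_num
      rw [h5] at h3
      linarith
    calc (2 : ℝ) ^ s * ∑ t : Fin s, ∑ A : Fin s → Vc r,
          (if 1 / 20 < |pr P ρ A t - lam P (ρ.val t, A t)| then (1 : ℝ) else 0)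
        ≤ 2 ^ s * ∑ t : Fin s, 400 * ((2 : ℝ) ^ (r * s) * (2 ^ (2 * K + 1) / 2 ^ r)) :=
          mul_le_mul_of_nonneg_left (Finset.sum_le_sum (fun t _ => h1 t)) (by positivity)
      _ = 2 ^ (r * s) * ((400 * s * 2 ^ s * 2 ^ (2 * K + 1)) / 2 ^ r) := by
          rw [Finset.sum_const, Finset.card_univ, Fintype.card_fin, nsmul_eq_mul]
          ring
      _ ≤ 2 ^ (r * s) * 1 := by
          refine mul_le_mul_of_nonneg_left ?_ (by positivity)
          exact (div_le_one h2r).2 hr'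
      _ = 2 ^ (r * s) := mul_one _
  calc _ ≤ ∑ ρ : (Mt s)ˣ, (2 : ℝ) ^ (r * s) := Finset.sum_le_sum (fun ρ _ => key ρ)
    _ = Fintype.card (Mt s)ˣ * 2 ^ (r * s) := by
        rw [Finset.sum_const, Finset.card_univ, nsmul_eq_mul]

theorem spread (hK : 1 ≤ K) (hs : 1 ≤ s) (hr : 400 * s * 2 ^ s * 2 ^ (2 * K + 1) ≤ 2 ^ r)
    {P : Finset (Fin (K + 1) → Ix s r)} (hP : ∀ z ∈ P, Adm z) :
    ∑ M : Fr K s r, (2 : ℝ) ^ hit P M ≤
      Fintype.card (Fr K s r) * Real.exp (Real.log 5 + s * ((P.card : ℝ) / tot K s r + 1 / 20)) := by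
  have hL : (0 : ℝ) ≤ (P.card : ℝ) / tot K s r := by
    have : 0 ≤ tot K s r := by unfold tot; positivity
    positivity
  have h1 : ∑ ρ : (Mt s)ˣ, ∑ A : Fin s → Vc r, ∏ t, (1 + pr P ρ A t) ≤
      ∑ ρ : (Mt s)ˣ, ∑ A : Fin s → Vc r, ∏ t, (1 + lam P (ρ.val t, A t) + 1 / 20) +
      ∑ ρ : (Mt s)ˣ, ∑ A : Fin s → Vc r, (2 : ℝ) ^ s *
      ∑ t, (if 1 / 20 < |pr P ρ A t - lam P (ρ.val t, A t)| then (1 : ℝ) else 0) := by
    rw [← Finset.sum_add_distrib]
    refine Finset.sum_le_sum (fun ρ _ => ?_)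
    rw [← Finset.sum_add_distrib]
    exact Finset.sum_le_sum (fun A _ => Gd_pt P ρ A)
  have h2 := Gd_first P
  have h3 := Gd_second hK hs hr hP
  have h4 : (1 : ℝ) ≤ Real.exp (s * ((P.card : ℝ) / tot K s r + 1 / 20)) :=
    Real.one_le_exp (by positivity)
  have h5 : (Fintype.card (Mt s)ˣ : ℝ) * 2 ^ (r * s) ≤ Fintype.card (Mt s)ˣ * 2 ^ (r * s) *
      Real.exp (s * ((P.card : ℝ) / tot K s r + 1 / 20)) :=
    le_mul_of_one_le_right (by positivity) h4
  have h6 : ∑ ρ : (Mt s)ˣ, ∑ A : Fin s → Vc r, ∏ t, (1 + pr P ρ A t) ≤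
      5 * (Fintype.card (Mt s)ˣ * 2 ^ (r * s) *
        Real.exp (s * ((P.card : ℝ) / tot K s r + 1 / 20))) := by
    linarith
  rw [sum_hit_eq, card_fr, Real.exp_add, Real.exp_log (by norm_num)]
  calc ((2 : ℝ) ^ (r * K)) ^ s * ∑ ρ : (Mt s)ˣ, ∑ A : Fin s → Vc r, ∏ t, (1 + pr P ρ A t)
      ≤ ((2 : ℝ) ^ (r * K)) ^ s * (5 * (Fintype.card (Mt s)ˣ * 2 ^ (r * s) *
        Real.exp (s * ((P.card : ℝ) / tot K s r + 1 / 20)))) :=
        mul_le_mul_of_nonneg_left h6 (by positivity)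
    _ = _ := by ring

end H4.SL

/-! ### Ha -/

namespace H4.SL

open H40.SP

variable {V : Type} [DecidableEq V] {K s r B : ℕ} {v : Fin B → Fin (K + 1) → Ix s r → V} {G : Fml V}

theorem tot_pos : 0 < tot K s r := by
  unfold tot
  positivity

private theorem ha_log5 : Real.log 5 ≤ 2 := by
  rw [Real.log_le_iff_le_exp (by norm_num)]
  have h := Real.quadratic_le_exp_of_nonneg (x := 2) (by norm_num)
  linarith

theorem coreS (hK : 1 ≤ K) (hs : 40 ≤ s) (hr : 400 * s * 2 ^ s * 2 ^ (2 * K + 1) ≤ 2 ^ r)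
    (hv : InjV v) {w : ℕ} (hkw : K + 1 ≤ w) (hw : Width w G) (hG : ∀ a, Sat G a → Sat (hf v) a) {a : ℕ}
    (ha : a = ∑ M : Fin B → Fr K s r, (good (xs v M) G).card) (ha0 : 0 < a)
    (hd : 16 * (w * (K + 1) * Real.log ((Fintype.card (Fin B → Fr K s r) : ℝ) *
      Fintype.card (St (B * s) (K + 1) 1) / a)) ≤ B * s * Real.log 2) :
    9 / 20 * B * tot K s r ≤ G.card := by
  classical
  have haR : (0 : ℝ) < (a : ℝ) := by exact_mod_cast ha0
  have ha' : (a : ℝ) ≤ (Fintype.card (Fin B → Fr K s r) : ℝ) *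
      Fintype.card (St (B * s) (K + 1) 1) := by
    have h1 : a ≤ Fintype.card (Fin B → Fr K s r) * Fintype.card (St (B * s) (K + 1) 1) := by
      rw [ha]
      refine (Finset.sum_le_sum fun M _ => Finset.card_le_univ (good (xs v M) G)).trans ?_
      rw [Finset.sum_const, smul_eq_mul, Finset.card_univ]
    exact_mod_cast h1
  have h1 := sum_nonhonest_fr hK hv hkw hw hG ha ha0
  have h2 := sum_hit_fr (sv v G) (fun M => good (xs v M) G) ha ha0
    (fun β => Real.log 5 + s * (((pt (sv v G) β).card : ℝ) / tot K s r + 1 / 20))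
    (fun β => spread hK (by omega) hr (by
      intro z hz
      rw [mem_pt] at hz
      unfold sv at hz
      rw [Finset.mem_filter] at hz
      exact hz.2.1))
  have h3 : ((sv v G).card : ℝ) ≤ G.card := by exact_mod_cast card_sv_le v G
  obtain ⟨Λ, hΛ⟩ : ∃ Λ : ℝ, Λ = Real.log ((Fintype.card (Fin B → Fr K s r) : ℝ) *
      Fintype.card (St (B * s) (K + 1) 1) / a) := ⟨_, rfl⟩
  have hΛ0 : 0 ≤ Λ := by
    rw [hΛ]
    exact Real.log_nonneg ((one_le_div haR).2 ha')
  rw [← hΛ] at h1 h2 hd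
  have hlog2 : 0.6931471803 < Real.log 2 := Real.log_two_gt_d9
  have hlog0 : 0 < Real.log 2 := by linarith
  have hE : ∑ β : Fin B, (Real.log 5 + s * (((pt (sv v G) β).card : ℝ) / tot K s r + 1 / 20)) =
      B * Real.log 5 + s * (((sv v G).card : ℝ) / tot K s r + B / 20) := by
    have e1 : ∑ β : Fin B, ((pt (sv v G) β).card : ℝ) = ((sv v G).card : ℝ) := by
      exact_mod_cast sum_pt (sv v G)
    rw [Finset.sum_add_distrib, Finset.sum_const, ← Finset.mul_sum, Finset.sum_add_distrib,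
      Finset.sum_const, ← Finset.sum_div, e1, Finset.card_univ, Fintype.card_fin]
    simp only [nsmul_eq_mul]
    ring
  rw [hE] at h2
  have h4 : ∀ M : Fin B → Fr K s r, ∀ σ ∈ good (xs v M) G, ((B * s : ℕ) : ℝ) * Real.log 2 ≤
      ((Finset.univ.filter (fun τ => ¬ Honest (xs v M) G σ τ)).card : ℝ) * Real.log 2 +
      (hits (sv v G) M : ℝ) * Real.log 2 := by
    intro M σ _
    rw [← add_mul]
    refine mul_le_mul_of_nonneg_right ?_ hlog0.le
    have e1 := Finset.card_filter_add_card_filter_not (s := (Finset.univ : Finset (Fin (B * s))))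
      (fun τ => Honest (xs v M) G σ τ)
    rw [Finset.card_univ, Fintype.card_fin] at e1
    have e2 : (Finset.univ.filter (fun τ => Honest (xs v M) G σ τ)).card ≤ hits (sv v G) M := by
      unfold hits
      refine Finset.card_le_card fun τ hτ => ?_
      rw [Finset.mem_filter] at hτ ⊢
      exact ⟨hτ.1, sv_of_honest hv M hτ.2⟩
    have e3 : B * s ≤ (Finset.univ.filter (fun τ => ¬ Honest (xs v M) G σ τ)).card +
        hits (sv v G) M := by omega
    exact_mod_cast e3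
  have h5 : ∑ M : Fin B → Fr K s r, ∑ _σ ∈ good (xs v M) G, ((B * s : ℕ) : ℝ) * Real.log 2 ≤
      ∑ M : Fin B → Fr K s r, ∑ σ ∈ good (xs v M) G,
        (((Finset.univ.filter (fun τ => ¬ Honest (xs v M) G σ τ)).card : ℝ) * Real.log 2 +
          (hits (sv v G) M : ℝ) * Real.log 2) :=
    Finset.sum_le_sum fun M _ => Finset.sum_le_sum (h4 M)
  have h6 : ∑ M : Fin B → Fr K s r, ∑ _σ ∈ good (xs v M) G, ((B * s : ℕ) : ℝ) * Real.log 2 =
      a * (B * s * Real.log 2) := by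
    have e1 : ∀ M : Fin B → Fr K s r,
        ∑ _σ ∈ good (xs v M) G, ((B * s : ℕ) : ℝ) * Real.log 2 =
          ((good (xs v M) G).card : ℝ) * (B * s * Real.log 2) := by
      intro M
      rw [Finset.sum_const, nsmul_eq_mul]
      push_cast
      ring
    rw [Finset.sum_congr rfl fun M _ => e1 M, ← Finset.sum_mul, ha]
    push_cast
    rfl
  rw [h6] at h5
  simp only [Finset.sum_add_distrib] at h5
  have h7 : (a : ℝ) * (B * s * Real.log 2) ≤ a * (3 * w * (K * Λ) +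
      (Λ + (B * Real.log 5 + s * (((sv v G).card : ℝ) / tot K s r + B / 20)))) := by
    have e1 : (3 : ℝ) * w * (K * (a * Λ)) = a * (3 * w * (K * Λ)) := by ring
    rw [e1] at h1
    rw [mul_add]
    linarith
  have h9 := le_of_mul_le_mul_left h7 haR
  have hwR : (2 : ℝ) ≤ (w : ℝ) := by exact_mod_cast (by omega : 2 ≤ w)
  have hKR : (1 : ℝ) ≤ (K : ℝ) := by exact_mod_cast hK
  have hwk : (4 : ℝ) ≤ (w : ℝ) * (K + 1) := by nlinarith
  have hwkΛ : 4 * Λ ≤ (w : ℝ) * (K + 1) * Λ := mul_le_mul_of_nonneg_right hwk hΛ0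
  have hwΛ : 0 ≤ (w : ℝ) * Λ := by positivity
  have h10 : 3 * (w : ℝ) * ((K : ℝ) * Λ) ≤ 3 * ((w : ℝ) * (K + 1) * Λ) := by nlinarith
  have hB0 : (0 : ℝ) ≤ (B : ℝ) := Nat.cast_nonneg _
  have hsR : (40 : ℝ) ≤ (s : ℝ) := by exact_mod_cast hs
  have hBs : (0 : ℝ) ≤ (B : ℝ) * s := by positivity
  have h11 : (B : ℝ) * s * 0.6931471803 ≤ (B : ℝ) * s * Real.log 2 :=
    mul_le_mul_of_nonneg_left hlog2.le hBs
  have h12 : (B : ℝ) * Real.log 5 ≤ B * s * (1 / 20) := by
    have e1 : Real.log 5 ≤ s * (1 / 20) := by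
      have := ha_log5
      linarith
    calc (B : ℝ) * Real.log 5 ≤ B * (s * (1 / 20)) := mul_le_mul_of_nonneg_left e1 hB0
      _ = B * s * (1 / 20) := by ring
  have h13 : (s : ℝ) * (((sv v G).card : ℝ) / tot K s r + B / 20) =
      s * (((sv v G).card : ℝ) / tot K s r) + B * s * (1 / 20) := by ring
  rw [h13] at h9
  have h14 : (s : ℝ) * (9 / 20 * B) ≤ s * (((sv v G).card : ℝ) / tot K s r) := by linarith
  have h15 : 9 / 20 * (B : ℝ) ≤ ((sv v G).card : ℝ) / tot K s r :=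
    le_of_mul_le_mul_left h14 (by linarith)
  rw [le_div_iff₀ tot_pos] at h15
  exact h15.trans h3

end H4.SL

/-! ### Hb -/

namespace H4.SL

open H40.SP

variable {V : Type} [DecidableEq V] {K s r B : ℕ} {v : Fin B → Fin (K + 1) → Ix s r → V}

theorem not_sparse_hf (hK : 1 ≤ K) (hs : 40 ≤ s) (hr : 400 * s * 2 ^ s * 2 ^ (2 * K + 1) ≤ 2 ^ r)
    (hv : InjV v) {w : ℕ} (hkw : K + 1 ≤ w) {m L : ℝ}
    (hm : m ≤ (2 : ℝ) ^ ((B : ℝ) * s / (16 * (w * (K + 1))))) (hL : L < 9 / 20 * B * tot K s r) :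
    ¬ Sparse (hf v) w m L := by
  rintro ⟨𝒢, hcard, hG, hiff⟩
  have hFr : 0 < Fintype.card (Fin B → Fr K s r) :=
    Fintype.card_pos_iff.2 ⟨fun _ => (1, fun _ => 0, fun _ _ => 0)⟩
  have hSt : 0 < Fintype.card (St (B * s) (K + 1) 1) := Fintype.card_pos
  obtain ⟨NT, hNT⟩ : ∃ NT : ℕ, NT = Fintype.card (Fin B → Fr K s r) *
      Fintype.card (St (B * s) (K + 1) 1) := ⟨_, rfl⟩
  have hNT0 : 0 < NT := by rw [hNT]; exact Nat.mul_pos hFr hSt
  have hcover : ∀ (M : Fin B → Fr K s r) (σ : St (B * s) (K + 1) 1), ∃ G ∈ 𝒢,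
      σ ∈ good (xs v M) G := by
    intro M σ
    obtain ⟨G, hG1, hG2⟩ := (hiff (asg (xs v M) σ)).1 (sat_hf hv M σ)
    refine ⟨G, hG1, ?_⟩
    unfold good
    simp only [Finset.mem_filter, Finset.mem_univ, true_and]
    exact hG2
  have h1 : NT ≤ ∑ G ∈ 𝒢, ∑ M : Fin B → Fr K s r, (good (xs v M) G).card := by
    rw [Finset.sum_comm, hNT]
    have h2 : ∀ M : Fin B → Fr K s r, Fintype.card (St (B * s) (K + 1) 1) ≤
        ∑ G ∈ 𝒢, (good (xs v M) G).card := by
      intro M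
      have h3 : (Finset.univ : Finset (St (B * s) (K + 1) 1)) ⊆ 𝒢.biUnion (good (xs v M)) := by
        intro σ _
        obtain ⟨G, h3, h4⟩ := hcover M σ
        exact Finset.mem_biUnion.2 ⟨G, h3, h4⟩
      exact (Finset.card_le_card h3).trans Finset.card_biUnion_le
    calc Fintype.card (Fin B → Fr K s r) * Fintype.card (St (B * s) (K + 1) 1)
        = ∑ _M : Fin B → Fr K s r, Fintype.card (St (B * s) (K + 1) 1) := by
          rw [Finset.sum_const, Finset.card_univ, smul_eq_mul]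
      _ ≤ _ := Finset.sum_le_sum fun M _ => h2 M
  have h5 : ∃ G ∈ 𝒢, NT ≤ 𝒢.card * ∑ M : Fin B → Fr K s r, (good (xs v M) G).card := by
    by_contra hcon
    push Not at hcon
    have hne : 𝒢.Nonempty := by
      obtain ⟨M⟩ : Nonempty (Fin B → Fr K s r) := Fintype.card_pos_iff.1 hFr
      obtain ⟨σ⟩ : Nonempty (St (B * s) (K + 1) 1) := Fintype.card_pos_iff.1 hSt
      obtain ⟨G, h3, -⟩ := hcover M σ
      exact ⟨G, h3⟩
    have h6 : ∑ G ∈ 𝒢, 𝒢.card * ∑ M : Fin B → Fr K s r, (good (xs v M) G).card <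
        ∑ _G ∈ 𝒢, NT := Finset.sum_lt_sum_of_nonempty hne hcon
    rw [← Finset.mul_sum, Finset.sum_const, smul_eq_mul] at h6
    exact absurd (Nat.mul_le_mul_left 𝒢.card h1) (not_le.2 h6)
  obtain ⟨G, hG1, hG2⟩ := h5
  obtain ⟨a, ha⟩ : ∃ a : ℕ, a = ∑ M : Fin B → Fr K s r, (good (xs v M) G).card := ⟨_, rfl⟩
  rw [← ha] at hG2
  have hapos : 0 < a := by
    rcases Nat.eq_zero_or_pos a with h | h
    · rw [h, mul_zero] at hG2
      omega
    · exact h
  have hk0 : (0 : ℝ) < (K : ℝ) + 1 := by positivity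
  have hw0 : (0 : ℝ) < w := by exact_mod_cast (by omega : 0 < w)
  have ha' : (0 : ℝ) < a := by exact_mod_cast hapos
  have hNT' : (0 : ℝ) < NT := by exact_mod_cast hNT0
  have hNTr : (NT : ℝ) = (Fintype.card (Fin B → Fr K s r) : ℝ) *
      Fintype.card (St (B * s) (K + 1) 1) := by rw [hNT]; push_cast; rfl
  have hratio : (NT : ℝ) / a ≤ (2 : ℝ) ^ ((B : ℝ) * s / (16 * (w * (K + 1)))) := by
    rw [div_le_iff₀ ha']
    calc (NT : ℝ) ≤ 𝒢.card * a := by exact_mod_cast hG2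
      _ ≤ _ := mul_le_mul_of_nonneg_right (hcard.trans hm) ha'.le
  have hlog := Real.log_le_log (div_pos hNT' ha') hratio
  rw [Real.log_rpow (by norm_num)] at hlog
  have hd : 16 * (w * ((K : ℝ) + 1) * Real.log ((NT : ℝ) / a)) ≤ B * s * Real.log 2 := by
    calc 16 * (w * ((K : ℝ) + 1) * Real.log ((NT : ℝ) / a)) ≤
        16 * (w * ((K : ℝ) + 1) * ((B : ℝ) * s / (16 * (w * (K + 1))) * Real.log 2)) := by gcongr
      _ = B * s * Real.log 2 := by field_simp
  rw [hNTr] at hd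
  have hcore := coreS hK hs hr hv hkw (hG G hG1).1 (fun a ha => (hiff a).2 ⟨G, hG1, ha⟩)
    ha hapos hd
  have h8 := (hG G hG1).2
  linarith

end H4.SL

/-! ### Hc -/

namespace H4.SL

open H40.SP

private lemma Hc_num {K : ℕ} (hK : 1 ≤ K) : 40 * (K + 1) < 9 * 16 ^ K := by
  induction K, hK using Nat.le_induction with
  | base => norm_num
  | succ m _ ih =>
    rw [pow_succ]
    omega

theorem exists_injV {n B K s r : ℕ} (h : B * ((K + 1) * 2 ^ (s + r)) ≤ n) :
    ∃ v : Fin B → Fin (K + 1) → Ix s r → Fin n, InjV v := by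
  have hc : Fintype.card (Ix s r) = 2 ^ (s + r) := by
    rw [Fintype.card_prod, Fintype.card_fun, Fintype.card_fun, ZMod.card, Fintype.card_fin,
      Fintype.card_fin, pow_add]
  have e : Ix s r ≃ Fin (2 ^ (s + r)) := Fintype.equivFinOfCardEq hc
  refine ⟨fun t q i => Fin.castLE h (finProdFinEquiv (t, finProdFinEquiv (q, e i))), ?_⟩
  intro t q i t' q' i' he
  have h1 := Fin.castLE_injective h he
  have h2 := finProdFinEquiv.injective h1
  have h3 := (Prod.mk.injEq _ _ _ _).mp h2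
  have h4 := finProdFinEquiv.injective h3.2
  have h5 := (Prod.mk.injEq _ _ _ _).mp h4
  exact ⟨h3.1, h5.1, e.injective h5.2⟩

theorem exists_s {y : ℝ} (hy : 0 < y) (h : y * 8 ^ 40 ≤ 40) :
    ∃ s : ℕ, 40 ≤ s ∧ y * 8 ^ s ≤ s ∧ (s : ℝ) + 1 < y * 8 ^ (s + 1) := by
  classical
  have hex : ∃ s : ℕ, 40 ≤ s ∧ (s : ℝ) < y * 8 ^ s := by
    obtain ⟨m, hm⟩ := pow_unbounded_of_one_lt (1 / y) (by norm_num : (1 : ℝ) < 4)
    refine ⟨max 40 m, le_max_left _ _, ?_⟩
    set s : ℕ := max 40 m with hs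
    have h1 : (1 : ℝ) < y * 4 ^ s := by
      have h2 : (4 : ℝ) ^ m ≤ 4 ^ s := pow_le_pow_right₀ (by norm_num) (le_max_right _ _)
      rw [div_lt_iff₀ hy] at hm
      nlinarith
    have h3 : (s : ℝ) < 2 ^ s := by exact_mod_cast Nat.lt_two_pow_self
    have e : (8 : ℝ) ^ s = 4 ^ s * 2 ^ s := by
      rw [← mul_pow]
      norm_num
    rw [e, ← mul_assoc]
    have h4 : (0 : ℝ) < 2 ^ s := by positivity
    nlinarith
  have h1 := Nat.find_spec hex
  have h2 : ∀ m < Nat.find hex, ¬ (40 ≤ m ∧ (m : ℝ) < y * 8 ^ m) := fun m hm => Nat.find_min hex hm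
  set s1 : ℕ := Nat.find hex with hs1
  have h3 : s1 ≠ 40 := by
    intro h4
    rw [h4] at h1
    have := h1.2
    push_cast at this
    linarith
  have h1' := h1.1
  obtain ⟨s, hs⟩ : ∃ s, s1 = s + 1 := ⟨s1 - 1, by omega⟩
  rw [hs] at h1 h1' h2 h3
  refine ⟨s, by omega, ?_, ?_⟩
  · by_contra hcon
    exact h2 s (by omega) ⟨by omega, not_le.1 hcon⟩
  · have := h1.2
    push_cast at this
    exact this

private lemma Hc_log {w k K s : ℕ} {ε D : ℝ} (hw : 1 ≤ w) (hk : 1 ≤ k)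
    (hD : D = w * k ^ 2 * 2 ^ (2 * K + 140)) (hε : 0 < ε) (hε0 : ε ≤ 1 / D ^ 2)
    (h : (s : ℝ) + 1 < 256 * w * k ^ 2 * ε * (8 ^ s * 2 ^ (2 * K + 10))) :
    Real.log (1 / ε) ≤ 5 * (s + 1) := by
  have hw0 : (0 : ℝ) < w := by exact_mod_cast hw
  have hk0 : (0 : ℝ) < k := by exact_mod_cast hk
  have hD0 : 0 < D := by
    rw [hD]
    positivity
  have h8 : (0 : ℝ) < 8 ^ s := by positivity
  have h1 : 1 / ε < D * 8 ^ s := by
    rw [div_lt_iff₀ hε]
    have h2 : (1 : ℝ) ≤ s + 1 := by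
      have : (0 : ℝ) ≤ s := Nat.cast_nonneg s
      linarith
    have h3 : 256 * (w : ℝ) * k ^ 2 * ε * (8 ^ s * 2 ^ (2 * K + 10)) ≤ D * 8 ^ s * ε := by
      have e : D = 256 * (w : ℝ) * k ^ 2 * 2 ^ (2 * K + 10) * 2 ^ 122 := by
        rw [hD]
        have e1 : 2 * K + 140 = (2 * K + 10) + 130 := by ring
        rw [e1, pow_add]
        ring
      rw [e]
      have h4 : (1 : ℝ) ≤ 2 ^ 122 := by norm_num
      have h5 : (0 : ℝ) ≤ 256 * (w : ℝ) * k ^ 2 * ε * (8 ^ s * 2 ^ (2 * K + 10)) := by positivity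
      calc 256 * (w : ℝ) * k ^ 2 * ε * (8 ^ s * 2 ^ (2 * K + 10))
          = 256 * (w : ℝ) * k ^ 2 * ε * (8 ^ s * 2 ^ (2 * K + 10)) * 1 := (mul_one _).symm
        _ ≤ 256 * (w : ℝ) * k ^ 2 * ε * (8 ^ s * 2 ^ (2 * K + 10)) * 2 ^ 122 :=
            mul_le_mul_of_nonneg_left h4 h5
        _ = 256 * (w : ℝ) * k ^ 2 * 2 ^ (2 * K + 10) * 2 ^ 122 * 8 ^ s * ε := by ring
    linarith
  have h2 : D ^ 2 ≤ 1 / ε := by
    rw [le_div_iff₀ (by positivity)] at hε0
    rw [le_div_iff₀ hε]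
    linarith
  have h3 : 0 < 1 / ε := by positivity
  have h4 : 1 / ε < (8 ^ s) ^ 2 := by
    have h5 : (1 / ε) ^ 2 < (D * 8 ^ s) ^ 2 := pow_lt_pow_left₀ h1 h3.le (by norm_num)
    rw [mul_pow] at h5
    have h6 : D ^ 2 * (8 ^ s) ^ 2 ≤ 1 / ε * (8 ^ s) ^ 2 :=
      mul_le_mul_of_nonneg_right h2 (by positivity)
    have h7 : 1 / ε * (1 / ε) < 1 / ε * (8 ^ s) ^ 2 := by
      calc 1 / ε * (1 / ε) = (1 / ε) ^ 2 := (sq _).symm
        _ < _ := lt_of_lt_of_le h5 h6
    exact lt_of_mul_lt_mul_left h7 h3.le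
  have h5 : Real.log (1 / ε) ≤ Real.log ((8 ^ s) ^ 2) := Real.log_le_log h3 h4.le
  have h6 : Real.log (((8 : ℝ) ^ s) ^ 2) = 6 * s * Real.log 2 := by
    have e : ((8 : ℝ) ^ s) ^ 2 = 2 ^ (6 * s) := by
      rw [← pow_mul, show (8 : ℝ) = 2 ^ 3 by norm_num, ← pow_mul]
      congr 1
      ring
    rw [e, Real.log_pow]
    push_cast
    ring
  have h7 := Real.log_two_lt_d9
  have hs0 : (0 : ℝ) ≤ s := Nat.cast_nonneg s
  rw [h6] at h5
  nlinarith

theorem lowerS : ∃ C : ℝ, 0 < C ∧ ∀ k w : ℕ, 2 ≤ k → k ≤ w → ∃ ε₀ : ℝ, 0 < ε₀ ∧ ∀ ε : ℝ, 0 < ε → ε ≤ ε₀ →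
    ∃ n₀ : ℕ, ∀ n ≥ n₀, ∃ F : Fml (Fin n), Width k F ∧
      ¬ Sparse F w ((2 : ℝ) ^ (ε * n)) ((Real.log (1 / ε) / (C * w * k ^ 2 * ε)) ^ (k - 1) * n) := by
  refine ⟨40960, by norm_num, ?_⟩
  intro k w hk hkw
  obtain ⟨K, rfl⟩ : ∃ K, k = K + 1 := ⟨k - 1, by omega⟩
  have hK : 1 ≤ K := by omega
  have hw : 1 ≤ w := by omega
  have hw0 : (0 : ℝ) < w := by exact_mod_cast hw
  have hk0 : (0 : ℝ) < ((K + 1 : ℕ) : ℝ) := by positivity
  obtain ⟨D, hD⟩ : ∃ D : ℝ, D = w * ((K + 1 : ℕ) : ℝ) ^ 2 * 2 ^ (2 * K + 140) := ⟨_, rfl⟩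
  have hw1 : (1 : ℝ) ≤ w := by exact_mod_cast hw
  have hk1 : (1 : ℝ) ≤ ((K + 1 : ℕ) : ℝ) := by
    have : 1 ≤ K + 1 := by omega
    exact_mod_cast this
  have hD1 : 1 ≤ D := by
    rw [hD]
    have h1 : (1 : ℝ) ≤ ((K + 1 : ℕ) : ℝ) ^ 2 := one_le_pow₀ hk1
    have h2 : (1 : ℝ) ≤ 2 ^ (2 * K + 140) := one_le_pow₀ (by norm_num)
    exact one_le_mul_of_one_le_of_one_le (one_le_mul_of_one_le_of_one_le hw1 h1) h2
  have hD0 : 0 < D := by linarith
  refine ⟨1 / D ^ 2, by positivity, ?_⟩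
  intro ε hε hε0
  have hDε : D * ε ≤ 1 := by
    have h1 : D * ε ≤ D * (1 / D ^ 2) := mul_le_mul_of_nonneg_left hε0 hD0.le
    have h2 : D * (1 / D ^ 2) = 1 / D := by
      field_simp
    rw [h2] at h1
    have h3 : 1 / D ≤ 1 := by
      rw [div_le_one hD0]
      exact hD1
    linarith
  have hε1 : ε ≤ 1 := by nlinarith
  obtain ⟨y, hy⟩ : ∃ y : ℝ, y = 32 * w * ((K + 1 : ℕ) : ℝ) ^ 2 * ε * 2 ^ (2 * K + 10) := ⟨_, rfl⟩
  have hy0 : 0 < y := by
    rw [hy]
    positivity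
  have hy40 : y * 8 ^ 40 ≤ 40 := by
    have e : y * 8 ^ 40 * 32 = D * ε := by
      rw [hy, hD]
      have e1 : 2 * K + 140 = (2 * K + 10) + 130 := by ring
      rw [e1, pow_add]
      ring
    linarith
  obtain ⟨s, hs, hs1, hs2⟩ := exists_s hy0 hy40
  obtain ⟨r, hr⟩ : ∃ r : ℕ, r = 2 * s + 2 * K + 10 := ⟨_, rfl⟩
  obtain ⟨N, hN⟩ : ∃ N : ℕ, N = 2 ^ (s + r) := ⟨_, rfl⟩
  have hN0 : 0 < N := by
    rw [hN]
    positivity
  have hNr : (0 : ℝ) < N := by exact_mod_cast hN0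
  have hN8 : (N : ℝ) = 8 ^ s * 2 ^ (2 * K + 10) := by
    rw [hN, hr]
    push_cast
    have e : s + (2 * s + 2 * K + 10) = 3 * s + (2 * K + 10) := by ring
    rw [e, pow_add, pow_mul]
    norm_num
  have hi : 32 * w * ((K + 1 : ℕ) : ℝ) ^ 2 * ε * N ≤ s := by
    have e : 32 * w * ((K + 1 : ℕ) : ℝ) ^ 2 * ε * N = y * 8 ^ s := by
      rw [hy, hN8]
      ring
    rw [e]
    exact hs1
  have hii : (s : ℝ) + 1 < 256 * w * ((K + 1 : ℕ) : ℝ) ^ 2 * ε * (8 ^ s * 2 ^ (2 * K + 10)) := by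
    have e : 256 * w * ((K + 1 : ℕ) : ℝ) ^ 2 * ε * (8 ^ s * 2 ^ (2 * K + 10)) = y * 8 ^ (s + 1) := by
      rw [hy, pow_succ]
      ring
    rw [e]
    exact hs2
  have hlog : Real.log (1 / ε) ≤ 5 * (s + 1) := Hc_log hw (by omega) hD hε hε0 hii
  rw [← hN8] at hii
  have hr' : 400 * s * 2 ^ s * 2 ^ (2 * K + 1) ≤ 2 ^ r := by
    have h1 : s ≤ 2 ^ s := Nat.lt_two_pow_self.le
    have e : 2 ^ r = 2 ^ 9 * 2 ^ s * 2 ^ s * 2 ^ (2 * K + 1) := by
      rw [hr, ← pow_add, ← pow_add, ← pow_add]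
      congr 1
      ring
    rw [e]
    refine Nat.mul_le_mul_right _ (Nat.mul_le_mul_right _ ?_)
    exact Nat.mul_le_mul (by norm_num) h1
  have hkN : 0 < (K + 1) * N := Nat.mul_pos (by omega) hN0
  refine ⟨(K + 1) * N, fun n hn => ?_⟩
  obtain ⟨B, hB⟩ : ∃ B : ℕ, B = n / ((K + 1) * N) := ⟨_, rfl⟩
  have hB1 : 1 ≤ B := by
    rw [hB]
    exact (Nat.one_le_div_iff hkN).2 hn
  have hBn : B * ((K + 1) * N) ≤ n := by
    rw [hB]
    exact Nat.div_mul_le_self n _
  have hnB : n < (B + 1) * ((K + 1) * N) := by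
    rw [hB]
    have := Nat.lt_div_mul_add (a := n) hkN
    calc n < n / ((K + 1) * N) * ((K + 1) * N) + (K + 1) * N := this
      _ = (n / ((K + 1) * N) + 1) * ((K + 1) * N) := by ring
  have hn2 : (n : ℝ) ≤ 2 * B * ((K + 1 : ℕ) : ℝ) * N := by
    have h1 : n ≤ 2 * B * (K + 1) * N := by
      have h2 : (B + 1) * ((K + 1) * N) ≤ (2 * B) * ((K + 1) * N) :=
        Nat.mul_le_mul_right _ (by omega)
      calc n ≤ (2 * B) * ((K + 1) * N) := by omega
        _ = 2 * B * (K + 1) * N := by ring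
    exact_mod_cast h1
  have hB0 : (0 : ℝ) < B := by exact_mod_cast hB1
  have hBn' : B * ((K + 1) * 2 ^ (s + r)) ≤ n := by
    rw [← hN]
    exact hBn
  obtain ⟨v, hv⟩ := exists_injV hBn'
  refine ⟨hf v, width_hf v, not_sparse_hf hK hs hr' hv hkw ?_ ?_⟩
  · apply Real.rpow_le_rpow_of_exponent_le (by norm_num)
    rw [le_div_iff₀ (by positivity)]
    have h3 : ε * n ≤ ε * (2 * B * ((K + 1 : ℕ) : ℝ) * N) := mul_le_mul_of_nonneg_left hn2 hε.le
    have h4 : (0 : ℝ) ≤ 16 * (w * ((K + 1 : ℕ) : ℝ)) := by positivity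
    have h5 := mul_le_mul_of_nonneg_right h3 h4
    have h6 := mul_le_mul_of_nonneg_right hi hB0.le
    push_cast at h5 h6 ⊢
    nlinarith
  · have hk2 : K + 1 - 1 = K := by omega
    rw [hk2]
    have hden : 0 < 40960 * (w : ℝ) * ((K + 1 : ℕ) : ℝ) ^ 2 * ε := by positivity
    have hl0 : 0 ≤ Real.log (1 / ε) := by
      apply Real.log_nonneg
      rw [le_div_iff₀ hε]
      linarith
    have h1 : Real.log (1 / ε) / (40960 * (w : ℝ) * ((K + 1 : ℕ) : ℝ) ^ 2 * ε) ≤ N / 32 := by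
      rw [div_le_iff₀ hden]
      calc Real.log (1 / ε) ≤ 5 * (s + 1) := hlog
        _ ≤ 5 * (256 * w * ((K + 1 : ℕ) : ℝ) ^ 2 * ε * N) := by linarith
        _ = N / 32 * (40960 * (w : ℝ) * ((K + 1 : ℕ) : ℝ) ^ 2 * ε) := by ring
    have h2 : 0 ≤ Real.log (1 / ε) / (40960 * (w : ℝ) * ((K + 1 : ℕ) : ℝ) ^ 2 * ε) :=
      div_nonneg hl0 hden.le
    have h3 : (40 : ℝ) * ((K + 1 : ℕ) : ℝ) < 9 * 16 ^ K := by exact_mod_cast Hc_num hK
    have htot : tot K s r = N * (N / 2) ^ K := by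
      have e1 : (N : ℝ) = 2 ^ (s + r) := by
        rw [hN]
        push_cast
        rfl
      have e2 : (N : ℝ) / 2 = 2 ^ (s + r - 1) := by
        have e3 : s + r = (s + r - 1) + 1 := by omega
        rw [e1]
        conv_lhs => rw [e3]
        rw [pow_succ]
        ring
      rw [e2, e1, ← pow_mul]
      rfl
    have e4 : ((N : ℝ) / 2) ^ K = 16 ^ K * (N / 32) ^ K := by
      rw [← mul_pow]
      congr 1
      ring
    rw [htot, e4]
    have h5 : (0 : ℝ) < (N / 32) ^ K := by positivity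
    calc (Real.log (1 / ε) / (40960 * (w : ℝ) * ((K + 1 : ℕ) : ℝ) ^ 2 * ε)) ^ K * n
        ≤ (N / 32) ^ K * (2 * B * ((K + 1 : ℕ) : ℝ) * N) :=
          mul_le_mul (pow_le_pow_left₀ h2 h1 _) hn2 (Nat.cast_nonneg _) h5.le
      _ = (B * N * (N / 32) ^ K / 20) * (40 * ((K + 1 : ℕ) : ℝ)) := by ring
      _ < (B * N * (N / 32) ^ K / 20) * (9 * 16 ^ K) :=
          mul_lt_mul_of_pos_left h3 (by positivity)
      _ = 9 / 20 * B * (N * (16 ^ K * (N / 32) ^ K)) := by ring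

end H4.SL
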